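import Pool.Agent.Y532.SP.AVE
import Pool.Agent.Y485.HS.Loc

/-!
# The class of the theorem: energy of exponent `m` for maps into normed spaces; averages (helper66)

The proofs follow `Pool/Agent/Y532/SP/BAI.lean` and `Pool/Agent/Y532/SP/AVE.lean`.
-/

set_option autoImplicit false

open MeasureTheory Set Metric Filter Topology
open scoped ENNReal NNReal

noncomputable section

namespace Pool.Agent.K1H66.HS

open Pool.Agent.Y485.HS Pool.Agent.Y489.SP Pool.Agent.Y475.HS Pool.Agent.Y532.SP.BAI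

/-- the discrete energy of exponent `m` -/
def EnV {n : ℕ} {V : Type} [PseudoMetricSpace V] (m N : ℕ) (u : E n → V) : Prop :=
  ∀ r : ℝ, 0 < r → r ≤ 1 → ∀ A : Finset (E n), (∀ a ∈ A, a ∈ closedBall (0 : E n) 3) →
    (∀ a ∈ A, ∀ b ∈ A, a ≠ b → r ≤ dist a b) →
    ∑ a ∈ A, Metric.diam (u '' (closedBall a r ∩ closedBall 0 3)) ^ m ≤
      N * r ^ (1 / (N : ℝ) - 1)

section

variable {n : ℕ} {V : Type} [NormedAddCommGroup V] [NormedSpace ℝ V]

/-- extension by zero -/
def extV (f : C(BB n, V)) (x : E n) : V := by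
  classical exact if h : x ∈ BB n then f ⟨x, h⟩ else 0

lemma extV_of_mem (f : C(BB n, V)) {x : E n} (h : x ∈ BB n) : extV f x = f ⟨x, h⟩ := by
  unfold extV
  rw [dif_pos h]

/-- the restriction of the maps `T k` to the ball, as a continuous map -/
def resV {K : Type} [TopologicalSpace K] (T : K → E n → V)
    (hT : ContinuousOn (fun q : K × E n => T q.1 q.2) (univ ×ˢ BB n)) : C(K, C(BB n, V)) :=
  ContinuousMap.curry ⟨fun q : K × BB n => T q.1 q.2, by
    have h2 : Continuous (fun q : K × BB n => ((q.1, (q.2 : E n)) : K × E n)) :=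
      continuous_fst.prodMk (continuous_subtype_val.comp continuous_snd)
    exact hT.comp_continuous h2 (fun q => ⟨mem_univ _, q.2.2⟩)⟩

lemma resV_apply {K : Type} [TopologicalSpace K] (T : K → E n → V)
    (hT : ContinuousOn (fun q : K × E n => T q.1 q.2) (univ ×ˢ BB n)) (k : K) (x : BB n) :
    resV T hT k x = T k x := rfl

lemma bdd_extV (g : C(BB n, V)) (a : E n) (r : ℝ) :
    Bornology.IsBounded (extV g '' Kar a r) := by
  have h1 : Bornology.IsBounded (range g) := (isCompact_range g.continuous).isBounded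
  refine h1.subset ?_
  rintro _ ⟨x, hx, rfl⟩
  rw [extV_of_mem g (kar_sub a r hx)]
  exact mem_range_self _

lemma diam_lipV (a : E n) (r : ℝ) :
    LipschitzWith 2 (fun f : C(BB n, V) => Metric.diam (extV f '' Kar a r)) := by
  refine LipschitzWith.of_le_add_mul 2 fun f g => ?_
  have hd : 0 ≤ dist f g := dist_nonneg
  have h0 : 0 ≤ Metric.diam (extV g '' Kar a r) := Metric.diam_nonneg
  refine Metric.diam_le_of_forall_dist_le (by positivity) ?_
  rintro _ ⟨x, hx, rfl⟩ _ ⟨y, hy, rfl⟩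
  have h1 : dist (extV f x) (extV g x) ≤ dist f g := by
    rw [extV_of_mem f (kar_sub a r hx), extV_of_mem g (kar_sub a r hx)]
    exact ContinuousMap.dist_apply_le_dist _
  have h2 : dist (extV g y) (extV f y) ≤ dist f g := by
    rw [dist_comm, extV_of_mem f (kar_sub a r hy), extV_of_mem g (kar_sub a r hy)]
    exact ContinuousMap.dist_apply_le_dist _
  have h3 : dist (extV g x) (extV g y) ≤ Metric.diam (extV g '' Kar a r) :=
    Metric.dist_le_diam_of_mem (bdd_extV g a r) (mem_image_of_mem _ hx) (mem_image_of_mem _ hy)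
  have h4 := dist_triangle4 (extV f x) (extV g x) (extV g y) (extV f y)
  have h5 : ((2 : ℝ≥0) : ℝ) = 2 := by norm_num
  rw [h5]
  linarith

lemma closed_enV (m N : ℕ) : IsClosed {f : C(BB n, V) | EnV m N (extV f)} := by
  have h1 : {f : C(BB n, V) | EnV m N (extV f)} =
      ⋂ (r : ℝ) (_ : 0 < r) (_ : r ≤ 1) (A : Finset (E n))
        (_ : ∀ a ∈ A, a ∈ closedBall (0 : E n) 3)
        (_ : ∀ a ∈ A, ∀ b ∈ A, a ≠ b → r ≤ dist a b),
        {f : C(BB n, V) | ∑ a ∈ A, Metric.diam (extV f '' Kar a r) ^ m ≤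
          N * r ^ (1 / (N : ℝ) - 1)} := by
    ext f
    simp only [mem_iInter, mem_ofPred_eq, EnV]
  rw [h1]
  refine isClosed_iInter fun r => isClosed_iInter fun _ => isClosed_iInter fun _ =>
    isClosed_iInter fun A => isClosed_iInter fun _ => isClosed_iInter fun _ => ?_
  refine isClosed_le ?_ continuous_const
  exact continuous_finsetSum _ fun a _ => ((diam_lipV a r).continuous).pow m

omit [NormedAddCommGroup V] [NormedSpace ℝ V] in
lemma enV_congr [PseudoMetricSpace V] {m N : ℕ} {u v : E n → V} (h : ∀ x ∈ BB n, u x = v x)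
    (hu : EnV m N u) : EnV m N v := by
  intro r hr hr1 A hA hAs
  have h1 : ∀ a : E n, v '' Kar a r = u '' Kar a r := fun a =>
    image_congr fun x hx => (h x (kar_sub a r hx)).symm
  have h2 := hu r hr hr1 A hA hAs
  simp only [Kar] at h1
  simp only [h1]
  exact h2

lemma diam_convV (f g : C(BB n, V)) (a b : ℝ) (ha : 0 ≤ a) (hb : 0 ≤ b)
    (c : E n) (r : ℝ) :
    Metric.diam (extV (a • f + b • g) '' Kar c r) ≤
      a * Metric.diam (extV f '' Kar c r) + b * Metric.diam (extV g '' Kar c r) := by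
  have h0 : 0 ≤ Metric.diam (extV g '' Kar c r) := Metric.diam_nonneg
  have h0' : 0 ≤ Metric.diam (extV f '' Kar c r) := Metric.diam_nonneg
  refine Metric.diam_le_of_forall_dist_le (by positivity) ?_
  rintro _ ⟨x, hx, rfl⟩ _ ⟨y, hy, rfl⟩
  have hf : dist (extV f x) (extV f y) ≤ Metric.diam (extV f '' Kar c r) :=
    Metric.dist_le_diam_of_mem (bdd_extV f c r) (mem_image_of_mem _ hx) (mem_image_of_mem _ hy)
  have hg : dist (extV g x) (extV g y) ≤ Metric.diam (extV g '' Kar c r) :=
    Metric.dist_le_diam_of_mem (bdd_extV g c r) (mem_image_of_mem _ hx) (mem_image_of_mem _ hy)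
  have hval : ∀ z (hz : z ∈ Kar c r), extV (a • f + b • g) z = a • extV f z + b • extV g z := by
    intro z hz
    rw [extV_of_mem _ (kar_sub c r hz), extV_of_mem _ (kar_sub c r hz),
      extV_of_mem _ (kar_sub c r hz)]
    rfl
  rw [hval x hx, hval y hy]
  refine (dist_add_add_le _ _ _ _).trans ?_
  rw [dist_smul₀, dist_smul₀, Real.norm_of_nonneg ha, Real.norm_of_nonneg hb]
  gcongr

lemma convex_enV (m N : ℕ) : Convex ℝ {f : C(BB n, V) | EnV m N (extV f)} := by
  intro f hf g hg a b ha hb hab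
  intro r hr hr1 A hA hAs
  have h1 := hf r hr hr1 A hA hAs
  have h2 := hg r hr hr1 A hA hAs
  calc ∑ c ∈ A, Metric.diam (extV (a • f + b • g) '' Kar c r) ^ m
      ≤ ∑ c ∈ A, (a * Metric.diam (extV f '' Kar c r) ^ m +
          b * Metric.diam (extV g '' Kar c r) ^ m) := by
        refine Finset.sum_le_sum fun c _ => ?_
        have h3 : Metric.diam (extV (a • f + b • g) '' Kar c r) ^ m ≤
            (a * Metric.diam (extV f '' Kar c r) + b * Metric.diam (extV g '' Kar c r)) ^ m :=
          pow_le_pow_left₀ Metric.diam_nonneg (diam_convV f g a b ha hb c r) m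
        have h4 := (convexOn_pow (𝕜 := ℝ) m).2
          (show Metric.diam (extV f '' Kar c r) ∈ Ici (0 : ℝ) from Metric.diam_nonneg)
          (show Metric.diam (extV g '' Kar c r) ∈ Ici (0 : ℝ) from Metric.diam_nonneg) ha hb hab
        simp only [smul_eq_mul] at h4
        exact h3.trans h4
    _ = a * ∑ c ∈ A, Metric.diam (extV f '' Kar c r) ^ m +
          b * ∑ c ∈ A, Metric.diam (extV g '' Kar c r) ^ m := by
        rw [Finset.sum_add_distrib, Finset.mul_sum, Finset.mul_sum]
    _ ≤ a * (N * r ^ (1 / (N : ℝ) - 1)) + b * (N * r ^ (1 / (N : ℝ) - 1)) := by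
        gcongr
    _ = N * r ^ (1 / (N : ℝ) - 1) := by rw [← add_mul, hab, one_mul]

/-- averages stay in the class -/
theorem ave [CompleteSpace V] {Ω : Type} [TopologicalSpace Ω] [CompactSpace Ω]
    [MeasurableSpace Ω] [BorelSpace Ω] (μ : Measure Ω) [IsProbabilityMeasure μ]
    (T : Ω → E n → V) (hT : ContinuousOn (fun q : Ω × E n => T q.1 q.2) (univ ×ˢ BB n))
    (m N : ℕ) (hTN : ∀ ω, EnV m N (T ω)) :
    EnV m N (fun x => ∫ ω, T ω x ∂μ) ∧ ContinuousOn (fun x => ∫ ω, T ω x ∂μ) (BB n) := by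
  let Φ : C(Ω, C(BB n, V)) := resV T hT
  have hint : Integrable (fun ω => Φ ω) μ :=
    Φ.continuous.integrable_of_hasCompactSupport (HasCompactSupport.of_compactSpace _)
  have hall : ∀ᵐ ω ∂μ, Φ ω ∈ {f : C(BB n, V) | EnV m N (extV f)} := by
    refine Eventually.of_forall fun ω => ?_
    exact enV_congr (fun x hx => by rw [extV_of_mem _ hx, resV_apply]) (hTN ω)
  have hmem : ∫ ω, Φ ω ∂μ ∈ {f : C(BB n, V) | EnV m N (extV f)} :=
    Convex.integral_mem (s := {f : C(BB n, V) | EnV m N (extV f)}) (f := fun ω => Φ ω)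
      (convex_enV m N) (closed_enV m N) hall hint
  have heval : ∀ x : BB n, ∫ ω, T ω x.1 ∂μ = (∫ ω, Φ ω ∂μ : C(BB n, V)) x := by
    intro x
    have := (ContinuousMap.evalCLM ℝ x : C(BB n, V) →L[ℝ] V).integral_comp_comm hint
    exact this
  refine ⟨enV_congr (fun x hx => ?_) hmem, ?_⟩
  · rw [extV_of_mem _ hx]
    exact (heval ⟨x, hx⟩).symm
  · rw [continuousOn_iff_continuous_domRestrict]
    have : (BB n).domRestrict (fun x => ∫ ω, T ω x ∂μ) = (∫ ω, Φ ω ∂μ : C(BB n, V)) := by
      ext1 x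
      exact heval x
    rw [this]
    exact (∫ ω, Φ ω ∂μ : C(BB n, V)).continuous

end

end Pool.Agent.K1H66.HS
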