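import Pool.Agent.K1H66.HS.Ener2

/-!
# The local theorem in a topological chart (helper66)
-/

set_option autoImplicit false

open MeasureTheory Set Metric Filter Topology
open scoped ENNReal NNReal

noncomputable section

namespace Pool.Agent.K1H66.HS

open Pool.Agent.Y485.HS Pool.Agent.Y489.SP Pool.Agent.Y475.HS Pool.Agent.Y532.SP.LOCS
open Pool.Agent.R775.HS (Small locAct_of_small)

theorem avg_cont {n : ℕ} {V : Type} [NormedAddCommGroup V] [NormedSpace ℝ V] [CompleteSpace V]
    {Ω : Type} [TopologicalSpace Ω] [CompactSpace Ω]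
    [MeasurableSpace Ω] [BorelSpace Ω] (μ : Measure Ω) [IsProbabilityMeasure μ]
    (T : Ω → E n → V) (hT : ContinuousOn (fun q : Ω × E n => T q.1 q.2) (univ ×ˢ BB n)) :
    ContinuousOn (fun x => ∫ ω, T ω x ∂μ) (BB n) := by
  let Φ : C(Ω, C(BB n, V)) := resV T hT
  have hint : Integrable (fun ω => Φ ω) μ :=
    Φ.continuous.integrable_of_hasCompactSupport (HasCompactSupport.of_compactSpace _)
  have heval : ∀ x : BB n, ∫ ω, T ω x.1 ∂μ = (∫ ω, Φ ω ∂μ : C(BB n, V)) x := by
    intro x
    have := (ContinuousMap.evalCLM ℝ x : C(BB n, V) →L[ℝ] V).integral_comp_comm hint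
    exact this
  rw [continuousOn_iff_continuous_domRestrict]
  have : (BB n).domRestrict (fun x => ∫ ω, T ω x ∂μ) = (∫ ω, Φ ω ∂μ : C(BB n, V)) := by
    ext1 x
    exact heval x
  rw [this]
  exact (∫ ω, Φ ω ∂μ : C(BB n, V)).continuous

/-- connected sets on which the invariant averages are constant -/
theorem sep_avg {n : ℕ} {K : Type} [Group K] [TopologicalSpace K] [IsTopologicalGroup K]
    [CompactSpace K] [T2Space K] [TotallyDisconnectedSpace K] [MeasurableSpace K] [BorelSpace K]
    (μ : Measure K) [IsFiniteMeasureOnCompacts μ] [μ.IsOpenPosMeasure]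
    {T : K → E n → E n} (hT : LocAct n K T) (g : K) {x : E n} (hx : ‖x‖ ≤ 3) {C : Set (E n)}
    (hC : IsPreconnected C) (hxC : x ∈ C) (hgC : T g x ∈ C)
    (hall : ∀ z ∈ C, ‖z‖ ≤ 3 ∧ ∀ j : ℕ × ℕ,
      ∫ k, bump n j (T k⁻¹ z) ∂μ = ∫ k, bump n j (T k⁻¹ x) ∂μ) : T g x = x := by
  have hxB : x ∈ BB n := mem_BB.2 (by linarith)
  by_contra hne
  have hε : 0 < dist (T g x) x := dist_pos.2 hne
  have hSc : ∀ z ∈ BB n, Continuous fun k : K => T k⁻¹ z := fun z hz =>
    (hT.cont_left hz).comp continuous_inv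
  have hnb : ∀ z ∈ C, ∃ k : K, z = T k x := by
    intro z hz
    obtain ⟨hz3, hQz⟩ := hall z hz
    have hzB : z ∈ BB n := mem_BB.2 (by linarith)
    by_contra hno
    have hO : IsCompact (range fun k : K => T k⁻¹ z) := isCompact_range (hSc z hzB)
    have hnot : x ∉ range fun k : K => T k⁻¹ z := by
      rintro ⟨k, hk⟩
      apply hno
      have hk' : T k⁻¹ z = x := hk
      refine ⟨k, ?_⟩
      have e4 := hT.mul k k⁻¹ z hzB (by rw [hk']; exact hxB)
      rw [mul_inv_cancel, hT.one z hzB, hk'] at e4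
      exact e4
    obtain ⟨j, hj1, hj2⟩ := exists_bump hO.isClosed (range_nonempty _) hnot
    have h1 : ∫ k, bump n j (T k⁻¹ z) ∂μ = 0 := by
      have : ∀ k : K, bump n j (T k⁻¹ z) = 0 := fun k => hj2 _ (mem_range_self k)
      simp [this]
    have h2 : 0 < ∫ k, bump n j (T k⁻¹ x) ∂μ := by
      refine Continuous.integral_pos_of_hasCompactSupport_nonneg_nonzero (x := (1 : K))
        ((bump_lip n j).continuous.comp (hSc x hxB)) (HasCompactSupport.of_compactSpace _)
        (fun k => bump_nonneg n j _) ?_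
      show bump n j (T (1 : K)⁻¹ x) ≠ 0
      rw [inv_one, hT.one x hxB]
      exact hj1
    rw [hQz j] at h1
    linarith
  have hop : IsOpen {k : K | dist (T k x) x < dist (T g x) x} := by
    refine isOpen_lt ?_ continuous_const
    exact (hT.cont_left hxB).dist continuous_const
  obtain ⟨V, hV⟩ := ProfiniteGrp.exist_openNormalSubgroup_sub_open_nhds_of_one hop (by
    show dist (T (1 : K) x) x < dist (T g x) x
    rw [hT.one x hxB, dist_self]
    exact hε)
  obtain ⟨v, hv, hvx⟩ := orbit_clopen hT hx V.toSubgroup V.isOpen' hC hxC hnb _ hgC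
  have h3 : dist (T v x) x < dist (T g x) x := hV hv
  rw [← hvx] at h3
  exact lt_irrefl _ h3

/-- **The local theorem in a topological chart.** -/
theorem triv_chart {n : ℕ} {X : Type} [TopologicalSpace X] {H : Type} [Group H]
    [TopologicalSpace H] [IsTopologicalGroup H] [T2Space H] [TotallyDisconnectedSpace H]
    [MulAction H X] [ContinuousSMul H X] {p : ℕ} (hp : p.Prime)
    {φ : OpenPartialHomeomorph X (E n)} {g : H}
    (hgp : Tendsto (fun j : ℕ => g ^ p ^ j) atTop (𝓝 1))
    (hcomp : IsCompact ((Subgroup.zpowers g).topologicalClosure : Set H))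
    (hs : Small φ ((Subgroup.zpowers g).topologicalClosure : Set H)) {τ σ : E n → E n}
    (hτ : ContinuousOn τ (closedBall 0 3)) (hσc : ContinuousOn σ (τ '' closedBall 0 3))
    (hσ : ∀ v ∈ closedBall (0 : E n) 3, σ (τ v) = v) {r b : ℕ → ℝ} (hr : ∀ j, 0 < r j)
    (hrb : Tendsto (fun j => r j * b j) atTop (𝓝 0))
    (hE : ∀ q ∈ (Subgroup.zpowers g).topologicalClosure, ∀ j,
      EnerM (n + 1) (τ '' closedBall 0 3) (r j) (b j) (fun u => φ (q • φ.symm (σ u)))) :
    ∀ v ∈ ball (0 : E n) 1, g • φ.symm v = φ.symm v := by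
  set K : Subgroup H := (Subgroup.zpowers g).topologicalClosure with hKdef
  have hT := locAct_of_small K hs
  set T : K → E n → E n := fun h v => φ ((h : H) • φ.symm v) with hTdef
  have hgmem : g ∈ K := Subgroup.le_topologicalClosure _ (Subgroup.mem_zpowers g)
  have hKcomp : CompactSpace K := isCompact_iff_compactSpace.1 hcomp
  let _ : MeasurableSpace K := borel K
  have _ : BorelSpace K := ⟨rfl⟩
  let μ : Measure K := Measure.haarMeasure ⊤
  have hμ1 : IsProbabilityMeasure μ := ⟨by
    have := Measure.haarMeasure_self (K₀ := (⊤ : TopologicalSpace.PositiveCompacts K))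
    simpa using this⟩
  let S : K → E n → E n := fun k x => T k⁻¹ x
  have hScont : ContinuousOn (fun q : K × E n => S q.1 q.2) (univ ×ˢ BB n) := by
    have hc : Continuous (fun q : K × E n => (q.1⁻¹, q.2)) := by fun_prop
    refine hT.cont.comp hc.continuousOn ?_
    rintro ⟨k, x⟩ ⟨-, hx⟩
    exact ⟨mem_univ _, hx⟩
  have hSc1 : ∀ x ∈ BB n, Continuous (fun k => S k x) := by
    intro x hx
    have hc : Continuous (fun k : K => (k, x)) := by fun_prop
    exact hScont.comp_continuous hc (fun k => ⟨mem_univ _, hx⟩)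
  have hSint : ∀ x ∈ BB n, Integrable (fun k => S k x) μ := fun x hx =>
    (hSc1 x hx).integrable_of_hasCompactSupport (HasCompactSupport.of_compactSpace _)
  have hQint : ∀ j, ∀ x ∈ BB n, Integrable (fun k => bump n j (S k x)) μ := fun j x hx =>
    ((bump_lip n j).continuous.comp (hSc1 x hx)).integrable_of_hasCompactSupport
      (HasCompactSupport.of_compactSpace _)
  set F : E n → E n := fun x => ∫ k, S k x ∂μ with hF
  set Q : ℕ × ℕ → E n → ℝ := fun j x => ∫ k, bump n j (S k x) ∂μ with hQ
  have hFc : ContinuousOn F (BB n) := avg_cont μ S hScont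
  have hQc : ∀ j, ContinuousOn (Q j) (BB n) := fun j =>
    avg_cont μ (fun k x => bump n j (S k x)) ((bump_lip n j).continuous.comp_continuousOn hScont)
  have hdisp : ∀ x ∈ BB n, dist (F x) x ≤ 1 / 4 := by
    intro x hx
    have h1 : F x - x = ∫ k, (S k x - x) ∂μ := by
      rw [integral_sub (hSint x hx) (integrable_const _)]
      simp [hF]
    rw [dist_eq_norm, h1]
    have h2 := norm_integral_le_of_norm_le_const (μ := μ) (f := fun k => S k x - x) (C := 1 / 4)
      (Eventually.of_forall fun k => by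
        have := hT.disp k⁻¹ x hx
        rwa [dist_eq_norm] at this)
    simpa using h2
  have hSk : ∀ (k : K), ∀ x ∈ BB n, T k x ∈ BB n → ∀ k' : K, S k' (T k x) = S (k⁻¹ * k') x := by
    intro k x hx hkx k'
    show T k'⁻¹ (T k x) = T (k⁻¹ * k')⁻¹ x
    rw [← hT.mul _ _ x hx hkx]
    congr 1
    simp
  have hinv : ∀ k : K, ∀ x ∈ BB n, T k x ∈ BB n → F (T k x) = F x := by
    intro k x hx hkx
    show ∫ k', S k' (T k x) ∂μ = ∫ k', S k' x ∂μ
    simp_rw [hSk k x hx hkx]
    exact integral_mul_left_eq_self (fun k' => S k' x) k⁻¹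
  have hQinv : ∀ j, ∀ k : K, ∀ x ∈ BB n, T k x ∈ BB n → Q j (T k x) = Q j x := by
    intro j k x hx hkx
    show ∫ k', bump n j (S k' (T k x)) ∂μ = ∫ k', bump n j (S k' x) ∂μ
    simp_rw [hSk k x hx hkx]
    exact integral_mul_left_eq_self (fun k' => bump n j (S k' x)) k⁻¹
  have hCB : closedBall (0 : E n) 3 ⊆ BB n := closedBall_subset_closedBall (by norm_num)
  have hg' : Tendsto (fun j : ℕ => (⟨g, hgmem⟩ : K) ^ p ^ j) atTop (𝓝 1) := by
    rw [tendsto_subtype_rng]
    simpa using hgp
  -- the walls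
  have h3c : IsClosed (closedBall (0 : E n) 3) := isClosed_closedBall
  obtain ⟨κ, hκ⟩ := ContinuousMap.exists_restrict_eq h3c
    (⟨(closedBall (0 : E n) 3).domRestrict τ, continuousOn_iff_continuous_domRestrict.1 hτ⟩ :
      C(closedBall (0 : E n) 3, E n))
  have hκe : ∀ x ∈ closedBall (0 : E n) 3, κ x = τ x := fun x hx =>
    congrArg (fun g : C(closedBall (0 : E n) 3, E n) => g ⟨x, hx⟩) hκ
  have hκi : InjOn κ (closedBall (0 : E n) 3) := by
    intro x hx x' hx' h
    rw [hκe x hx, hκe x' hx'] at h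
    rw [← hσ x hx, ← hσ x' hx', h]
  -- the energies
  have hτc : IsCompact (τ '' closedBall (0 : E n) 3) :=
    (isCompact_closedBall (0 : E n) 3).image_of_continuousOn hτ
  have hσB : ∀ u ∈ τ '' closedBall (0 : E n) 3, σ u ∈ closedBall (0 : E n) 3 := by
    rintro _ ⟨v, hv, rfl⟩
    rw [hσ v hv]
    exact hv
  have hfE : ∀ (j : ℕ × ℕ) (l : ℕ), EnerM (n + 1) (τ '' closedBall (0 : E n) 3) (r l) (b l)
      (fun u => (F (σ u), Q j (σ u))) := by
    intro j l
    have h1 := enerM_avg (n := n) (m := n + 1) (Q := τ '' closedBall (0 : E n) 3) (r := r l)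
      (b := b l) μ (fun k u => (S k (σ u), bump n j (S k (σ u)))) (fun u hu => by
        have h2 := hSc1 (σ u) (hCB (hσB u hu))
        exact h2.prodMk ((bump_lip n j).continuous.comp h2)) (fun k => by
        refine enerM_pair ?_ (bump_lip n j)
        exact hE ((k⁻¹ : K) : H) (k⁻¹).2 l)
    refine enerM_congr (fun u hu => ?_) h1
    exact integral_pair (hSint _ (hCB (hσB u hu))) (hQint j _ (hCB (hσB u hu)))
  have hfc : ∀ j : ℕ × ℕ, ContinuousOn (fun u => (F (σ u), Q j (σ u)))
      (τ '' closedBall (0 : E n) 3) := by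
    intro j
    refine ContinuousOn.prodMk ?_ ?_
    · exact hFc.comp hσc fun u hu => hCB (hσB u hu)
    · exact (hQc j).comp hσc fun u hu => hCB (hσB u hu)
  have hgood : ∀ᵐ y : E n, ∀ (i : Fin n) (j : ℕ × ℕ), ∀ᵐ t : ℝ,
      volume {q : ℝ | ∃ u ∈ τ '' closedBall (0 : E n) 3, (F (σ u), Q j (σ u)) = (y, q) ∧
        u i = t} = 0 := by
    rw [ae_all_iff]
    intro i
    rw [ae_all_iff]
    intro j
    exact ae_null2 hτc (hfc j) hr hrb (hfE j) i
  have hfix : ∀ᵐ y : E n, y ∈ ball (0 : E n) 1 → T ⟨g, hgmem⟩ y = y := by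
    filter_upwards [hgood] with y hy hy1
    obtain ⟨x, hx3, hFx, hgx⟩ := exists_fix2 hp hT ⟨g, hgmem⟩ hg' F hFc hdisp hinv hy1 κ
      (map_continuous κ) hκi Q hQc hQinv (by
        intro i j
        filter_upwards [hy i j] with t ht
        refine measure_mono_null ?_ ht
        rintro q ⟨x, hx, h1, h2, h3⟩
        have hx' : x ∈ closedBall (0 : E n) 3 := by simpa using hx
        refine ⟨τ x, mem_image_of_mem τ hx', ?_, ?_⟩
        · rw [hσ x hx', h1, h2]
        · rw [← hκe x hx']
          exact h3) (by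
      intro x hx hFx C hC hxC hgC hall
      exact sep_avg μ hT ⟨g, hgmem⟩ hx hC hxC hgC
        fun z hz => ⟨(hall z hz).1, fun j => (hall z hz).2.2 j⟩)
    have hxB : x ∈ BB n := mem_BB.2 (by linarith)
    -- all elements of `K` fix `x`
    have hgX : g • φ.symm x = φ.symm x := by
      have h1 := (hs.2 g hgmem x hxB).1
      have h2 : φ (g • φ.symm x) = x := hgx
      have h3 := φ.left_inv h1
      rw [h2] at h3
      exact h3.symm
    have hall : ∀ k : K, T k x = x := by
      intro k
      let N : Subgroup K :=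
        { carrier := {k | T k x = x}
          one_mem' := hT.one x hxB
          mul_mem' := by
            intro a c ha hc
            have ha' : T a x = x := ha
            have hc' : T c x = x := hc
            show T (a * c) x = x
            rw [hT.mul a c x hxB (by rw [hc']; exact hxB), hc', ha']
          inv_mem' := by
            intro a ha
            have ha' : T a x = x := ha
            show T a⁻¹ x = x
            have := hT.inv a hxB (by rw [ha']; exact hxB)
            rwa [ha'] at this }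
      have hNc : IsClosed (N : Set K) := by
        have : IsClosed {k : K | T k x = x} := isClosed_eq (hT.cont_left hxB) continuous_const
        exact this
      have hgN : (⟨g, hgmem⟩ : K) ∈ N := hgx
      -- the powers of `g` are dense in `K`
      have h1 : (k : H) ∈ closure (Subgroup.zpowers g : Set H) := by
        have h0 : (k : H) ∈ ((Subgroup.zpowers g).topologicalClosure : Set H) := k.2
        rwa [Subgroup.topologicalClosure_coe] at h0
      have hKcl : IsClosed (K : Set H) := Subgroup.isClosed_topologicalClosure _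
      have h2 : IsClosed ((fun k : K => (k : H)) '' (N : Set K)) :=
        hKcl.isClosedEmbedding_subtypeVal.isClosedMap _ hNc
      have h3 : (Subgroup.zpowers g : Set H) ⊆ (fun k : K => (k : H)) '' (N : Set K) := by
        intro z hz
        obtain ⟨m, rfl⟩ := Subgroup.mem_zpowers_iff.1 hz
        exact ⟨(⟨g, hgmem⟩ : K) ^ m, N.zpow_mem hgN m, by simp⟩
      obtain ⟨k', hk', hkk⟩ := closure_minimal h3 h2 h1
      have : k' = k := Subtype.ext hkk
      rw [← this]
      exact hk'
    have hFx' : F x = x := by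
      show ∫ k, S k x ∂μ = x
      have : ∀ k, S k x = x := fun k => hall k⁻¹
      simp [this]
    rw [hFx] at hFx'
    rw [hFx']
    exact hgx
  have hball : ∀ y ∈ ball (0 : E n) 1, T ⟨g, hgmem⟩ y = y := by
    intro y hy
    by_contra hne
    have hBB : ball (0 : E n) 1 ⊆ BB n :=
      ball_subset_closedBall.trans (closedBall_subset_closedBall (by norm_num))
    have hc : ContinuousOn (fun x => dist (T ⟨g, hgmem⟩ x) x) (ball (0 : E n) 1) :=
      continuous_dist.comp_continuousOn (((hT.cont_right _).mono hBB).prodMk continuousOn_id)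
    have hop : IsOpen (ball (0 : E n) 1 ∩ (fun x => dist (T ⟨g, hgmem⟩ x) x) ⁻¹' Ioi 0) :=
      hc.isOpen_inter_preimage isOpen_ball isOpen_Ioi
    have hpos := hop.measure_pos volume ⟨y, hy, dist_pos.2 hne⟩
    have hz : volume (ball (0 : E n) 1 ∩ (fun x => dist (T ⟨g, hgmem⟩ x) x) ⁻¹' Ioi 0) = 0 := by
      refine measure_mono_null ?_ (ae_iff.1 hfix)
      rintro z ⟨hz1, hz2⟩ hz3
      have h1 := hz3 hz1
      have h2 : 0 < dist (T ⟨g, hgmem⟩ z) z := hz2
      rw [h1, dist_self] at h2
      exact lt_irrefl _ h2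
    rw [hz] at hpos
    exact lt_irrefl _ hpos
  intro v hv
  have hv4 : v ∈ closedBall (0 : E n) 4 :=
    ball_subset_closedBall.trans (closedBall_subset_closedBall (by norm_num)) hv
  have h1 := (hs.2 g hgmem v hv4).1
  have h2 : φ (g • φ.symm v) = v := hball v hv
  have h3 := φ.left_inv h1
  rw [h2] at h3
  exact h3.symm

end Pool.Agent.K1H66.HS
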