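import Pool.Agent.K1H66.HS.Deg

/-!
# The degree of compositions (helper66)
-/

set_option autoImplicit false

open MeasureTheory Set Metric Filter Topology
open scoped ENNReal NNReal ContDiff

noncomputable section

namespace Pool.Agent.K1H66.HS

open Pool.Agent.Y485.HS Pool.Agent.Y489.SP

variable {m : ℕ}

/-- composition with a smooth injective map preserving the orientation -/
theorem Dg.comp_smooth {k : E m → E m} (hk : Continuous k) {π : E m → E m}
    (hπ : ContDiff ℝ 1 π) {U : Set (E m)} (hU : IsOpen U) (hUb : Bornology.IsBounded U)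
    (hinj : InjOn π U) (hdet : ∀ x ∈ U, 0 ≤ (fderiv ℝ π x).det)
    (h0 : ∀ x ∈ frontier U, k (π x) ≠ 0) {d : ℤ} (h : Dg k (π '' U) d) :
    Dg (fun x => k (π x)) U d := by
  have hkπ : Continuous (fun x => k (π x)) := hk.comp hπ.continuous
  obtain ⟨d', hd'⟩ := Dg.exists hkπ hU hUb h0
  have hgoal := hd'
  obtain ⟨δ, hδ, h⟩ := h
  obtain ⟨δ', hδ', hd'⟩ := hd'
  have hm : 0 < min δ δ' := lt_min hδ hδ'
  have hB1 : Bornology.IsBounded (π '' thickening 1 U) :=
    (((hUb.thickening (δ := 1)).isCompact_closure.image hπ.continuous).isBounded).subset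
      (image_mono subset_closure)
  have hB2 : Bornology.IsBounded (thickening 1 (π '' U)) := by
    refine Bornology.IsBounded.thickening ?_
    exact hB1.subset (image_mono (self_subset_thickening one_pos _))
  obtain ⟨k0, hk0, hk0a⟩ := exists_sm hk (hB1.union hB2) hm
  obtain ⟨φ, hφ, hφ0, hφp⟩ := exists_test (m := m) hm
  have hc1 : ContDiff ℝ 1 (fun x => k0 (π x)) := hk0.1.comp hπ
  obtain ⟨f0, hf0, hf0a⟩ := sm_cut hc1 (hUb.thickening (δ := 1))
  have e1 := h k0 hk0 (fun x hx => (hk0a x (Or.inr hx)).trans_le (min_le_left _ _)) φ hφ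
    (fun w hw => hφ0 w ((min_le_left _ _).trans hw))
  have e2 := hd' f0 hf0 (fun x hx => by
      rw [hf0a x hx]
      exact (hk0a (π x) (Or.inl (mem_image_of_mem _ hx))).trans_le (min_le_right _ _)) φ hφ
    (fun w hw => hφ0 w ((min_le_right _ _).trans hw))
  have e3 : ∫ x in U, φ (f0 x) * (fderiv ℝ f0 x).det =
      ∫ w in π '' U, φ (k0 w) * (fderiv ℝ k0 w).det := by
    rw [integral_image_eq_integral_abs_det_fderiv_smul volume hU.measurableSet
      (f' := fun x => fderiv ℝ π x)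
      (fun x hx => ((hπ.differentiable one_ne_zero x).hasFDerivAt).hasFDerivWithinAt) hinj]
    refine setIntegral_congr_fun hU.measurableSet fun x hx => ?_
    have h4 : f0 =ᶠ[𝓝 x] fun x => k0 (π x) := by
      filter_upwards [hU.mem_nhds hx] with z hz
      exact hf0a z (self_subset_thickening one_pos _ hz)
    have hch : fderiv ℝ (fun z => k0 (π z)) x =
        (fderiv ℝ k0 (π x)).comp (fderiv ℝ π x) :=
      fderiv_fun_comp x (hk0.1.differentiable one_ne_zero _) (hπ.differentiable one_ne_zero _)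
    have hdet' : ((fderiv ℝ k0 (π x)).comp (fderiv ℝ π x)).det =
        (fderiv ℝ k0 (π x)).det * (fderiv ℝ π x).det :=
      LinearMap.det_comp _ _
    rw [h4.fderiv_eq, h4.eq_of_nhds, hch, hdet', abs_of_nonneg (hdet x hx), smul_eq_mul]
    ring
  rw [e3, e1] at e2
  have e4 : (d : ℝ) = d' := mul_right_cancel₀ hφp.ne' e2
  have e5 : d = d' := by exact_mod_cast e4
  rwa [e5]

/-- uniform smooth approximation of a map which is the identity outside a ball -/
theorem exists_sm_unif {τ : E m → E m} (hτ : Continuous τ) {R : ℝ}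
    (hR : ∀ x, R ≤ ‖x‖ → τ x = x) {δ : ℝ} (hδ : 0 < δ) :
    ∃ τ0 : E m → E m, Sm τ0 ∧ ∀ x, dist (τ0 x) (τ x) < δ := by
  have hp : 0 ≤ max R 0 := le_max_right _ _
  have hhc : Continuous fun z => τ z - z := hτ.sub continuous_id
  have hhs : HasCompactSupport fun z => τ z - z := by
    refine HasCompactSupport.intro (isCompact_closedBall (0 : E m) R) fun z hz => ?_
    rw [mem_closedBall, dist_zero_right, not_le] at hz
    rw [hR z hz.le, sub_self]
  obtain ⟨g, hgC, hg⟩ := (hhs.uniformContinuous_of_continuous hhc).exists_contDiff_dist_le hδ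
  let χ : ContDiffBump (0 : E m) := ⟨max R 0 + 1, max R 0 + 2, by linarith, by linarith⟩
  refine ⟨fun z => z + χ z • g z, ⟨?_, max R 0 + 2, ?_⟩, ?_⟩
  · have h1 : ContDiff ℝ ∞ fun z => z + χ z • g z := contDiff_id.add (χ.contDiff.smul hgC)
    exact h1.of_le (by exact_mod_cast le_top)
  · intro x hx
    have h1 : χ x = 0 := χ.zero_of_le_dist (by rw [dist_zero_right]; exact hx)
    show x + χ x • g x = x
    rw [h1, zero_smul, add_zero]
  · intro x
    show dist (x + χ x • g x) (τ x) < δ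
    have h2 := hg x
    rw [dist_eq_norm] at h2 ⊢
    by_cases hx : ‖x‖ ≤ max R 0 + 1
    · have h1 : χ x = 1 := χ.one_of_mem_closedBall (by
        rw [mem_closedBall, dist_zero_right]
        exact hx)
      rw [h1, one_smul]
      have h4 : x + g x - τ x = g x - (τ x - x) := by abel
      rw [h4]
      exact h2
    · push Not at hx
      have h3 : τ x = x := hR x (by linarith [le_max_left R 0])
      rw [h3, add_sub_cancel_left, norm_smul, Real.norm_of_nonneg χ.nonneg]
      rw [h3, sub_self, sub_zero] at h2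
      calc χ x * ‖g x‖ ≤ 1 * ‖g x‖ := mul_le_mul_of_nonneg_right χ.le_one (norm_nonneg _)
        _ < δ := by rw [one_mul]; exact h2

/-- composition with a map which is the identity outside a ball -/
theorem Dg.comp_tau {f : E m → E m} (hf : Continuous f) {τ : E m → E m} (hτ : Continuous τ)
    {R : ℝ} (hτR : ∀ x, R ≤ ‖x‖ → τ x = x) {U U' : Set (E m)} (hU : IsOpen U)
    (hUb : Bornology.IsBounded U) (hU' : IsOpen U') (hUb' : Bornology.IsBounded U')
    (h0 : ∀ x ∈ frontier U, f (τ x) ≠ 0) (h0' : ∀ x ∈ frontier U', f x ≠ 0)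
    (hiff : ∀ x, f (τ x) = 0 → (x ∈ U ↔ τ x ∈ U')) {d : ℤ} (h : Dg f U' d) :
    Dg (fun x => f (τ x)) U d := by
  have hfτ : Continuous (fun x => f (τ x)) := hf.comp hτ
  obtain ⟨d', hd'⟩ := Dg.exists hfτ hU hUb h0
  have hgoal := hd'
  obtain ⟨δ, hδ, h⟩ := h
  obtain ⟨δ', hδ', hd'⟩ := hd'
  obtain ⟨r, hr⟩ := hUb.subset_closedBall (0 : E m)
  obtain ⟨r', hr'⟩ := hUb'.subset_closedBall (0 : E m)
  obtain ⟨R1, hR1⟩ : ∃ R1 : ℝ, R1 = max (max r r') R + 2 := ⟨_, rfl⟩
  have hR1r : r + 2 ≤ R1 := by rw [hR1]; linarith [le_max_left (max r r') R, le_max_left r r']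
  have hR1r' : r' + 2 ≤ R1 := by rw [hR1]; linarith [le_max_left (max r r') R, le_max_right r r']
  have hR1R : R + 2 ≤ R1 := by rw [hR1]; linarith [le_max_right (max r r') R]
  have hUR : ∀ x ∈ U, ‖x‖ ≤ r := fun x hx => by simpa using hr hx
  have hUR' : ∀ x ∈ U', ‖x‖ ≤ r' := fun x hx => by simpa using hr' hx
  -- robustness
  obtain ⟨ε, hε, hεiff⟩ : ∃ ε : ℝ, 0 < ε ∧ ∀ x ∈ closedBall (0 : E m) R1, ∀ w,
      dist w (τ x) < ε → ‖f w‖ < ε → (x ∈ U ↔ w ∈ U') := by
    by_contra hcon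
    push Not at hcon
    have hc : ∀ j : ℕ, ∃ x ∈ closedBall (0 : E m) R1, ∃ w, dist w (τ x) < 1 / ((j : ℝ) + 1) ∧
        ‖f w‖ < 1 / ((j : ℝ) + 1) ∧ ¬ (x ∈ U ↔ w ∈ U') := by
      intro j
      obtain ⟨x, hx, w, h1, h2, h3⟩ := hcon (1 / ((j : ℝ) + 1)) (by positivity)
      refine ⟨x, hx, w, h1, h2, ?_⟩
      rintro h4
      rcases h3 with h3 | h3
      · exact h3.2 (h4.1 h3.1)
      · exact h3.1 (h4.2 h3.2)
    choose x hx w h1 h2 h3 using hc
    obtain ⟨a, ha, s, hs, hsa⟩ := (isCompact_closedBall (0 : E m) R1).tendsto_subseq hx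
    have hlim : Tendsto (fun j : ℕ => 1 / ((j : ℝ) + 1)) atTop (𝓝 0) :=
      tendsto_one_div_add_atTop_nhds_zero_nat
    have hlims : Tendsto (fun j : ℕ => 1 / (((s j : ℕ) : ℝ) + 1)) atTop (𝓝 0) :=
      hlim.comp hs.tendsto_atTop
    have hτa : Tendsto (fun j => τ (x (s j))) atTop (𝓝 (τ a)) := (hτ.tendsto a).comp hsa
    have hwa : Tendsto (fun j => w (s j)) atTop (𝓝 (τ a)) := by
      refine (tendsto_iff_of_dist ?_).2 hτa
      exact squeeze_zero (fun _ => dist_nonneg) (fun j => (h1 (s j)).le) hlims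
    have hfa : f (τ a) = 0 := by
      have e1 : Tendsto (fun j => f (w (s j))) atTop (𝓝 (f (τ a))) := (hf.tendsto _).comp hwa
      have e2 : Tendsto (fun j => f (w (s j))) atTop (𝓝 0) :=
        squeeze_zero_norm (fun j => (h2 (s j)).le) hlims
      exact tendsto_nhds_unique e1 e2
    have hia := hiff a hfa
    by_cases haU : a ∈ U
    · have e1 := hsa.eventually (hU.mem_nhds haU)
      have e2 := hwa.eventually (hU'.mem_nhds (hia.1 haU))
      obtain ⟨j, hj1, hj2⟩ := (e1.and e2).exists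
      exact h3 (s j) ⟨fun _ => hj2, fun _ => hj1⟩
    · have g1 : a ∈ (closure U)ᶜ := by
        intro hcl
        exact h0 a (by rw [hU.frontier_eq]; exact ⟨hcl, haU⟩) hfa
      have g2 : τ a ∈ (closure U')ᶜ := by
        intro hcl
        exact h0' (τ a) (by rw [hU'.frontier_eq]; exact ⟨hcl, fun h => haU (hia.2 h)⟩) hfa
      have e1 := hsa.eventually (isClosed_closure.isOpen_compl.mem_nhds g1)
      have e2 := hwa.eventually (isClosed_closure.isOpen_compl.mem_nhds g2)
      obtain ⟨j, hj1, hj2⟩ := (e1.and e2).exists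
      exact h3 (s j) ⟨fun h => absurd (subset_closure h) hj1, fun h => absurd (subset_closure h) hj2⟩
  -- the frontier of `U'`
  obtain ⟨c, hc, hcK⟩ : ∃ c : ℝ, 0 < c ∧ ∀ x ∈ frontier U', c < ‖f x‖ := by
    have hK : IsCompact (frontier U') :=
      hUb'.isCompact_closure.of_isClosed_subset isClosed_frontier frontier_subset_closure
    rcases (frontier U').eq_empty_or_nonempty with he | hne
    · exact ⟨1, one_pos, fun x hx => by rw [he] at hx; exact hx.elim⟩
    · obtain ⟨x0, hx0, hmin⟩ := hK.exists_isMinOn hne hf.norm.continuousOn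
      have hp : 0 < ‖f x0‖ := norm_pos_iff.2 (h0' x0 hx0)
      refine ⟨‖f x0‖ / 2, by positivity, fun x hx => ?_⟩
      have : ‖f x0‖ ≤ ‖f x‖ := hmin hx
      linarith
  -- constants
  obtain ⟨ρ, hρ, hρδ, hρδ', hρε, hρc⟩ : ∃ ρ : ℝ, 0 < ρ ∧ ρ ≤ δ / 2 ∧ ρ ≤ δ' / 2 ∧ ρ ≤ ε / 2 ∧
      ρ ≤ c / 2 :=
    ⟨min (min (δ / 2) (δ' / 2)) (min (ε / 2) (c / 2)), by positivity,
      (min_le_left _ _).trans (min_le_left _ _), (min_le_left _ _).trans (min_le_right _ _),
      (min_le_right _ _).trans (min_le_left _ _), (min_le_right _ _).trans (min_le_right _ _)⟩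
  obtain ⟨R2, hR2⟩ := ((isCompact_closedBall (0 : E m) R1).image hτ).isBounded.subset_closedBall
    (0 : E m)
  obtain ⟨R3, hR3⟩ : ∃ R3 : ℝ, R3 = max R1 R2 + 1 := ⟨_, rfl⟩
  obtain ⟨ζ, hζ, hζu⟩ := Metric.uniformContinuousOn_iff.mp
    ((isCompact_closedBall (0 : E m) R3).uniformContinuousOn_of_continuous hf.continuousOn) ρ hρ
  obtain ⟨τ0, hτ0, hτ0a⟩ := exists_sm_unif hτ hτR (δ := min (min ζ ε) 1)
    (lt_min (lt_min hζ hε) one_pos)
  obtain ⟨f0, hf0, hf0a⟩ := exists_sm hf (B := closedBall (0 : E m) R3) isBounded_closedBall hρ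
  have hτb : ∀ x ∈ closedBall (0 : E m) R1, τ x ∈ closedBall (0 : E m) R3 ∧
      τ0 x ∈ closedBall (0 : E m) R3 := by
    intro x hx
    have h4 := hR2 (mem_image_of_mem τ hx)
    rw [mem_closedBall, dist_zero_right] at h4
    have h5 := (hτ0a x).trans_le (min_le_right _ _)
    rw [dist_eq_norm] at h5
    have h6 : ‖τ0 x‖ ≤ ‖τ x‖ + ‖τ0 x - τ x‖ := by
      have := norm_add_le (τ x) (τ0 x - τ x)
      rwa [add_sub_cancel] at this
    constructor
    · rw [mem_closedBall, dist_zero_right, hR3]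
      linarith [le_max_right R1 R2]
    · rw [mem_closedBall, dist_zero_right, hR3]
      linarith [le_max_right R1 R2]
  obtain ⟨φ, hφ, hφ0, hφp⟩ := exists_test (m := m) hρ
  have hφn : ∀ w, φ w ≠ 0 → ‖w‖ < ρ := by
    intro w hw
    by_contra hcon
    exact hw (hφ0 w (not_lt.1 hcon))
  obtain ⟨S1, hS1⟩ := hf0.2
  obtain ⟨S2, hS2⟩ := hτ0.2
  have hthU : thickening 1 U ⊆ closedBall (0 : E m) R1 := by
    intro x hx
    obtain ⟨z, hz, hxz⟩ := mem_thickening_iff.1 hx
    have h4 := hUR z hz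
    rw [dist_eq_norm] at hxz
    rw [mem_closedBall, dist_zero_right]
    have h6 : ‖x‖ ≤ ‖z‖ + ‖x - z‖ := by
      have := norm_add_le z (x - z)
      rwa [add_sub_cancel] at this
    linarith
  have hthU' : thickening 1 U' ⊆ closedBall (0 : E m) R3 := by
    intro x hx
    obtain ⟨z, hz, hxz⟩ := mem_thickening_iff.1 hx
    have h4 := hUR' z hz
    rw [dist_eq_norm] at hxz
    rw [mem_closedBall, dist_zero_right, hR3]
    have h6 : ‖x‖ ≤ ‖z‖ + ‖x - z‖ := by
      have := norm_add_le z (x - z)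
      rwa [add_sub_cancel] at this
    linarith [le_max_left R1 R2]
  have e1 := h f0 hf0 (fun x hx => (hf0a x (hthU' hx)).trans_le (by linarith)) φ hφ
    (fun w hw => hφ0 w (by linarith))
  have hsm : Sm (fun x => f0 (τ0 x)) := by
    refine ⟨hf0.1.comp hτ0.1, max S1 S2, fun x hx => ?_⟩
    show f0 (τ0 x) = x
    rw [hS2 x ((le_max_right _ _).trans hx)]
    exact hS1 x ((le_max_left _ _).trans hx)
  have e2 := hd' (fun x => f0 (τ0 x)) hsm (fun x hx => by
      obtain ⟨h4, h5⟩ := hτb x (hthU hx)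
      have h6 := hf0a (τ0 x) h5
      have h7 := hζu (τ0 x) h5 (τ x) h4
        ((hτ0a x).trans_le ((min_le_left _ _).trans (min_le_left _ _)))
      have h8 := dist_triangle (f0 (τ0 x)) (f (τ0 x)) (f (τ x))
      linarith) φ hφ (fun w hw => hφ0 w (by linarith))
  have e3 := Pool.Agent.Y236.SP.t_COMPT m f0 τ0 (max S1 S2) hf0.1 hτ0.1
    (fun x hx => hS1 x ((le_max_left _ _).trans hx))
    (fun x hx => hS2 x ((le_max_right _ _).trans hx)) U U'
    (closure U' ∩ {x | ‖f x‖ ≤ c}) φ hU hU'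
    (isClosed_closure.inter (isClosed_le hf.norm continuous_const))
    (by
      rintro x ⟨hx1, hx2⟩
      by_contra hcon
      have h4 := hcK x (by rw [hU'.frontier_eq]; exact ⟨hx1, hcon⟩)
      exact absurd (show ‖f x‖ ≤ c from hx2) (not_le.2 h4)) hUb' hφ
    (by
      intro x hx hφx
      refine ⟨subset_closure hx, ?_⟩
      have h4 := hφn _ hφx
      have h5 := hf0a x (hthU' (self_subset_thickening one_pos _ hx))
      rw [dist_eq_norm] at h5
      have h6 : ‖f x‖ ≤ ‖f0 x‖ + ‖f0 x - f x‖ := by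
        have := norm_sub_le (f0 x) (f0 x - f x)
        rwa [sub_sub_cancel] at this
      show ‖f x‖ ≤ c
      linarith)
    (by
      intro x hφx
      have h4 := hφn _ hφx
      by_cases hx : x ∈ closedBall (0 : E m) R1
      · obtain ⟨-, h5⟩ := hτb x hx
        have h6 := hf0a (τ0 x) h5
        rw [dist_eq_norm] at h6
        have h7 : ‖f (τ0 x)‖ ≤ ‖f0 (τ0 x)‖ + ‖f0 (τ0 x) - f (τ0 x)‖ := by
          have := norm_sub_le (f0 (τ0 x)) (f0 (τ0 x) - f (τ0 x))
          rwa [sub_sub_cancel] at this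
        exact hεiff x hx (τ0 x) ((hτ0a x).trans_le ((min_le_left _ _).trans (min_le_right _ _)))
          (by linarith)
      · rw [mem_closedBall, dist_zero_right, not_le] at hx
        have h5 := hτ0a x
        rw [hτR x (by linarith)] at h5
        have h6 := h5.trans_le (min_le_right _ _)
        rw [dist_eq_norm] at h6
        have h7 : ‖x‖ ≤ ‖τ0 x‖ + ‖τ0 x - x‖ := by
          have := norm_sub_le (τ0 x) (τ0 x - x)
          rwa [sub_sub_cancel] at this
        constructor
        · intro hxU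
          have := hUR x hxU
          linarith
        · intro hxU
          have := hUR' _ hxU
          linarith)
  rw [e3, e1] at e2
  have e4 : (d : ℝ) = d' := mul_right_cancel₀ hφp.ne' e2
  have e5 : d = d' := by exact_mod_cast e4
  rwa [e5]

end Pool.Agent.K1H66.HS
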