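import Pool.Agent.K1H66.HS.Rot

/-!
# Invariant maps and equivariant functions of `p`-adic transformations have common zeros (helper66)
-/

set_option autoImplicit false

open MeasureTheory Set Metric Filter Topology
open scoped ENNReal NNReal ContDiff Real

noncomputable section

namespace Pool.Agent.K1H66.HS

open Pool.Agent.Y485.HS Pool.Agent.Y489.SP

variable {n : ℕ}

theorem ex_sub (s v : ℝ) (i p : ℕ) :
    Complex.exp (-(2 * π * Complex.I * (i / p))) * ex s v = ex (s - i / p) v := by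
  unfold ex
  rw [← Complex.exp_add]
  congr 1
  push_cast
  ring

theorem ex_sub_nat (s v : ℝ) (j : ℕ) : ex (s - j) v = ex s v := by
  unfold ex
  rw [Complex.exp_eq_exp_iff_exists_int]
  refine ⟨-(j : ℤ), ?_⟩
  push_cast
  ring

theorem exp_nat (j : ℕ) : Complex.exp (-(2 * π * Complex.I * (j : ℂ))) = 1 := by
  rw [Complex.exp_eq_one_iff]
  refine ⟨-(j : ℤ), ?_⟩
  push_cast
  ring

/-- smooth approximation of functions with complex values -/
theorem exists_smC {ψ : E n → ℂ} (hψ : Continuous ψ) {δ : ℝ} (hδ : 0 < δ) :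
    ∃ ψ0 : E n → ℂ, ContDiff ℝ 1 ψ0 ∧ ∀ x, ‖x‖ ≤ 3 → ‖ψ0 x - ψ x‖ < δ := by
  let χ : ContDiffBump (0 : E n) := ⟨3, 4, by norm_num, by norm_num⟩
  have hc : Continuous (fun x => χ x • ψ x) := χ.continuous.smul hψ
  have hs : HasCompactSupport (fun x => χ x • ψ x) := by
    refine HasCompactSupport.intro (isCompact_closedBall (0 : E n) 4) fun z hz => ?_
    rw [mem_closedBall, dist_zero_right, not_le] at hz
    have h1 : χ z = 0 := χ.zero_of_le_dist (by rw [dist_zero_right]; exact hz.le)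
    rw [h1, zero_smul]
  obtain ⟨g, hgC, hg⟩ := (hs.uniformContinuous_of_continuous hc).exists_contDiff_dist_le hδ
  refine ⟨g, hgC.of_le (by exact_mod_cast le_top), fun x hx => ?_⟩
  have h1 : χ x = 1 := χ.one_of_mem_closedBall (by
    rw [mem_closedBall, dist_zero_right]
    exact hx)
  have h3 := hg x
  rwa [h1, one_smul, dist_eq_norm] at h3

/-- general position -/
theorem exists_generic {F0 : E n → E n} {ψ0 : E n → ℂ} (hF0 : ContDiff ℝ 1 F0)
    (hψ0 : ContDiff ℝ 1 ψ0) (y : E n) {ρ : ℝ} (hρ : 0 < ρ) :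
    ∃ (y' : E n) (σ : ℝ), dist y' y < ρ ∧ ∀ x v, F0 x = y' → ψ0 x ≠ ex σ v := by
  let Γ : E n × ℝ → E n × ℂ := fun q => (F0 q.1, ((Real.exp q.2 : ℝ) : ℂ) * ψ0 q.1)
  have hΓ : ContDiff ℝ 1 Γ := by
    refine ContDiff.prodMk (hF0.comp contDiff_fst) ?_
    refine ContDiff.mul ?_ (hψ0.comp contDiff_fst)
    exact Complex.ofRealCLM.contDiff.comp (Real.contDiff_exp.comp contDiff_snd)
  have hd : Dense (range Γ)ᶜ := by
    refine hΓ.dense_compl_range_of_finrank_lt_finrank ?_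
    rw [Module.finrank_prod, Module.finrank_prod, finrank_euclideanSpace_fin,
      Complex.finrank_real_complex, Module.finrank_self]
    omega
  obtain ⟨⟨y', q⟩, hq, hqr⟩ := hd.exists_dist_lt (y, (1 : ℂ))
    (lt_min hρ (by norm_num : (0 : ℝ) < 1 / 2))
  rw [Prod.dist_eq, max_lt_iff] at hqr
  obtain ⟨h1, h2⟩ := hqr
  have hy' : dist y' y < ρ := by
    rw [dist_comm]
    exact h1.trans_le (min_le_left _ _)
  have hq0 : q ≠ 0 := by
    rintro rfl
    have h3 := h2.trans_le (min_le_right _ _)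
    simp at h3
    norm_num at h3
  refine ⟨y', Complex.arg q / (2 * π), hy', fun x v hx hψx => ?_⟩
  apply hq
  refine ⟨(x, 2 * π * v + Real.log ‖q‖), ?_⟩
  show (F0 x, ((Real.exp (2 * π * v + Real.log ‖q‖) : ℝ) : ℂ) * ψ0 x) = (y', q)
  rw [hx, hψx]
  congr 1
  unfold ex
  rw [Complex.ofReal_exp, ← Complex.exp_add]
  have h3 : (((2 * π * v + Real.log ‖q‖ : ℝ) : ℂ) +
      2 * π * Complex.I * (((Complex.arg q / (2 * π) : ℝ) : ℂ) + v * Complex.I)) =
      Complex.log q := by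
    rw [Complex.log]
    push_cast
    have hpi : (π : ℂ) ≠ 0 := by exact_mod_cast Real.pi_ne_zero
    field_simp
    ring_nf
    rw [Complex.I_sq]
    ring
  rw [h3, Complex.exp_log hq0]

/-- invariance under a transformation close to the identity -/
theorem Rel.shift {C : Ctx n} {S0 S1 S0' S1' : St C} {τ : E n → E n} (hτc : Continuous τ)
    (hτd : ∀ x, dist (τ x) x ≤ 1 / 4) (hτo : ∀ x, 4 ≤ ‖x‖ → τ x = x) (c : ℂ)
    (ha0 : ∀ x, ‖x‖ ≤ 2 → S0'.a x = S0.a (τ x)) (ha1 : ∀ x, ‖x‖ ≤ 2 → S1'.a x = S1.a (τ x))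
    (hb0 : ∀ x, ‖x‖ ≤ 2 → S0'.b x = Complex.exp c * S0.b (τ x))
    (hb1 : ∀ x, ‖x‖ ≤ 2 → S1'.b x = Complex.exp c * S1.b (τ x))
    (hs : ∀ u v, ex ((1 - u) * S0'.s + u * S1'.s + 0 * S1'.s) v =
      Complex.exp c * ex ((1 - u) * S0.s + u * S1.s + 0 * S1.s) v) {d : ℤ} (hd : Rel S0 S1 d) :
    Rel S0' S1' d := by
  let f : E n × ℂ → E n × ℂ := pfc S0 S1 S1 (fun u => 1 - cl u) cl (fun _ => 0)
  have hf : Continuous f := pfc_cont S0 S1 S1 cl_cont' cl_cont continuous_const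
  let χ : ContDiffBump (0 : ℂ) := ⟨4, 8, by norm_num, by norm_num⟩
  let T : E n × ℂ → E n × ℂ := fun z => (z.1 + χ z.2 • (τ z.1 - z.1), z.2)
  have hT : Continuous T := by
    refine Continuous.prodMk ?_ continuous_snd
    refine continuous_fst.add ((χ.continuous.comp continuous_snd).smul ?_)
    exact (hτc.comp continuous_fst).sub continuous_fst
  have hTo : ∀ z, 8 ≤ ‖z‖ → T z = z := by
    intro z hz
    refine Prod.ext ?_ rfl
    show z.1 + χ z.2 • (τ z.1 - z.1) = z.1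
    rw [Prod.norm_def] at hz
    rcases le_max_iff.1 hz with h | h
    · rw [hτo z.1 (by linarith), sub_self, smul_zero, add_zero]
    · have h1 : χ z.2 = 0 := χ.zero_of_le_dist (by rw [dist_zero_right]; exact h)
      rw [h1, zero_smul, add_zero]
  have hTi : ∀ z : E n × ℂ, 0 ≤ z.2.re → z.2.re ≤ 1 → |z.2.im| ≤ 1 → T z = (τ z.1, z.2) := by
    intro z h1 h2 h3
    refine Prod.ext ?_ rfl
    show z.1 + χ z.2 • (τ z.1 - z.1) = τ z.1
    have h4 : χ z.2 = 1 := χ.one_of_mem_closedBall (by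
      rw [mem_closedBall, dist_zero_right]
      show ‖z.2‖ ≤ 4
      have := Complex.norm_le_abs_re_add_abs_im z.2
      rw [abs_of_nonneg h1] at this
      linarith)
    rw [h4, one_smul, add_sub_cancel]
  have hτn3 : ∀ z : E n, ‖z‖ ≤ 2 → ‖τ z‖ ≤ 9 / 4 := by
    intro z hz
    have e1 := hτd z
    rw [dist_eq_norm] at e1
    have e2 : ‖τ z‖ ≤ ‖z‖ + ‖τ z - z‖ := by
      have := norm_add_le z (τ z - z)
      rwa [add_sub_cancel] at this
    linarith
  have hτn4 : ∀ z : E n, ‖z‖ ≤ ‖τ z‖ + 1 / 4 := by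
    intro z
    have e1 := hτd z
    rw [dist_eq_norm] at e1
    have e2 : ‖z‖ ≤ ‖τ z‖ + ‖τ z - z‖ := by
      have := norm_sub_le (τ z) (τ z - z)
      rwa [sub_sub_cancel] at this
    linarith
  have hTfr : ∀ z ∈ frontier (box n 0 1), f (T z) ≠ 0 := by
    intro z hz
    obtain ⟨⟨c1, c2, c3, c4⟩, hz'⟩ := frontier_box hz
    rw [hTi z c2 c3 c4]
    rcases hz' with h1 | h1 | h1 | h1
    · intro h0
      have h2 : (f (τ z.1, z.2)).1 = 0 := by rw [h0]; rfl
      have h3 := (zero_near (z := (τ z.1, z.2)) (wt_seg _) (hτn3 z.1 c1) h2).2.1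
      have h4 := hτn4 z.1
      have h5 : ‖τ z.1‖ < 11 / 8 := h3
      linarith
    · exact ne_edge (z := (τ z.1, z.2)) (wt_seg _) (hτn3 z.1 c1) (Or.inr h1)
    · refine ne_vertex (z := (τ z.1, z.2)) (Or.inl ?_) (hτn3 z.1 c1) c4
      have := cl_zero h1.le
      exact ⟨by rw [this]; ring, this, rfl⟩
    · refine ne_vertex (z := (τ z.1, z.2)) (Or.inr (Or.inl ?_)) (hτn3 z.1 c1) c4
      have := cl_one h1.ge
      exact ⟨by rw [this]; ring, this, rfl⟩
  have hfr : ∀ z ∈ frontier (box n 0 1), f z ≠ 0 := by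
    intro z hz
    obtain ⟨⟨c1, c2, c3, c4⟩, hz'⟩ := frontier_box hz
    rcases hz' with h1 | h1 | h1 | h1
    · exact ne_edge (wt_seg _) (by linarith) (Or.inl h1)
    · exact ne_edge (wt_seg _) (by linarith) (Or.inr h1)
    · refine ne_vertex (Or.inl ?_) (by linarith) c4
      have := cl_zero h1.le
      exact ⟨by rw [this]; ring, this, rfl⟩
    · refine ne_vertex (Or.inr (Or.inl ?_)) (by linarith) c4
      have := cl_one h1.ge
      exact ⟨by rw [this]; ring, this, rfl⟩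
  have hfT : DV (fun z => f (T z)) (box n 0 1) d := by
    refine DV.comp_tau hf hT hTo (box_open 0 1) (box_bdd 0 1) (box_open 0 1) (box_bdd 0 1)
      hTfr hfr ?_ hd
    intro z h0
    constructor
    · rintro ⟨a1, a2, a3, a4⟩
      have e := hTi z a2.le a3.le a4.le
      rw [e] at h0 ⊢
      have h2 : (f (τ z.1, z.2)).1 = 0 := by rw [h0]; rfl
      have h3 := (zero_near (z := (τ z.1, z.2)) (wt_seg _) (hτn3 z.1 a1.le) h2).2.1
      have h5 : ‖τ z.1‖ < 11 / 8 := h3
      exact ⟨by show ‖τ z.1‖ < 2; linarith, a2, a3, a4⟩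
    · rintro ⟨a1, a2, a3, a4⟩
      have a2' : 0 < z.2.re := a2
      have a3' : z.2.re < 1 := a3
      have a4' : |z.2.im| < 1 := a4
      have e := hTi z a2'.le a3'.le a4'.le
      rw [e] at h0 a1
      have a1' : ‖τ z.1‖ < 2 := a1
      have h2 : (f (τ z.1, z.2)).1 = 0 := by rw [h0]; rfl
      have h3 := (zero_near (z := (τ z.1, z.2)) (wt_seg _)
        (show ‖τ z.1‖ ≤ 9 / 4 by linarith) h2).2.1
      have h5 : ‖τ z.1‖ < 11 / 8 := h3
      have h4 := hτn4 z.1
      exact ⟨by linarith, a2', a3', a4'⟩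
  have hfTc : Continuous (fun z => f (T z)) := hf.comp hT
  -- the rotation
  have hzero : ∀ (t : ℝ) (w : E n × ℂ), (w.1, Complex.exp ((t : ℂ) * c) * w.2) = 0 → w = 0 := by
    intro t w h0
    have e1 : w.1 = 0 := congrArg Prod.fst h0
    have e2 : Complex.exp ((t : ℂ) * c) * w.2 = 0 := congrArg Prod.snd h0
    have e3 : w.2 = 0 := by
      rcases mul_eq_zero.1 e2 with h5 | h5
      · exact absurd h5 (Complex.exp_ne_zero _)
      · exact h5
    exact Prod.ext e1 e3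
  have hHc : Continuous (fun q : ℝ × (E n × ℂ) =>
      (((f (T q.2)).1, Complex.exp ((q.1 : ℂ) * c) * (f (T q.2)).2) : E n × ℂ)) := by
    have g1 : Continuous (fun q : ℝ × (E n × ℂ) => f (T q.2)) := hfTc.comp continuous_snd
    refine Continuous.prodMk ?_ ?_
    · exact continuous_fst.comp g1
    · refine Continuous.mul ?_ ?_
      · exact Complex.continuous_exp.comp
          ((Complex.continuous_ofReal.comp continuous_fst).mul continuous_const)
      · exact continuous_snd.comp g1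
  have h0eq : (fun z : E n × ℂ => (((f (T z)).1,
      Complex.exp (((0 : ℝ) : ℂ) * c) * (f (T z)).2) : E n × ℂ)) = fun z => f (T z) := by
    funext z
    rw [Complex.ofReal_zero, zero_mul, Complex.exp_zero, one_mul]
  have hrot : DV (fun z : E n × ℂ => (((f (T z)).1,
      Complex.exp (((1 : ℝ) : ℂ) * c) * (f (T z)).2) : E n × ℂ)) (box n 0 1) d := by
    refine DV.homotopy (H := fun (t : ℝ) (z : E n × ℂ) => (((f (T z)).1,
      Complex.exp ((t : ℂ) * c) * (f (T z)).2) : E n × ℂ)) hHc (box_open 0 1) (box_bdd 0 1) ?_ ?_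
    · intro t _ z hz h0
      exact hTfr z hz (hzero t _ h0)
    · show DV (fun z : E n × ℂ => (((f (T z)).1,
        Complex.exp (((0 : ℝ) : ℂ) * c) * (f (T z)).2) : E n × ℂ)) (box n 0 1) d
      rw [h0eq]
      exact hfT
  have hrc : Continuous (fun z : E n × ℂ => (((f (T z)).1,
      Complex.exp (((1 : ℝ) : ℂ) * c) * (f (T z)).2) : E n × ℂ)) := by
    refine Continuous.prodMk (continuous_fst.comp hfTc) ?_
    exact continuous_const.mul (continuous_snd.comp hfTc)
  refine DV.congr hrc (pfc_cont S0' S1' S1' cl_cont' cl_cont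
    continuous_const) (box_open 0 1) (box_bdd 0 1) ?_ ?_ hrot
  · intro z hz h0
    exact hTfr z hz (hzero 1 _ h0)
  · intro z hz
    obtain ⟨⟨c1, c2, c3, c4⟩, -⟩ := frontier_box hz
    rw [hTi z c2 c3 c4]
    refine Prod.ext ?_ ?_
    · show (1 - cl z.2.re) • S0'.a z.1 + cl z.2.re • S1'.a z.1 + (0 : ℝ) • S1'.a z.1 - C.y =
        (1 - cl z.2.re) • S0.a (τ z.1) + cl z.2.re • S1.a (τ z.1) + (0 : ℝ) • S1.a (τ z.1) - C.y
      rw [ha0 z.1 c1, ha1 z.1 c1]
    · show (1 - cl z.2.re) • S0'.b z.1 + cl z.2.re • S1'.b z.1 + (0 : ℝ) • S1'.b z.1 -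
          ex ((1 - cl z.2.re) * S0'.s + cl z.2.re * S1'.s + 0 * S1'.s) z.2.im =
        Complex.exp (((1 : ℝ) : ℂ) * c) *
          ((1 - cl z.2.re) • S0.b (τ z.1) + cl z.2.re • S1.b (τ z.1) + (0 : ℝ) • S1.b (τ z.1) -
          ex ((1 - cl z.2.re) * S0.s + cl z.2.re * S1.s + 0 * S1.s) z.2.im)
      rw [hb0 z.1 c1, hb1 z.1 c1, hs, Complex.ofReal_one, one_mul, mul_sub]
      congr 1
      simp only [Complex.real_smul]
      ring

/-- compactness -/
theorem exists_gap {F1 : E n → E n} {ψ0 : E n → ℂ} (hF : Continuous F1) (hψ : Continuous ψ0)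
    (y : E n) (σ : ℝ) (h : ∀ x v, F1 x = y → ψ0 x ≠ ex σ v) : ∃ δ : ℝ, 0 < δ ∧
      ∀ x, ‖x‖ ≤ 2 → ∀ v : ℝ, |v| ≤ 1 → δ ≤ dist (F1 x, ψ0 x) (y, ex σ v) := by
  obtain ⟨K, hKdef⟩ : ∃ K : Set (E n × ℝ), K = closedBall (0 : E n) 2 ×ˢ Icc (-1 : ℝ) 1 :=
    ⟨_, rfl⟩
  have hK : IsCompact K := by
    rw [hKdef]
    exact (isCompact_closedBall _ _).prod isCompact_Icc
  have hKm : ∀ (x : E n) (v : ℝ), ‖x‖ ≤ 2 → |v| ≤ 1 → (x, v) ∈ K := by
    intro x v hx hv
    rw [hKdef]
    refine ⟨?_, abs_le.1 hv⟩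
    show x ∈ closedBall (0 : E n) 2
    rw [mem_closedBall, dist_zero_right]
    exact hx
  have hc : Continuous (fun q : E n × ℝ => dist (F1 q.1, ψ0 q.1) (y, ex σ q.2)) := by
    refine Continuous.dist ?_ ?_
    · exact (hF.comp continuous_fst).prodMk (hψ.comp continuous_fst)
    · exact continuous_const.prodMk (ex_cont.comp (continuous_const.prodMk continuous_snd))
  obtain ⟨q, hq, hmin⟩ := hK.exists_isMinOn
    ⟨((0 : E n), (0 : ℝ)), hKm 0 0 (by simp) (by simp)⟩ hc.continuousOn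
  have hmin' : ∀ q' ∈ K, dist (F1 q.1, ψ0 q.1) (y, ex σ q.2) ≤
      dist (F1 q'.1, ψ0 q'.1) (y, ex σ q'.2) := fun q' hq' => hmin hq'
  refine ⟨dist (F1 q.1, ψ0 q.1) (y, ex σ q.2), ?_, ?_⟩
  · rw [dist_pos]
    intro h'
    exact h q.1 q.2 (congrArg Prod.fst h') (congrArg Prod.snd h')
  · intro x hx v hv
    exact hmin' (x, v) (hKm x v hx hv)

/-- Main theorem of the degree part. -/
theorem yang {p : ℕ} (hp : 2 ≤ p) (F : E n → E n) (hF : Continuous F)
    (hFd : ∀ x, dist (F x) x ≤ 1 / 4) (y : E n) (hy : ‖y‖ < 1) (τ : ℕ → E n → E n)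
    (hτc : ∀ i, Continuous (τ i)) (hτd : ∀ i x, dist (τ i x) x ≤ 1 / 4)
    (hτo : ∀ i x, 4 ≤ ‖x‖ → τ i x = x) (hτ0 : ∀ x, τ 0 x = x)
    (hτm : ∀ i x, ‖x‖ ≤ 5 / 2 → τ 1 (τ i x) = τ (i + 1) x)
    (hFτ : ∀ i x, ‖x‖ ≤ 5 / 2 → F (τ i x) = F x)
    (hlim : ∀ ε : ℝ, 0 < ε → ∃ k : ℕ, 1 ≤ k ∧ ∀ x, ‖x‖ ≤ 3 → dist (τ (p ^ k) x) x < ε)
    (hequi : ∀ ε : ℝ, 0 < ε → ∃ η : ℝ, 0 < η ∧ ∀ i x x', ‖x‖ ≤ 3 → ‖x'‖ ≤ 3 → dist x x' < η →
      dist (τ i x) (τ i x') < ε)
    (ψ : E n → ℂ) (hψc : Continuous ψ) (hψb : ∀ x, ‖ψ x‖ ≤ 2)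
    (hψ1 : ∀ x, ‖x‖ ≤ 3 → F x = y → ‖ψ x‖ = 1)
    (hψ2 : ∀ (i : ℕ) x, ‖x‖ ≤ 3 → F x = y →
      ψ (τ i x) = Complex.exp (2 * π * Complex.I * (i / p)) * ψ x) : False := by
  have hp0 : (p : ℂ) ≠ 0 := by exact_mod_cast (by omega : p ≠ 0)
  have hpR : (p : ℝ) ≠ 0 := by exact_mod_cast (by omega : p ≠ 0)
  have hnexp : ∀ i : ℕ, ‖Complex.exp (2 * π * Complex.I * (i / p))‖ = 1 := by
    intro i
    rw [Complex.norm_exp]
    have : (2 * π * Complex.I * (i / p) : ℂ).re = 0 := by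
      have e : (2 * π * Complex.I * (i / p) : ℂ) = ((2 * π * (i / p) : ℝ) : ℂ) * Complex.I := by
        push_cast; ring
      rw [e]
      simp
    rw [this, Real.exp_zero]
  -- Step 1: nearness
  obtain ⟨δ1, hδ1, hδ1u⟩ := Metric.uniformContinuousOn_iff.mp
    ((isCompact_closedBall (0 : E n) 4).uniformContinuousOn_of_continuous hψc.continuousOn)
    (1 / 16) (by norm_num)
  obtain ⟨η1, hη1, hη1e⟩ := hequi δ1 hδ1
  obtain ⟨ρ, hρ, hρ8, hnear⟩ : ∃ ρ : ℝ, 0 < ρ ∧ ρ ≤ 1 / 8 ∧ ∀ x, ‖x‖ ≤ 3 →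
      dist (F x) y ≤ 2 * ρ → |‖ψ x‖ - 1| ≤ 1 / 8 ∧
        ∀ i : ℕ, ‖ψ (τ i x) - Complex.exp (2 * π * Complex.I * (i / p)) * ψ x‖ ≤ 1 / 8 := by
    by_contra hcon
    push Not at hcon
    have hc : ∀ j : ℕ, ∃ x ∈ closedBall (0 : E n) 3, dist (F x) y ≤ 2 * (1 / 8 / ((j : ℝ) + 1)) ∧
        ¬ (|‖ψ x‖ - 1| ≤ 1 / 8 ∧
          ∀ i : ℕ, ‖ψ (τ i x) - Complex.exp (2 * π * Complex.I * (i / p)) * ψ x‖ ≤ 1 / 8) := by
      intro j
      obtain ⟨x, h1, h2, h3⟩ := hcon (1 / 8 / ((j : ℝ) + 1)) (by positivity) (by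
        apply div_le_self (by norm_num)
        have : (0 : ℝ) ≤ j := Nat.cast_nonneg j
        linarith)
      refine ⟨x, by rw [mem_closedBall, dist_zero_right]; exact h1, h2, ?_⟩
      rintro ⟨h4, h5⟩
      obtain ⟨i, hi⟩ := h3 h4
      exact absurd (h5 i) (not_le.2 hi)
    choose x hx h1 h2 using hc
    obtain ⟨a, ha, s, hs, hsa⟩ := (isCompact_closedBall (0 : E n) 3).tendsto_subseq hx
    have hlim0 : Tendsto (fun j : ℕ => 2 * (1 / 8 / ((j : ℝ) + 1))) atTop (𝓝 0) := by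
      have e1 : Tendsto (fun j : ℕ => 1 / ((j : ℝ) + 1)) atTop (𝓝 0) :=
        tendsto_one_div_add_atTop_nhds_zero_nat
      have e2 := e1.const_mul (1 / 4)
      rw [mul_zero] at e2
      refine e2.congr fun j => ?_
      ring
    have hFa : F a = y := by
      have e1 : Tendsto (fun j => F (x (s j))) atTop (𝓝 (F a)) := (hF.tendsto a).comp hsa
      have e2 : Tendsto (fun j => F (x (s j))) atTop (𝓝 y) := by
        rw [tendsto_iff_dist_tendsto_zero]
        exact squeeze_zero (fun _ => dist_nonneg) (fun j => h1 (s j))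
          (hlim0.comp hs.tendsto_atTop)
      exact tendsto_nhds_unique e1 e2
    rw [mem_closedBall, dist_zero_right] at ha
    obtain ⟨j, hj⟩ := (Metric.tendsto_nhds.1 hsa (min η1 δ1) (lt_min hη1 hδ1)).exists
    have hxj := hx (s j)
    rw [mem_closedBall, dist_zero_right] at hxj
    have hcb : ∀ z : E n, ‖z‖ ≤ 4 → z ∈ closedBall (0 : E n) 4 := fun z hz => by
      rw [mem_closedBall, dist_zero_right]; exact hz
    have hτn : ∀ i (z : E n), ‖z‖ ≤ 3 → ‖τ i z‖ ≤ 4 := by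
      intro i z hz
      have e1 := hτd i z
      rw [dist_eq_norm] at e1
      have e2 : ‖τ i z‖ ≤ ‖z‖ + ‖τ i z - z‖ := by
        have := norm_add_le z (τ i z - z)
        rwa [add_sub_cancel] at this
      linarith
    have g1 : ‖ψ (x (s j)) - ψ a‖ < 1 / 16 := by
      rw [← dist_eq_norm]
      exact hδ1u _ (hcb _ (by linarith)) _ (hcb _ (by linarith)) (hj.trans_le (min_le_right _ _))
    apply h2 (s j)
    constructor
    · have e1 := hψ1 a ha hFa
      have e2 := abs_norm_sub_norm_le (ψ (x (s j))) (ψ a)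
      rw [e1] at e2
      linarith
    · intro i
      have g2 : ‖ψ (τ i (x (s j))) - ψ (τ i a)‖ < 1 / 16 := by
        rw [← dist_eq_norm]
        exact hδ1u _ (hcb _ (hτn i _ hxj)) _ (hcb _ (hτn i _ ha))
          (hη1e i _ _ hxj ha (hj.trans_le (min_le_left _ _)))
      have e3 := hψ2 i a ha hFa
      have e4 : ψ (τ i (x (s j))) - Complex.exp (2 * π * Complex.I * (i / p)) * ψ (x (s j)) =
          (ψ (τ i (x (s j))) - ψ (τ i a)) -
            Complex.exp (2 * π * Complex.I * (i / p)) * (ψ (x (s j)) - ψ a) := by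
        rw [e3]; ring
      rw [e4]
      refine (norm_sub_le _ _).trans ?_
      rw [norm_mul, hnexp i, one_mul]
      linarith
  -- Step 2: smooth approximation
  obtain ⟨F0, hF0, hF0a⟩ := exists_sm hF (B := closedBall (0 : E n) 3) isBounded_closedBall
    (half_pos hρ)
  obtain ⟨ψ0, hψ0, hψ0a⟩ := exists_smC hψc (by norm_num : (0 : ℝ) < 1 / 16)
  -- Step 3: general position
  obtain ⟨y', σ, hy', hgen⟩ := exists_generic hF0.1 hψ0 y (show 0 < ρ / 4 by positivity)
  let F1 : E n → E n := fun x => F0 x - y' + y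
  have hF1c : Continuous F1 := (hF0.1.continuous.sub continuous_const).add continuous_const
  have hF1a : ∀ x, ‖x‖ ≤ 3 → dist (F1 x) (F x) ≤ ρ := by
    intro x hx
    have h1 := hF0a x (by rw [mem_closedBall, dist_zero_right]; exact hx)
    rw [dist_eq_norm] at h1 hy' ⊢
    have e : F1 x - F x = (F0 x - F x) - (y' - y) := by
      show F0 x - y' + y - F x = _
      abel
    rw [e]
    have := norm_sub_le (F0 x - F x) (y' - y)
    linarith
  have hgen1 : ∀ x v, F1 x = y → ψ0 x ≠ ex σ v := by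
    intro x v h
    apply hgen x v
    have h1 : F0 x - y' + y = y := h
    have h2 : F0 x - y' = 0 := by
      have := sub_eq_zero.2 h1
      rwa [add_sub_cancel_right] at this
    exact sub_eq_zero.1 h2
  -- Step 4: the states
  let C : Ctx n := ⟨F, y, ψ, ρ, hF, hFd, hy, hρ, hρ8, hψc, fun x hx h => (hnear x hx h).1⟩
  have hτn2 : ∀ i (z : E n), ‖z‖ ≤ 9 / 4 → ‖τ i z‖ ≤ 5 / 2 := by
    intro i z hz
    have e1 := hτd i z
    rw [dist_eq_norm] at e1
    have e2 : ‖τ i z‖ ≤ ‖z‖ + ‖τ i z - z‖ := by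
      have := norm_add_le z (τ i z - z)
      rwa [add_sub_cancel] at this
    linarith
  have hexpinv : ∀ i : ℕ, ∀ w : ℂ, Complex.exp (-(2 * π * Complex.I * (i / p))) *
      (Complex.exp (2 * π * Complex.I * (i / p)) * w) = w := by
    intro i w
    rw [← mul_assoc, ← Complex.exp_add, neg_add_cancel, Complex.exp_zero, one_mul]
  have hnexp' : ∀ i : ℕ, ‖Complex.exp (-(2 * π * Complex.I * (i / p)))‖ = 1 := by
    intro i
    rw [Complex.exp_neg, norm_inv, hnexp i, inv_one]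
  obtain ⟨S, hSa, hSb, hSs⟩ : ∃ S : ℕ → St C, (∀ i x, (S i).a x = F1 (τ i x)) ∧
      (∀ i x, (S i).b x = Complex.exp (-(2 * π * Complex.I * (i / p))) * ψ0 (τ i x)) ∧
      ∀ i, (S i).s = σ - i / p := by
    refine ⟨fun i =>
      { a := fun x => F1 (τ i x)
        b := fun x => Complex.exp (-(2 * π * Complex.I * (i / p))) * ψ0 (τ i x)
        s := σ - i / p
        ha := hF1c.comp (hτc i)
        hb := continuous_const.mul (hψ0.continuous.comp (hτc i))
        hcl := ?_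
        hcl' := ?_
        hadm := ?_ }, fun _ _ => rfl, fun _ _ => rfl, fun _ => rfl⟩
    · intro x hx
      have h1 := hF1a (τ i x) (by linarith [hτn2 i x hx])
      rw [hFτ i x (by linarith)] at h1
      exact h1
    · intro x hx h
      have h1 := hψ0a (τ i x) (by linarith [hτn2 i x hx])
      have h2 := (hnear x (by linarith) (h.trans (by show ρ ≤ 2 * ρ; linarith))).2 i
      have e : Complex.exp (-(2 * π * Complex.I * (i / p))) * ψ0 (τ i x) - ψ x =
          Complex.exp (-(2 * π * Complex.I * (i / p))) * ((ψ0 (τ i x) - ψ (τ i x)) +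
            (ψ (τ i x) - Complex.exp (2 * π * Complex.I * (i / p)) * ψ x)) := by
        have := hexpinv i (ψ x)
        calc Complex.exp (-(2 * π * Complex.I * (i / p))) * ψ0 (τ i x) - ψ x
            = Complex.exp (-(2 * π * Complex.I * (i / p))) * ψ0 (τ i x) -
              Complex.exp (-(2 * π * Complex.I * (i / p))) *
                (Complex.exp (2 * π * Complex.I * (i / p)) * ψ x) := by rw [this]
          _ = _ := by ring
      show ‖Complex.exp (-(2 * π * Complex.I * (i / p))) * ψ0 (τ i x) - ψ x‖ ≤ 1 / 4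
      rw [e, norm_mul, hnexp' i, one_mul]
      have := norm_add_le (ψ0 (τ i x) - ψ (τ i x))
        (ψ (τ i x) - Complex.exp (2 * π * Complex.I * (i / p)) * ψ x)
      linarith
    · intro x _ v _ h1 h2
      apply hgen1 (τ i x) v h1
      have h3 := ex_sub σ v i p
      rw [← h3] at h2
      exact mul_left_cancel₀ (Complex.exp_ne_zero _) h2
  obtain ⟨A, hAa, hAb, hAs⟩ : ∃ A : ℕ → St C, (∀ j, (A j).a = F1) ∧ (∀ j, (A j).b = ψ0) ∧
      ∀ j, (A j).s = σ - j := by
    refine ⟨fun j =>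
      { a := F1
        b := ψ0
        s := σ - j
        ha := hF1c
        hb := hψ0.continuous
        hcl := fun x hx => hF1a x (by linarith)
        hcl' := fun x hx _ => (hψ0a x (by linarith)).le.trans (by norm_num)
        hadm := ?_ }, fun _ => rfl, fun _ => rfl, fun _ => rfl⟩
    intro x _ v _ h1 h2
    rw [ex_sub_nat] at h2
    exact hgen1 x v h1 h2
  -- Step 5: the shift
  obtain ⟨d, hd⟩ := Rel.exists (S 0) (S 1)
  have hstep : ∀ i : ℕ, Rel (S i) (S (i + 1)) d := by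
    intro i
    refine Rel.shift (hτc i) (hτd i) (hτo i) (-(2 * π * Complex.I * (i / p))) ?_ ?_ ?_ ?_ ?_ hd
    · intro x _
      rw [hSa, hSa, hτ0]
    · intro x hx
      rw [hSa, hSa, hτm i x (by linarith)]
    · intro x _
      rw [hSb, hSb, hτ0]
      simp
    · intro x hx
      rw [hSb, hSb, hτm i x (by linarith), ← mul_assoc, ← Complex.exp_add]
      congr 2
      push_cast
      field_simp
      ring
    · intro u v
      rw [hSs, hSs, hSs, hSs, ex_sub]
      congr 1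
      push_cast
      field_simp
      ring
  have hsum : ∀ i : ℕ, Rel (S 0) (S i) (i * d) := by
    intro i
    induction i with
    | zero => simpa using Rel.refl (S 0)
    | succ i ih =>
      have := ih.trans (hstep i)
      have e : ((i + 1 : ℕ) : ℤ) * d = i * d + d := by push_cast; ring
      rw [e]
      exact this
  -- Step 6: the rotations
  have hrotj : ∀ j : ℕ, Rel (A (j + 1)) (A j) 1 := by
    intro j
    refine Rel.rot (A (j + 1)) (A j) (by rw [hAa, hAa]) (by rw [hAb, hAb]) ?_ ?_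
    · rw [hAs, hAs]
      push_cast
      ring
    · intro x hx
      rw [hAb]
      have h1 := hψ0a x (by linarith)
      have h2 := hψb x
      have h3 : ‖ψ0 x‖ ≤ ‖ψ x‖ + ‖ψ0 x - ψ x‖ := by
        have := norm_add_le (ψ x) (ψ0 x - ψ x)
        rwa [add_sub_cancel] at this
      linarith
  have hrotsum : ∀ j : ℕ, Rel (A j) (A 0) j := by
    intro j
    induction j with
    | zero => simpa using Rel.refl (A 0)
    | succ j ih =>
      have := (hrotj j).trans ih
      have e : ((j + 1 : ℕ) : ℤ) = 1 + j := by push_cast; ring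
      rw [e]
      exact this
  -- Step 7: conclusion
  obtain ⟨δ, hδ, hδa⟩ := exists_gap hF1c hψ0.continuous y σ hgen1
  obtain ⟨η2, hη2, hη2u⟩ := Metric.uniformContinuousOn_iff.mp
    ((isCompact_closedBall (0 : E n) 3).uniformContinuousOn_of_continuous
      ((hF1c.prodMk hψ0.continuous).continuousOn (s := closedBall (0 : E n) 3))) δ hδ
  obtain ⟨k, hk1, hk⟩ := hlim η2 hη2
  obtain ⟨N, hN⟩ : ∃ N : ℕ, N = p ^ (k - 1) := ⟨_, rfl⟩
  have hmN : p ^ k = N * p := by
    rw [hN, ← pow_succ]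
    congr 1
    omega
  have hmNR : ((p ^ k : ℕ) : ℝ) / p = N := by
    rw [hmN]
    push_cast
    field_simp
  have hmNC : ((p ^ k : ℕ) : ℂ) / p = N := by
    rw [hmN]
    push_cast
    field_simp
  have h1 : Rel (S 0) (A 0) 0 := by
    refine Rel.zero ?_
    intro x _ u _ v _ e1 e2
    have f1 : (1 - u) • F1 (τ 0 x) + u • F1 x = y := by
      rw [hSa, hAa] at e1
      exact e1
    have f2 : (1 - u) • (Complex.exp (-(2 * π * Complex.I * (((0 : ℕ) : ℂ) / p))) * ψ0 (τ 0 x)) +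
      u • ψ0 x = ex ((1 - u) * (σ - ((0 : ℕ) : ℝ) / p) + u * (σ - ((0 : ℕ) : ℝ))) v := by
      rw [hSb, hAb, hSs, hAs] at e2
      exact e2
    rw [hτ0, ← add_smul, sub_add_cancel, one_smul] at f1
    rw [hτ0] at f2
    have g1 : Complex.exp (-(2 * π * Complex.I * (((0 : ℕ) : ℂ) / p))) = 1 := by simp
    rw [g1, one_mul, ← add_smul, sub_add_cancel, one_smul] at f2
    have g2 : (1 - u) * (σ - ((0 : ℕ) : ℝ) / p) + u * (σ - ((0 : ℕ) : ℝ)) = σ := by
      simp
      ring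
    rw [g2] at f2
    exact hgen1 x v f1 f2
  obtain ⟨e, he⟩ := Rel.exists (A 0) (A N)
  have h2 : e + N = 0 := (he.trans (hrotsum N)).unique (Rel.refl (A 0))
  have h3 : Rel (A N) (S (p ^ k)) 0 := by
    refine Rel.zero ?_
    intro x hx u hu v hv e1 e2
    have f1 : (1 - u) • F1 x + u • F1 (τ (p ^ k) x) = y := by
      rw [hSa, hAa] at e1
      exact e1
    have f2 : (1 - u) • ψ0 x +
      u • (Complex.exp (-(2 * π * Complex.I * (((p ^ k : ℕ) : ℂ) / p))) * ψ0 (τ (p ^ k) x)) =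
      ex ((1 - u) * (σ - (N : ℝ)) + u * (σ - ((p ^ k : ℕ) : ℝ) / p)) v := by
      rw [hSb, hAb, hSs, hAs] at e2
      exact e2
    have g2 : (1 - u) * (σ - (N : ℝ)) + u * (σ - ((p ^ k : ℕ) : ℝ) / p) = σ - N := by
      rw [hmNR]; ring
    rw [hmNC, exp_nat, one_mul, g2, ex_sub_nat] at f2
    have hx3 : x ∈ closedBall (0 : E n) 3 := by
      rw [mem_closedBall, dist_zero_right]; linarith
    have hx3' : τ (p ^ k) x ∈ closedBall (0 : E n) 3 := by
      rw [mem_closedBall, dist_zero_right]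
      linarith [hτn2 (p ^ k) x (by linarith)]
    have g3 := hη2u _ hx3' _ hx3 (hk x (by linarith))
    have g4 := hδa x hx v hv
    rw [Prod.dist_eq, max_lt_iff] at g3
    rw [dist_eq_norm, dist_eq_norm] at g3
    have g5 : dist (F1 x, ψ0 x) (y, ex σ v) < δ := by
      rw [Prod.dist_eq, max_lt_iff]
      constructor
      · show dist (F1 x) y < δ
        rw [← f1, dist_eq_norm]
        have : F1 x - ((1 - u) • F1 x + u • F1 (τ (p ^ k) x)) =
            -(u • (F1 (τ (p ^ k) x) - F1 x)) := by module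
        rw [this, norm_neg, norm_smul, Real.norm_of_nonneg hu.1]
        calc u * ‖F1 (τ (p ^ k) x) - F1 x‖ ≤ 1 * ‖F1 (τ (p ^ k) x) - F1 x‖ :=
              mul_le_mul_of_nonneg_right hu.2 (norm_nonneg _)
          _ < δ := by rw [one_mul]; exact g3.1
      · show dist (ψ0 x) (ex σ v) < δ
        rw [← f2, dist_eq_norm]
        have : ψ0 x - ((1 - u) • ψ0 x + u • ψ0 (τ (p ^ k) x)) =
            -(u • (ψ0 (τ (p ^ k) x) - ψ0 x)) := by module
        rw [this, norm_neg, norm_smul, Real.norm_of_nonneg hu.1]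
        calc u * ‖ψ0 (τ (p ^ k) x) - ψ0 x‖ ≤ 1 * ‖ψ0 (τ (p ^ k) x) - ψ0 x‖ :=
              mul_le_mul_of_nonneg_right hu.2 (norm_nonneg _)
          _ < δ := by rw [one_mul]; exact g3.2
    linarith
  have h4 : ((p ^ k : ℕ) : ℤ) * d = 0 + e + 0 := (hsum (p ^ k)).unique ((h1.trans he).trans h3)
  have hN0 : (N : ℤ) ≠ 0 := by
    rw [hN]
    have : p ^ (k - 1) ≠ 0 := pow_ne_zero _ (by omega)
    exact_mod_cast this
  have h5 : (N : ℤ) * (p * d + 1) = 0 := by
    rw [hmN] at h4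
    push_cast at h4
    linarith
  have h6 : (p : ℤ) * d + 1 = 0 := (mul_eq_zero.1 h5).resolve_left hN0
  have h7 : (p : ℤ) ∣ 1 := ⟨-d, by linarith⟩
  have h8 := Int.le_of_dvd one_pos h7
  omega

end Pool.Agent.K1H66.HS
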