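import Pool.Agent.K1H66.HS.Glue
import Pool.Agent.K1H66.HS.Yang

/-!
# Invariant components of the set of points whose orbits meet the walls (helper66)
-/

set_option autoImplicit false

open MeasureTheory Set Metric Filter Topology
open scoped ENNReal NNReal ContDiff Real

noncomputable section

namespace Pool.Agent.K1H66.HS

open Pool.Agent.Y485.HS Pool.Agent.Y489.SP Pool.Agent.Y475.HS Pool.Agent.Y532.SP.LOCS

/-- continuous extension and normalisation -/
theorem exists_normal {n : ℕ} {Z : Set (E n)} (hZ : IsCompact Z) (ψ : E n → ℂ)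
    (hψ : ContinuousOn ψ Z) (h0 : ∀ x ∈ Z, ψ x ≠ 0) :
    ∃ Ψ : E n → ℂ, Continuous Ψ ∧ (∀ x, ‖Ψ x‖ ≤ 2) ∧
      ∀ x ∈ Z, Ψ x = ψ x / (‖ψ x‖ : ℂ) := by
  have h1 : ContinuousOn (fun x => ψ x / (‖ψ x‖ : ℂ)) Z := by
    refine hψ.div (Complex.continuous_ofReal.comp_continuousOn hψ.norm) fun x hx => ?_
    exact_mod_cast (norm_pos_iff.2 (h0 x hx)).ne'
  obtain ⟨U, hU⟩ := ContinuousMap.exists_restrict_eq hZ.isClosed
    (⟨Z.domRestrict (fun x => ψ x / (‖ψ x‖ : ℂ)), continuousOn_iff_continuous_domRestrict.1 h1⟩ : C(Z, ℂ))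
  have hU' : ∀ x ∈ Z, U x = ψ x / (‖ψ x‖ : ℂ) := fun x hx =>
    congrArg (fun g : C(Z, ℂ) => g ⟨x, hx⟩) hU
  have hm : ∀ x, (0 : ℝ) < max 1 ‖U x‖ := fun x => lt_max_of_lt_left one_pos
  refine ⟨fun x => U x / (max 1 ‖U x‖ : ℝ), ?_, ?_, ?_⟩
  · have hc : Continuous fun x => U x := map_continuous U
    refine hc.div (Complex.continuous_ofReal.comp (continuous_const.max hc.norm)) fun x => ?_
    exact_mod_cast (hm x).ne'
  · intro x
    rw [norm_div, Complex.norm_real, Real.norm_of_nonneg (hm x).le, div_le_iff₀ (hm x)]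
    nlinarith [le_max_right 1 ‖U x‖, hm x]
  · intro x hx
    have h2 : ‖U x‖ = 1 := by
      rw [hU' x hx, norm_div, Complex.norm_real, norm_norm]
      exact div_self (norm_pos_iff.2 (h0 x hx)).ne'
    show U x / ((max 1 ‖U x‖ : ℝ) : ℂ) = ψ x / (‖ψ x‖ : ℂ)
    rw [h2, max_self, Complex.ofReal_one, div_one, hU' x hx]

/-- a component of the points whose orbits meet the walls is invariant -/
theorem exists_comp {n p : ℕ} (hp : p.Prime) {H : Type} [Group H]
    [TopologicalSpace H] [CompactSpace H] {T : H → E n → E n} (hT : LocAct n H T) (g : H)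
    (hg : Tendsto (fun j : ℕ => g ^ p ^ j) atTop (𝓝 1)) (F : E n → E n)
    (hFc : ContinuousOn F (BB n)) (hdisp : ∀ x ∈ BB n, dist (F x) x ≤ 1 / 4)
    (hinv : ∀ h, ∀ x ∈ BB n, T h x ∈ BB n → F (T h x) = F x) {y : E n}
    (hy : y ∈ ball (0 : E n) 1) {S : Set (E n)} (hS : IsClosed S) {ι : Type} (c : E n → ι)
    (hc : ∀ w, w ∉ S → ∀ᶠ w' in 𝓝 w, c w' = c w)
    (hcg : ∀ x, ‖x‖ ≤ 3 → F x = y → x ∉ S → T g x ∉ S → c (T g x) ≠ c x) :
    ∃ x ∈ Meet T S {x | ‖x‖ ≤ 3 ∧ F x = y},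
      T g x ∈ connectedComponentIn (Meet T S {x | ‖x‖ ≤ 3 ∧ F x = y}) x := by
  by_contra hcon
  push Not at hcon
  have hy1 : ‖y‖ < 1 := by simpa using hy
  set Z : Set (E n) := {x | ‖x‖ ≤ 3 ∧ F x = y} with hZdef
  have hZ3 : ∀ x ∈ Z, ‖x‖ ≤ 3 := fun x hx => hx.1
  have hZB : ∀ x ∈ Z, x ∈ BB n := fun x hx => mem_BB.2 (by linarith [hx.1])
  have hZn : ∀ x ∈ Z, ‖x‖ < 5 / 4 := by
    intro x hx
    have := hdisp x (hZB x hx)
    rw [hx.2, dist_eq_norm] at this
    calc ‖x‖ = ‖y - (y - x)‖ := by congr 1; abel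
      _ ≤ ‖y‖ + ‖y - x‖ := norm_sub_le _ _
      _ < _ := by linarith
  have hZT : ∀ h, ∀ x ∈ Z, T h x ∈ Z := by
    intro h x hx
    have h1 := hZn x hx
    have h2 := norm_T_le hT h (hZB x hx)
    refine ⟨by linarith, ?_⟩
    rw [hinv h x (hZB x hx) (mem_BB.2 (by linarith))]
    exact hx.2
  have hCB : closedBall (0 : E n) 3 ⊆ BB n := closedBall_subset_closedBall (by norm_num)
  have hZc : IsCompact Z := by
    have h1 : IsClosed Z := by
      have h2 : Z = closedBall (0 : E n) 3 ∩ F ⁻¹' {y} := by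
        ext x
        simp [Z]
      rw [h2]
      exact (hFc.mono hCB).preimage_isClosed_of_isClosed isClosed_closedBall
        (isClosed_singleton (x := y))
    exact (isCompact_closedBall (0 : E n) 3).of_isClosed_subset h1 (fun x hx => by
      simpa using hx.1)
  obtain ⟨ψ, hψc, hψ0, hψg⟩ := exists_psi hp hT g hg hZc hZ3 hZT hS c hc
    (fun x hx h1 h2 => hcg x hx.1 hx.2 h1 h2) hcon
  obtain ⟨Ψ, hΨc, hΨ2, hΨ⟩ := exists_normal hZc ψ hψc hψ0
  have hΨ1 : ∀ x ∈ Z, ‖Ψ x‖ = 1 := by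
    intro x hx
    rw [hΨ x hx, norm_div, Complex.norm_real, norm_norm]
    exact div_self (norm_pos_iff.2 (hψ0 x hx)).ne'
  have hΨg : ∀ x ∈ Z, Ψ (T g x) = Complex.exp (2 * π * Complex.I / p) * Ψ x := by
    intro x hx
    have hn1 : ‖Complex.exp (2 * π * Complex.I / p)‖ = 1 := by
      have e : (2 * π * Complex.I / p : ℂ) = ((2 * π / p : ℝ) : ℂ) * Complex.I := by
        push_cast; ring
      rw [e, Complex.norm_exp_ofReal_mul_I]
    rw [hΨ _ (hZT g x hx), hΨ x hx, hψg x hx, norm_mul, hn1, one_mul, mul_div_assoc]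
  have hΨi : ∀ (i : ℕ), ∀ x ∈ Z, Ψ (T (g ^ i) x) =
      Complex.exp (2 * π * Complex.I * (i / p)) * Ψ x := by
    intro i
    induction i with
    | zero =>
      intro x hx
      rw [pow_zero, hT.one x (hZB x hx)]
      simp
    | succ i ih =>
      intro x hx
      rw [pow_succ', hT.mul g (g ^ i) x (hZB x hx) (hZB _ (hZT _ x hx)),
        hΨg _ (hZT _ x hx), ih x hx, ← mul_assoc, ← Complex.exp_add]
      congr 2
      push_cast
      ring
  obtain ⟨F', hF'c, hF'd, hF'e, -⟩ := Pool.Agent.Y739.SP.extend F hFc hdisp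
  choose v hvc hvd hve hvo using fun i : ℕ =>
    Pool.Agent.Y739.SP.extend (T (g ^ i)) (hT.cont_right (g ^ i)) (hT.disp (g ^ i))
  let τ : ℕ → E n → E n := fun i => if i = 0 then id else v i
  have hτT : ∀ i x, ‖x‖ ≤ 3 → τ i x = T (g ^ i) x := by
    intro i x hx
    by_cases hi : i = 0
    · subst hi
      rw [pow_zero, hT.one x (mem_BB.2 (by linarith))]
      rfl
    · have : τ i = v i := if_neg hi
      rw [this, hve i x hx]
  refine yang hp.two_le F' hF'c hF'd y hy1 τ ?_ ?_ ?_ (fun x => rfl) ?_ ?_ ?_ ?_ Ψ hΨc hΨ2 ?_ ?_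
  · intro i
    by_cases hi : i = 0
    · subst hi; exact continuous_id
    · have : τ i = v i := if_neg hi
      rw [this]; exact hvc i
  · intro i x
    by_cases hi : i = 0
    · subst hi
      show dist x x ≤ 1 / 4
      rw [dist_self]; norm_num
    · have : τ i = v i := if_neg hi
      rw [this]; exact hvd i x
  · intro i x hx
    by_cases hi : i = 0
    · subst hi; rfl
    · have : τ i = v i := if_neg hi
      rw [this]; exact hvo i x hx
  · intro i x hx
    have hxB : x ∈ BB n := mem_BB.2 (by linarith)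
    have h2 := norm_T_le hT (g ^ i) hxB
    rw [hτT i x (by linarith), hτT (i + 1) x (by linarith), hτT 1 _ (by linarith), pow_one,
      pow_succ', hT.mul g (g ^ i) x hxB (mem_BB.2 (by linarith))]
  · intro i x hx
    have hxB : x ∈ BB n := mem_BB.2 (by linarith)
    have h2 := norm_T_le hT (g ^ i) hxB
    rw [hτT i x (by linarith), hF'e _ (by linarith), hF'e x (by linarith)]
    exact hinv _ x hxB (mem_BB.2 (by linarith))
  · intro ε hε
    have hg' : Tendsto (fun j : ℕ => g ^ p ^ (j + 1)) atTop (𝓝 1) :=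
      (tendsto_add_atTop_iff_nat (f := fun j : ℕ => g ^ p ^ j) 1).2 hg
    obtain ⟨J, hJ⟩ := unif hT (fun j => g ^ p ^ (j + 1)) hg' ε hε
    refine ⟨J + 1, by omega, fun x hx => ?_⟩
    rw [hτT _ x hx]
    exact hJ x (mem_BB.2 (by linarith))
  · intro ε hε
    obtain ⟨η, hη, h⟩ := equi hT.cont hε
    refine ⟨min η ε, lt_min hη hε, fun i x x' hx hx' hd => ?_⟩
    rw [hτT i x hx, hτT i x' hx']
    exact h _ x (mem_BB.2 (by linarith)) x' (mem_BB.2 (by linarith))
      (hd.trans_le (min_le_left _ _))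
  · intro x hx hFx
    exact hΨ1 x ⟨hx, by rw [← hF'e x hx]; exact hFx⟩
  · intro i x hx hFx
    rw [hτT i x hx]
    exact hΨi i x ⟨hx, by rw [← hF'e x hx]; exact hFx⟩

end Pool.Agent.K1H66.HS
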