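import Pool.Agent.K1H66.HS.Chart2
import Pool.Agent.R775.HC.C4

/-!
# Cosets with small energies of exponent `n + 1` (helper66)

Adaptation of `Pool/Agent/R775/HS/Some.lean`, `Pool/Agent/R775/HC/C4.lean` and of parts of
`Pool/Agent/R775/HS/Glob.lean`.
-/

set_option autoImplicit false

open MeasureTheory Set Metric Filter Topology TopologicalSpace
open scoped ENNReal NNReal

noncomputable section

namespace Pool.Agent.K1H66.HS

open Pool.Agent.Y485.HS Pool.Agent.Y489.SP
open Pool.Agent.W660.GY (NSS GY3)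
open Pool.Agent.R775.HS (Small Stable RegA start' isClosed_triv trivSub SmallPow smallPow_of_hom
  closure_zpowers_le)

section
variable {n : ℕ} {X : Type} [TopologicalSpace X]

/-- the local condition: small powers of `p`-power type act trivially in the charts of the
family -/
def CritT {H : Type} [Group H] [TopologicalSpace H]
    [IsTopologicalGroup H] [MulAction H X] (A : Set (OpenPartialHomeomorph X (E n))) (g : H) :
    Prop :=
  ∀ p : ℕ, p.Prime → Tendsto (fun j : ℕ => g ^ p ^ j) atTop (𝓝 1) →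
    IsCompact ((Subgroup.zpowers g).topologicalClosure : Set H) →
    ∀ φ ∈ A, Small φ ((Subgroup.zpowers g).topologicalClosure : Set H) →
      ∀ v ∈ ball (0 : E n) 1, g • φ.symm v = φ.symm v

variable {A : Set (OpenPartialHomeomorph X (E n))}

theorem locTrivT [T2Space X] (hA : Stable n A)
    {H : Type} [Group H] [TopologicalSpace H] [IsTopologicalGroup H] [CompactSpace H] [T2Space H]
    [TotallyDisconnectedSpace H] [MulAction H X] [ContinuousSMul H X]
    (hcrit : ∀ h : H, CritT A h) {x0 : X} (hx0 : x0 ∈ RegA A) :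
    ∃ K : Subgroup H, IsOpen (K : Set H) ∧ ∀ᶠ x in 𝓝 x0, ∀ k ∈ K, k • x = x := by
  obtain ⟨φ, hφ, hxφ, hφ0, K, hKo, hKs⟩ := start' hA (H := H) hx0
  have hKc : IsClosed (K : Set H) := Subgroup.isClosed_of_isOpen K hKo
  have : CompactSpace K := isCompact_iff_compactSpace.1 hKc.isCompact
  have hDc : IsClosed (trivSub K (φ.symm '' ball (0 : E n) 1) : Set K) :=
    isClosed_triv (Subtype.val : K → H) continuous_subtype_val _
  have hD : trivSub K (φ.symm '' ball (0 : E n) 1) = ⊤ := by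
    refine Pool.Agent.Y215.HS.syl K _ hDc ?_
    intro p hp P hPc hPp k hk
    have : CompactSpace P := isCompact_iff_compactSpace.1 hPc.isCompact
    have h1 : Tendsto (fun j : ℕ => (⟨k, hk⟩ : P) ^ p ^ j) atTop (𝓝 1) :=
      Pool.Agent.Y340.SP.t_POW p hp P hPp ⟨k, hk⟩
    have hc : Continuous (fun q : P => ((q : K) : H)) :=
      continuous_subtype_val.comp continuous_subtype_val
    have h2 : Tendsto (fun j : ℕ => (k : H) ^ p ^ j) atTop (𝓝 1) := by
      have h3 := (hc.tendsto 1).comp h1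
      simpa [Function.comp_def] using h3
    rintro _ ⟨v, hv, rfl⟩
    have hle : (Subgroup.zpowers (k : H)).topologicalClosure ≤ K :=
      Subgroup.topologicalClosure_minimal _ ((Subgroup.zpowers_le).2 k.2) hKc
    exact hcrit _ p hp h2 (Subgroup.isClosed_topologicalClosure _).isCompact φ hφ
      ⟨hKs.1, fun h hh => hKs.2 h (hle hh)⟩ v hv
  refine ⟨K, hKo, ?_⟩
  have hopen : IsOpen (φ.source ∩ φ ⁻¹' ball 0 1) :=
    φ.isOpen_inter_preimage isOpen_ball
  have hmem : x0 ∈ φ.source ∩ φ ⁻¹' ball 0 1 := ⟨hxφ, by simp [hφ0]⟩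
  filter_upwards [hopen.mem_nhds hmem] with x hx k hk
  have h1 : (⟨k, hk⟩ : K) ∈ trivSub K (φ.symm '' ball (0 : E n) 1) := by
    rw [hD]; exact Subgroup.mem_top _
  exact h1 x ⟨φ x, hx.2, φ.left_inv hx.1⟩

/-- the set of the elements with small energies on `B` and with images of `B` in `B'` -/
def DsetM {S : Type} [Group S] [MulAction S X] (ψ χ : OpenPartialHomeomorph X (E n))
    (r b : ℕ → ℝ) (B B' : Set (E n)) (m : ℕ) : Set S :=
  {s | (IsCompact (closure B') ∧ closure B' ⊆ χ.target ∧ B ⊆ ψ.target ∧ B.Nonempty ∧ IsOpen B) ∧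
    (∀ v ∈ B, s • ψ.symm v ∈ χ.symm '' closure B') ∧
    ∀ j, m ≤ j → EnerM (n + 1) B (r j) (b j) (fun v => χ (s • ψ.symm v))}

theorem isClosed_DsetM [T2Space X] {S : Type} [Group S] [TopologicalSpace S] [MulAction S X]
    [ContinuousSMul S X] (ψ χ : OpenPartialHomeomorph X (E n)) (r b : ℕ → ℝ) (B B' : Set (E n))
    (m : ℕ) : IsClosed (DsetM (S := S) ψ χ r b B B' m) := by
  by_cases hc : IsCompact (closure B') ∧ closure B' ⊆ χ.target ∧ B ⊆ ψ.target ∧ B.Nonempty ∧
      IsOpen B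
  swap
  · have : DsetM (S := S) ψ χ r b B B' m = ∅ := by
      ext s
      simp only [DsetM, mem_ofPred_eq, mem_empty_iff_false, iff_false, not_and]
      intro h
      exact (hc h).elim
    rw [this]
    exact isClosed_empty
  obtain ⟨hc1, hc2, hc3, hc4⟩ := id hc
  set D1 : Set S := {s | ∀ v ∈ B, s • ψ.symm v ∈ χ.symm '' closure B'} with hD1
  have hcl : IsClosed (χ.symm '' closure B') :=
    (hc1.image_of_continuousOn (χ.continuousOn_symm.mono hc2)).isClosed
  have hsrc : χ.symm '' closure B' ⊆ χ.source := by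
    rintro _ ⟨v, hv, rfl⟩
    exact χ.map_target (hc2 hv)
  have hD1c : IsClosed D1 := by
    have h1 : D1 = ⋂ v ∈ B, {s : S | s • ψ.symm v ∈ χ.symm '' closure B'} := by
      ext s
      simp [D1]
    rw [h1]
    refine isClosed_biInter fun v _ => ?_
    have hcont : Continuous (fun s : S => s • ψ.symm v) := by fun_prop
    exact hcl.preimage hcont
  have hcont : ∀ v ∈ B, ContinuousOn (fun s : S => χ (s • ψ.symm v)) D1 := by
    intro v hv
    have h1 : Continuous (fun s : S => s • ψ.symm v) := by fun_prop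
    exact χ.continuousOn.comp h1.continuousOn fun s hs => hsrc (hs v hv)
  have heq : DsetM (S := S) ψ χ r b B B' m = D1 ∩ ⋂ (j : ℕ) (_ : m ≤ j) (A : Finset (E n))
      (x : E n → E n) (y : E n → E n)
      (_ : ∀ a ∈ A, a ∈ B ∧ x a ∈ B ∧ y a ∈ B ∧ dist (x a) a ≤ r j ∧ dist (y a) a ≤ r j)
      (_ : ∀ a ∈ A, ∀ a' ∈ A, a ≠ a' → r j ≤ dist a a'),
      (D1 ∩ (fun s : S => ∑ a ∈ A, dist (χ (s • ψ.symm (x a))) (χ (s • ψ.symm (y a))) ^ (n + 1)) ⁻¹'
        Iic (b j)) := by
    ext s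
    simp only [DsetM, mem_ofPred_eq, mem_inter_iff, mem_iInter, mem_preimage, mem_Iic, EnerM, hD1]
    constructor
    · rintro ⟨-, h1, h2⟩
      exact ⟨h1, fun j hj A x y h3 h4 => ⟨h1, h2 j hj A x y h3 h4⟩⟩
    · rintro ⟨h1, h2⟩
      exact ⟨hc, h1, fun j hj A x y h3 h4 => (h2 j hj A x y h3 h4).2⟩
  rw [heq]
  refine hD1c.inter ?_
  refine isClosed_iInter fun j => isClosed_iInter fun _ => isClosed_iInter fun A =>
    isClosed_iInter fun x => isClosed_iInter fun y => isClosed_iInter fun h1 =>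
    isClosed_iInter fun _ => ?_
  refine ContinuousOn.preimage_isClosed_of_isClosed ?_ hD1c isClosed_Iic
  refine continuousOn_finsetSum _ fun a ha => ?_
  exact (continuous_dist.comp_continuousOn
    ((hcont _ (h1 a ha).2.1).prodMk (hcont _ (h1 a ha).2.2.1))).pow (n + 1)

theorem exists_DsetM {S : Type} [Group S] [TopologicalSpace S] [MulAction S X]
    [ContinuousSMul S X] (ψ χ : OpenPartialHomeomorph X (E n)) {r b : ℕ → ℝ} {s : S} {W : Set X}
    (hWo : IsOpen W) {x0 : X} (hx0 : x0 ∈ W) (hWs : W ⊆ ψ.source) (hsW : ∀ x ∈ W, s • x ∈ χ.source)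
    {m : ℕ} (hE : ∀ j, m ≤ j → EnerM (n + 1) (ψ '' W) (r j) (b j) (fun v => χ (s • ψ.symm v))) :
    ∃ B ∈ countableBasis (E n), ∃ B' ∈ countableBasis (E n), ψ x0 ∈ B ∧
      s ∈ DsetM ψ χ r b B B' m := by
  have hw : χ (s • x0) ∈ χ.target := χ.map_source (hsW x0 hx0)
  obtain ⟨ρ, hρ, hball⟩ := (nhds_basis_closedBall.mem_iff).1 (χ.open_target.mem_nhds hw)
  obtain ⟨B', hB', hwB', hB's⟩ := (isBasis_countableBasis (E n)).mem_nhds_iff.1
    (ball_mem_nhds (χ (s • x0)) hρ)
  have hclB' : closure B' ⊆ closedBall (χ (s • x0)) ρ :=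
    closure_minimal (hB's.trans ball_subset_closedBall) isClosed_closedBall
  have hcomp : IsCompact (closure B') :=
    (isCompact_closedBall _ _).of_isClosed_subset isClosed_closure hclB'
  have hBo' : IsOpen B' := (isBasis_countableBasis (E n)).isOpen hB'
  have hx0s := hWs hx0
  have hv0 : ψ x0 ∈ ψ.target := ψ.map_source hx0s
  have hct : ContinuousAt ψ.symm (ψ x0) := ψ.continuousAt_symm hv0
  have hleft : ψ.symm (ψ x0) = x0 := ψ.left_inv hx0s
  have h1 : ∀ᶠ v in 𝓝 (ψ x0), v ∈ ψ.target ∧ ψ.symm v ∈ W ∧ χ (s • ψ.symm v) ∈ B' := by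
    have e1 : ∀ᶠ v in 𝓝 (ψ x0), v ∈ ψ.target := ψ.open_target.mem_nhds hv0
    have e2 : ∀ᶠ v in 𝓝 (ψ x0), ψ.symm v ∈ W :=
      hct.eventually_mem (by rw [hleft]; exact hWo.mem_nhds hx0)
    have e3 : ContinuousAt (fun v => χ (s • ψ.symm v)) (ψ x0) := by
      have f1 : ContinuousAt (fun v => s • ψ.symm v) (ψ x0) := hct.const_smul s
      refine ContinuousAt.comp (g := χ) (f := fun v => s • ψ.symm v) ?_ f1
      simp only [hleft]
      exact χ.continuousAt (hsW x0 hx0)
    have e4 : ∀ᶠ v in 𝓝 (ψ x0), χ (s • ψ.symm v) ∈ B' :=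
      e3.eventually_mem (by simp only [hleft]; exact hBo'.mem_nhds hwB')
    exact e1.and (e2.and e4)
  obtain ⟨B, hB, hvB, hBs⟩ := (isBasis_countableBasis (E n)).mem_nhds_iff.1 h1
  refine ⟨B, hB, B', hB', hvB, ⟨hcomp, hclB'.trans hball, fun v hv => (hBs hv).1, ⟨_, hvB⟩,
    (isBasis_countableBasis (E n)).isOpen hB⟩, ?_, ?_⟩
  · intro v hv
    obtain ⟨f1, f2, f3⟩ := hBs hv
    exact ⟨_, subset_closure f3, χ.left_inv (hsW _ f2)⟩
  · intro j hj
    refine enerM_mono (fun v hv => ?_) le_rfl (hE j hj)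
    obtain ⟨f1, f2, f3⟩ := hBs hv
    exact ⟨_, f2, ψ.right_inv f1⟩

/-- a coset of an open subgroup with uniformly small energies gives an open subgroup which acts
trivially -/
theorem coset_trivM [T2Space X] {ψ χ : OpenPartialHomeomorph X (E n)}
    {S : Type} [Group S] [TopologicalSpace S] [IsTopologicalGroup S] [CompactSpace S] [T2Space S]
    [TotallyDisconnectedSpace S] [MulAction S X] [ContinuousSMul S X] {r b : ℕ → ℝ}
    (hr : ∀ j, 0 < r j) (hrb : Tendsto (fun j => r j * b j) atTop (𝓝 0)) {B B' : Set (E n)}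
    {m : ℕ} {s0 : S} {K : Subgroup S} (hKo : IsOpen (K : Set S))
    (hD : ∀ k ∈ K, s0 * k ∈ DsetM ψ χ r b B B' m) {v1 : E n} (hv1 : v1 ∈ B) :
    ∃ K1 : Subgroup S, IsOpen (K1 : Set S) ∧ ∀ᶠ x in 𝓝 (ψ.symm v1), ∀ k ∈ K1, k • x = x := by
  have hKc : IsClosed (K : Set S) := Subgroup.isClosed_of_isOpen K hKo
  have : CompactSpace K := isCompact_iff_compactSpace.1 hKc.isCompact
  obtain ⟨⟨hc1, hc2, hc3, hc4, hc5⟩, hc6, hc7⟩ := hD 1 K.one_mem
  have hsrc : χ.symm '' closure B' ⊆ χ.source := by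
    rintro _ ⟨v, hv, rfl⟩
    exact χ.map_target (hc2 hv)
  rw [mul_one] at hc6
  -- the charts
  let A : Set (OpenPartialHomeomorph X (E n)) := {φ | φ.source ⊆ ψ.source ∩ ψ ⁻¹' B ∧
    ∃ L : ℝ, 0 ≤ L ∧ ∀ a ∈ φ.source, ∀ a' ∈ φ.source,
      dist (φ a) (φ a') ≤ L * dist (χ (s0 • a)) (χ (s0 • a'))}
  have hA : Stable n A := by
    rintro φ ⟨h1, L, hL0, hL⟩ e ⟨L', hL'⟩
    have hsub : (φ.trans e).source ⊆ φ.source := by
      rw [OpenPartialHomeomorph.trans_source]
      exact inter_subset_left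
    refine ⟨hsub.trans h1, |L'| * L, by positivity, fun a ha a' ha' => ?_⟩
    have ha2 := ha
    have ha2' := ha'
    rw [OpenPartialHomeomorph.trans_source] at ha2 ha2'
    have e1 := (hL' (φ a) ha2.2 (φ a') ha2'.2).1
    have e2 := hL a (hsub ha) a' (hsub ha')
    calc dist ((φ.trans e) a) ((φ.trans e) a') ≤ L' * dist (φ a) (φ a') := e1
      _ ≤ |L'| * dist (φ a) (φ a') := mul_le_mul_of_nonneg_right (le_abs_self _) dist_nonneg
      _ ≤ |L'| * (L * dist (χ (s0 • a)) (χ (s0 • a'))) := by gcongr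
      _ = _ := by ring
  have hO : IsOpen (ψ.source ∩ ψ ⁻¹' B) := ψ.isOpen_inter_preimage hc5
  have hx1 : ψ.symm v1 ∈ RegA A := by
    refine ⟨((Homeomorph.smul s0).toOpenPartialHomeomorph.trans χ).restrOpen _ hO, ⟨?_, 1,
      zero_le_one, ?_⟩, ?_⟩
    · rw [OpenPartialHomeomorph.restrOpen_source]
      exact inter_subset_right
    · intro a _ a' _
      rw [one_mul]
      exact le_of_eq rfl
    · rw [OpenPartialHomeomorph.restrOpen_source, OpenPartialHomeomorph.trans_source]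
      refine ⟨⟨mem_univ _, ?_⟩, ψ.map_target (hc3 hv1), ?_⟩
      · show s0 • ψ.symm v1 ∈ χ.source
        exact hsrc (hc6 v1 hv1)
      · show ψ (ψ.symm v1) ∈ B
        rw [ψ.right_inv (hc3 hv1)]
        exact hv1
  have hcrit : ∀ k : K, CritT A k := by
    intro k p hp hgp hcomp φ hφ hsm
    obtain ⟨hφs, L, hL0, hL⟩ := hφ
    have h34 : closedBall (0 : E n) 3 ⊆ closedBall 0 4 :=
      closedBall_subset_closedBall (by norm_num)
    have ht3 : closedBall (0 : E n) 3 ⊆ φ.target := h34.trans hsm.1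
    have hτs : ∀ v ∈ closedBall (0 : E n) 3, φ.symm v ∈ φ.source := fun v hv =>
      φ.map_target (ht3 hv)
    have hτψ : ∀ v ∈ closedBall (0 : E n) 3, ψ.symm (ψ (φ.symm v)) = φ.symm v := fun v hv =>
      ψ.left_inv (hφs (hτs v hv)).1
    refine triv_chart hp hgp (τ := fun v => ψ (φ.symm v)) (σ := fun u => φ (ψ.symm u)) hcomp hsm
      ?_ ?_ ?_ (r := fun j => r (j + m)) (b := fun j => L ^ (n + 1) * b (j + m))
      (fun j => hr _) ?_ ?_
    · refine ψ.continuousOn.comp (φ.continuousOn_symm.mono ht3) fun v hv => ?_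
      exact (hφs (hτs v hv)).1
    · refine φ.continuousOn.comp (ψ.continuousOn_symm.mono ?_) ?_
      · rintro _ ⟨v, hv, rfl⟩
        exact ψ.map_source (hφs (hτs v hv)).1
      · rintro _ ⟨v, hv, rfl⟩
        show ψ.symm (ψ (φ.symm v)) ∈ φ.source
        rw [hτψ v hv]
        exact hτs v hv
    · intro v hv
      show φ (ψ.symm (ψ (φ.symm v))) = v
      rw [hτψ v hv, φ.right_inv (ht3 hv)]
    · have h1 := (tendsto_add_atTop_iff_nat m).2 hrb
      have h2 := h1.const_mul (L ^ (n + 1))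
      rw [mul_zero] at h2
      refine h2.congr fun j => ?_
      ring
    · intro q hq j
      have hEq := (hD (q : S) q.2).2.2 (j + m) (by omega)
      intro F x y h1 h2
      have hval : ∀ u ∈ (fun v => ψ (φ.symm v)) '' closedBall (0 : E n) 3,
          u ∈ B ∧ φ.symm (φ (ψ.symm u)) = ψ.symm u ∧ (q : S) • ψ.symm u ∈ φ.source := by
        rintro _ ⟨v, hv, rfl⟩
        have e1 := hτψ v hv
        refine ⟨(hφs (hτs v hv)).2, ?_, ?_⟩
        · show φ.symm (φ (ψ.symm (ψ (φ.symm v)))) = ψ.symm (ψ (φ.symm v))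
          rw [e1, φ.left_inv (hτs v hv)]
        · show (q : S) • ψ.symm (ψ (φ.symm v)) ∈ φ.source
          rw [e1]
          exact (hsm.2 q hq v (h34 hv)).1
      have h3 := hEq F x y (fun a ha => by
        obtain ⟨g1, g2, g3, g4⟩ := h1 a ha
        exact ⟨(hval _ g1).1, (hval _ g2).1, (hval _ g3).1, g4⟩) h2
      calc ∑ a ∈ F, dist (φ (q • φ.symm (φ (ψ.symm (x a))))) (φ (q • φ.symm (φ (ψ.symm (y a))))) ^ (n + 1)
          ≤ ∑ a ∈ F, L ^ (n + 1) * dist (χ ((s0 * (q : S)) • ψ.symm (x a)))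
              (χ ((s0 * (q : S)) • ψ.symm (y a))) ^ (n + 1) := by
            refine Finset.sum_le_sum fun a ha => ?_
            obtain ⟨-, g2, g3, -⟩ := h1 a ha
            obtain ⟨-, hx2, hx3⟩ := hval _ g2
            obtain ⟨-, hy2, hy3⟩ := hval _ g3
            rw [hx2, hy2, ← mul_pow, mul_smul, mul_smul]
            exact pow_le_pow_left₀ dist_nonneg (hL _ hx3 _ hy3) (n + 1)
        _ = L ^ (n + 1) * ∑ a ∈ F, dist (χ ((s0 * (q : S)) • ψ.symm (x a)))
              (χ ((s0 * (q : S)) • ψ.symm (y a))) ^ (n + 1) := by rw [Finset.mul_sum]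
        _ ≤ L ^ (n + 1) * b (j + m) := by gcongr
  obtain ⟨K1, hK1o, hK1t⟩ := locTrivT hA (H := K) hcrit hx1
  refine ⟨K1.map K.subtype, ?_, ?_⟩
  · rw [Subgroup.coe_map]
    exact hKo.isOpenMap_subtype_val _ hK1o
  · filter_upwards [hK1t] with x hx
    rintro _ ⟨k, hk, rfl⟩
    exact hx k hk

end

end Pool.Agent.K1H66.HS
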