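import Pool.Agent.Y489.SP.Final

/-!
# The degree of a continuous map of Euclidean space on a bounded open set (helper66)

Built on the smooth degree theory of project SP of the starting library (helper489 and others).
-/

set_option autoImplicit false

open MeasureTheory Set Metric Filter Topology
open scoped ENNReal NNReal ContDiff

noncomputable section

namespace Pool.Agent.K1H66.HS

open Pool.Agent.Y485.HS Pool.Agent.Y489.SP

variable {m : ℕ}

/-- a smooth map which is the identity outside a ball -/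
def Sm (f : E m → E m) : Prop := ContDiff ℝ 1 f ∧ ∃ R : ℝ, ∀ x, R ≤ ‖x‖ → f x = x

/-- the degree of `f` on `U` over `0` is `d` -/
def Dg (f : E m → E m) (U : Set (E m)) (d : ℤ) : Prop :=
  ∃ δ : ℝ, 0 < δ ∧ ∀ f0 : E m → E m, Sm f0 → (∀ x ∈ thickening 1 U, dist (f0 x) (f x) < δ) →
    ∀ φ : E m → ℝ, Continuous φ → (∀ w, δ ≤ ‖w‖ → φ w = 0) →
      ∫ x in U, φ (f0 x) * (fderiv ℝ f0 x).det = d * ∫ w, φ w

theorem sm_cut {f : E m → E m} (hf : ContDiff ℝ 1 f) {B : Set (E m)}
    (hB : Bornology.IsBounded B) : ∃ f0 : E m → E m, Sm f0 ∧ ∀ x ∈ B, f0 x = f x := by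
  obtain ⟨R, hR⟩ := hB.subset_closedBall (0 : E m)
  have hp : 0 ≤ max R 0 := le_max_right _ _
  let χ : ContDiffBump (0 : E m) := ⟨max R 0 + 1, max R 0 + 2, by linarith, by linarith⟩
  refine ⟨fun x => x + χ x • (f x - x), ⟨?_, max R 0 + 2, ?_⟩, ?_⟩
  · exact contDiff_id.add (χ.contDiff.smul (hf.sub contDiff_id))
  · intro x hx
    have h1 : χ x = 0 := χ.zero_of_le_dist (by rw [dist_zero_right]; exact hx)
    show x + χ x • (f x - x) = x
    rw [h1, zero_smul, add_zero]
  · intro x hx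
    have h2 := hR hx
    rw [mem_closedBall, dist_zero_right] at h2
    have h1 : χ x = 1 := χ.one_of_mem_closedBall (by
      rw [mem_closedBall, dist_zero_right]
      show ‖x‖ ≤ max R 0 + 1
      linarith [le_max_left R 0])
    show x + χ x • (f x - x) = f x
    rw [h1, one_smul, add_sub_cancel]

theorem exists_sm {f : E m → E m} (hf : Continuous f) {B : Set (E m)}
    (hB : Bornology.IsBounded B) {δ : ℝ} (hδ : 0 < δ) :
    ∃ f0 : E m → E m, Sm f0 ∧ ∀ x ∈ B, dist (f0 x) (f x) < δ := by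
  obtain ⟨R, hR⟩ := hB.subset_closedBall (0 : E m)
  have hp : 0 ≤ max R 0 := le_max_right _ _
  let χ : ContDiffBump (0 : E m) := ⟨max R 0 + 1, max R 0 + 2, by linarith, by linarith⟩
  have hc : Continuous (fun x => χ x • (f x - x)) := χ.continuous.smul (hf.sub continuous_id)
  have hs : HasCompactSupport (fun x => χ x • (f x - x)) := by
    refine HasCompactSupport.intro (isCompact_closedBall (0 : E m) (max R 0 + 2)) fun z hz => ?_
    rw [mem_closedBall, dist_zero_right, not_le] at hz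
    have h1 : χ z = 0 := χ.zero_of_le_dist (by rw [dist_zero_right]; exact hz.le)
    rw [h1, zero_smul]
  obtain ⟨g, hgC, hg⟩ := (hs.uniformContinuous_of_continuous hc).exists_contDiff_dist_le hδ
  have hg1 : ContDiff ℝ 1 (fun x => x + g x) := by
    have h1 : ContDiff ℝ ∞ (fun x => x + g x) := contDiff_id.add hgC
    exact h1.of_le (by exact_mod_cast le_top)
  obtain ⟨f0, hf0, hf0B⟩ := sm_cut hg1 hB
  refine ⟨f0, hf0, fun x hx => ?_⟩
  have h2 := hR hx
  rw [mem_closedBall, dist_zero_right] at h2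
  have h1 : χ x = 1 := χ.one_of_mem_closedBall (by
    rw [mem_closedBall, dist_zero_right]
    show ‖x‖ ≤ max R 0 + 1
    linarith [le_max_left R 0])
  have h3 := hg x
  rw [hf0B x hx, dist_eq_norm]
  rw [h1, one_smul, dist_eq_norm] at h3
  have h4 : x + g x - f x = g x - (f x - x) := by abel
  rw [h4]
  exact h3

theorem sep {f : E m → E m} (hf : Continuous f) {U : Set (E m)} (hU : IsOpen U)
    (hUb : Bornology.IsBounded U) (h0 : ∀ x ∈ frontier U, f x ≠ 0) :
    ∃ η δ : ℝ, 0 < η ∧ η ≤ 1 ∧ 0 < δ ∧ ∀ x ∈ thickening η U \ U, 4 * δ ≤ ‖f x‖ := by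
  have hcl : IsCompact (closure U) := hUb.isCompact_closure
  have hK : IsCompact (frontier U) := hcl.of_isClosed_subset isClosed_frontier frontier_subset_closure
  obtain ⟨δ, hδ, hδK⟩ : ∃ δ : ℝ, 0 < δ ∧ ∀ x ∈ frontier U, 8 * δ ≤ ‖f x‖ := by
    rcases (frontier U).eq_empty_or_nonempty with he | hne
    · exact ⟨1, one_pos, fun x hx => by rw [he] at hx; exact hx.elim⟩
    · obtain ⟨x0, hx0, hmin⟩ := hK.exists_isMinOn hne hf.norm.continuousOn
      have hp : 0 < ‖f x0‖ := norm_pos_iff.2 (h0 x0 hx0)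
      refine ⟨‖f x0‖ / 8, by positivity, fun x hx => ?_⟩
      have : ‖f x0‖ ≤ ‖f x‖ := hmin hx
      linarith
  have hO : IsOpen (U ∪ {x | 4 * δ < ‖f x‖}) := hU.union (isOpen_lt continuous_const hf.norm)
  have hsub : closure U ⊆ U ∪ {x | 4 * δ < ‖f x‖} := by
    rw [closure_eq_self_union_frontier]
    refine union_subset_union_right _ fun x hx => ?_
    have := hδK x hx
    show 4 * δ < ‖f x‖
    linarith
  obtain ⟨η, hη, hηs⟩ := hcl.exists_thickening_subset_open hO hsub
  refine ⟨min η 1, δ, lt_min hη one_pos, min_le_right _ _, hδ, ?_⟩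
  rintro x ⟨hx, hxU⟩
  have h1 : x ∈ thickening η (closure U) :=
    thickening_mono (min_le_left _ _) _ (thickening_subset_of_subset _ subset_closure hx)
  rcases hηs h1 with h2 | h2
  · exact absurd h2 hxU
  · exact (show 4 * δ < ‖f x‖ from h2).le

theorem Dg.exists {f : E m → E m} (hf : Continuous f) {U : Set (E m)} (hU : IsOpen U)
    (hUb : Bornology.IsBounded U) (h0 : ∀ x ∈ frontier U, f x ≠ 0) : ∃ d : ℤ, Dg f U d := by
  obtain ⟨η, δ, hη, hη1, hδ, hsep⟩ := sep hf hU hUb h0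
  obtain ⟨f1, hf1, hf1a⟩ := exists_sm hf (hUb.thickening (δ := 1)) hδ
  obtain ⟨R1, hR1⟩ := hf1.2
  have hV : Bornology.IsBounded (thickening η U) := hUb.thickening
  have hmem : ∀ x ∈ thickening η U \ U, x ∈ thickening 1 U := fun x hx =>
    thickening_mono hη1 _ hx.1
  obtain ⟨d, hd⟩ := Pool.Agent.Y147.SP.t_INT homt m f1 R1 hf1.1 hR1 U (thickening η U) η δ 0 hU hV
    hη hδ subset_rfl (by
      intro x hx
      have h1 := hsep x hx
      have h2 := hf1a x (hmem x hx)
      rw [dist_zero_right]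
      rw [dist_eq_norm] at h2
      have h3 : ‖f x‖ ≤ ‖f1 x‖ + ‖f1 x - f x‖ := by
        have := norm_sub_le (f1 x) (f1 x - f x)
        rwa [sub_sub_cancel] at this
      linarith)
  refine ⟨d, δ / 2, by positivity, fun f0 hf0 hf0a φ hφ hφ0 => ?_⟩
  have h1 := homt m f1 f0 R1 hf1.1 hf0.1 hR1 U (thickening η U) η δ 0 hU hV hη hδ subset_rfl (by
      intro x hx t ht
      have h1 := hsep x hx
      have h2 := hf1a x (hmem x hx)
      have h3 := hf0a x (hmem x hx)
      rw [dist_zero_right]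
      rw [dist_eq_norm] at h2 h3
      have h4 : f1 x + t • (f0 x - f1 x) - f x = (1 - t) • (f1 x - f x) + t • (f0 x - f x) := by
        module
      have h5 : ‖f1 x + t • (f0 x - f1 x) - f x‖ ≤ δ := by
        rw [h4]
        calc ‖(1 - t) • (f1 x - f x) + t • (f0 x - f x)‖
            ≤ ‖(1 - t) • (f1 x - f x)‖ + ‖t • (f0 x - f x)‖ := norm_add_le _ _
          _ = (1 - t) * ‖f1 x - f x‖ + t * ‖f0 x - f x‖ := by
              rw [norm_smul, norm_smul, Real.norm_of_nonneg (by linarith [ht.2]),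
                Real.norm_of_nonneg ht.1]
          _ ≤ (1 - t) * δ + t * δ :=
              add_le_add (mul_le_mul_of_nonneg_left h2.le (by linarith [ht.2]))
                (mul_le_mul_of_nonneg_left (by linarith) ht.1)
          _ = δ := by ring
      have h6 : ‖f x‖ ≤ ‖f1 x + t • (f0 x - f1 x)‖ + ‖f1 x + t • (f0 x - f1 x) - f x‖ := by
        have := norm_sub_le (f1 x + t • (f0 x - f1 x)) (f1 x + t • (f0 x - f1 x) - f x)
        rwa [sub_sub_cancel] at this
      linarith) φ hφ (fun w hw => hφ0 w (by rw [dist_zero_right] at hw; linarith))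
  rw [h1]
  exact hd φ hφ (fun w hw => hφ0 w (by rwa [dist_zero_right] at hw))

/-- a test function -/
theorem exists_test {δ : ℝ} (hδ : 0 < δ) : ∃ φ : E m → ℝ, Continuous φ ∧
    (∀ w, δ ≤ ‖w‖ → φ w = 0) ∧ 0 < ∫ w, φ w := by
  have hφc : Continuous (fun w : E m => max 0 (δ - ‖w‖)) := by fun_prop
  refine ⟨fun w => max 0 (δ - ‖w‖), hφc, fun w hw => max_eq_left (by linarith), ?_⟩
  have hφs : HasCompactSupport (fun w : E m => max 0 (δ - ‖w‖)) := by
    refine HasCompactSupport.intro (isCompact_closedBall (0 : E m) δ) fun z hz => ?_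
    rw [mem_closedBall, dist_zero_right, not_le] at hz
    exact max_eq_left (by linarith)
  apply hφc.integral_pos_of_hasCompactSupport_nonneg_nonzero (x := 0) hφs
  · intro w
    exact le_max_left _ _
  · show max 0 (δ - ‖(0 : E m)‖) ≠ 0
    rw [norm_zero, sub_zero, max_eq_right hδ.le]
    exact hδ.ne'

theorem Dg.unique {f : E m → E m} (hf : Continuous f) {U : Set (E m)}
    (hUb : Bornology.IsBounded U) {d d' : ℤ} (h : Dg f U d) (h' : Dg f U d') : d = d' := by
  obtain ⟨δ, hδ, h⟩ := h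
  obtain ⟨δ', hδ', h'⟩ := h'
  have hm : 0 < min δ δ' := lt_min hδ hδ'
  obtain ⟨f0, hf0, hf0a⟩ := exists_sm hf (hUb.thickening (δ := 1)) hm
  obtain ⟨φ, hφ, hφ0, hφp⟩ := exists_test (m := m) hm
  have e1 := h f0 hf0 (fun x hx => (hf0a x hx).trans_le (min_le_left _ _)) φ hφ
    (fun w hw => hφ0 w ((min_le_left _ _).trans hw))
  have e2 := h' f0 hf0 (fun x hx => (hf0a x hx).trans_le (min_le_right _ _)) φ hφ
    (fun w hw => hφ0 w ((min_le_right _ _).trans hw))
  rw [e1] at e2
  have e3 : (d : ℝ) = d' := mul_right_cancel₀ hφp.ne' e2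
  exact_mod_cast e3

theorem Dg.near {f : E m → E m} {U : Set (E m)} {d : ℤ} (h : Dg f U d) : ∃ ε : ℝ, 0 < ε ∧
    ∀ g : E m → E m, (∀ x ∈ thickening 1 U, dist (g x) (f x) < ε) → Dg g U d := by
  obtain ⟨δ, hδ, h⟩ := h
  refine ⟨δ / 2, by positivity, fun g hg => ⟨δ / 2, by positivity, fun f0 hf0 hf0a φ hφ hφ0 => ?_⟩⟩
  refine h f0 hf0 (fun x hx => ?_) φ hφ (fun w hw => hφ0 w (by linarith))
  have h1 := dist_triangle (f0 x) (g x) (f x)
  have h2 := hf0a x hx
  have h3 := hg x hx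
  linarith

/-- homotopy invariance -/
theorem Dg.homotopy {H : ℝ → E m → E m} (hH : Continuous (fun q : ℝ × E m => H q.1 q.2))
    {U : Set (E m)} (hU : IsOpen U) (hUb : Bornology.IsBounded U)
    (h0 : ∀ t ∈ Icc (0 : ℝ) 1, ∀ x ∈ frontier U, H t x ≠ 0) {d : ℤ} (h : Dg (H 0) U d) :
    Dg (H 1) U d := by
  have hHt : ∀ t, Continuous (H t) := fun t =>
    hH.comp (by fun_prop : Continuous (fun x : E m => (t, x)))
  -- local constancy
  have hloc : ∀ t ∈ Icc (0 : ℝ) 1, ∃ d0 : ℤ, Dg (H t) U d0 ∧ ∀ᶠ s in 𝓝 t, Dg (H s) U d0 := by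
    intro t ht
    obtain ⟨d0, hd0⟩ := Dg.exists (hHt t) hU hUb (h0 t ht)
    obtain ⟨ε, hε, hεg⟩ := hd0.near
    refine ⟨d0, hd0, ?_⟩
    have hC : IsCompact (closure (thickening 1 U)) := (hUb.thickening (δ := 1)).isCompact_closure
    have key : ∀ᶠ s in 𝓝 t, ∀ x ∈ closure (thickening 1 U), dist (H s x) (H t x) < ε := by
      refine hC.eventually_forall_of_forall_eventually
        (P := fun s x => dist (H s x) (H t x) < ε) ?_
      intro x _
      have h3 : Continuous (fun q : ℝ × E m => H t q.2) := (hHt t).comp continuous_snd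
      have h1 : Continuous (fun q : ℝ × E m => dist (H q.1 q.2) (H t q.2)) := hH.dist h3
      have h2 : dist (H t x) (H t x) < ε := by rwa [dist_self]
      have h4 : ContinuousAt (fun q : ℝ × E m => dist (H q.1 q.2) (H t q.2)) (t, x) :=
        h1.continuousAt
      exact h4.eventually (gt_mem_nhds h2)
    filter_upwards [key] with s hs
    exact hεg (H s) fun x hx => hs x (subset_closure hx)
  -- the set of the parameters with degree `d`
  let S : Set ℝ := {t | t ∈ Icc (0 : ℝ) 1 ∧ Dg (H t) U d}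
  have hS : S = Icc (0 : ℝ) 1 := by
    refine Subset.antisymm (fun t ht => ht.1) ?_
    have hpre : IsPreconnected (Icc (0 : ℝ) 1) := isPreconnected_Icc
    let A : Set ℝ := {t | ∀ᶠ s in 𝓝 t, s ∈ Icc (0 : ℝ) 1 → Dg (H s) U d}
    let B : Set ℝ := {t | ∀ᶠ s in 𝓝 t, s ∈ Icc (0 : ℝ) 1 → ¬ Dg (H s) U d}
    have hA : IsOpen A := by
      rw [isOpen_iff_mem_nhds]
      intro t ht
      exact eventually_eventually_nhds.2 ht
    have hB : IsOpen B := by
      rw [isOpen_iff_mem_nhds]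
      intro t ht
      exact eventually_eventually_nhds.2 ht
    have hcov : Icc (0 : ℝ) 1 ⊆ A ∪ B := by
      intro t ht
      obtain ⟨d0, hd0, hev⟩ := hloc t ht
      by_cases hd : d0 = d
      · left
        subst hd
        exact hev.mono fun s hs _ => hs
      · right
        refine hev.mono fun s hs hsI hsd => hd ?_
        exact Dg.unique (hHt s) hUb hs hsd
    have hdisj : Icc (0 : ℝ) 1 ∩ (A ∩ B) = ∅ := by
      ext t
      simp only [mem_inter_iff, mem_empty_iff_false, iff_false, not_and]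
      intro ht hA' hB'
      exact (hB'.self_of_nhds ht) (hA'.self_of_nhds ht)
    have h0A : (0 : ℝ) ∈ A := by
      obtain ⟨d0, hd0, hev⟩ := hloc 0 ⟨le_rfl, zero_le_one⟩
      have : d0 = d := Dg.unique (hHt 0) hUb hd0 h
      subst this
      exact hev.mono fun s hs _ => hs
    have hsub : Icc (0 : ℝ) 1 ⊆ A := by
      by_contra hne
      rw [not_subset] at hne
      obtain ⟨t, ht, htA⟩ := hne
      have htB : t ∈ B := (hcov ht).resolve_left htA
      obtain ⟨z, hz, hz'⟩ := hpre A B hA hB hcov ⟨0, ⟨le_rfl, zero_le_one⟩, h0A⟩ ⟨t, ht, htB⟩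
      rw [eq_empty_iff_forall_notMem] at hdisj
      exact hdisj z ⟨hz, hz'⟩
    intro t ht
    exact ⟨ht, (hsub ht).self_of_nhds ht⟩
  have h1 : (1 : ℝ) ∈ S := by rw [hS]; exact ⟨zero_le_one, le_rfl⟩
  exact h1.2

/-- two maps which agree on the frontier -/
theorem Dg.congr {f g : E m → E m} (hf : Continuous f) (hg : Continuous g) {U : Set (E m)}
    (hU : IsOpen U) (hUb : Bornology.IsBounded U) (h0 : ∀ x ∈ frontier U, f x ≠ 0)
    (he : ∀ x ∈ frontier U, g x = f x) {d : ℤ} (h : Dg f U d) : Dg g U d := by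
  have h1 := Dg.homotopy (H := fun t x => f x + t • (g x - f x)) (by fun_prop) hU hUb
    (by
      intro t _ x hx
      simp only [he x hx, sub_self, smul_zero, add_zero]
      exact h0 x hx) (d := d) (by simpa using h)
  simpa using h1

/-- additivity -/
theorem Dg.add {f : E m → E m} (hf : Continuous f) {U U1 U2 : Set (E m)}
    (hUb : Bornology.IsBounded U) (hU1 : IsOpen U1) (hU2 : IsOpen U2) (hUo : IsOpen U)
    (h1U : U1 ⊆ U) (h2U : U2 ⊆ U) (hdisj : Disjoint U1 U2)
    (h0 : ∀ x ∈ closure U, x ∉ U1 → x ∉ U2 → f x ≠ 0) {d1 d2 : ℤ}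
    (h1 : Dg f U1 d1) (h2 : Dg f U2 d2) : Dg f U (d1 + d2) := by
  obtain ⟨δ1, hδ1, h1⟩ := h1
  obtain ⟨δ2, hδ2, h2⟩ := h2
  have hcl : IsCompact (closure U \ (U1 ∪ U2)) :=
    hUb.isCompact_closure.diff (hU1.union hU2)
  obtain ⟨δ3, hδ3, h3⟩ : ∃ δ : ℝ, 0 < δ ∧ ∀ x ∈ closure U \ (U1 ∪ U2), 2 * δ ≤ ‖f x‖ := by
    rcases (closure U \ (U1 ∪ U2)).eq_empty_or_nonempty with he | hne
    · exact ⟨1, one_pos, fun x hx => by rw [he] at hx; exact hx.elim⟩
    · obtain ⟨x0, hx0, hmin⟩ := hcl.exists_isMinOn hne hf.norm.continuousOn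
      have hp : 0 < ‖f x0‖ := norm_pos_iff.2
        (h0 x0 hx0.1 (fun h => hx0.2 (Or.inl h)) (fun h => hx0.2 (Or.inr h)))
      refine ⟨‖f x0‖ / 2, by positivity, fun x hx => ?_⟩
      have : ‖f x0‖ ≤ ‖f x‖ := hmin hx
      linarith
  have hm : 0 < min (min δ1 δ2) δ3 := lt_min (lt_min hδ1 hδ2) hδ3
  refine ⟨min (min δ1 δ2) δ3, hm, fun f0 hf0 hf0a φ hφ hφ0 => ?_⟩
  have e1 := h1 f0 hf0 (fun x hx => (hf0a x (thickening_subset_of_subset _ h1U hx)).trans_le
    ((min_le_left _ _).trans (min_le_left _ _))) φ hφ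
    (fun w hw => hφ0 w (((min_le_left _ _).trans (min_le_left _ _)).trans hw))
  have e2 := h2 f0 hf0 (fun x hx => (hf0a x (thickening_subset_of_subset _ h2U hx)).trans_le
    ((min_le_left _ _).trans (min_le_right _ _))) φ hφ
    (fun w hw => hφ0 w (((min_le_left _ _).trans (min_le_right _ _)).trans hw))
  have hG : Continuous (fun x => φ (f0 x) * (fderiv ℝ f0 x).det) :=
    (hφ.comp hf0.1.continuous).mul
      (ContinuousLinearMap.continuous_det.comp (hf0.1.continuous_fderiv one_ne_zero))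
  have hint : ∀ A : Set (E m), A ⊆ U → IntegrableOn (fun x => φ (f0 x) * (fderiv ℝ f0 x).det) A := by
    intro A hA
    have h4 : IntegrableOn (fun x => φ (f0 x) * (fderiv ℝ f0 x).det) (closure U) :=
      hG.continuousOn.integrableOn_compact hUb.isCompact_closure
    exact h4.mono_set (hA.trans subset_closure)
  have e3 : ∫ x in U, φ (f0 x) * (fderiv ℝ f0 x).det =
      ∫ x in U1 ∪ U2, φ (f0 x) * (fderiv ℝ f0 x).det := by
    apply setIntegral_eq_of_subset_of_forall_sdiff_eq_zero hUo.measurableSet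
      (union_subset h1U h2U)
    rintro x ⟨hxU, hx12⟩
    have h5 := h3 x ⟨subset_closure hxU, hx12⟩
    have h6 := hf0a x (self_subset_thickening one_pos _ hxU)
    have h7 : φ (f0 x) = 0 := by
      apply hφ0
      rw [dist_eq_norm] at h6
      have h8 : ‖f x‖ ≤ ‖f0 x‖ + ‖f0 x - f x‖ := by
        have := norm_sub_le (f0 x) (f0 x - f x)
        rwa [sub_sub_cancel] at this
      have h9 := min_le_right (min δ1 δ2) δ3
      linarith
    rw [h7, zero_mul]
  rw [e3, setIntegral_union hdisj hU2.measurableSet (hint _ h1U) (hint _ h2U), e1, e2]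
  push_cast
  ring

theorem Dg.empty (f : E m → E m) : Dg f ∅ 0 :=
  ⟨1, one_pos, fun _ _ _ _ _ _ => by simp⟩

theorem Dg.zero {f : E m → E m} (hf : Continuous f) {U : Set (E m)} (hU : IsOpen U)
    (hUb : Bornology.IsBounded U) (h0 : ∀ x ∈ closure U, f x ≠ 0) : Dg f U 0 := by
  have := Dg.add hf hUb isOpen_empty isOpen_empty hU (empty_subset _) (empty_subset _)
    (disjoint_empty _) (fun x hx _ _ => h0 x hx) (Dg.empty f) (Dg.empty f)
  simpa using this

/-- excision -/
theorem Dg.excise {f : E m → E m} (hf : Continuous f) {U U1 : Set (E m)}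
    (hUb : Bornology.IsBounded U) (hU1 : IsOpen U1) (hUo : IsOpen U) (h1U : U1 ⊆ U)
    (h0 : ∀ x ∈ closure U, x ∉ U1 → f x ≠ 0) {d : ℤ} (h1 : Dg f U1 d) : Dg f U d := by
  have := Dg.add hf hUb hU1 isOpen_empty hUo h1U (empty_subset _)
    (disjoint_empty _) (fun x hx h1 _ => h0 x hx h1) h1 (Dg.empty f)
  simpa using this

theorem Dg.excise' {f : E m → E m} (hf : Continuous f) {U U1 : Set (E m)}
    (hUb : Bornology.IsBounded U) (hU1 : IsOpen U1) (hUo : IsOpen U) (h1U : U1 ⊆ U)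
    (h0 : ∀ x ∈ closure U, x ∉ U1 → f x ≠ 0) {d : ℤ} (h1 : Dg f U d) : Dg f U1 d := by
  have hfr : ∀ x ∈ frontier U1, f x ≠ 0 := by
    intro x hx
    rw [hU1.frontier_eq] at hx
    exact h0 x (closure_mono h1U hx.1) hx.2
  obtain ⟨d', hd'⟩ := Dg.exists hf hU1 (hUb.subset h1U) hfr
  have h2 := Dg.excise hf hUb hU1 hUo h1U h0 hd'
  rwa [Dg.unique hf hUb h1 h2]

/-- the identity has degree one -/
theorem Dg.id {U : Set (E m)} (hU : IsOpen U) (hUb : Bornology.IsBounded U) (h0 : (0 : E m) ∈ U) :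
    Dg (fun x : E m => x) U 1 := by
  have hfr : ∀ x ∈ frontier U, x ≠ 0 := by
    intro x hx
    rw [hU.frontier_eq] at hx
    rintro rfl
    exact hx.2 h0
  obtain ⟨d, hd⟩ := Dg.exists (f := fun x : E m => x) continuous_id hU hUb hfr
  have hd' := hd
  obtain ⟨δ, hδ, h⟩ := hd'
  obtain ⟨ε, hε, hεU⟩ := Metric.isOpen_iff.1 hU 0 h0
  have hm : 0 < min δ ε := lt_min hδ hε
  obtain ⟨φ, hφ, hφ0, hφp⟩ := exists_test (m := m) hm
  have e1 := h (fun x => x) ⟨contDiff_id, 0, fun x _ => rfl⟩ (fun x _ => by rwa [dist_self]) φ hφ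
    (fun w hw => hφ0 w ((min_le_left _ _).trans hw))
  have e2 : ∫ x in U, φ x * (fderiv ℝ (fun x : E m => x) x).det = ∫ x, φ x := by
    have e3 : ∀ x : E m, φ x * (fderiv ℝ (fun x : E m => x) x).det = φ x := by
      intro x
      rw [show (fun x : E m => x) = _root_.id from rfl, fderiv_id, ContinuousLinearMap.det]
      simp
    simp_rw [e3]
    apply setIntegral_eq_integral_of_forall_compl_eq_zero
    intro x hx
    apply hφ0
    by_contra hcon
    push Not at hcon
    apply hx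
    apply hεU
    rw [mem_ball, dist_zero_right]
    exact hcon.trans_le (min_le_right _ _)
  rw [e2] at e1
  have e4 : (d : ℝ) = 1 := by
    have : (1 : ℝ) * ∫ w, φ w = d * ∫ w, φ w := by rw [one_mul]; exact e1
    exact (mul_right_cancel₀ hφp.ne' this).symm
  have e5 : d = 1 := by exact_mod_cast e4
  rwa [e5] at hd

end Pool.Agent.K1H66.HS
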