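import Pool.Agent.K1H66.HS.Locs
import Pool.Agent.K1H66.HS.Fix2
import Pool.Agent.R775.HS.Good

/-!
# Energies of exponent `m` at a sequence of scales (helper66)

Adaptation of `Pool/Agent/R775/HS/Ener.lean`.
-/

set_option autoImplicit false

open MeasureTheory Set Metric Filter Topology
open scoped ENNReal NNReal

noncomputable section

namespace Pool.Agent.K1H66.HS

open Pool.Agent.Y485.HS Pool.Agent.Y489.SP

/-- the sum of the `m`-th powers of the distances of the images of pairs of points of `Q` in balls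
of radius `r` with `r`-separated centres in `Q` is at most `b` -/
def EnerM {n : ℕ} {V : Type} [PseudoMetricSpace V] (m : ℕ) (Q : Set (E n)) (r b : ℝ)
    (f : E n → V) : Prop :=
  ∀ (A : Finset (E n)) (x y : E n → E n),
    (∀ a ∈ A, a ∈ Q ∧ x a ∈ Q ∧ y a ∈ Q ∧ dist (x a) a ≤ r ∧ dist (y a) a ≤ r) →
    (∀ a ∈ A, ∀ a' ∈ A, a ≠ a' → r ≤ dist a a') → ∑ a ∈ A, dist (f (x a)) (f (y a)) ^ m ≤ b

theorem enerM_mono {n : ℕ} {V : Type} [PseudoMetricSpace V] {m : ℕ} {Q Q' : Set (E n)}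
    {r b b' : ℝ} {f : E n → V} (hQ : Q ⊆ Q') (hb : b' ≤ b) (h : EnerM m Q' r b' f) :
    EnerM m Q r b f := by
  intro A x y h1 h2
  refine (h A x y (fun a ha => ?_) h2).trans hb
  obtain ⟨q1, q2, q3, q4⟩ := h1 a ha
  exact ⟨hQ q1, hQ q2, hQ q3, q4⟩

theorem enerM_nonneg {n : ℕ} {V : Type} [PseudoMetricSpace V] {m : ℕ} {Q : Set (E n)} {r b : ℝ}
    {f : E n → V} (h : EnerM m Q r b f) : 0 ≤ b := by
  have := h ∅ id id (by simp) (by simp)
  simpa using this

theorem enerM_congr {n : ℕ} {V : Type} [PseudoMetricSpace V] {m : ℕ} {Q : Set (E n)} {r b : ℝ}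
    {f f' : E n → V} (h : ∀ u ∈ Q, f u = f' u) (hE : EnerM m Q r b f) : EnerM m Q r b f' := by
  intro A x y h1 h2
  refine le_trans (le_of_eq (Finset.sum_congr rfl fun a ha => ?_)) (hE A x y h1 h2)
  rw [h _ (h1 a ha).2.1, h _ (h1 a ha).2.2.1]

theorem enerM_pair {n : ℕ} {m : ℕ} {Q : Set (E n)} {r b : ℝ} {f : E n → E n}
    (hE : EnerM m Q r b f) {β : E n → ℝ} (hβ : LipschitzWith 1 β) :
    EnerM m Q r b (fun u => (f u, β (f u))) := by
  intro A x y h1 h2
  refine le_trans (Finset.sum_le_sum fun a _ => ?_) (hE A x y h1 h2)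
  refine pow_le_pow_left₀ dist_nonneg ?_ m
  rw [Prod.dist_eq]
  refine max_le le_rfl ?_
  have h3 := hβ.dist_le_mul (f (x a)) (f (y a))
  rwa [NNReal.coe_one, one_mul] at h3

/-- averages have small energy -/
theorem enerM_avg {n m : ℕ} {V : Type} [NormedAddCommGroup V] [NormedSpace ℝ V]
    [CompleteSpace V] {Q : Set (E n)} {r b : ℝ} {Ω : Type} [TopologicalSpace Ω]
    [CompactSpace Ω] [MeasurableSpace Ω] [BorelSpace Ω] (μ : Measure Ω) [IsProbabilityMeasure μ]
    (S : Ω → E n → V) (hS : ∀ u ∈ Q, Continuous (fun ω => S ω u))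
    (hE : ∀ ω, EnerM m Q r b (S ω)) : EnerM m Q r b (fun u => ∫ ω, S ω u ∂μ) := by
  intro A x y h1 h2
  have hci : ∀ f : Ω → ℝ, Continuous f → Integrable f μ := fun f hf =>
    hf.integrable_of_hasCompactSupport (HasCompactSupport.of_compactSpace _)
  have hcE : ∀ f : Ω → V, Continuous f → Integrable f μ := fun f hf =>
    hf.integrable_of_hasCompactSupport (HasCompactSupport.of_compactSpace _)
  have hdc : ∀ a ∈ A, Continuous (fun ω => dist (S ω (x a)) (S ω (y a))) := fun a ha =>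
    (hS _ (h1 a ha).2.1).dist (hS _ (h1 a ha).2.2.1)
  have hterm : ∀ a ∈ A, dist (∫ ω, S ω (x a) ∂μ) (∫ ω, S ω (y a) ∂μ) ^ m ≤
      ∫ ω, dist (S ω (x a)) (S ω (y a)) ^ m ∂μ := by
    intro a ha
    have e1 : dist (∫ ω, S ω (x a) ∂μ) (∫ ω, S ω (y a) ∂μ) ≤
        ∫ ω, dist (S ω (x a)) (S ω (y a)) ∂μ := by
      rw [dist_eq_norm, ← integral_sub (hcE _ (hS _ (h1 a ha).2.1)) (hcE _ (hS _ (h1 a ha).2.2.1))]
      refine (norm_integral_le_integral_norm _).trans (le_of_eq ?_)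
      simp only [dist_eq_norm]
    have e2 := (convexOn_pow (𝕜 := ℝ) m).map_integral_le (μ := μ)
      (f := fun ω => dist (S ω (x a)) (S ω (y a))) (continuous_pow m).continuousOn isClosed_Ici
      (Eventually.of_forall fun ω => dist_nonneg) (hci _ (hdc a ha))
      (hci _ ((hdc a ha).pow m))
    exact (pow_le_pow_left₀ dist_nonneg e1 m).trans e2
  calc ∑ a ∈ A, dist (∫ ω, S ω (x a) ∂μ) (∫ ω, S ω (y a) ∂μ) ^ m
      ≤ ∑ a ∈ A, ∫ ω, dist (S ω (x a)) (S ω (y a)) ^ m ∂μ := Finset.sum_le_sum hterm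
    _ = ∫ ω, ∑ a ∈ A, dist (S ω (x a)) (S ω (y a)) ^ m ∂μ := by
        rw [integral_finsetSum]
        intro a ha
        exact hci _ ((hdc a ha).pow m)
    _ ≤ ∫ _ω, b ∂μ := by
        refine integral_mono (hci _ (continuous_finsetSum _ fun a ha => (hdc a ha).pow m))
          (integrable_const _) fun ω => ?_
        exact hE ω A x y h1 h2
    _ = b := by simp

/-- the image of `Q` under `u ↦ (f(u), u_i)` is a null set -/
theorem null_image2 {n : ℕ} {Q : Set (E n)} (hQ : IsCompact Q) {f : E n → E n × ℝ}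
    (hf : ContinuousOn f Q) {r b : ℕ → ℝ} (hr : ∀ j, 0 < r j)
    (hrb : Tendsto (fun j => r j * b j) atTop (𝓝 0)) (hE : ∀ j, EnerM (n + 1) Q (r j) (b j) f)
    (i : Fin n) : volume ((fun x : E n => (((f x).1, x i), (f x).2)) '' Q) = 0 := by
  classical
  set κ := volume (ball (0 : E n) 1) with hκ
  have hκt : κ ≠ ∞ := measure_ball_lt_top.ne
  have key : ∀ j, volume ((fun x : E n => (((f x).1, x i), (f x).2)) '' Q) ≤
      ENNReal.ofReal (4 * (r j * b j)) * κ := by
    intro j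
    obtain ⟨A, hA1, hA2, hA3⟩ := Pool.Agent.R775.HS.net' hQ (hr j)
    have hmax : ∀ a, ∃ q : E n × E n, a ∈ Q → (q.1 ∈ closedBall a (r j) ∩ Q ∧
        q.2 ∈ closedBall a (r j) ∩ Q ∧ ∀ z ∈ closedBall a (r j) ∩ Q,
          ∀ z' ∈ closedBall a (r j) ∩ Q, dist (f z) (f z') ≤ dist (f q.1) (f q.2)) := by
      intro a
      by_cases ha : a ∈ Q
      · have hK : IsCompact (closedBall a (r j) ∩ Q) := (isCompact_closedBall a (r j)).inter hQ
        obtain ⟨x, hx, y, hy, h⟩ := Pool.Agent.Y566.SP.exists_far hK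
          ⟨a, mem_closedBall_self (hr j).le, ha⟩ (hf.mono inter_subset_right)
        exact ⟨(x, y), fun _ => ⟨hx, hy, h⟩⟩
      · exact ⟨(a, a), fun h => (ha h).elim⟩
    choose q hq using hmax
    set D : E n → ℝ := fun a => dist (f (q a).1) (f (q a).2) with hD
    have hD0 : ∀ a, 0 ≤ D a := fun a => dist_nonneg
    have hDs : ∑ a ∈ A, D a ^ (n + 1) ≤ b j :=
      hE j A (fun a => (q a).1) (fun a => (q a).2) (fun a ha => by
        obtain ⟨h1, h2, -⟩ := hq a (hA1 a ha)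
        exact ⟨hA1 a ha, h1.2, h2.2, mem_closedBall.1 h1.1, mem_closedBall.1 h2.1⟩) hA2
    have hsub : (fun x : E n => (((f x).1, x i), (f x).2)) '' Q ⊆
        ⋃ a ∈ A, (closedBall (f a).1 (D a) ×ˢ closedBall (a i) (r j)) ×ˢ
          closedBall (f a).2 (D a) := by
      rintro _ ⟨x, hx, rfl⟩
      obtain ⟨a, ha, hxa⟩ := hA3 x hx
      have haQ := hA1 a ha
      have h1 : dist (f x) (f a) ≤ D a :=
        (hq a haQ).2.2 x ⟨hxa, hx⟩ a ⟨mem_closedBall_self (hr j).le, haQ⟩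
      rw [Prod.dist_eq, max_le_iff] at h1
      refine mem_iUnion₂.2 ⟨a, ha, ⟨⟨h1.1, ?_⟩, h1.2⟩⟩
      rw [mem_closedBall, Real.dist_eq]
      exact (Pool.Agent.Y401.SPN.coord x a i).trans hxa
    refine (measure_mono hsub).trans ((measure_biUnion_finset_le _ _).trans ?_)
    have hr0 := hr j
    have h2 : ∀ a ∈ A, volume ((closedBall (f a).1 (D a) ×ˢ closedBall (a i) (r j)) ×ˢ
        closedBall (f a).2 (D a)) = ENNReal.ofReal (4 * r j * D a ^ (n + 1)) * κ := by
      intro a _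
      rw [Measure.volume_eq_prod, Measure.prod_prod, Measure.volume_eq_prod, Measure.prod_prod,
        Real.volume_closedBall, Real.volume_closedBall,
        Measure.addHaar_closedBall volume _ (hD0 a), finrank_euclideanSpace_fin]
      have hDa := hD0 a
      have e : ENNReal.ofReal (4 * r j * D a ^ (n + 1)) =
          ENNReal.ofReal (D a ^ n) * ENNReal.ofReal (2 * r j) * ENNReal.ofReal (2 * D a) := by
        rw [← ENNReal.ofReal_mul (by positivity), ← ENNReal.ofReal_mul (by positivity)]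
        congr 1
        ring
      rw [e, ← hκ]
      ring
    rw [Finset.sum_congr rfl h2, ← Finset.sum_mul, ← ENNReal.ofReal_sum_of_nonneg
      (fun a _ => by have := hD0 a; positivity)]
    refine mul_le_mul_left (ENNReal.ofReal_le_ofReal ?_) _
    rw [← Finset.mul_sum]
    calc 4 * r j * ∑ a ∈ A, D a ^ (n + 1) ≤ 4 * r j * b j :=
          mul_le_mul_of_nonneg_left hDs (by positivity)
      _ = _ := by ring
  have hlim : Tendsto (fun j => ENNReal.ofReal (4 * (r j * b j)) * κ) atTop (𝓝 0) := by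
    have h1 : Tendsto (fun j => 4 * (r j * b j)) atTop (𝓝 0) := by
      simpa using hrb.const_mul 4
    have h2 := ENNReal.tendsto_ofReal h1
    rw [ENNReal.ofReal_zero] at h2
    have := ENNReal.Tendsto.mul_const h2 (b := κ) (Or.inr hκt)
    rwa [zero_mul] at this
  exact le_antisymm (ge_of_tendsto' hlim key) (zero_le)

theorem ae_null2 {n : ℕ} {Q : Set (E n)} (hQ : IsCompact Q) {f : E n → E n × ℝ}
    (hf : ContinuousOn f Q) {r b : ℕ → ℝ} (hr : ∀ j, 0 < r j)
    (hrb : Tendsto (fun j => r j * b j) atTop (𝓝 0)) (hE : ∀ j, EnerM (n + 1) Q (r j) (b j) f)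
    (i : Fin n) :
    ∀ᵐ y : E n, ∀ᵐ t : ℝ, volume {q : ℝ | ∃ x ∈ Q, f x = (y, q) ∧ x i = t} = 0 := by
  have h1 := null_image2 hQ hf hr hrb hE i
  rw [Measure.volume_eq_prod] at h1
  have h2 := Measure.measure_ae_null_of_prod_null h1
  rw [Measure.volume_eq_prod] at h2
  have h3 := Measure.ae_ae_of_ae_prod h2
  filter_upwards [h3] with y hy
  filter_upwards [hy] with t ht
  refine measure_mono_null ?_ ht
  rintro q ⟨x, hx, hxq, hxt⟩
  exact ⟨x, hx, by simp only [hxq, hxt]⟩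

end Pool.Agent.K1H66.HS
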