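import Pool.Agent.K1H66.HS.Cont

/-!
# Fixed points in good fibres (helper66)
-/

set_option autoImplicit false

open MeasureTheory Set Metric Filter Topology
open scoped ENNReal NNReal

noncomputable section

namespace Pool.Agent.K1H66.HS

open Pool.Agent.Y485.HS Pool.Agent.Y489.SP Pool.Agent.Y475.HS Pool.Agent.Y532.SP.LOCS

theorem sub_of_null {s N : Set ℝ} (hs : IsPreconnected s) (hN : volume N = 0) (h : s ⊆ N) :
    s.Subsingleton := by
  have key : ∀ a ∈ s, ∀ b ∈ s, ¬ a < b := by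
    intro a ha b hb hab
    have h1 : Icc a b ⊆ s := hs.Icc_subset ha hb
    have h2 : volume (Icc a b) = 0 := measure_mono_null (h1.trans h) hN
    rw [Real.volume_Icc, ENNReal.ofReal_eq_zero] at h2
    linarith
  intro a ha b hb
  rcases lt_trichotomy a b with h1 | h1 | h1
  · exact absurd h1 (key a ha b hb)
  · exact h1
  · exact absurd h1 (key b hb a ha)

theorem exists_coord {n : ℕ} {x x' : E n} {δ : ℝ} (hδ : 0 < δ) (h : δ ≤ dist x x') :
    ∃ i, δ / (n + 1) ≤ |x i - x' i| := by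
  by_contra hcon
  push Not at hcon
  have h1 : dist x x' ^ 2 = ∑ i, (x i - x' i) ^ 2 := by
    rw [EuclideanSpace.dist_eq, Real.sq_sqrt (Finset.sum_nonneg fun i _ => sq_nonneg _)]
    refine Finset.sum_congr rfl fun i _ => ?_
    rw [Real.dist_eq, sq_abs]
  have h2 : ∑ i, (x i - x' i) ^ 2 ≤ n * (δ / (n + 1)) ^ 2 := by
    calc ∑ i, (x i - x' i) ^ 2 ≤ ∑ _i : Fin n, (δ / (n + 1)) ^ 2 := by
          refine Finset.sum_le_sum fun i _ => ?_
          rw [← sq_abs]
          exact pow_le_pow_left₀ (abs_nonneg _) (hcon i).le 2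
      _ = n * (δ / (n + 1)) ^ 2 := by simp
  have h3 : n * (δ / (n + 1)) ^ 2 < δ ^ 2 := by
    rw [div_pow]
    have hn : (0 : ℝ) ≤ n := Nat.cast_nonneg n
    rw [← mul_div_assoc, div_lt_iff₀ (by positivity)]
    nlinarith [sq_pos_of_pos hδ, mul_nonneg hn (sq_pos_of_pos hδ).le,
      mul_nonneg (mul_nonneg hn hn) (sq_pos_of_pos hδ).le]
  have h4 : δ ^ 2 ≤ dist x x' ^ 2 := pow_le_pow_left₀ hδ.le h 2
  linarith

theorem exists_level {a b : ℝ} (hab : a < b) {P : ℝ → Prop} (hP : ∀ᵐ t : ℝ, P t) :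
    ∃ t, a < t ∧ t < b ∧ P t := by
  by_contra hcon
  push Not at hcon
  have h1 : volume (Ioo a b) = 0 :=
    measure_mono_null (fun t ht => hcon t ht.1 ht.2) (ae_iff.1 hP)
  rw [Real.volume_Ioo, ENNReal.ofReal_eq_zero] at h1
  linarith

/-- a good fibre contains a fixed point -/
theorem exists_fix {n p : ℕ} (hp : p.Prime) {H : Type} [Group H] [TopologicalSpace H]
    [CompactSpace H] {T : H → E n → E n} (hT : LocAct n H T) (g : H)
    (hg : Tendsto (fun j : ℕ => g ^ p ^ j) atTop (𝓝 1)) (F : E n → E n)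
    (hFc : ContinuousOn F (BB n)) (hdisp : ∀ x ∈ BB n, dist (F x) x ≤ 1 / 4)
    (hinv : ∀ h, ∀ x ∈ BB n, T h x ∈ BB n → F (T h x) = F x) {y : E n}
    (hy : y ∈ ball (0 : E n) 1) {ι : Type} [Countable ι] (Q : ι → E n → ℝ)
    (hQc : ∀ j, ContinuousOn (Q j) (BB n))
    (hQinv : ∀ j h, ∀ x ∈ BB n, T h x ∈ BB n → Q j (T h x) = Q j x)
    (hnull : ∀ i : Fin n, ∀ j, ∀ᵐ t : ℝ,
      volume {q : ℝ | ∃ x, ‖x‖ ≤ 3 ∧ F x = y ∧ Q j x = q ∧ x i = t} = 0)
    (hsep : ∀ x, ‖x‖ ≤ 3 → F x = y → ∀ C : Set (E n), IsPreconnected C → x ∈ C → T g x ∈ C →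
      (∀ z ∈ C, ‖z‖ ≤ 3 ∧ F z = y ∧ ∀ j, Q j z = Q j x) → T g x = x) :
    ∃ x, ‖x‖ ≤ 3 ∧ F x = y ∧ T g x = x := by
  by_contra hcon
  push Not at hcon
  have hy1 : ‖y‖ < 1 := by simpa using hy
  set Z : Set (E n) := {x | ‖x‖ ≤ 3 ∧ F x = y} with hZdef
  have hZB : ∀ x ∈ Z, x ∈ BB n := fun x hx => mem_BB.2 (by linarith [hx.1])
  have hZn : ∀ x ∈ Z, ‖x‖ < 5 / 4 := by
    intro x hx
    have := hdisp x (hZB x hx)
    rw [hx.2, dist_eq_norm] at this
    calc ‖x‖ = ‖y - (y - x)‖ := by congr 1; abel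
      _ ≤ ‖y‖ + ‖y - x‖ := norm_sub_le _ _
      _ < _ := by linarith
  have hCB : closedBall (0 : E n) 3 ⊆ BB n := closedBall_subset_closedBall (by norm_num)
  have hZc : IsCompact Z := by
    have h1 : IsClosed Z := by
      have h2 : Z = closedBall (0 : E n) 3 ∩ F ⁻¹' {y} := by
        ext x
        simp [Z]
      rw [h2]
      exact (hFc.mono hCB).preimage_isClosed_of_isClosed isClosed_closedBall
        (isClosed_singleton (x := y))
    exact (isCompact_closedBall (0 : E n) 3).of_isClosed_subset h1 (fun x hx => by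
      simpa using hx.1)
  -- the displacement
  obtain ⟨δ, hδ, hδZ⟩ : ∃ δ : ℝ, 0 < δ ∧ ∀ x ∈ Z, δ ≤ dist (T g x) x := by
    rcases Z.eq_empty_or_nonempty with he | hne
    · exact ⟨1, one_pos, fun x hx => by rw [he] at hx; exact absurd hx (notMem_empty x)⟩
    · have hc : ContinuousOn (fun x => dist (T g x) x) Z :=
        continuous_dist.comp_continuousOn
          (((hT.cont_right g).mono hZB).prodMk continuousOn_id)
      obtain ⟨x0, hx0, hmin⟩ := hZc.exists_isMinOn hne hc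
      exact ⟨dist (T g x0) x0, dist_pos.2 (hcon x0 hx0.1 hx0.2), fun x hx => hmin hx⟩
  -- the levels
  set η : ℝ := δ / (2 * (n + 1)) with hηdef
  have hη : 0 < η := by positivity
  have hη2 : 2 * η = δ / (n + 1) := by
    rw [hηdef]; field_simp
  have hlev : ∀ (i : Fin n) (m : ℤ), ∃ t : ℝ, m * η < t ∧ t < (m + 1) * η ∧ ∀ j,
      volume {q : ℝ | ∃ x, ‖x‖ ≤ 3 ∧ F x = y ∧ Q j x = q ∧ x i = t} = 0 := by
    intro i m
    exact exists_level (by nlinarith) (ae_all_iff.2 (hnull i))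
  choose t ht1 ht2 ht3 using hlev
  set M : ℤ := ⌈4 / η⌉ + 2 with hM
  have hM' : 4 / η + 2 ≤ (M : ℝ) := by
    rw [hM]
    push_cast
    linarith [Int.le_ceil (4 / η)]
  let S : Set (E n) := {w | ∃ i, ∃ m ∈ Finset.Icc (-M) M, w i = t i m}
  have hS : IsClosed S := by
    have h1 : S = ⋃ i : Fin n, ⋃ m ∈ Finset.Icc (-M) M, {w : E n | w i = t i m} := by
      ext w
      simp only [S, mem_iUnion, exists_prop, Set.mem_ofPred_eq]
    rw [h1]
    refine isClosed_iUnion_of_finite fun i => ?_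
    refine isClosed_biUnion_finset fun m _ => ?_
    exact isClosed_eq (by fun_prop) continuous_const
  let c : E n → (Fin n → ℤ → Prop) := fun w i m => m ∈ Finset.Icc (-M) M ∧ t i m < w i
  have hc : ∀ w, w ∉ S → ∀ᶠ w' in 𝓝 w, c w' = c w := by
    intro w hw
    have h1 : ∀ᶠ w' in 𝓝 w, ∀ i : Fin n, ∀ m ∈ Finset.Icc (-M) M, (t i m < w' i ↔ t i m < w i) := by
      rw [Filter.eventually_all]
      intro i
      rw [Finset.eventually_all]
      intro m hm
      have hne : w i ≠ t i m := fun h => hw ⟨i, m, hm, h⟩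
      have hcont : Continuous fun w' : E n => w' i := by fun_prop
      rcases lt_or_gt_of_ne hne with h | h
      · filter_upwards [hcont.continuousAt.eventually (gt_mem_nhds h)] with w' hw'
        constructor
        · intro h2; exact absurd h2 (not_lt.2 hw'.le)
        · intro h2; exact absurd h2 (not_lt.2 h.le)
      · filter_upwards [hcont.continuousAt.eventually (lt_mem_nhds h)] with w' hw'
        exact ⟨fun _ => h, fun _ => hw'⟩
    filter_upwards [h1] with w' hw'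
    funext i m
    apply propext
    constructor
    · rintro ⟨hm, h2⟩; exact ⟨hm, (hw' i m hm).1 h2⟩
    · rintro ⟨hm, h2⟩; exact ⟨hm, (hw' i m hm).2 h2⟩
  -- two points with a coordinate which differs by `2 η`
  have hsepc : ∀ (x x' : E n) (i : Fin n), |x i| ≤ 4 → x i + 2 * η ≤ x' i → c x' ≠ c x := by
    intro x x' i hxi hxx' heq
    have h0 : |x i / η| ≤ 4 / η := by
      rw [abs_div, abs_of_pos hη]
      exact div_le_div_of_nonneg_right hxi hη.le
    have h0' := abs_le.1 h0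
    have h1 := Int.floor_le (x i / η)
    have h2 := Int.lt_floor_add_one (x i / η)
    set m : ℤ := ⌊x i / η⌋ + 1 with hm
    have hm1 : x i / η < m := by rw [hm]; push_cast; exact h2
    have hm2 : (m : ℝ) ≤ x i / η + 1 := by rw [hm]; push_cast; linarith
    have hm3 : x i < m * η := by rwa [div_lt_iff₀ hη] at hm1
    have hm4 : (m + 1) * η ≤ x i + 2 * η := by
      have h3 : (m : ℝ) * η ≤ (x i / η + 1) * η := mul_le_mul_of_nonneg_right hm2 hη.le
      have h4 : (x i / η + 1) * η = x i + η := by field_simp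
      rw [h4] at h3
      linarith
    have hmM : m ∈ Finset.Icc (-M) M := by
      rw [Finset.mem_Icc]
      constructor
      · have : (-M : ℝ) ≤ m := by linarith [h0'.1]
        exact_mod_cast this
      · have : (m : ℝ) ≤ M := by linarith [h0'.2]
        exact_mod_cast this
    have h5 := congrFun (congrFun heq i) m
    have h6 : c x' i m := ⟨hmM, by linarith [ht2 i m]⟩
    rw [h5] at h6
    linarith [h6.2, ht1 i m]
  have hcg : ∀ x, ‖x‖ ≤ 3 → F x = y → x ∉ S → T g x ∉ S → c (T g x) ≠ c x := by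
    intro x hx hFx _ _
    have hxZ : x ∈ Z := ⟨hx, hFx⟩
    obtain ⟨i, hi⟩ := exists_coord hδ (hδZ x hxZ)
    rw [← hη2] at hi
    have h1 : |x i| ≤ 4 := by
      have := PiLp.norm_apply_le x i
      rw [Real.norm_eq_abs] at this
      linarith
    have h2 : |(T g x) i| ≤ 4 := by
      have := PiLp.norm_apply_le (T g x) i
      rw [Real.norm_eq_abs] at this
      have h3 := norm_T_le hT g (hZB x hxZ)
      linarith
    rcases le_or_gt ((T g x) i) (x i) with h | h
    · rw [abs_of_nonpos (by linarith)] at hi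
      intro heq
      exact hsepc (T g x) x i h2 (by linarith) heq.symm
    · rw [abs_of_pos (by linarith)] at hi
      exact hsepc x (T g x) i h1 (by linarith)
  obtain ⟨x, hxM, hgx⟩ := exists_comp hp hT g hg F hFc hdisp hinv hy hS c hc hcg
  have hxZ : x ∈ Z := hxM.1
  refine hcon x hxZ.1 hxZ.2 ?_
  set C := connectedComponentIn (Meet T S {x | ‖x‖ ≤ 3 ∧ F x = y}) x with hC
  have hCsub : C ⊆ Meet T S Z := connectedComponentIn_subset _ _
  have hCp : IsPreconnected C := isPreconnected_connectedComponentIn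
  have hxC : x ∈ C := mem_connectedComponentIn hxM
  refine hsep x hxZ.1 hxZ.2 C hCp hxC hgx fun z hz => ⟨(hCsub hz).1.1, (hCsub hz).1.2, fun j => ?_⟩
  have hnullj : volume {q : ℝ | ∃ x ∈ Z, x ∈ S ∧ Q j x = q} = 0 := by
    have h1 : {q : ℝ | ∃ x ∈ Z, x ∈ S ∧ Q j x = q} ⊆ ⋃ i : Fin n, ⋃ m : ℤ,
        {q : ℝ | ∃ x, ‖x‖ ≤ 3 ∧ F x = y ∧ Q j x = q ∧ x i = t i m} := by
      rintro q ⟨w, hwZ, ⟨i, m, -, hw⟩, hq⟩
      exact mem_iUnion₂.2 ⟨i, m, w, hwZ.1, hwZ.2, hq, hw⟩
    refine measure_mono_null h1 ?_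
    rw [measure_iUnion_null_iff]
    intro i
    rw [measure_iUnion_null_iff]
    intro m
    exact ht3 i m j
  have hsubN : Q j '' C ⊆ {q : ℝ | ∃ x ∈ Z, x ∈ S ∧ Q j x = q} := by
    rintro _ ⟨w, hw, rfl⟩
    obtain ⟨hwZ, h, hh⟩ := hCsub hw
    have hwn := hZn w hwZ
    have hTw := norm_T_le hT h (hZB w hwZ)
    have hTB : T h w ∈ BB n := mem_BB.2 (by linarith)
    refine ⟨T h w, ⟨by linarith, ?_⟩, hh, hQinv j h w (hZB w hwZ) hTB⟩
    rw [hinv h w (hZB w hwZ) hTB]
    exact hwZ.2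
  have hpc : IsPreconnected (Q j '' C) :=
    hCp.image _ ((hQc j).mono fun w hw => hZB w (hCsub hw).1)
  exact sub_of_null hpc hnullj hsubN (mem_image_of_mem _ hz) (mem_image_of_mem _ hxC)

end Pool.Agent.K1H66.HS
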