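import Pool.Agent.K1H66.HS.Lab

/-!
# Equivariant functions without zeros, and invariant continua which meet the walls (helper66)
-/

set_option autoImplicit false

open MeasureTheory Set Metric Filter Topology
open scoped ENNReal NNReal ContDiff Real

noncomputable section

namespace Pool.Agent.K1H66.HS

open Pool.Agent.Y485.HS Pool.Agent.Y489.SP Pool.Agent.Y475.HS Pool.Agent.Y532.SP.LOCS

/-- the points whose orbit meets the walls -/
def Meet {n : ℕ} {H : Type} (T : H → E n → E n) (S Z : Set (E n)) : Set (E n) :=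
  {x | x ∈ Z ∧ ∃ h, T h x ∈ S}

theorem meet_compact {n : ℕ} {H : Type} [Group H] [TopologicalSpace H] [CompactSpace H]
    {T : H → E n → E n} (hT : LocAct n H T) {Z S : Set (E n)} (hZc : IsCompact Z)
    (hZ : ∀ x ∈ Z, x ∈ BB n) (hS : IsClosed S) : IsCompact (Meet T S Z) := by
  have h1 : IsCompact ((univ : Set H) ×ˢ BB n) := isCompact_univ.prod (isCompact_closedBall _ _)
  have hU : IsClosed ((univ : Set H) ×ˢ BB n) := isClosed_univ.prod isClosed_closedBall
  have h2 : IsClosed ((univ ×ˢ BB n) ∩ (fun q : H × E n => T q.1 q.2) ⁻¹' S) :=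
    hT.cont.preimage_isClosed_of_isClosed hU hS
  have h3 : IsClosed (((univ ×ˢ BB n) ∩ (fun q : H × E n => T q.1 q.2) ⁻¹' S) ∩
      (univ ×ˢ Z)) := h2.inter (isClosed_univ.prod hZc.isClosed)
  have h4 : IsCompact (((univ ×ˢ BB n) ∩ (fun q : H × E n => T q.1 q.2) ⁻¹' S) ∩
      (univ ×ˢ Z)) := (isCompact_univ.prod hZc).of_isClosed_subset h3 inter_subset_right
  have h5 := h4.image (continuous_snd (X := H) (Y := E n))
  convert h5 using 1
  ext x
  constructor
  · rintro ⟨hx, h, hh⟩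
    exact ⟨(h, x), ⟨⟨⟨mem_univ _, hZ x hx⟩, hh⟩, mem_univ _, hx⟩, rfl⟩
  · rintro ⟨⟨h, x'⟩, ⟨⟨-, hh⟩, -, hx⟩, rfl⟩
    exact ⟨hx, h, hh⟩

theorem cont_mul_bdd {n : ℕ} {f : E n → ℂ} {lam : E n → ℝ} {Z : Set (E n)} {x0 : E n}
    (hlam : ContinuousWithinAt lam Z x0) (hb : ∀ x, ‖f x‖ ≤ 1)
    (h : lam x0 = 0 ∨ ∀ᶠ x in 𝓝[Z] x0, f x = f x0) :
    ContinuousWithinAt (fun x => (lam x : ℂ) * f x) Z x0 := by
  rcases h with h | h
  · have h1 : Tendsto (fun x => ‖(lam x : ℂ) * f x‖) (𝓝[Z] x0) (𝓝 0) := by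
      have h2 : Tendsto (fun x => |lam x|) (𝓝[Z] x0) (𝓝 |lam x0|) := hlam.abs
      rw [h, abs_zero] at h2
      refine squeeze_zero (fun _ => norm_nonneg _) (fun x => ?_) h2
      rw [norm_mul, Complex.norm_real, Real.norm_eq_abs]
      calc |lam x| * ‖f x‖ ≤ |lam x| * 1 := mul_le_mul_of_nonneg_left (hb x) (abs_nonneg _)
        _ = |lam x| := mul_one _
    have h3 := tendsto_zero_iff_norm_tendsto_zero.2 h1
    show Tendsto _ _ (𝓝 ((lam x0 : ℂ) * f x0))
    rw [h, Complex.ofReal_zero, zero_mul]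
    exact h3
  · have h1 : ContinuousWithinAt (fun x => (lam x : ℂ) * f x0) Z x0 :=
      (Complex.continuous_ofReal.continuousAt.comp_continuousWithinAt hlam).mul
        continuousWithinAt_const
    refine h1.congr_of_eventuallyEq ?_ rfl
    filter_upwards [h] with x hx
    rw [hx]

/-- an auxiliary angle -/
theorem theta_ne {p : ℕ} (hp : 2 ≤ p) {θ w : ℂ} (hθ : θ = Complex.exp (π * Complex.I / (2 * p)))
    (hw : w ^ p = 1) (hw1 : ‖w‖ = 1) {a : ℝ} (ha0 : 0 ≤ a) (ha1 : a ≤ 1) :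
    ((1 - a : ℝ) : ℂ) + a * (θ * w) ≠ 0 := by
  intro h0
  have hp0 : (p : ℂ) ≠ 0 := by exact_mod_cast (by omega : p ≠ 0)
  have hθ1 : ‖θ‖ = 1 := by
    have e : (π * Complex.I / (2 * p) : ℂ) = ((π / (2 * p) : ℝ) : ℂ) * Complex.I := by
      push_cast; ring
    rw [hθ, e, Complex.norm_exp_ofReal_mul_I]
  have h1 : ((1 - a : ℝ) : ℂ) = -(a * (θ * w)) := eq_neg_of_add_eq_zero_left h0
  have h2 : 1 - a = a := by
    have h3 := congrArg norm h1
    rw [norm_neg, norm_mul, norm_mul, hθ1, hw1, Complex.norm_real, Complex.norm_real,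
      Real.norm_of_nonneg (by linarith), Real.norm_of_nonneg ha0] at h3
    linarith
  have h3 : a = 1 / 2 := by linarith
  have h4 : θ * w = -1 := by
    rw [h3] at h1
    push_cast at h1
    linear_combination (2 : ℂ) * h1
  have h5 : θ ^ p = (-1) ^ p := by
    rw [← h4, mul_pow, hw, mul_one]
  have h6 : θ ^ p = Complex.I := by
    rw [hθ, ← Complex.exp_nat_mul]
    have e : (p : ℂ) * (π * Complex.I / (2 * p)) = π / 2 * Complex.I := by
      field_simp
    rw [e, Complex.exp_pi_div_two_mul_I]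
  rw [h6] at h5
  rcases neg_one_pow_eq_or ℂ p with h7 | h7
  · rw [h7] at h5
    have := congrArg Complex.im h5
    simp at this
  · rw [h7] at h5
    have := congrArg Complex.im h5
    simp at this

/-- an equivariant function without zeros -/
theorem exists_psi {n p : ℕ} (hp : p.Prime) {H : Type} [Group H] [TopologicalSpace H]
    [CompactSpace H] {T : H → E n → E n} (hT : LocAct n H T) (g : H)
    (hg : Tendsto (fun j : ℕ => g ^ p ^ j) atTop (𝓝 1)) {Z : Set (E n)} (hZc : IsCompact Z)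
    (hZ : ∀ x ∈ Z, ‖x‖ ≤ 3) (hZT : ∀ h, ∀ x ∈ Z, T h x ∈ Z)
    {S : Set (E n)} (hS : IsClosed S) {ι : Type} (c : E n → ι)
    (hc : ∀ w, w ∉ S → ∀ᶠ w' in 𝓝 w, c w' = c w)
    (hcg : ∀ x ∈ Z, x ∉ S → T g x ∉ S → c (T g x) ≠ c x)
    (hcomp : ∀ x ∈ Meet T S Z, T g x ∉ connectedComponentIn (Meet T S Z) x) :
    ∃ ψ : E n → ℂ, ContinuousOn ψ Z ∧ (∀ x ∈ Z, ψ x ≠ 0) ∧
      ∀ x ∈ Z, ψ (T g x) = Complex.exp (2 * π * Complex.I / p) * ψ x := by
  classical
  have hp2 : 2 ≤ p := hp.two_le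
  have : NeZero p := ⟨hp.ne_zero⟩
  have hZB : ∀ x ∈ Z, x ∈ BB n := fun x hx => mem_BB.2 (by linarith [hZ x hx])
  obtain ⟨l, hl1, hl2⟩ := exists_label hp hT g hg hZ hS c hc hcg
  set Φ : Set (E n) := Meet T S Z with hΦdef
  have hΦc : IsCompact Φ := meet_compact hT hZc hZB hS
  have hΦZ : ∀ x ∈ Φ, x ∈ Z := fun x hx => hx.1
  -- invariance of `Φ`
  have hΦT : ∀ h, ∀ x ∈ Z, (T h x ∈ Φ ↔ x ∈ Φ) := by
    intro h x hx
    constructor
    · rintro ⟨-, k, hk⟩
      refine ⟨hx, k * h, ?_⟩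
      rw [hT.mul k h x (hZB x hx) (hZB _ (hZT h x hx))]
      exact hk
    · rintro ⟨-, k, hk⟩
      refine ⟨hZT h x hx, k * h⁻¹, ?_⟩
      have h1 := hT.mul (k * h⁻¹) h x (hZB x hx) (hZB _ (hZT h x hx))
      rw [← h1, inv_mul_cancel_right]
      exact hk
  have hnot : ∀ x ∈ Z, x ∉ Φ → ∀ h, T h x ∉ S := fun x hx hxΦ h hh => hxΦ ⟨hx, h, hh⟩
  -- the character
  let e : ZMod p → ℂ := fun j => ZMod.stdAddChar j
  have he1 : ∀ j, e (j + 1) = Complex.exp (2 * π * Complex.I / p) * e j := by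
    intro j
    show ZMod.stdAddChar (j + 1) = _
    rw [AddChar.map_add_eq_mul, mul_comm]
    congr 1
    have := ZMod.stdAddChar_coe (N := p) 1
    rw [Int.cast_one] at this
    rw [this]
    congr 1
    push_cast
    ring
  have hen : ∀ j, ‖e j‖ = 1 := fun j => by
    show ‖ZMod.stdAddChar j‖ = 1
    rw [ZMod.stdAddChar_apply]
    exact Circle.norm_coe _
  have hep : ∀ j, (e j) ^ p = 1 := fun j => by
    show (ZMod.stdAddChar j) ^ p = 1
    rw [← AddChar.map_nsmul_eq_pow]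
    simp
  have hesub : ∀ i j, e i = e j * e (i - j) := fun i j => by
    show ZMod.stdAddChar i = ZMod.stdAddChar j * ZMod.stdAddChar (i - j)
    rw [← AddChar.map_add_eq_mul]
    congr 1
    ring
  let u : E n → ℂ := fun x => e (l x)
  have hun : ∀ x, ‖u x‖ ≤ 1 := fun x => (hen _).le
  have hu1 : ∀ x ∈ Z, x ∉ Φ → u (T g x) = Complex.exp (2 * π * Complex.I / p) * u x := by
    intro x hx hxΦ
    show e (l (T g x)) = _
    rw [hl1 x hx (hnot x hx hxΦ), he1]
  have hu2 : ∀ x ∈ Z, x ∉ Φ → ∀ᶠ x' in 𝓝[Z] x, u x' = u x := by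
    intro x hx hxΦ
    filter_upwards [hl2 x hx (hnot x hx hxΦ)] with x' hx'
    show e (l x') = e (l x)
    rw [hx'.2]
  rcases Φ.eq_empty_or_nonempty with hemp | hne
  · refine ⟨u, ?_, ?_, ?_⟩
    · intro x hx
      have h1 := hu2 x hx (by rw [hemp]; exact notMem_empty x)
      exact (continuousWithinAt_const (b := u x)).congr_of_eventuallyEq h1 rfl
    · intro x _ h
      have := hen (l x)
      rw [show e (l x) = 0 from h, norm_zero] at this
      norm_num at this
    · intro x hx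
      exact hu1 x hx (by rw [hemp]; exact notMem_empty x)
  -- the cyclic partition
  obtain ⟨W, hW1, hW2, hW3, hW4⟩ := Pool.Agent.R775.HS.cyc_of_comp hp (τ := T g) hΦc
    ((hT.cont_right g).mono fun x hx => hZB x (hΦZ x hx))
    (fun x hx => (hΦT g x (hΦZ x hx)).2 hx)
    (fun ε hε => by
      obtain ⟨J, hJ⟩ := unif hT (fun j => g ^ p ^ j) hg ε hε
      refine ⟨J, fun x hx => ?_⟩
      rw [(iter_eq hT g Φ (fun x hx => hZB x (hΦZ x hx))
        (fun x hx => (hΦT g x (hΦZ x hx)).2 hx) (p ^ J) x hx).1]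
      exact hJ x (hZB x (hΦZ x hx))) hcomp
  obtain ⟨η, hη, -, hηd⟩ := Pool.Agent.Y983.SP.DEGP.exists_thick hW1 hW2
  obtain ⟨η1, hη1, hη1u⟩ := equi hT.cont hη
  obtain ⟨η2, hη2, hη2a, hη2b⟩ : ∃ η2 : ℝ, 0 < η2 ∧ η2 ≤ η ∧ η2 ≤ η1 :=
    ⟨min η η1, lt_min hη hη1, min_le_left _ _, min_le_right _ _⟩
  -- the invariant distance to `Φ`
  let D : E n → ℝ := fun x => sSup (range fun h : H => infDist (T h x) Φ)
  have hDb : ∀ x ∈ Z, BddAbove (range fun h : H => infDist (T h x) Φ) := by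
    intro x hx
    exact (isCompact_range ((continuous_infDist_pt Φ).comp (hT.cont_left (hZB x hx)))).bddAbove
  have hD1 : ∀ x ∈ Z, infDist x Φ ≤ D x := by
    intro x hx
    have h1 : infDist (T 1 x) Φ ≤ D x := le_csSup (hDb x hx) (mem_range_self 1)
    rwa [hT.one x (hZB x hx)] at h1
  have hD2 : ∀ x ∈ Z, D (T g x) = D x := by
    intro x hx
    show sSup _ = sSup _
    congr 1
    ext t
    constructor
    · rintro ⟨h, rfl⟩
      refine ⟨h * g, ?_⟩
      show infDist (T (h * g) x) Φ = infDist (T h (T g x)) Φ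
      rw [hT.mul h g x (hZB x hx) (hZB _ (hZT g x hx))]
    · rintro ⟨h, rfl⟩
      refine ⟨h * g⁻¹, ?_⟩
      show infDist (T (h * g⁻¹) (T g x)) Φ = infDist (T h x) Φ
      rw [← hT.mul (h * g⁻¹) g x (hZB x hx) (hZB _ (hZT g x hx)), inv_mul_cancel_right]
  have hD3 : ∀ x ∈ Φ, D x = 0 := by
    intro x hx
    apply le_antisymm
    · apply csSup_le (range_nonempty _)
      rintro _ ⟨h, rfl⟩
      exact (infDist_zero_of_mem ((hΦT h x (hΦZ x hx)).2 hx)).le
    · exact infDist_nonneg.trans (hD1 x (hΦZ x hx))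
  have hD4 : ContinuousOn D Z := by
    rw [Metric.continuousOn_iff]
    intro x hx ε hε
    obtain ⟨ζ, hζ, h1⟩ := equi hT.cont (half_pos hε)
    refine ⟨ζ, hζ, fun x' hx' hd => ?_⟩
    have key : ∀ a ∈ Z, ∀ b ∈ Z, dist a b < ζ → D a ≤ D b + ε / 2 := by
      intro a ha b hb hab
      apply csSup_le (range_nonempty _)
      rintro _ ⟨h, rfl⟩
      have h2 : infDist (T h a) Φ ≤ infDist (T h b) Φ + dist (T h a) (T h b) :=
        infDist_le_infDist_add_dist
      have h3 : infDist (T h b) Φ ≤ D b := le_csSup (hDb b hb) (mem_range_self h)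
      have h4 := h1 h a (hZB a ha) b (hZB b hb) hab
      show infDist (T h a) Φ ≤ D b + ε / 2
      linarith
    have h5 := key x' hx' x hx hd
    have h6 := key x hx x' hx' (by rwa [dist_comm])
    rw [Real.dist_eq, abs_lt]
    constructor <;> linarith
  let lam : E n → ℝ := fun x => max 0 (1 - D x / η2)
  have hlamc : ContinuousOn lam Z :=
    (continuousOn_const).sup (continuousOn_const.sub (hD4.div_const _))
  have hD0 : ∀ x ∈ Z, 0 ≤ D x := fun x hx => infDist_nonneg.trans (hD1 x hx)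
  have hlam0 : ∀ x, 0 ≤ lam x := fun x => le_max_left _ _
  have hlam1 : ∀ x ∈ Z, lam x ≤ 1 := fun x hx =>
    max_le zero_le_one (by
      have := div_nonneg (hD0 x hx) hη2.le
      linarith)
  have hlamΦ : ∀ x ∈ Φ, lam x = 1 := fun x hx => by
    show max 0 (1 - D x / η2) = 1
    rw [hD3 x hx, zero_div, sub_zero]
    exact max_eq_right zero_le_one
  have hlamg : ∀ x ∈ Z, lam (T g x) = lam x := fun x hx => by
    show max 0 (1 - D (T g x) / η2) = max 0 (1 - D x / η2)
    rw [hD2 x hx]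
  have hlamp : ∀ x ∈ Z, lam x ≠ 0 → ∃ i, ∃ w ∈ W i, dist x w < η2 := by
    intro x hx h
    have h1 : 0 < 1 - D x / η2 := by
      by_contra hcon
      exact h (max_eq_left (not_lt.1 hcon))
    have h2 : D x < η2 := by
      have : D x / η2 < 1 := by linarith
      rwa [div_lt_one hη2] at this
    have h3 : infDist x Φ < η2 := (hD1 x hx).trans_lt h2
    obtain ⟨w, hw, hd⟩ := (infDist_lt_iff hne).1 h3
    rw [← hW3] at hw
    obtain ⟨i, hi⟩ := mem_iUnion.1 hw
    exact ⟨i, w, hi, hd⟩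
  -- the function near `Φ`
  let v : E n → ℂ := fun x => if h : ∃ i, x ∈ thickening η (W i) then e h.choose else 0
  have hv1 : ∀ i, ∀ x ∈ thickening η (W i), v x = e i := by
    intro i x hx
    have h : ∃ i, x ∈ thickening η (W i) := ⟨i, hx⟩
    have h1 : h.choose = i := by
      by_contra hne'
      exact Set.disjoint_left.1 (hηd _ _ hne') h.choose_spec hx
    show (if h : ∃ i, x ∈ thickening η (W i) then e h.choose else 0) = e i
    rw [dif_pos h, h1]
  have hvn : ∀ x, ‖v x‖ ≤ 1 := by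
    intro x
    by_cases h : ∃ i, x ∈ thickening η (W i)
    · obtain ⟨i, hi⟩ := h
      rw [hv1 i x hi, hen]
    · have h1 : v x = 0 := dif_neg h
      rw [h1, norm_zero]
      exact zero_le_one
  have hv2 : ∀ i, ∀ x ∈ thickening η (W i), ∀ᶠ x' in 𝓝[Z] x, v x' = v x := by
    intro i x hx
    have h1 : thickening η (W i) ∈ 𝓝[Z] x :=
      mem_nhdsWithin_of_mem_nhds (isOpen_thickening.mem_nhds hx)
    filter_upwards [h1] with x' hx'
    rw [hv1 i x' hx', hv1 i x hx]
  obtain ⟨θ, hθ⟩ : ∃ θ : ℂ, θ = Complex.exp (π * Complex.I / (2 * p)) := ⟨_, rfl⟩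
  refine ⟨fun x => ((1 - lam x : ℝ) : ℂ) * u x + θ * ((lam x : ℂ) * v x), ?_, ?_, ?_⟩
  · intro x hx
    have hl : ContinuousWithinAt lam Z x := hlamc x hx
    have hl' : ContinuousWithinAt (fun x => 1 - lam x) Z x := continuousWithinAt_const.sub hl
    have c1 : ContinuousWithinAt (fun x => ((1 - lam x : ℝ) : ℂ) * u x) Z x := by
      refine cont_mul_bdd hl' hun ?_
      by_cases hxΦ : x ∈ Φ
      · left
        rw [hlamΦ x hxΦ, sub_self]
      · right
        exact hu2 x hx hxΦ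
    have c2 : ContinuousWithinAt (fun x => (lam x : ℂ) * v x) Z x := by
      refine cont_mul_bdd hl hvn ?_
      by_cases h0 : lam x = 0
      · left; exact h0
      · right
        obtain ⟨i, w, hw, hd⟩ := hlamp x hx h0
        exact hv2 i x (mem_thickening_iff.2 ⟨w, hw, hd.trans_le hη2a⟩)
    exact c1.add (continuousWithinAt_const.mul c2)
  · intro x hx
    by_cases h0 : lam x = 0
    · show ((1 - lam x : ℝ) : ℂ) * u x + θ * ((lam x : ℂ) * v x) ≠ 0
      rw [h0]
      intro h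
      have h1 : u x = 0 := by simpa using h
      have := hen (l x)
      rw [show e (l x) = 0 from h1, norm_zero] at this
      norm_num at this
    · obtain ⟨i, w, hw, hd⟩ := hlamp x hx h0
      have h1 := hv1 i x (mem_thickening_iff.2 ⟨w, hw, hd.trans_le hη2a⟩)
      show ((1 - lam x : ℝ) : ℂ) * u x + θ * ((lam x : ℂ) * v x) ≠ 0
      rw [h1]
      have h2 : u x = e (l x) := rfl
      rw [h2, hesub i (l x)]
      have h3 := theta_ne hp2 hθ (hep (i - l x)) (hen (i - l x)) (hlam0 x) (hlam1 x hx)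
      intro h
      apply h3
      have h4 : e (l x) ≠ 0 := by
        intro h5
        have := hen (l x)
        rw [h5, norm_zero] at this
        norm_num at this
      have h5 : e (l x) * (((1 - lam x : ℝ) : ℂ) + lam x * (θ * e (i - l x))) = 0 := by
        rw [← h]; ring
      exact (mul_eq_zero.1 h5).resolve_left h4
  · intro x hx
    show ((1 - lam (T g x) : ℝ) : ℂ) * u (T g x) + θ * ((lam (T g x) : ℂ) * v (T g x)) =
      Complex.exp (2 * π * Complex.I / p) *
        (((1 - lam x : ℝ) : ℂ) * u x + θ * ((lam x : ℂ) * v x))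
    rw [hlamg x hx]
    have e1 : ((1 - lam x : ℝ) : ℂ) * u (T g x) =
        Complex.exp (2 * π * Complex.I / p) * (((1 - lam x : ℝ) : ℂ) * u x) := by
      by_cases hxΦ : x ∈ Φ
      · rw [hlamΦ x hxΦ]
        simp
      · rw [hu1 x hx hxΦ]
        ring
    have e2 : (lam x : ℂ) * v (T g x) =
        Complex.exp (2 * π * Complex.I / p) * ((lam x : ℂ) * v x) := by
      by_cases h0 : lam x = 0
      · rw [h0]
        simp
      · obtain ⟨i, w, hw, hd⟩ := hlamp x hx h0
        have h1 := hv1 i x (mem_thickening_iff.2 ⟨w, hw, hd.trans_le hη2a⟩)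
        have hwΦ : w ∈ Φ := by rw [← hW3]; exact mem_iUnion.2 ⟨i, hw⟩
        have h2 : dist (T g x) (T g w) < η :=
          hη1u g x (hZB x hx) w (hZB w (hΦZ w hwΦ)) (hd.trans_le hη2b)
        have h3 := hv1 (i + 1) (T g x) (mem_thickening_iff.2 ⟨T g w, hW4 i w hw, h2⟩)
        rw [h1, h3, he1]
        ring
    rw [e1, e2]
    ring

end Pool.Agent.K1H66.HS
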