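import Pool.Agent.K1H66.HS.Yang
import Pool.Agent.R775.HS.Loc

/-!
# Equivariant labels and equivariant functions (helper66)
-/

set_option autoImplicit false

open MeasureTheory Set Metric Filter Topology
open scoped ENNReal NNReal ContDiff Real

noncomputable section

namespace Pool.Agent.K1H66.HS

open Pool.Agent.Y485.HS Pool.Agent.Y489.SP Pool.Agent.Y475.HS Pool.Agent.Y532.SP.LOCS

/-! ### permutations with orbits of prime power length -/

theorem dvd_of' {Ω : Type} (s : Equiv.Perm Ω) (p J : ℕ) (hp : p.Prime) (r : Ω)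
    (hq : (s ^ (p ^ J)) r = r) (hr : s r ≠ r) (m : ℤ) (hm : (s ^ m) r = r) : (p : ℤ) ∣ m := by
  by_contra hd
  have h1 : IsCoprime (p : ℤ) m :=
    (Nat.prime_iff_prime_int.1 hp).irreducible.coprime_iff_not_dvd.2 hd
  have hc : IsCoprime m ((p : ℤ) ^ J) := h1.symm.pow_right
  obtain ⟨a, b, hab⟩ := hc
  have h2 : s ^ (1 : ℤ) = (s ^ (p ^ J)) ^ b * (s ^ m) ^ a := by
    rw [← zpow_natCast, ← zpow_mul, ← zpow_mul, ← zpow_add, ← hab]
    congr 1
    push_cast
    ring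
  have h3 : ((s ^ m) ^ a) r = r := Equiv.Perm.zpow_apply_eq_self_of_apply_eq_self hm a
  have h3' : ((s ^ (p ^ J)) ^ b) r = r := Equiv.Perm.zpow_apply_eq_self_of_apply_eq_self hq b
  have h4 : s r = r := by
    have h5 : (s ^ (1 : ℤ)) r = r := by
      rw [h2, Equiv.Perm.mul_apply, h3, h3']
    simpa using h5
  exact hr h4

/-- an equivariant map to the cyclic group of order `p` -/
theorem exists_kappa' {Ω : Type} (s : Equiv.Perm Ω) (p : ℕ) (hp : p.Prime)
    (hq : ∀ r, ∃ J : ℕ, (s ^ (p ^ J)) r = r) (hfix : ∀ r, s r ≠ r) :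
    ∃ κ : Ω → ZMod p, ∀ r, κ (s r) = κ r + 1 := by
  classical
  let S : Setoid Ω := Equiv.Perm.SameCycle.setoid s
  let rep : Ω → Ω := fun r => (Quotient.mk S r).out
  have hrep : ∀ r, ∃ k : ℤ, (s ^ k) (rep r) = r := by
    intro r
    have h : S.r (rep r) r := Quotient.mk_out (s := S) r
    exact h
  choose k hk using hrep
  refine ⟨fun r => ((k r : ℤ) : ZMod p), fun r => ?_⟩
  have h1 : rep (s r) = rep r := by
    show (Quotient.mk S (s r)).out = (Quotient.mk S r).out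
    congr 1
    apply Quotient.sound
    show Equiv.Perm.SameCycle s (s r) r
    exact ⟨-1, by simp⟩
  have h2 : (s ^ (-(k r + 1) + k (s r))) (rep r) = rep r := by
    have e1 : (s ^ (k (s r))) (rep r) = s r := by
      have := hk (s r)
      rwa [h1] at this
    have e2 : (s ^ (k r + 1)) (rep r) = s r := by
      rw [add_comm, zpow_add, Equiv.Perm.mul_apply, hk r]
      simp
    rw [zpow_add, Equiv.Perm.mul_apply, e1, ← e2, ← Equiv.Perm.mul_apply, ← zpow_add]
    simp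
  obtain ⟨J, hJ⟩ := hq (rep r)
  have h3 := dvd_of' s p J hp (rep r) hJ (hfix _) _ h2
  show ((k (s r) : ℤ) : ZMod p) = ((k r : ℤ) : ZMod p) + 1
  have h4 : ((-(k r + 1) + k (s r) : ℤ) : ZMod p) = 0 :=
    (ZMod.intCast_zmod_eq_zero_iff_dvd _ p).2 h3
  push_cast at h4
  linear_combination h4

/-- a label of the sequences with a prime power period which are not constant -/
theorem exists_L (ι : Type) (p : ℕ) (hp : p.Prime) : ∃ L : (ℤ → ι) → ZMod p, ∀ f : ℤ → ι,
    (∃ J : ℕ, ∀ m, f (m + (p ^ J : ℕ)) = f m) → (fun m => f (m + 1)) ≠ f →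
      L (fun m => f (m + 1)) = L f + 1 := by
  classical
  let P : (ℤ → ι) → Prop := fun f => (∃ J : ℕ, ∀ m, f (m + (p ^ J : ℕ)) = f m) ∧
    (fun m => f (m + 1)) ≠ f
  have hP1 : ∀ f, P f → P (fun m => f (m + 1)) := by
    rintro f ⟨⟨J, hJ⟩, h⟩
    refine ⟨⟨J, fun m => ?_⟩, fun h' => h ?_⟩
    · show f (m + (p ^ J : ℕ) + 1) = f (m + 1)
      rw [← hJ (m + 1)]
      congr 1
      ring
    · funext m
      have := congrFun h' (m - 1)
      simpa using this
  have hP2 : ∀ f, P f → P (fun m => f (m - 1)) := by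
    rintro f ⟨⟨J, hJ⟩, h⟩
    refine ⟨⟨J, fun m => ?_⟩, fun h' => h ?_⟩
    · show f (m + (p ^ J : ℕ) - 1) = f (m - 1)
      rw [← hJ (m - 1)]
      congr 1
      ring
    · funext m
      have := congrFun h' (m + 1)
      simpa using this
  let Ω : Type := {f : ℤ → ι // P f}
  let s : Equiv.Perm Ω :=
    { toFun := fun f => ⟨fun m => f.1 (m + 1), hP1 f.1 f.2⟩
      invFun := fun f => ⟨fun m => f.1 (m - 1), hP2 f.1 f.2⟩
      left_inv := by
        intro f
        apply Subtype.ext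
        funext m
        show f.1 (m - 1 + 1) = f.1 m
        rw [sub_add_cancel]
      right_inv := by
        intro f
        apply Subtype.ext
        funext m
        show f.1 (m + 1 - 1) = f.1 m
        rw [add_sub_cancel_right] }
  have hspow : ∀ j : ℕ, ∀ f : Ω, ∀ m, ((s ^ j) f).1 m = f.1 (m + j) := by
    intro j
    induction j with
    | zero => intro f m; simp
    | succ j ih =>
      intro f m
      rw [pow_succ, Equiv.Perm.mul_apply, ih]
      show f.1 (m + j + 1) = f.1 (m + (j + 1 : ℕ))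
      rw [show m + (j : ℤ) + 1 = m + ((j + 1 : ℕ) : ℤ) by push_cast; ring]
  obtain ⟨κ, hκ⟩ := exists_kappa' s p hp (by
      rintro ⟨f, ⟨J, hJ⟩, h⟩
      refine ⟨J, Subtype.ext (funext fun m => ?_)⟩
      rw [hspow]
      exact hJ m) (by
      rintro ⟨f, hf1, hf2⟩ h
      exact hf2 (congrArg Subtype.val h))
  refine ⟨fun f => if h : P f then κ ⟨f, h⟩ else 0, fun f h1 h2 => ?_⟩
  have hf : P f := ⟨h1, h2⟩
  have hf' := hP1 f hf
  have e1 : (if h : P (fun m => f (m + 1)) then κ ⟨fun m => f (m + 1), h⟩ else 0) =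
      κ ⟨fun m => f (m + 1), hf'⟩ := dif_pos hf'
  have e2 : (if h : P f then κ ⟨f, h⟩ else 0) = κ ⟨f, hf⟩ := dif_pos hf
  show (if h : P (fun m => f (m + 1)) then κ ⟨fun m => f (m + 1), h⟩ else 0) =
    (if h : P f then κ ⟨f, h⟩ else 0) + 1
  rw [e1, e2]
  exact hκ ⟨f, hf⟩

/-! ### equicontinuity -/

theorem equi {n : ℕ} {H : Type} [TopologicalSpace H] [CompactSpace H] {T : H → E n → E n}
    (hT : ContinuousOn (fun q : H × E n => T q.1 q.2) (univ ×ˢ BB n)) {ε : ℝ} (hε : 0 < ε) :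
    ∃ η : ℝ, 0 < η ∧ ∀ h, ∀ x ∈ BB n, ∀ x' ∈ BB n, dist x x' < η → dist (T h x) (T h x') < ε := by
  have hR : IsCompact (range (res T hT)) := isCompact_range (res T hT).continuous
  have hε3 : 0 < ε / 3 := by positivity
  obtain ⟨t, htR, ht, hcov⟩ := hR.finite_cover_balls hε3
  have h1 : ∀ᶠ η : ℝ in 𝓝[>] 0, ∀ f ∈ t, ∀ x x' : BB n, dist x x' < η →
      dist (f x) (f x') < ε / 3 := by
    rw [Filter.eventually_all_finite ht]
    intro f _
    have hu : UniformContinuous f := CompactSpace.uniformContinuous_of_continuous f.continuous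
    obtain ⟨η, hη, h⟩ := Metric.uniformContinuous_iff.1 hu (ε / 3) hε3
    filter_upwards [Ioo_mem_nhdsGT hη] with η' hη' x x' hx
    exact h (hx.trans hη'.2)
  obtain ⟨η, h2, hη⟩ := (h1.and self_mem_nhdsWithin).exists
  refine ⟨η, hη, fun h x hx x' hx' hd => ?_⟩
  obtain ⟨f, hf, hfb⟩ := mem_iUnion₂.1 (hcov (mem_range_self h))
  have e1 := (ContinuousMap.dist_apply_le_dist (f := res T hT h) (g := f) ⟨x, hx⟩).trans_lt hfb
  have e2 := (ContinuousMap.dist_apply_le_dist (f := res T hT h) (g := f) ⟨x', hx'⟩).trans_lt hfb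
  have e3 := h2 f hf ⟨x, hx⟩ ⟨x', hx'⟩ hd
  rw [res_apply] at e1 e2
  have e4 := dist_triangle4 (T h x) (f ⟨x, hx⟩) (f ⟨x', hx'⟩) (T h x')
  rw [dist_comm (f ⟨x', hx'⟩) (T h x')] at e4
  simp only at e1 e2
  linarith

/-! ### labels away from the walls -/

theorem exists_label {n p : ℕ} (hp : p.Prime) {H : Type} [Group H] [TopologicalSpace H]
    [CompactSpace H] {T : H → E n → E n} (hT : LocAct n H T) (g : H)
    (hg : Tendsto (fun j : ℕ => g ^ p ^ j) atTop (𝓝 1)) {Z : Set (E n)} (hZ : ∀ x ∈ Z, ‖x‖ ≤ 3)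
    {S : Set (E n)} (hS : IsClosed S) {ι : Type} (c : E n → ι)
    (hc : ∀ w, w ∉ S → ∀ᶠ w' in 𝓝 w, c w' = c w)
    (hcg : ∀ x ∈ Z, x ∉ S → T g x ∉ S → c (T g x) ≠ c x) :
    ∃ l : E n → ZMod p, (∀ x ∈ Z, (∀ h, T h x ∉ S) → l (T g x) = l x + 1) ∧
      ∀ x ∈ Z, (∀ h, T h x ∉ S) → ∀ᶠ x' in 𝓝[Z] x, (∀ h, T h x' ∉ S) ∧ l x' = l x := by
  obtain ⟨L, hL⟩ := exists_L ι p hp
  have hZB : ∀ x ∈ Z, x ∈ BB n := fun x hx => mem_BB.2 (by linarith [hZ x hx])
  have hTB : ∀ h, ∀ x ∈ Z, T h x ∈ BB n := fun h x hx =>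
    mem_BB.2 (by linarith [hZ x hx, norm_T_le hT h (hZB x hx)])
  let cs : E n → ℤ → ι := fun x m => c (T (g ^ m) x)
  -- uniformity on an orbit
  have hU : ∀ x ∈ Z, (∀ h, T h x ∉ S) → ∃ δ : ℝ, 0 < δ ∧ ∀ h w, dist w (T h x) < δ →
      w ∉ S ∧ c w = c (T h x) := by
    intro x hx hxS
    have hO : IsCompact (range fun h => T h x) := isCompact_range (hT.cont_left (hZB x hx))
    obtain ⟨δ, hδ, h1⟩ := lebesgue_number_lemma_of_metric hO
      (c := fun i : H => {w | w ∉ S ∧ c w = c (T i x)}) (by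
        intro i
        rw [isOpen_iff_mem_nhds]
        rintro w ⟨hw1, hw2⟩
        filter_upwards [hS.isOpen_compl.mem_nhds hw1, hc w hw1] with w' h3 h4
        exact ⟨h3, h4.trans hw2⟩) (by
        rintro _ ⟨h, rfl⟩
        exact mem_iUnion.2 ⟨h, hxS h, rfl⟩)
    refine ⟨δ, hδ, fun h w hw => ?_⟩
    obtain ⟨i, hi⟩ := h1 (T h x) (mem_range_self h)
    have h2 := hi (mem_ball_self hδ)
    have h3 := hi (show w ∈ ball (T h x) δ from hw)
    exact ⟨h3.1, h3.2.trans h2.2.symm⟩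
  refine ⟨fun x => L (cs x), ?_, ?_⟩
  · intro x hx hxS
    obtain ⟨δ, hδ, h1⟩ := hU x hx hxS
    have hper : ∃ J : ℕ, ∀ m, cs x (m + (p ^ J : ℕ)) = cs x m := by
      obtain ⟨J, hJ⟩ := unif hT (fun j => g ^ p ^ j) hg δ hδ
      refine ⟨J, fun m => ?_⟩
      have h2 : g ^ (m + ((p ^ J : ℕ) : ℤ)) = g ^ (p ^ J) * g ^ m := by
        rw [add_comm, zpow_add, zpow_natCast]
      have h3 : T (g ^ (m + ((p ^ J : ℕ) : ℤ))) x = T (g ^ (p ^ J)) (T (g ^ m) x) := by
        rw [h2]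
        exact hT.mul _ _ x (hZB x hx) (hTB _ x hx)
      show c (T (g ^ (m + ((p ^ J : ℕ) : ℤ))) x) = c (T (g ^ m) x)
      rw [h3]
      exact (h1 (g ^ m) _ (hJ _ (hTB _ x hx))).2
    have hne : (fun m => cs x (m + 1)) ≠ cs x := by
      intro h
      have h2 := congrFun h 0
      have h3 : c (T (g ^ ((0 : ℤ) + 1)) x) = c (T (g ^ (0 : ℤ)) x) := h2
      rw [zero_add, zpow_one, zpow_zero, hT.one x (hZB x hx)] at h3
      have h4 := hxS 1
      rw [hT.one x (hZB x hx)] at h4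
      exact hcg x hx h4 (hxS g) h3
    have h5 := hL (cs x) hper hne
    have h6 : cs (T g x) = fun m => cs x (m + 1) := by
      funext m
      show c (T (g ^ m) (T g x)) = c (T (g ^ (m + 1)) x)
      rw [zpow_add_one, hT.mul _ _ x (hZB x hx) (hTB _ x hx)]
    show L (cs (T g x)) = L (cs x) + 1
    rw [h6]
    exact h5
  · intro x hx hxS
    obtain ⟨δ, hδ, h1⟩ := hU x hx hxS
    obtain ⟨η, hη, h2⟩ := equi hT.cont hδ
    have h3 : ball x η ∈ 𝓝[Z] x := mem_nhdsWithin_of_mem_nhds (ball_mem_nhds x hη)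
    filter_upwards [h3, self_mem_nhdsWithin] with x' hx' hx'Z
    have h4 : ∀ h, T h x' ∉ S ∧ c (T h x') = c (T h x) := fun h =>
      h1 h _ (h2 h x' (hZB x' hx'Z) x (hZB x hx) hx')
    refine ⟨fun h => (h4 h).1, ?_⟩
    have h5 : cs x' = cs x := funext fun m => (h4 (g ^ m)).2
    show L (cs x') = L (cs x)
    rw [h5]

end Pool.Agent.K1H66.HS
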