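import Pool.Agent.K1H66.HS.Null1
import Pool.Agent.K1H66.HS.Fix

/-!
# The local theorem (helper66)
-/

set_option autoImplicit false

open MeasureTheory Set Metric Filter Topology
open scoped ENNReal NNReal

noncomputable section

namespace Pool.Agent.K1H66.HS

open Pool.Agent.Y485.HS Pool.Agent.Y489.SP Pool.Agent.Y475.HS Pool.Agent.Y532.SP.BAI
  Pool.Agent.Y532.SP.LOCS

theorem orbit_clopen {n : ℕ} {H : Type} [Group H] [TopologicalSpace H] [IsTopologicalGroup H]
    [CompactSpace H] {T : H → E n → E n} (hT : LocAct n H T) {x : E n} (hx : ‖x‖ ≤ 3)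
    (V : Subgroup H) (hV : IsOpen (V : Set H)) {C : Set (E n)} (hC : IsPreconnected C)
    (hxC : x ∈ C) (hCo : ∀ z ∈ C, ∃ k, z = T k x) : ∀ z ∈ C, ∃ v ∈ V, z = T v x := by
  have hxB : x ∈ BB n := mem_BB.2 (by linarith)
  have hTB : ∀ h, T h x ∈ BB n := fun h => by
    have := norm_T_le hT h hxB
    exact mem_BB.2 (by linarith)
  let W : Set H := {k | ∃ v ∈ V, T k x = T v x}
  have hcl : Continuous fun k => T k x := hT.cont_left hxB
  have hWo : IsOpen W := by
    rw [isOpen_iff_mem_nhds]
    rintro k ⟨v, hv, hkv⟩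
    have h1 : IsOpen ((fun k' : H => k' * k⁻¹) ⁻¹' (V : Set H)) :=
      hV.preimage (continuous_id.mul continuous_const)
    have h2 : k ∈ (fun k' : H => k' * k⁻¹) ⁻¹' (V : Set H) := by
      show k * k⁻¹ ∈ V
      rw [mul_inv_cancel]
      exact V.one_mem
    refine mem_of_superset (h1.mem_nhds h2) ?_
    intro k' hk'
    have hk'' : k' * k⁻¹ ∈ V := hk'
    refine ⟨k' * k⁻¹ * v, V.mul_mem hk'' hv, ?_⟩
    rw [hT.mul _ v x hxB (hTB v), ← hkv, ← hT.mul _ k x hxB (hTB k), inv_mul_cancel_right]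
  have hA : IsCompact ((fun k => T k x) '' (V : Set H)) :=
    ((Subgroup.isClosed_of_isOpen V hV).isCompact).image hcl
  have hB : IsCompact ((fun k => T k x) '' Wᶜ) :=
    (hWo.isClosed_compl.isCompact).image hcl
  have hcov : C ⊆ (fun k => T k x) '' (V : Set H) ∪ (fun k => T k x) '' Wᶜ := by
    intro z hz
    obtain ⟨k, rfl⟩ := hCo z hz
    by_cases hk : k ∈ W
    · obtain ⟨v, hv, hkv⟩ := hk
      exact Or.inl ⟨v, hv, hkv.symm⟩
    · exact Or.inr ⟨k, hk, rfl⟩
  have hdis : C ∩ ((fun k => T k x) '' (V : Set H) ∩ (fun k => T k x) '' Wᶜ) = ∅ := by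
    rw [Set.eq_empty_iff_forall_notMem]
    rintro z ⟨-, ⟨v, hv, hvz⟩, ⟨k, hk, hkz⟩⟩
    exact hk ⟨v, hv, by
      simp only at hvz hkz
      rw [hvz, hkz]⟩
  rcases (isPreconnected_iff_subset_of_disjoint_closed.1 hC) _ _ hA.isClosed hB.isClosed hcov hdis
    with h | h
  · intro z hz
    obtain ⟨v, hv, hvz⟩ := h hz
    exact ⟨v, hv, hvz.symm⟩
  · exfalso
    obtain ⟨k, hk, hkx⟩ := h hxC
    refine hk ⟨1, V.one_mem, ?_⟩
    rw [hT.one x hxB]
    exact hkx

theorem pair_en {n m N : ℕ} {v : E n → E n} (hv : ContinuousOn v (BB n)) (hE : EnV m N v)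
    {f : E n → ℝ} (hf : LipschitzWith 1 f) : EnV m N (fun x => (v x, f (v x))) := by
  intro r hr hr1 A hA hAs
  refine (Finset.sum_le_sum fun a _ => ?_).trans (hE r hr hr1 A hA hAs)
  have hb : Bornology.IsBounded (v '' (closedBall a r ∩ closedBall 0 3)) := by
    have h1 : IsCompact (v '' closedBall (0 : E n) 3) :=
      (isCompact_closedBall (0 : E n) 3).image_of_continuousOn
        (hv.mono (closedBall_subset_closedBall (by norm_num)))
    exact h1.isBounded.subset (image_mono inter_subset_right)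
  refine pow_le_pow_left₀ Metric.diam_nonneg ?_ m
  refine Metric.diam_le_of_forall_dist_le Metric.diam_nonneg ?_
  rintro _ ⟨x, hx, rfl⟩ _ ⟨x', hx', rfl⟩
  have h1 : dist (v x) (v x') ≤ Metric.diam (v '' (closedBall a r ∩ closedBall 0 3)) :=
    Metric.dist_le_diam_of_mem hb (mem_image_of_mem _ hx) (mem_image_of_mem _ hx')
  rw [Prod.dist_eq]
  refine max_le h1 ?_
  have h2 := hf.dist_le_mul (v x) (v x')
  rw [NNReal.coe_one, one_mul] at h2
  exact h2.trans h1

/-- the test functions -/
def bump (n : ℕ) (j : ℕ × ℕ) (z : E n) : ℝ :=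
  max 0 (1 / ((j.2 : ℝ) + 1) - dist z (TopologicalSpace.denseSeq (E n) j.1))

theorem bump_lip (n : ℕ) (j : ℕ × ℕ) : LipschitzWith 1 (bump n j) := by
  have h1 : LipschitzWith 1 fun z : E n => dist z (TopologicalSpace.denseSeq (E n) j.1) :=
    LipschitzWith.dist_left _
  refine LipschitzWith.of_le_add fun z z' => ?_
  have h2 := dist_triangle z' z (TopologicalSpace.denseSeq (E n) j.1)
  unfold bump
  have h3 : 0 ≤ dist z z' := dist_nonneg
  rw [dist_comm z' z] at h2
  refine max_le (by positivity) ?_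
  have h4 := le_max_right 0 (1 / ((j.2 : ℝ) + 1) - dist z' (TopologicalSpace.denseSeq (E n) j.1))
  linarith

theorem bump_nonneg (n : ℕ) (j : ℕ × ℕ) (z : E n) : 0 ≤ bump n j z := le_max_left _ _

/-- a test function which is positive at a point and vanishes on a compact set -/
theorem exists_bump {n : ℕ} {O : Set (E n)} (hO : IsClosed O) (hne : O.Nonempty) {z0 : E n}
    (h : z0 ∉ O) : ∃ j : ℕ × ℕ, bump n j z0 ≠ 0 ∧ ∀ w ∈ O, bump n j w = 0 := by
  have hpos : 0 < infDist z0 O := (hO.notMem_iff_infDist_pos hne).1 h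
  obtain ⟨k, hk⟩ := exists_nat_one_div_lt (half_pos hpos)
  have hk0 : (0 : ℝ) < 1 / ((k : ℝ) + 1) := by positivity
  obtain ⟨j, hj⟩ := (TopologicalSpace.denseRange_denseSeq (E n)).exists_dist_lt z0 hk0
  refine ⟨(j, k), ?_, ?_⟩
  · unfold bump
    have : 0 < 1 / ((k : ℝ) + 1) - dist z0 (TopologicalSpace.denseSeq (E n) j) := by linarith
    exact (lt_max_of_lt_right this).ne'
  · intro w hw
    unfold bump
    apply max_eq_left
    have h1 := infDist_le_dist_of_mem (x := z0) hw
    have h2 := dist_triangle_right z0 w (TopologicalSpace.denseSeq (E n) j)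
    simp only
    linarith

/-- **The local theorem.** -/
theorem locs {p : ℕ} (hp : p.Prime) {n : ℕ} {H : Type} [Group H]
    [TopologicalSpace H] [IsTopologicalGroup H] [CompactSpace H] [T2Space H]
    [TotallyDisconnectedSpace H] {T : H → E n → E n} (hT : LocAct n H T) (h0 : H)
    (K₀ : Subgroup H) (N : ℕ) (hKc : IsClosed (K₀ : Set H))
    (hKN : ∀ k ∈ K₀, EnV (n + 1) N (T (h0 * k))) (g : H) (hgK : g ∈ K₀)
    (hgp : Tendsto (fun j : ℕ => g ^ p ^ j) atTop (𝓝 1)) :
    ∀ x ∈ ball (0 : E n) (1 / 2), T g x = x := by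
  set K : Subgroup H := (Subgroup.zpowers g).topologicalClosure with hKdef
  have hKclosed : IsClosed (K : Set H) := Subgroup.isClosed_topologicalClosure _
  have hKle : K ≤ K₀ :=
    Subgroup.topologicalClosure_minimal _ ((Subgroup.zpowers_le).2 hgK) hKc
  have hgmem : g ∈ K := Subgroup.le_topologicalClosure _ (Subgroup.mem_zpowers g)
  have hKcomp : CompactSpace K := isCompact_iff_compactSpace.1 hKclosed.isCompact
  let _ : MeasurableSpace K := borel K
  have _ : BorelSpace K := ⟨rfl⟩
  let μ : Measure K := Measure.haarMeasure ⊤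
  have hμ1 : IsProbabilityMeasure μ := ⟨by
    have := Measure.haarMeasure_self (K₀ := (⊤ : TopologicalSpace.PositiveCompacts K))
    simpa using this⟩
  -- the averaged maps
  let S : K → E n → E n := fun k x => T (h0 * ((k : H))⁻¹) x
  have hScont : ContinuousOn (fun q : K × E n => S q.1 q.2) (univ ×ˢ BB n) := by
    have hc : Continuous (fun q : K × E n => (h0 * (((q.1 : K) : H))⁻¹, q.2)) := by fun_prop
    refine hT.cont.comp hc.continuousOn ?_
    rintro ⟨k, x⟩ ⟨-, hx⟩
    exact ⟨mem_univ _, hx⟩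
  have hSm : ∀ k, EnV (n + 1) N (S k) := fun k => hKN _ (K₀.inv_mem (hKle k.2))
  have hSr : ∀ k, ContinuousOn (S k) (BB n) := fun k => hT.cont_right _
  have hSc1 : ∀ x ∈ BB n, Continuous (fun k => S k x) := by
    intro x hx
    have hc : Continuous (fun k : K => (k, x)) := by fun_prop
    exact hScont.comp_continuous hc (fun k => ⟨mem_univ _, hx⟩)
  have hSint : ∀ x ∈ BB n, Integrable (fun k => S k x) μ := fun x hx =>
    (hSc1 x hx).integrable_of_hasCompactSupport (HasCompactSupport.of_compactSpace _)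
  have hQint : ∀ j, ∀ x ∈ BB n, Integrable (fun k => bump n j (S k x)) μ := fun j x hx =>
    ((bump_lip n j).continuous.comp (hSc1 x hx)).integrable_of_hasCompactSupport
      (HasCompactSupport.of_compactSpace _)
  set F : E n → E n := fun x => ∫ k, S k x ∂μ with hF
  set Q : ℕ × ℕ → E n → ℝ := fun j x => ∫ k, bump n j (S k x) ∂μ with hQ
  have hav : ∀ j : ℕ × ℕ, EnV (n + 1) N (fun x => (F x, Q j x)) ∧
      ContinuousOn (fun x => (F x, Q j x)) (BB n) := by
    intro j
    have hUc : ContinuousOn (fun q : K × E n => (S q.1 q.2, bump n j (S q.1 q.2)))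
        (univ ×ˢ BB n) :=
      hScont.prodMk ((bump_lip n j).continuous.comp_continuousOn hScont)
    obtain ⟨h1, h2⟩ := ave μ (fun k x => (S k x, bump n j (S k x))) hUc (n + 1) N
      (fun k => pair_en (hSr k) (hSm k) (bump_lip n j))
    have h3 : ∀ x ∈ BB n, ∫ k, (S k x, bump n j (S k x)) ∂μ = (F x, Q j x) := by
      intro x hx
      exact integral_pair (hSint x hx) (hQint j x hx)
    exact ⟨enV_congr h3 h1, h2.congr fun x hx => (h3 x hx).symm⟩
  have hFc : ContinuousOn F (BB n) := continuous_fst.comp_continuousOn (hav (0, 0)).2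
  have hQc : ∀ j, ContinuousOn (Q j) (BB n) := fun j => continuous_snd.comp_continuousOn (hav j).2
  have hdisp : ∀ x ∈ BB n, dist (F x) x ≤ 1 / 4 := by
    intro x hx
    have h1 : F x - x = ∫ k, (S k x - x) ∂μ := by
      rw [integral_sub (hSint x hx) (integrable_const _)]
      simp [hF]
    rw [dist_eq_norm, h1]
    have h2 := norm_integral_le_of_norm_le_const (μ := μ) (f := fun k => S k x - x) (C := 1 / 4)
      (Eventually.of_forall fun k => by
        have := hT.disp (h0 * ((k : H))⁻¹) x hx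
        rwa [dist_eq_norm] at this)
    simpa using h2
  have hSk : ∀ (k : K), ∀ x ∈ BB n, T (k : H) x ∈ BB n → ∀ k' : K,
      S k' (T (k : H) x) = S (k⁻¹ * k') x := by
    intro k x hx hkx k'
    show T (h0 * ((k' : H))⁻¹) (T (k : H) x) = T (h0 * (((k⁻¹ * k' : K) : H))⁻¹) x
    rw [← hT.mul _ _ x hx hkx]
    congr 1
    simp [mul_assoc]
  have hinv : ∀ k : K, ∀ x ∈ BB n, T (k : H) x ∈ BB n → F (T (k : H) x) = F x := by
    intro k x hx hkx
    show ∫ k', S k' (T (k : H) x) ∂μ = ∫ k', S k' x ∂μ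
    simp_rw [hSk k x hx hkx]
    exact integral_mul_left_eq_self (fun k' => S k' x) k⁻¹
  have hQinv : ∀ j, ∀ k : K, ∀ x ∈ BB n, T (k : H) x ∈ BB n → Q j (T (k : H) x) = Q j x := by
    intro j k x hx hkx
    show ∫ k', bump n j (S k' (T (k : H) x)) ∂μ = ∫ k', bump n j (S k' x) ∂μ
    simp_rw [hSk k x hx hkx]
    exact integral_mul_left_eq_self (fun k' => bump n j (S k' x)) k⁻¹
  have hCB : closedBall (0 : E n) 3 ⊆ BB n := closedBall_subset_closedBall (by norm_num)
  -- the action of `K`
  have hT' : LocAct n K (fun k => T (k : H)) := by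
    refine ⟨?_, fun x hx => hT.one x hx, fun h k x hx hkx => hT.mul h k x hx hkx,
      fun h x hx => hT.disp h x hx⟩
    have hc : Continuous (fun q : K × E n => (((q.1 : K) : H), q.2)) := by fun_prop
    refine hT.cont.comp hc.continuousOn ?_
    rintro ⟨k, x⟩ ⟨-, hx⟩
    exact ⟨mem_univ _, hx⟩
  have hg' : Tendsto (fun j : ℕ => (⟨g, hgmem⟩ : K) ^ p ^ j) atTop (𝓝 1) := by
    rw [tendsto_subtype_rng]
    simpa using hgp
  -- almost every point is the image of a fixed point
  have hfix : ∀ᵐ y ∂(volume.restrict (ball (0 : E n) 1)),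
      ∃ x, ‖x‖ ≤ 3 ∧ (∀ k : K, T (k : H) x = x) ∧ T h0 x = y := by
    have hgood : ∀ᵐ y : E n, ∀ (i : Fin n) (j : ℕ × ℕ), ∀ᵐ t : ℝ,
        volume {q : ℝ | ∃ x ∈ closedBall (0 : E n) 3, (F x, Q j x) = (y, q) ∧ x i = t} = 0 := by
      rw [ae_all_iff]
      intro i
      rw [ae_all_iff]
      intro j
      exact ae_null (hav j).1 (hav j).2 i
    filter_upwards [ae_restrict_of_ae (s := ball (0 : E n) 1) hgood,
      ae_restrict_mem measurableSet_ball] with y hy hy1
    obtain ⟨x, hx3, hFx, hgx⟩ := exists_fix hp hT' ⟨g, hgmem⟩ hg' F hFc hdisp hinv hy1 Q hQc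
      hQinv (by
        intro i j
        filter_upwards [hy i j] with t ht
        refine measure_mono_null ?_ ht
        rintro q ⟨x, hx, h1, h2, h3⟩
        exact ⟨x, by simpa using hx, by rw [h1, h2], h3⟩) (by
      intro x hx hFx C hC hxC hgC hall
      have hxB : x ∈ BB n := mem_BB.2 (by linarith)
      by_contra hne
      have hε : 0 < dist (T g x) x := dist_pos.2 hne
      have hnb : ∀ z ∈ C, ∃ k : K, z = T (k : H) x := by
        intro z hz
        obtain ⟨hz3, hFz, hQz⟩ := hall z hz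
        have hzB : z ∈ BB n := mem_BB.2 (by linarith)
        by_contra hno
        have hO : IsCompact (range fun k : K => S k z) := isCompact_range (hSc1 z hzB)
        have hnot : T h0 x ∉ range fun k : K => S k z := by
          rintro ⟨k, hk⟩
          apply hno
          have hk' : T (h0 * ((k : H))⁻¹) z = T h0 x := hk
          -- apply the inverse of `h0`
          have e1 := norm_T_le hT h0 hxB
          have hB1 : T h0 x ∈ BB n := mem_BB.2 (by linarith)
          have e2 := hT.mul h0⁻¹ h0 x hxB hB1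
          have e3 := hT.mul h0⁻¹ (h0 * ((k : H))⁻¹) z hzB (by rw [hk']; exact hB1)
          rw [hk', ← e2, inv_mul_cancel, inv_mul_cancel_left, hT.one x hxB] at e3
          -- e3 : T k⁻¹ z = x
          refine ⟨k, ?_⟩
          have e4 := hT.mul (k : H) ((k : H))⁻¹ z hzB (by rw [e3]; exact hxB)
          rw [mul_inv_cancel, hT.one z hzB, e3] at e4
          exact e4
        obtain ⟨j, hj1, hj2⟩ := exists_bump hO.isClosed (range_nonempty _) hnot
        have h1 : Q j z = 0 := by
          show ∫ k, bump n j (S k z) ∂μ = 0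
          have : ∀ k, bump n j (S k z) = 0 := fun k => hj2 _ (mem_range_self k)
          simp [this]
        have h2 : 0 < Q j x := by
          refine Continuous.integral_pos_of_hasCompactSupport_nonneg_nonzero (x := (1 : K))
            ((bump_lip n j).continuous.comp (hSc1 x hxB)) (HasCompactSupport.of_compactSpace _)
            (fun k => bump_nonneg n j _) ?_
          show bump n j (T (h0 * (((1 : K) : H))⁻¹) x) ≠ 0
          simpa using hj1
        rw [hQz j] at h1
        linarith
      have hop : IsOpen {k : K | dist (T (k : H) x) x < dist (T g x) x} := by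
        refine isOpen_lt ?_ continuous_const
        exact (hT'.cont_left hxB).dist continuous_const
      obtain ⟨V, hV⟩ := ProfiniteGrp.exist_openNormalSubgroup_sub_open_nhds_of_one hop (by
        show dist (T ((1 : K) : H) x) x < dist (T g x) x
        rw [Subgroup.coe_one, hT.one x hxB, dist_self]
        exact hε)
      obtain ⟨v, hv, hvx⟩ := orbit_clopen hT' hx V.toSubgroup V.isOpen' hC hxC hnb _ hgC
      have h3 : dist (T (v : H) x) x < dist (T g x) x := hV hv
      rw [← hvx] at h3
      exact lt_irrefl _ h3)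
    have hxB : x ∈ BB n := mem_BB.2 (by linarith)
    have hgx' : T g x = x := hgx
    have hall := fix_closure hT hxB g hgx'
    refine ⟨x, hx3, fun k => hall k k.2, ?_⟩
    rw [← hFx]
    have h1 : ∀ k : K, S k x = T h0 x := by
      intro k
      have h2 : T (((k⁻¹ : K)) : H) x = x := hall _ (k⁻¹).2
      have h3 := hT.mul h0 (((k⁻¹ : K)) : H) x hxB (by rw [h2]; exact hxB)
      show T (h0 * ((k : H))⁻¹) x = T h0 x
      rw [h2] at h3
      simpa using h3
    show T h0 x = ∫ k, S k x ∂μ
    simp_rw [h1]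
    simp
  -- the image of the fixed points is closed
  let C : Set (E n) := {x | x ∈ closedBall (0 : E n) 3 ∧ ∀ k : K, T (k : H) x = x}
  have hCc : IsCompact C := by
    have h1 : IsClosed C := by
      have h2 : C = ⋂ k : K, {x | x ∈ closedBall (0 : E n) 3 ∧ T (k : H) x = x} := by
        ext x
        simp only [C, Set.mem_ofPred_eq, mem_iInter]
        constructor
        · rintro ⟨h, h'⟩ k; exact ⟨h, h' k⟩
        · intro h; exact ⟨(h 1).1, fun k => (h k).2⟩
      rw [h2]
      refine isClosed_iInter fun k => ?_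
      have h3 : ContinuousOn (fun x => T (k : H) x - x) (closedBall (0 : E n) 3) :=
        ((hT.cont_right (k : H)).mono hCB).sub continuousOn_id
      have h4 := h3.preimage_isClosed_of_isClosed isClosed_closedBall (isClosed_singleton (x := (0 : E n)))
      have h5 : {x | x ∈ closedBall (0 : E n) 3 ∧ T (k : H) x = x} =
          closedBall (0 : E n) 3 ∩ (fun x => T (k : H) x - x) ⁻¹' {0} := by
        ext x
        simp [sub_eq_zero]
      rw [h5]
      exact h4
    exact (isCompact_closedBall (0 : E n) 3).of_isClosed_subset h1 (fun x hx => hx.1)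
  have himg : IsClosed (T h0 '' C) :=
    (hCc.image_of_continuousOn ((hT.cont_right h0).mono fun x hx => hCB hx.1)).isClosed
  have hall : ball (0 : E n) 1 ⊆ T h0 '' C := by
    by_contra hne
    rw [not_subset] at hne
    obtain ⟨y, hy1, hy2⟩ := hne
    have hop : IsOpen (ball (0 : E n) 1 ∩ (T h0 '' C)ᶜ) := isOpen_ball.inter himg.isOpen_compl
    have hpos := hop.measure_pos volume ⟨y, hy1, hy2⟩
    have hz : volume (ball (0 : E n) 1 ∩ (T h0 '' C)ᶜ) = 0 := by
      rw [ae_restrict_iff' measurableSet_ball] at hfix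
      refine measure_mono_null ?_ (ae_iff.1 hfix)
      rintro z ⟨hz1, hz2⟩ hz3
      obtain ⟨x, hx3, hxk, hxy⟩ := hz3 hz1
      exact hz2 ⟨x, ⟨by simpa using hx3, hxk⟩, hxy⟩
    rw [hz] at hpos
    exact lt_irrefl _ hpos
  intro w hw
  have hwn : ‖w‖ < 1 / 2 := by simpa using hw
  have hwB : w ∈ BB n := mem_BB.2 (by linarith)
  have hTw := norm_T_le hT h0 hwB
  obtain ⟨x, ⟨hx3, hxk⟩, hxw⟩ := hall (show T h0 w ∈ ball (0 : E n) 1 by simp; linarith)
  have hTwB : T h0 w ∈ BB n := mem_BB.2 (by linarith)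
  have hxB : x ∈ BB n := hCB hx3
  have e1 := hT.inv h0 hwB hTwB
  have e2 := hT.inv h0 hxB (by rw [hxw]; exact hTwB)
  rw [hxw, e1] at e2
  rw [e2]
  exact hxk ⟨g, hgmem⟩

end Pool.Agent.K1H66.HS
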