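import Pool.Agent.K1H66.HS.News
import Pool.Agent.Y485.HS.Lie
import Pool.Agent.Y485.HS.Final2
import Pool.Agent.Y658.HS.Start
import Pool.Agent.Y215.HS.Syl

/-!
# The Hilbert-Smith conjecture for the class (helper66)

Adaptation of `Pool/Agent/Y489/SP/Main.lean` (helper489) and `Pool/Agent/Y532/SP/BAI.lean`
(helper532).
-/

set_option autoImplicit false

open MeasureTheory Set Metric Filter Topology
open scoped ENNReal NNReal

noncomputable section

namespace Pool.Agent.K1H66.HS

open Pool.Agent.Y485.HS Pool.Agent.Y489.SP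
open Pool.Agent.W660.GY (NSS GY3)

/-- Baire category -/
theorem bai {n m : ℕ} {H : Type} [Group H] [TopologicalSpace H]
    [IsTopologicalGroup H] [CompactSpace H] [T2Space H] [TotallyDisconnectedSpace H]
    (T : H → E n → E n) (hT : ContinuousOn (fun q : H × E n => T q.1 q.2) (univ ×ˢ BB n))
    (hfin : ∀ h, ∃ N : ℕ, EnV m N (T h)) :
    ∃ (h0 : H) (K : Subgroup H) (N : ℕ), IsOpen (K : Set H) ∧
      ∀ k ∈ K, EnV m N (T (h0 * k)) := by
  have hcl : ∀ N : ℕ, IsClosed {h : H | EnV m N (T h)} := by
    intro N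
    have h1 : {h : H | EnV m N (T h)} =
        (resV T hT) ⁻¹' {f : C(BB n, E n) | EnV m N (extV f)} := by
      ext h
      simp only [mem_ofPred_eq, mem_preimage]
      constructor
      · exact enV_congr fun x hx => by rw [extV_of_mem _ hx, resV_apply]
      · exact enV_congr fun x hx => by rw [extV_of_mem _ hx, resV_apply]
    rw [h1]
    exact (closed_enV m N).preimage (resV T hT).continuous
  have hU : ⋃ N : ℕ, {h : H | EnV m N (T h)} = univ := by
    ext h
    simp only [mem_iUnion, mem_ofPred_eq, mem_univ, iff_true]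
    exact hfin h
  obtain ⟨N, h0, hh0⟩ := nonempty_interior_of_iUnion_of_closed hcl hU
  have hopen : IsOpen ((fun k : H => h0 * k) ⁻¹' (interior {h : H | EnV m N (T h)})) :=
    isOpen_interior.preimage (continuous_const.mul continuous_id)
  obtain ⟨K, hK⟩ := ProfiniteGrp.exist_openNormalSubgroup_sub_open_nhds_of_one hopen (by
    rw [mem_preimage, mul_one]; exact hh0)
  refine ⟨h0, K.toSubgroup, N, K.isOpen', fun k hk => ?_⟩
  have h1 : h0 * k ∈ {h : H | EnV m N (T h)} := interior_subset (hK hk)
  exact h1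

/-- Near every regular point an open subgroup acts trivially. -/
theorem locTriv
    {n : ℕ} (hn : 2 ≤ n) {X : Type} [MetricSpace X] [MeasurableSpace X] [BorelSpace X]
    {H : Type} [Group H] [TopologicalSpace H] [IsTopologicalGroup H] [CompactSpace H] [T2Space H]
    [TotallyDisconnectedSpace H] [MulAction H X] [ContinuousSMul H X]
    (hadm : ∀ h : H, AdmM n (fun x : X => h • x)) {x0 : X} (hx0 : x0 ∈ Reg n X) :
    ∃ K : Subgroup H, IsOpen (K : Set H) ∧ ∀ᶠ x in 𝓝 x0, ∀ k ∈ K, k • x = x := by
  obtain ⟨U, ψ, L, H0, hU, hxU, hψ0, hball, hH0, hsmall⟩ := Pool.Agent.Y658.HS.start n X H x0 hx0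
  have hH0c : IsClosed (H0 : Set H) := Subgroup.isClosed_of_isOpen H0 hH0
  have : CompactSpace H0 := isCompact_iff_compactSpace.1 hH0c.isCompact
  obtain ⟨T, hT, hTs, hTψ⟩ := tra n hn X H0 U ψ L hU hball
    (fun h x hx hx4 => hsmall h h.2 x hx hx4) (fun h => hadm (h : H))
  obtain ⟨h0, K, m, hKo, hKm⟩ := bai T hT.cont hTs
  have hKc : IsClosed (K : Set H0) := Subgroup.isClosed_of_isOpen K hKo
  have : CompactSpace K := isCompact_iff_compactSpace.1 hKc.isCompact
  -- the elements of `K` acting trivially on the small ball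
  have hhalf : ∀ x : E n, x ∈ ball (0 : E n) (1 / 2) → x ∈ BB n := fun x hx => by
    have : ‖x‖ < 1 / 2 := by simpa using hx
    exact mem_BB.2 (by linarith)
  let D : Subgroup K :=
    { carrier := {k | ∀ x ∈ ball (0 : E n) (1 / 2), T (k : H0) x = x}
      mul_mem' := by
        intro a b ha hb x hx
        have hxB := hhalf x hx
        have h1 := hT.mul (a : H0) (b : H0) x hxB (by rw [hb x hx]; exact hxB)
        rw [Subgroup.coe_mul, h1, hb x hx, ha x hx]
      one_mem' := by
        intro x hx
        simpa using hT.one x (hhalf x hx)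
      inv_mem' := by
        intro a ha x hx
        have hxB := hhalf x hx
        have h1 := hT.inv (a : H0) hxB (by rw [ha x hx]; exact hxB)
        rw [ha x hx] at h1
        simpa using h1 }
  have hDc : IsClosed (D : Set K) := by
    have h1 : (D : Set K) = ⋂ x ∈ ball (0 : E n) (1 / 2), {k : K | T (k : H0) x = x} := by
      ext k
      simp only [mem_iInter]
      rfl
    rw [h1]
    refine isClosed_biInter fun x hx => ?_
    have hc : Continuous (fun k : K => T (k : H0) x) :=
      (hT.cont_left (hhalf x hx)).comp continuous_subtype_val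
    exact isClosed_eq hc continuous_const
  have hD : D = ⊤ := by
    refine Pool.Agent.Y215.HS.syl K D hDc ?_
    intro p hp P hPc hPp k hk
    have : CompactSpace P := isCompact_iff_compactSpace.1 hPc.isCompact
    have h1 : Tendsto (fun j : ℕ => (⟨k, hk⟩ : P) ^ p ^ j) atTop (𝓝 1) := Pool.Agent.Y340.SP.t_POW p hp P hPp ⟨k, hk⟩
    have hc : Continuous (fun q : P => ((q : K) : H0)) :=
      continuous_subtype_val.comp continuous_subtype_val
    have h2 : Tendsto (fun j : ℕ => ((k : K) : H0) ^ p ^ j) atTop (𝓝 1) := by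
      have h3 := (hc.tendsto 1).comp h1
      simpa [Function.comp_def] using h3
    intro x hx
    exact locs hp hT h0 K m hKc hKm (k : H0) k.2 h2 x hx
  refine ⟨K.map H0.subtype, ?_, ?_⟩
  · rw [Subgroup.coe_map]
    exact hH0.isOpenEmbedding_subtypeVal.isOpenMap _ hKo
  · have hopen : IsOpen (U ∩ ψ ⁻¹' ball 0 (1 / 2)) := hU.cont.isOpen_inter_preimage hU.1 isOpen_ball
    have hmem : x0 ∈ U ∩ ψ ⁻¹' ball 0 (1 / 2) := ⟨hxU, by simp [hψ0]⟩
    filter_upwards [hopen.mem_nhds hmem] with x hx
    rintro k ⟨k', hk', rfl⟩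
    have h1 : (⟨k', hk'⟩ : K) ∈ D := by rw [hD]; exact Subgroup.mem_top _
    have h2 : T k' (ψ x) = ψ x := h1 (ψ x) hx.2
    have hx4 : ψ x ∈ closedBall (0 : E n) 4 := hhalf _ hx.2
    have h3 := hTψ k' x hx.1 hx4
    have h4 := (hsmall (k' : H) k'.2 x hx.1 hx4).1
    refine hU.inj h4 hx.1 ?_
    rw [h2] at h3
    exact h3.symm

/-- A profinite group acting by maps of the class has an open subgroup which acts trivially. -/
theorem profinite
    {n : ℕ} (hn : 2 ≤ n) {X : Type} [MetricSpace X] [MeasurableSpace X] [BorelSpace X]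
    {H : Type} [Group H] [TopologicalSpace H] [IsTopologicalGroup H] [CompactSpace H] [T2Space H]
    [TotallyDisconnectedSpace H] [MulAction H X] [ContinuousSMul H X]
    (hdense : Dense (Reg n X)) (hconn : IsPreconnected (Reg n X))
    (hadm : ∀ h : H, AdmM n (fun x : X => h • x)) :
    ∃ K : Subgroup H, IsOpen (K : Set H) ∧ ∀ k ∈ K, ∀ x : X, k • x = x := by
  rcases isEmpty_or_nonempty X with hX | hX
  · exact ⟨⊤, isOpen_univ, fun k _ x => (hX.false x).elim⟩
  obtain ⟨x0, hx0⟩ := hdense.nonempty
  obtain ⟨K, hKo, hKt⟩ := locTriv hn hadm hx0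
  refine ⟨K, hKo, ?_⟩
  have hKc : IsClosed (K : Set H) := Subgroup.isClosed_of_isOpen K hKo
  have : CompactSpace K := isCompact_iff_compactSpace.1 hKc.isCompact
  let D : Subgroup K :=
    { carrier := {k | ∀ x : X, (k : H) • x = x}
      mul_mem' := by
        intro a b ha hb x
        rw [Subgroup.coe_mul, mul_smul, hb x, ha x]
      one_mem' := by
        intro x
        simp
      inv_mem' := by
        intro a ha x
        rw [Subgroup.coe_inv, inv_smul_eq_iff, ha x] }
  have hDc : IsClosed (D : Set K) := by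
    have h1 : (D : Set K) = ⋂ x : X, {k : K | (k : H) • x = x} := by
      ext k
      simp only [mem_iInter]
      rfl
    rw [h1]
    refine isClosed_iInter fun x => ?_
    have hc : Continuous (fun k : K => (k : H) • x) := by fun_prop
    exact isClosed_eq hc continuous_const
  have hD : D = ⊤ := by
    refine Pool.Agent.Y215.HS.syl K D hDc ?_
    intro p hp P hPc hPp k hk
    have : CompactSpace P := isCompact_iff_compactSpace.1 hPc.isCompact
    -- the interior of the fixed set of `P`
    let Z : Set X := {x | ∀ᶠ y in 𝓝 x, ∀ q : P, q • y = y}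
    have hZo : IsOpen Z := by
      rw [isOpen_iff_mem_nhds]
      intro x hx
      exact eventually_eventually_nhds.2 hx
    have hZx : x0 ∈ Z := by
      filter_upwards [hKt] with y hy q
      exact hy ((q : K) : H) (q : K).2
    have hsub : Reg n X ⊆ Z := by
      refine hconn.subset_of_closure_inter_subset hZo ⟨x0, hx0, hZx⟩ ?_
      rintro x ⟨hxZ, hxR⟩
      obtain ⟨K', hK'o, hK't⟩ := locTriv hn hadm hxR
      let K'' : Subgroup P := K'.comap (K.subtype.comp P.subtype)
      have hK''o : IsOpen (K'' : Set P) := by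
        refine hK'o.preimage ?_
        exact continuous_subtype_val.comp continuous_subtype_val
      refine news n hn X p hp P hPp (fun h : P => hadm ((h : K) : H)) x hxR K'' hK''o ?_ ?_
      · filter_upwards [hK't] with y hy q hq
        exact hy _ hq
      · intro V hV
        obtain ⟨a, haV, haZ⟩ := mem_closure_iff_nhds.1 hxZ V hV
        exact ⟨a, haV, haZ⟩
    intro x
    have hcl : IsClosed {x : X | (k : H) • x = x} :=
      isClosed_eq (continuous_const_smul (k : H)) continuous_id
    have h2 : Reg n X ⊆ {x : X | (k : H) • x = x} := by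
      intro y hy
      exact (hsub hy).self_of_nhds ⟨k, hk⟩
    have h3 := hcl.closure_subset_iff.2 h2
    rw [hdense.closure_eq] at h3
    exact h3 (mem_univ x)
  intro k hk x
  have h1 : (⟨k, hk⟩ : K) ∈ D := by rw [hD]; exact Subgroup.mem_top _
  exact h1 x

/-- No small subgroups. -/
theorem nss_main
    {n : ℕ} (hn : 2 ≤ n) {X : Type} [MetricSpace X] [MeasurableSpace X] [BorelSpace X]
    {G : Type} [Group G] [TopologicalSpace G] [IsTopologicalGroup G] [LocallyCompactSpace G]
    [MulAction G X] [ContinuousSMul G X] [FaithfulSMul G X]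
    (hdense : Dense (Reg n X)) (hconn : IsPreconnected (Reg n X))
    (hadm : ∀ᶠ g in 𝓝 (1 : G), AdmM n (fun x : X => g • x)) : T2Space G ∧ NSS G := by
  have hT2 : T2Space G := by
    refine ⟨fun g h hgh => ?_⟩
    obtain ⟨x, hx⟩ : ∃ x : X, g • x ≠ h • x := by
      by_contra hall
      push Not at hall
      exact hgh (eq_of_smul_eq_smul hall)
    obtain ⟨u, v, hu, hv, hgu, hhv, huv⟩ := t2_separation hx
    have hc : Continuous (fun g : G => g • x) := by fun_prop
    exact ⟨_, _, hu.preimage hc, hv.preimage hc, hgu, hhv, huv.preimage _⟩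
  refine ⟨hT2, nss_of_Z _ hadm ?_⟩
  intro S _ _ _ _ _ _ i hi hinj hiV
  let _ : MulAction S X := MulAction.compHom X i
  have _ : ContinuousSMul S X := ⟨by
    have h : Continuous (fun q : S × X => i q.1 • q.2) := by fun_prop
    exact h⟩
  obtain ⟨K, hKo, hKt⟩ := profinite hn (H := S) (X := X) hdense hconn
    (fun h => hiV h)
  have hbot : K = ⊥ := by
    rw [eq_bot_iff]
    intro k hk
    rw [Subgroup.mem_bot]
    apply hinj
    refine eq_of_smul_eq_smul (α := X) fun x => ?_
    rw [map_one, one_smul]
    exact hKt k hk x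
  rw [hbot] at hKo
  refine discreteTopology_of_isOpen_singleton_one ?_
  convert hKo using 1
  ext x
  simp

/-- The Hilbert-Smith conjecture for the class. -/
theorem lie_main
    {n : ℕ} (hn : 2 ≤ n) {X : Type} [MetricSpace X] [MeasurableSpace X] [BorelSpace X]
    {G : Type} [Group G] [TopologicalSpace G] [IsTopologicalGroup G] [LocallyCompactSpace G]
    [MulAction G X] [ContinuousSMul G X] [FaithfulSMul G X]
    (hdense : Dense (Reg n X)) (hconn : IsPreconnected (Reg n X))
    (hadm : ∀ᶠ g in 𝓝 (1 : G), AdmM n (fun x : X => g • x)) : IsLie G := by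
  obtain ⟨hT, hN⟩ := nss_main hn hdense hconn hadm
  haveI := hT
  obtain ⟨E, i1, i2, i3, ⟨C⟩⟩ := Pool.Agent.Y328.HS.lga G hN
  letI := i1
  letI := i2
  haveI := i3
  exact Pool.Agent.Y286.HS.lgb G E C

end Pool.Agent.K1H66.HS
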