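import Pool.Agent.K1H66.HS.Ave
import Pool.Agent.Y401.SPN.Fib

/-!
# Null sets on the walls (helper66)
-/

set_option autoImplicit false

open MeasureTheory Set Metric Filter Topology
open scoped ENNReal NNReal

noncomputable section

namespace Pool.Agent.K1H66.HS

open Pool.Agent.Y485.HS Pool.Agent.Y489.SP Pool.Agent.Y475.HS Pool.Agent.Y532.SP.BAI

theorem rpow_mono' {r : ℝ} (hr : 0 < r) (hr1 : r ≤ 1) {N N' : ℕ} (h : N ≤ N') :
    (N : ℝ) * r ^ (1 / (N : ℝ) - 1) ≤ N' * r ^ (1 / (N' : ℝ) - 1) := by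
  rcases Nat.eq_zero_or_pos N with rfl | hN
  · rw [Nat.cast_zero, zero_mul]
    positivity
  · have h1 : (N : ℝ) ≤ N' := by exact_mod_cast h
    have hN0 : (0 : ℝ) < N := by exact_mod_cast hN
    have h2 : r ^ (1 / (N : ℝ) - 1) ≤ r ^ (1 / (N' : ℝ) - 1) := by
      apply Real.rpow_le_rpow_of_exponent_ge hr hr1
      have : 1 / (N' : ℝ) ≤ 1 / N := one_div_le_one_div_of_le hN0 h1
      linarith
    exact mul_le_mul h1 h2 (by positivity) (by positivity)

theorem enV_mono {n : ℕ} {V : Type} [PseudoMetricSpace V] {m N N' : ℕ} (h : N ≤ N')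
    {u : E n → V} (hu : EnV m N u) : EnV m N' u := by
  intro r hr hr1 A hA hAs
  exact (hu r hr hr1 A hA hAs).trans (rpow_mono' hr hr1 h)

theorem null_image {n N : ℕ} {u : E n → E n × ℝ} (hE : EnV (n + 1) N u)
    (hu : ContinuousOn u (BB n)) (i : Fin n) :
    volume ((fun x : E n => (((u x).1, x i), (u x).2)) '' closedBall (0 : E n) 3) = 0 := by
  classical
  obtain ⟨M, hM1, hNM⟩ : ∃ M : ℕ, 1 ≤ M ∧ N ≤ M := ⟨N + 1, by omega, by omega⟩
  have hE' := enV_mono hNM hE
  have hM : (0 : ℝ) < M := by exact_mod_cast hM1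
  have hbd : ∀ (a : E n) (r : ℝ), Bornology.IsBounded (u '' (closedBall a r ∩ closedBall 0 3)) := by
    intro a r
    have h1 : IsCompact (u '' closedBall (0 : E n) 3) :=
      (isCompact_closedBall (0 : E n) 3).image_of_continuousOn
        (hu.mono (closedBall_subset_closedBall (by norm_num)))
    exact h1.isBounded.subset (image_mono inter_subset_right)
  set κ := volume (ball (0 : E n) 1) with hκ
  have hκt : κ ≠ ∞ := measure_ball_lt_top.ne
  have key : ∀ r : ℝ, 0 < r → r ≤ 1 →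
      volume ((fun x : E n => (((u x).1, x i), (u x).2)) '' closedBall (0 : E n) 3) ≤
        ENNReal.ofReal (4 * M * r ^ (1 / (M : ℝ))) * κ := by
    intro r hr hr1
    obtain ⟨A, hA1, hA2, hA3⟩ := Pool.Agent.Y401.SPN.net n hr
    set D : E n → ℝ := fun a => Metric.diam (u '' (closedBall a r ∩ closedBall 0 3)) with hD
    have hD0 : ∀ a, 0 ≤ D a := fun a => Metric.diam_nonneg
    have hsub : (fun x : E n => (((u x).1, x i), (u x).2)) '' closedBall (0 : E n) 3 ⊆
        ⋃ a ∈ A, (closedBall (u a).1 (D a) ×ˢ closedBall (a i) r) ×ˢ closedBall (u a).2 (D a) := by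
      rintro _ ⟨x, hx, rfl⟩
      obtain ⟨a, ha, hxa⟩ := hA3 x hx
      have haa : a ∈ closedBall a r ∩ closedBall (0 : E n) 3 :=
        ⟨mem_closedBall_self hr.le, hA1 a ha⟩
      have h1 : dist (u x) (u a) ≤ D a := Metric.dist_le_diam_of_mem (hbd a r)
        (mem_image_of_mem u ⟨hxa, hx⟩) (mem_image_of_mem u haa)
      rw [Prod.dist_eq, max_le_iff] at h1
      refine mem_iUnion₂.2 ⟨a, ha, ⟨⟨h1.1, ?_⟩, h1.2⟩⟩
      rw [mem_closedBall, Real.dist_eq]
      exact (Pool.Agent.Y401.SPN.coord x a i).trans hxa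
    refine (measure_mono hsub).trans ((measure_biUnion_finset_le _ _).trans ?_)
    have h2 : ∀ a ∈ A, volume ((closedBall (u a).1 (D a) ×ˢ closedBall (a i) r) ×ˢ
        closedBall (u a).2 (D a)) = ENNReal.ofReal (4 * r * D a ^ (n + 1)) * κ := by
      intro a _
      rw [Measure.volume_eq_prod, Measure.prod_prod, Measure.volume_eq_prod, Measure.prod_prod,
        Real.volume_closedBall, Real.volume_closedBall,
        Measure.addHaar_closedBall volume _ (hD0 a), finrank_euclideanSpace_fin]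
      have hDa := hD0 a
      have e : ENNReal.ofReal (4 * r * D a ^ (n + 1)) =
          ENNReal.ofReal (D a ^ n) * ENNReal.ofReal (2 * r) * ENNReal.ofReal (2 * D a) := by
        rw [← ENNReal.ofReal_mul (by positivity), ← ENNReal.ofReal_mul (by positivity)]
        congr 1
        ring
      rw [e, ← hκ]
      ring
    rw [Finset.sum_congr rfl h2, ← Finset.sum_mul, ← ENNReal.ofReal_sum_of_nonneg
      (fun a _ => by have := hD0 a; positivity)]
    refine mul_le_mul_left (ENNReal.ofReal_le_ofReal ?_) _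
    rw [← Finset.mul_sum]
    have h3 := hE' r hr hr1 A hA1 hA2
    have h4 : r * r ^ (1 / (M : ℝ) - 1) = r ^ (1 / (M : ℝ)) := by
      rw [Real.rpow_sub_one hr.ne', mul_div_cancel₀ _ hr.ne']
    calc 4 * r * ∑ a ∈ A, D a ^ (n + 1) ≤ 4 * r * (M * r ^ (1 / (M : ℝ) - 1)) := by
          exact mul_le_mul_of_nonneg_left h3 (by positivity)
      _ = 4 * M * (r * r ^ (1 / (M : ℝ) - 1)) := by ring
      _ = _ := by rw [h4]
  have hlim : Tendsto (fun r : ℝ => ENNReal.ofReal (4 * M * r ^ (1 / (M : ℝ))) * κ) (𝓝[>] 0)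
      (𝓝 0) := by
    have h1 : Tendsto (fun r : ℝ => 4 * M * r ^ (1 / (M : ℝ))) (𝓝[>] 0) (𝓝 0) := by
      have h2 : Tendsto (fun r : ℝ => r ^ (1 / (M : ℝ))) (𝓝[>] 0) (𝓝 0) := by
        have h3 := (Real.continuousAt_rpow_const (0 : ℝ) (1 / (M : ℝ))
          (Or.inr (by positivity))).tendsto
        rw [Real.zero_rpow (by positivity)] at h3
        exact h3.mono_left nhdsWithin_le_nhds
      have := h2.const_mul (4 * (M : ℝ))
      rwa [mul_zero] at this
    have h2 := ENNReal.tendsto_ofReal h1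
    rw [ENNReal.ofReal_zero] at h2
    have := ENNReal.Tendsto.mul_const h2 (b := κ) (Or.inr hκt)
    rwa [zero_mul] at this
  refine le_antisymm (ge_of_tendsto hlim ?_) (zero_le)
  filter_upwards [Ioc_mem_nhdsGT (zero_lt_one (α := ℝ))] with r hr
  exact key r hr.1 hr.2

theorem ae_null {n N : ℕ} {u : E n → E n × ℝ} (hE : EnV (n + 1) N u)
    (hu : ContinuousOn u (BB n)) (i : Fin n) :
    ∀ᵐ y : E n, ∀ᵐ t : ℝ, volume {q : ℝ | ∃ x ∈ closedBall (0 : E n) 3,
      u x = (y, q) ∧ x i = t} = 0 := by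
  have h1 := null_image hE hu i
  rw [Measure.volume_eq_prod] at h1
  have h2 := Measure.measure_ae_null_of_prod_null h1
  rw [Measure.volume_eq_prod] at h2
  have h3 := Measure.ae_ae_of_ae_prod h2
  filter_upwards [h3] with y hy
  filter_upwards [hy] with t ht
  refine measure_mono_null ?_ ht
  rintro q ⟨x, hx, hxq, hxt⟩
  exact ⟨x, hx, by simp only [hxq, hxt]⟩

end Pool.Agent.K1H66.HS
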