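import Pool.Agent.K1H66.HS.Cont
import Pool.Agent.R775.HS.Loc

/-!
# Two invariant sets which cover a fibre (helper66)
-/

set_option autoImplicit false

open MeasureTheory Set Metric Filter Topology
open scoped ENNReal NNReal ContDiff Real

noncomputable section

namespace Pool.Agent.K1H66.HS

open Pool.Agent.Y485.HS Pool.Agent.Y489.SP Pool.Agent.Y475.HS Pool.Agent.Y532.SP.LOCS

/-- a component of the points whose orbits meet the walls is invariant -/
theorem exists_comp2 {n p : ℕ} (hp : p.Prime) {H : Type} [Group H]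
    [TopologicalSpace H] [CompactSpace H] {T : H → E n → E n} (hT : LocAct n H T) (g : H)
    (hg : Tendsto (fun j : ℕ => g ^ p ^ j) atTop (𝓝 1)) (F : E n → E n)
    (hFc : ContinuousOn F (BB n)) (hdisp : ∀ x ∈ BB n, dist (F x) x ≤ 1 / 4)
    (hinv : ∀ h x, ‖x‖ ≤ 5 / 2 → F (T h x) = F x) {y : E n}
    (hy : y ∈ ball (0 : E n) 1) {S : Set (E n)} (hS : IsClosed S) {ι : Type} (c : E n → ι)
    (hc : ∀ w, w ∉ S → ∀ᶠ w' in 𝓝 w, c w' = c w)
    (hcg : ∀ x, ‖x‖ ≤ 3 → F x = y → x ∉ S → T g x ∉ S → c (T g x) ≠ c x) :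
    ∃ x ∈ Meet T S {x | ‖x‖ ≤ 3 ∧ F x = y},
      T g x ∈ connectedComponentIn (Meet T S {x | ‖x‖ ≤ 3 ∧ F x = y}) x := by
  by_contra hcon
  push Not at hcon
  have hy1 : ‖y‖ < 1 := by simpa using hy
  set Z : Set (E n) := {x | ‖x‖ ≤ 3 ∧ F x = y} with hZdef
  have hZ3 : ∀ x ∈ Z, ‖x‖ ≤ 3 := fun x hx => hx.1
  have hZB : ∀ x ∈ Z, x ∈ BB n := fun x hx => mem_BB.2 (by linarith [hx.1])
  have hZn : ∀ x ∈ Z, ‖x‖ < 5 / 4 := by
    intro x hx
    have := hdisp x (hZB x hx)
    rw [hx.2, dist_eq_norm] at this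
    calc ‖x‖ = ‖y - (y - x)‖ := by congr 1; abel
      _ ≤ ‖y‖ + ‖y - x‖ := norm_sub_le _ _
      _ < _ := by linarith
  have hZT : ∀ h, ∀ x ∈ Z, T h x ∈ Z := by
    intro h x hx
    have h1 := hZn x hx
    have h2 := norm_T_le hT h (hZB x hx)
    refine ⟨by linarith, ?_⟩
    rw [hinv h x (by linarith)]
    exact hx.2
  have hCB : closedBall (0 : E n) 3 ⊆ BB n := closedBall_subset_closedBall (by norm_num)
  have hZc : IsCompact Z := by
    have h1 : IsClosed Z := by
      have h2 : Z = closedBall (0 : E n) 3 ∩ F ⁻¹' {y} := by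
        ext x
        simp [Z]
      rw [h2]
      exact (hFc.mono hCB).preimage_isClosed_of_isClosed isClosed_closedBall
        (isClosed_singleton (x := y))
    exact (isCompact_closedBall (0 : E n) 3).of_isClosed_subset h1 (fun x hx => by
      simpa using hx.1)
  obtain ⟨ψ, hψc, hψ0, hψg⟩ := exists_psi hp hT g hg hZc hZ3 hZT hS c hc
    (fun x hx h1 h2 => hcg x hx.1 hx.2 h1 h2) hcon
  obtain ⟨Ψ, hΨc, hΨ2, hΨ⟩ := exists_normal hZc ψ hψc hψ0
  have hΨ1 : ∀ x ∈ Z, ‖Ψ x‖ = 1 := by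
    intro x hx
    rw [hΨ x hx, norm_div, Complex.norm_real, norm_norm]
    exact div_self (norm_pos_iff.2 (hψ0 x hx)).ne'
  have hΨg : ∀ x ∈ Z, Ψ (T g x) = Complex.exp (2 * π * Complex.I / p) * Ψ x := by
    intro x hx
    have hn1 : ‖Complex.exp (2 * π * Complex.I / p)‖ = 1 := by
      have e : (2 * π * Complex.I / p : ℂ) = ((2 * π / p : ℝ) : ℂ) * Complex.I := by
        push_cast; ring
      rw [e, Complex.norm_exp_ofReal_mul_I]
    rw [hΨ _ (hZT g x hx), hΨ x hx, hψg x hx, norm_mul, hn1, one_mul, mul_div_assoc]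
  have hΨi : ∀ (i : ℕ), ∀ x ∈ Z, Ψ (T (g ^ i) x) =
      Complex.exp (2 * π * Complex.I * (i / p)) * Ψ x := by
    intro i
    induction i with
    | zero =>
      intro x hx
      rw [pow_zero, hT.one x (hZB x hx)]
      simp
    | succ i ih =>
      intro x hx
      rw [pow_succ', hT.mul g (g ^ i) x (hZB x hx) (hZB _ (hZT _ x hx)),
        hΨg _ (hZT _ x hx), ih x hx, ← mul_assoc, ← Complex.exp_add]
      congr 2
      push_cast
      ring
  obtain ⟨F', hF'c, hF'd, hF'e, -⟩ := Pool.Agent.Y739.SP.extend F hFc hdisp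
  choose v hvc hvd hve hvo using fun i : ℕ =>
    Pool.Agent.Y739.SP.extend (T (g ^ i)) (hT.cont_right (g ^ i)) (hT.disp (g ^ i))
  let τ : ℕ → E n → E n := fun i => if i = 0 then id else v i
  have hτT : ∀ i x, ‖x‖ ≤ 3 → τ i x = T (g ^ i) x := by
    intro i x hx
    by_cases hi : i = 0
    · subst hi
      rw [pow_zero, hT.one x (mem_BB.2 (by linarith))]
      rfl
    · have : τ i = v i := if_neg hi
      rw [this, hve i x hx]
  refine yang hp.two_le F' hF'c hF'd y hy1 τ ?_ ?_ ?_ (fun x => rfl) ?_ ?_ ?_ ?_ Ψ hΨc hΨ2 ?_ ?_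
  · intro i
    by_cases hi : i = 0
    · subst hi; exact continuous_id
    · have : τ i = v i := if_neg hi
      rw [this]; exact hvc i
  · intro i x
    by_cases hi : i = 0
    · subst hi
      show dist x x ≤ 1 / 4
      rw [dist_self]; norm_num
    · have : τ i = v i := if_neg hi
      rw [this]; exact hvd i x
  · intro i x hx
    by_cases hi : i = 0
    · subst hi; rfl
    · have : τ i = v i := if_neg hi
      rw [this]; exact hvo i x hx
  · intro i x hx
    have hxB : x ∈ BB n := mem_BB.2 (by linarith)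
    have h2 := norm_T_le hT (g ^ i) hxB
    rw [hτT i x (by linarith), hτT (i + 1) x (by linarith), hτT 1 _ (by linarith), pow_one,
      pow_succ', hT.mul g (g ^ i) x hxB (mem_BB.2 (by linarith))]
  · intro i x hx
    have hxB : x ∈ BB n := mem_BB.2 (by linarith)
    have h2 := norm_T_le hT (g ^ i) hxB
    rw [hτT i x (by linarith), hF'e _ (by linarith), hF'e x (by linarith)]
    exact hinv _ x hx
  · intro ε hε
    have hg' : Tendsto (fun j : ℕ => g ^ p ^ (j + 1)) atTop (𝓝 1) :=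
      (tendsto_add_atTop_iff_nat (f := fun j : ℕ => g ^ p ^ j) 1).2 hg
    obtain ⟨J, hJ⟩ := unif hT (fun j => g ^ p ^ (j + 1)) hg' ε hε
    refine ⟨J + 1, by omega, fun x hx => ?_⟩
    rw [hτT _ x hx]
    exact hJ x (mem_BB.2 (by linarith))
  · intro ε hε
    obtain ⟨η, hη, h⟩ := equi hT.cont hε
    refine ⟨min η ε, lt_min hη hε, fun i x x' hx hx' hd => ?_⟩
    rw [hτT i x hx, hτT i x' hx']
    exact h _ x (mem_BB.2 (by linarith)) x' (mem_BB.2 (by linarith))
      (hd.trans_le (min_le_left _ _))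
  · intro x hx hFx
    exact hΨ1 x ⟨hx, by rw [← hF'e x hx]; exact hFx⟩
  · intro i x hx hFx
    rw [hτT i x hx]
    exact hΨi i x ⟨hx, by rw [← hF'e x hx]; exact hFx⟩

/-- the invariant component of a compact invariant set is an invariant continuum -/
theorem inv_comp {n : ℕ} {H : Type} [Group H] [TopologicalSpace H] {T : H → E n → E n}
    (hT : LocAct n H T) (g : H) {M : Set (E n)} (hM : IsCompact M) (hMB : M ⊆ BB n)
    (hMT : ∀ h, ∀ x ∈ M, T h x ∈ M) {x : E n} (hx : x ∈ M)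
    (hgx : T g x ∈ connectedComponentIn M x) :
    IsCompact (connectedComponentIn M x) ∧ IsConnected (connectedComponentIn M x) ∧
      T g '' connectedComponentIn M x = connectedComponentIn M x := by
  have hsub := connectedComponentIn_subset M x
  have hpre : IsPreconnected (connectedComponentIn M x) := isPreconnected_connectedComponentIn
  have hcx := mem_connectedComponentIn hx
  have hgg : ∀ x ∈ M, T g (T g⁻¹ x) = x := by
    intro x hx
    have h3 := hT.mul g g⁻¹ x (hMB hx) (hMB (hMT _ x hx))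
    rw [mul_inv_cancel, hT.one x (hMB hx)] at h3
    exact h3.symm
  have hgg' : ∀ x ∈ M, T g⁻¹ (T g x) = x := by
    intro x hx
    have h3 := hT.mul g⁻¹ g x (hMB hx) (hMB (hMT _ x hx))
    rw [inv_mul_cancel, hT.one x (hMB hx)] at h3
    exact h3.symm
  refine ⟨Pool.Agent.R775.HS.compIn_compact hM hx, ⟨⟨x, hcx⟩, hpre⟩, ?_⟩
  apply Subset.antisymm
  · have h1 : IsPreconnected (T g '' connectedComponentIn M x) :=
      hpre.image _ ((hT.cont_right g).mono fun z hz => hMB (hsub hz))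
    have h2 : T g '' connectedComponentIn M x ⊆ M := by
      rintro _ ⟨z, hz, rfl⟩
      exact hMT g z (hsub hz)
    have h3 := h1.subset_connectedComponentIn (mem_image_of_mem _ hcx) h2
    exact h3.trans (connectedComponentIn_eq hgx).ge
  · have h1 : IsPreconnected (T g⁻¹ '' connectedComponentIn M x) :=
      hpre.image _ ((hT.cont_right g⁻¹).mono fun z hz => hMB (hsub hz))
    have h2 : T g⁻¹ '' connectedComponentIn M x ⊆ M := by
      rintro _ ⟨z, hz, rfl⟩
      exact hMT _ z (hsub hz)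
    have h4 : x ∈ T g⁻¹ '' connectedComponentIn M x := ⟨T g x, hgx, hgg' x hx⟩
    have h3 := h1.subset_connectedComponentIn h4 h2
    intro z hz
    exact ⟨T g⁻¹ z, h3 (mem_image_of_mem _ hz), hgg z (hsub hz)⟩

/-- for every closed invariant set there is an invariant continuum in the fibre which is contained in
the set or disjoint from it -/
theorem exists_pair {n p : ℕ} (hp : p.Prime) {H : Type} [Group H]
    [TopologicalSpace H] [CompactSpace H] {T : H → E n → E n} (hT : LocAct n H T) (g : H)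
    (hg : Tendsto (fun j : ℕ => g ^ p ^ j) atTop (𝓝 1)) (F : E n → E n)
    (hFc : ContinuousOn F (BB n)) (hdisp : ∀ x ∈ BB n, dist (F x) x ≤ 1 / 4)
    (hinv : ∀ h x, ‖x‖ ≤ 5 / 2 → F (T h x) = F x) {y : E n}
    (hy : y ∈ ball (0 : E n) 1) {B : Set (E n)} (hB : IsClosed B)
    (hBT : ∀ h x, ‖x‖ ≤ 3 → F x = y → x ∈ B → T h x ∈ B) :
    ∃ C : Set (E n), IsCompact C ∧ IsConnected C ∧ C ⊆ closedBall 0 (5 / 4) ∧
      (∀ x ∈ C, F x = y) ∧ T g '' C = C ∧ (C ⊆ B ∨ Disjoint C B) := by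
  classical
  have hy1 : ‖y‖ < 1 := by simpa using hy
  have : Fact p.Prime := ⟨hp⟩
  set Z : Set (E n) := {x | ‖x‖ ≤ 3 ∧ F x = y} with hZdef
  have hZB : ∀ x ∈ Z, x ∈ BB n := fun x hx => mem_BB.2 (by linarith [hx.1])
  have hZn : ∀ x ∈ Z, ‖x‖ < 5 / 4 := by
    intro x hx
    have := hdisp x (hZB x hx)
    rw [hx.2, dist_eq_norm] at this
    calc ‖x‖ = ‖y - (y - x)‖ := by congr 1; abel
      _ ≤ ‖y‖ + ‖y - x‖ := norm_sub_le _ _
      _ < _ := by linarith
  have hZT : ∀ h, ∀ x ∈ Z, T h x ∈ Z := by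
    intro h x hx
    have h1 := hZn x hx
    have h2 := norm_T_le hT h (hZB x hx)
    refine ⟨by linarith, ?_⟩
    rw [hinv h x (by linarith)]
    exact hx.2
  have hCB : closedBall (0 : E n) 3 ⊆ BB n := closedBall_subset_closedBall (by norm_num)
  have hZc : IsCompact Z := by
    have h1 : IsClosed Z := by
      have h2 : Z = closedBall (0 : E n) 3 ∩ F ⁻¹' {y} := by
        ext x
        simp [Z]
      rw [h2]
      exact (hFc.mono hCB).preimage_isClosed_of_isClosed isClosed_closedBall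
        (isClosed_singleton (x := y))
    exact (isCompact_closedBall (0 : E n) 3).of_isClosed_subset h1 (fun x hx => by
      simpa using hx.1)
  by_contra hcon
  have hC5 : ∀ M ⊆ Z, M ⊆ closedBall 0 (5 / 4) := fun M hM x hx => by
    have := hZn x (hM hx)
    simp only [mem_closedBall, dist_zero_right]
    exact this.le
  set Φ : Set (E n) := B ∩ Z with hΦ
  have hΦc : IsCompact Φ := hZc.inter_left hB
  have hΦZ : ∀ x ∈ Φ, x ∈ Z := fun x hx => hx.2
  have hΦT : ∀ h, ∀ x ∈ Φ, T h x ∈ Φ := fun h x hx =>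
    ⟨hBT h x hx.2.1 hx.2.2 hx.1, hZT h x hx.2⟩
  have hconB : ∀ x ∈ Φ, T g x ∉ connectedComponentIn Φ x := by
    intro x hx hgx
    obtain ⟨k1, k2, k3⟩ := inv_comp hT g hΦc (fun z hz => hZB z hz.2) hΦT hx hgx
    have hsub := connectedComponentIn_subset Φ x
    exact hcon ⟨_, k1, k2, hC5 _ fun z hz => (hsub hz).2, fun z hz => (hsub hz).2.2, k3,
      Or.inl fun z hz => (hsub hz).1⟩
  obtain ⟨W, hW1, hW2, hW3, hW4⟩ := Pool.Agent.R775.HS.cyc_of_comp hp (τ := T g) hΦc
    ((hT.cont_right g).mono fun x hx => hZB x (hΦZ x hx)) (hΦT g)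
    (fun ε hε => by
      obtain ⟨J, hJ⟩ := unif hT (fun j => g ^ p ^ j) hg ε hε
      refine ⟨J, fun x hx => ?_⟩
      rw [(iter_eq hT g Φ (fun x hx => hZB x (hΦZ x hx)) (hΦT g) (p ^ J) x hx).1]
      exact hJ x (hZB x (hΦZ x hx))) hconB
  obtain ⟨η, hη, -, hηd⟩ := Pool.Agent.Y983.SP.DEGP.exists_thick hW1 hW2
  obtain ⟨η1, hη1, hη1u⟩ := equi hT.cont hη
  obtain ⟨η2, hη2, hη2a, hη2b⟩ : ∃ η2 : ℝ, 0 < η2 ∧ η2 ≤ η ∧ η2 ≤ η1 :=
    ⟨min η η1, lt_min hη hη1, min_le_left _ _, min_le_right _ _⟩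
  -- the code
  let c : E n → Option (ZMod p) := fun x =>
    if h : ∃ i, x ∈ thickening η (W i) then some h.choose else none
  have hc1 : ∀ i, ∀ x ∈ thickening η (W i), c x = some i := by
    intro i x hx
    have h : ∃ i, x ∈ thickening η (W i) := ⟨i, hx⟩
    have h1 : h.choose = i := by
      by_contra hne'
      exact Set.disjoint_left.1 (hηd _ _ hne') h.choose_spec hx
    show (if h : ∃ i, x ∈ thickening η (W i) then some h.choose else none) = some i
    rw [dif_pos h, h1]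
  have hSc : IsClosed (⋃ i, thickening η2 (W i))ᶜ :=
    (isOpen_iUnion fun i => isOpen_thickening).isClosed_compl
  obtain ⟨x, hxM, hxg⟩ := exists_comp2 hp hT g hg F hFc hdisp hinv hy
    (S := (⋃ i, thickening η2 (W i))ᶜ) hSc c (by
      intro w hw
      rw [mem_compl_iff, not_not] at hw
      obtain ⟨i, hi⟩ := mem_iUnion.1 hw
      have hi' := thickening_mono hη2a _ hi
      filter_upwards [isOpen_thickening.mem_nhds hi'] with w' hw'
      rw [hc1 i w' hw', hc1 i w hi']) (by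
      intro x hx hFx hxS hgS
      rw [mem_compl_iff, not_not] at hxS hgS
      obtain ⟨i, hi⟩ := mem_iUnion.1 hxS
      obtain ⟨j, hj⟩ := mem_iUnion.1 hgS
      obtain ⟨w, hw, hd⟩ := mem_thickening_iff.1 hi
      have hxZ : x ∈ Z := ⟨hx, hFx⟩
      have hwZ : w ∈ Z := hΦZ w (by rw [← hW3]; exact mem_iUnion.2 ⟨i, hw⟩)
      have h2 : dist (T g x) (T g w) < η :=
        hη1u g x (hZB x hxZ) w (hZB w hwZ) (hd.trans_le hη2b)
      have h3 := hc1 (i + 1) (T g x) (mem_thickening_iff.2 ⟨T g w, hW4 i w hw, h2⟩)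
      rw [h3, hc1 i x (thickening_mono hη2a _ hi)]
      intro h4
      have h5 : i + 1 = i := Option.some_injective _ h4
      have h6 : (1 : ZMod p) = 0 := by
        have := congrArg (fun t => t - i) h5
        simp at this
      exact one_ne_zero h6)
  set M : Set (E n) := Meet T (⋃ i, thickening η2 (W i))ᶜ Z with hMdef
  have hMc : IsCompact M := meet_compact hT hZc hZB hSc
  have hMZ : M ⊆ Z := fun z hz => hz.1
  have hMT : ∀ h, ∀ x ∈ M, T h x ∈ M := by
    rintro h x ⟨hx, k, hk⟩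
    refine ⟨hZT h x hx, k * h⁻¹, ?_⟩
    have h1 := hT.mul (k * h⁻¹) h x (hZB x hx) (hZB _ (hZT h x hx))
    rw [← h1, inv_mul_cancel_right]
    exact hk
  obtain ⟨k1, k2, k3⟩ := inv_comp hT g hMc (fun z hz => hZB z (hMZ hz)) hMT hxM hxg
  have hsub := connectedComponentIn_subset M x
  refine hcon ⟨_, k1, k2, hC5 _ (hsub.trans hMZ), fun z hz => (hMZ (hsub hz)).2, k3, Or.inr ?_⟩
  rw [Set.disjoint_left]
  intro z hz hzB
  obtain ⟨hzZ, h, hh⟩ := hsub hz
  apply hh
  have h2 : T h z ∈ Φ := hΦT h z ⟨hzB, hzZ⟩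
  rw [← hW3] at h2
  obtain ⟨i, hi⟩ := mem_iUnion.1 h2
  exact mem_iUnion.2 ⟨i, self_subset_thickening hη2 _ hi⟩

end Pool.Agent.K1H66.HS
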