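import Pool.Agent.K1H66.HS.Pair
import Pool.Agent.K1H66.HS.GlobT

/-!
# Invariant continua inside or outside an invariant set, and a criterion (helper66)
-/

set_option autoImplicit false

open MeasureTheory Set Metric Filter Topology
open scoped ENNReal NNReal

noncomputable section

namespace Pool.Agent.K1H66.HS

open Pool.Agent.Y485.HS Pool.Agent.Y489.SP
open Pool.Agent.R775.HS (Small Stable RegA locAct_of_small)

/-- the natural powers are dense in the closure of all powers -/
theorem closure_pow {H : Type} [Group H] [TopologicalSpace H] [IsTopologicalGroup H] {p : ℕ}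
    (hp : 1 ≤ p) {g : H} (hg : Tendsto (fun j : ℕ => g ^ p ^ j) atTop (𝓝 1)) {h : H}
    (hh : h ∈ (Subgroup.zpowers g).topologicalClosure) : h ∈ closure (range fun i : ℕ => g ^ i) := by
  let N : Submonoid H := (Submonoid.powers g).topologicalClosure
  have hN : (N : Set H) = closure (range fun i : ℕ => g ^ i) := by
    show ((Submonoid.powers g).topologicalClosure : Set H) = _
    rw [Submonoid.coe_topologicalClosure]
    rfl
  have hgN : g ∈ N := Submonoid.le_topologicalClosure _ (Submonoid.mem_powers g)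
  have hgi : g⁻¹ ∈ N := by
    rw [← SetLike.mem_coe, hN]
    have h1 : Tendsto (fun j : ℕ => g ^ (p ^ j - 1)) atTop (𝓝 g⁻¹) := by
      have h2 : Tendsto (fun j : ℕ => g ^ p ^ j * g⁻¹) atTop (𝓝 (1 * g⁻¹)) := hg.mul_const _
      rw [one_mul] at h2
      refine h2.congr fun j => ?_
      have h3 : p ^ j = (p ^ j - 1) + 1 := by
        have := Nat.one_le_pow j p hp
        omega
      conv_lhs => rw [h3, pow_succ, mul_inv_cancel_right]
    exact mem_closure_of_tendsto h1 (Eventually.of_forall fun j => mem_range_self _)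
  have h2 : (Subgroup.zpowers g : Set H) ⊆ N := by
    intro z hz
    obtain ⟨k, rfl⟩ := Subgroup.mem_zpowers_iff.1 hz
    obtain ⟨m, rfl | rfl⟩ := k.eq_nat_or_neg
    · rw [zpow_natCast]
      exact N.pow_mem hgN m
    · rw [zpow_neg, zpow_natCast, ← inv_pow]
      exact N.pow_mem hgi m
  have h3 : h ∈ closure (Subgroup.zpowers g : Set H) := by
    have h0 : h ∈ ((Subgroup.zpowers g).topologicalClosure : Set H) := hh
    rwa [Subgroup.topologicalClosure_coe] at h0
  have h4 : IsClosed (N : Set H) := by rw [hN]; exact isClosed_closure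
  have h5 := closure_minimal h2 h4 h3
  rwa [hN] at h5

/-- the same for maps and sets which are invariant under `g` only -/
theorem exists_pairG {n p : ℕ} (hp : p.Prime) {H : Type} [Group H]
    [TopologicalSpace H] [IsTopologicalGroup H] {T : H → E n → E n} (hT : LocAct n H T) (g : H)
    (hg : Tendsto (fun j : ℕ => g ^ p ^ j) atTop (𝓝 1))
    (hcomp : IsCompact ((Subgroup.zpowers g).topologicalClosure : Set H)) (F : E n → E n)
    (hFc : ContinuousOn F (BB n)) (hdisp : ∀ x ∈ BB n, dist (F x) x ≤ 1 / 4)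
    (hinv : ∀ x ∈ closedBall (0 : E n) 3, F (T g x) = F x) {y : E n}
    (hy : y ∈ ball (0 : E n) 1) {B : Set (E n)} (hB : IsClosed B)
    (hBT : ∀ x ∈ closedBall (0 : E n) 3, F x = y → x ∈ B → T g x ∈ B) :
    ∃ C : Set (E n), IsCompact C ∧ IsConnected C ∧ C ⊆ closedBall 0 (5 / 4) ∧
      (∀ x ∈ C, F x = y) ∧ T g '' C = C ∧ (C ⊆ B ∨ Disjoint C B) := by
  have hy1 : ‖y‖ < 1 := by simpa using hy
  set K : Subgroup H := (Subgroup.zpowers g).topologicalClosure with hK
  have hKc : CompactSpace K := isCompact_iff_compactSpace.1 hcomp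
  have hgK : g ∈ K := Subgroup.le_topologicalClosure _ (Subgroup.mem_zpowers g)
  have hTK : LocAct n K (fun k : K => T k) := by
    refine ⟨?_, hT.one, fun h k x hx hkx => hT.mul h k x hx hkx, fun h => hT.disp h⟩
    have h1 : Continuous (fun q : K × E n => ((q.1 : H), q.2)) := by fun_prop
    exact hT.cont.comp h1.continuousOn fun q hq => ⟨mem_univ _, hq.2⟩
  have hg' : Tendsto (fun j : ℕ => (⟨g, hgK⟩ : K) ^ p ^ j) atTop (𝓝 1) := by
    rw [tendsto_subtype_rng]
    simpa using hg
  have hcl : ∀ k : K, (k : H) ∈ closure (range fun i : ℕ => g ^ i) := fun k =>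
    closure_pow hp.one_le hg k.2
  have hB3 : ∀ x : E n, ‖x‖ ≤ 3 → x ∈ BB n := fun x hx => mem_BB.2 (by linarith)
  -- invariance of `F`
  have hF1 : ∀ (i : ℕ) x, ‖x‖ ≤ 11 / 4 → F (T (g ^ i) x) = F x := by
    intro i
    induction i with
    | zero =>
      intro x hx
      rw [pow_zero, hT.one x (hB3 x (by linarith))]
    | succ i ih =>
      intro x hx
      have hxB := hB3 x (by linarith)
      have h1 := norm_T_le hT (g ^ i) hxB
      rw [pow_succ', hT.mul g (g ^ i) x hxB (hB3 _ (by linarith)), hinv _ (by simp; linarith),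
        ih x hx]
  have hF2 : ∀ (k : K) x, ‖x‖ ≤ 5 / 2 → F (T k x) = F x := by
    intro k x hx
    have hxB := hB3 x (by linarith)
    have hc : Continuous fun h : H => F (T h x) := by
      refine hFc.comp_continuous (hT.cont_left hxB) fun h => ?_
      have := norm_T_le hT h hxB
      exact hB3 _ (by linarith)
    have h1 : IsClosed {h : H | F (T h x) = F x} := isClosed_eq hc continuous_const
    refine closure_minimal ?_ h1 (hcl k)
    rintro _ ⟨i, rfl⟩
    exact hF1 i x (by linarith)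
  have hn54 : ∀ x, ‖x‖ ≤ 3 → F x = y → ‖x‖ < 5 / 4 := by
    intro x hx hFx
    have := hdisp x (hB3 x hx)
    rw [hFx, dist_eq_norm] at this
    calc ‖x‖ = ‖y - (y - x)‖ := by congr 1; abel
      _ ≤ ‖y‖ + ‖y - x‖ := norm_sub_le _ _
      _ < _ := by linarith
  have hB1 : ∀ (i : ℕ) x, ‖x‖ ≤ 3 → F x = y → x ∈ B → T (g ^ i) x ∈ B := by
    intro i
    induction i with
    | zero =>
      intro x hx hFx hxB
      rwa [pow_zero, hT.one x (hB3 x hx)]
    | succ i ih =>
      intro x hx hFx hxB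
      have h0 := hn54 x hx hFx
      have h1 := norm_T_le hT (g ^ i) (hB3 x hx)
      rw [pow_succ', hT.mul g (g ^ i) x (hB3 x hx) (hB3 _ (by linarith))]
      refine hBT _ (by simp; linarith) ?_ (ih x hx hFx hxB)
      rw [hF1 i x (by linarith), hFx]
  have hB2 : ∀ (k : K) x, ‖x‖ ≤ 3 → F x = y → x ∈ B → T k x ∈ B := by
    intro k x hx hFx hxB
    have h1 : IsClosed {h : H | T h x ∈ B} := hB.preimage (hT.cont_left (hB3 x hx))
    refine closure_minimal ?_ h1 (hcl k)
    rintro _ ⟨i, rfl⟩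
    exact hB1 i x hx hFx hxB
  exact exists_pair hp hTK ⟨g, hgK⟩ hg' F hFc hdisp hF2 hy hB hB2

/-- the criterion -/
theorem lie_pair {n : ℕ} (hn : 1 ≤ n) {X : Type} [TopologicalSpace X] [T2Space X]
    {A : Set (OpenPartialHomeomorph X (E n))} (hA : Stable n A)
    (hdense : Dense (RegA A)) (hconn : IsPreconnected (RegA A)) {G : Type} [Group G]
    [TopologicalSpace G] [IsTopologicalGroup G] [LocallyCompactSpace G] [MulAction G X]
    [ContinuousSMul G X] [FaithfulSMul G X] {V : Set G} (hV : V ∈ 𝓝 (1 : G))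
    (h : ∀ (p : ℕ) (g : G), p.Prime → Tendsto (fun j : ℕ => g ^ p ^ j) atTop (𝓝 1) →
      IsCompact ((Subgroup.zpowers g).topologicalClosure : Set G) →
      ((Subgroup.zpowers g).topologicalClosure : Set G) ⊆ V → ∀ φ ∈ A,
      Small φ ((Subgroup.zpowers g).topologicalClosure : Set G) →
      ∃ F : E n → E n, ContinuousOn F (closedBall 0 4) ∧
        (∀ v ∈ closedBall (0 : E n) 4, dist (F v) v ≤ 1 / 4) ∧
        (∀ v ∈ closedBall (0 : E n) 3, F (φ (g • φ.symm v)) = F v) ∧
        (∀ v ∈ closedBall (0 : E n) 3, φ (g • φ.symm v) = v → F v = v) ∧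
        ball (0 : E n) 1 ⊆ closure {y | y ∈ ball (0 : E n) 1 ∧ ∃ B : Set (E n), IsClosed B ∧
          (∀ v ∈ closedBall (0 : E n) 3, F v = y → v ∈ B → φ (g • φ.symm v) ∈ B) ∧
          ∀ C : Set (E n), IsCompact C → IsConnected C → C ⊆ closedBall 0 3 →
            (∀ v ∈ C, F v = y) → (fun v => φ (g • φ.symm v)) '' C = C → (C ⊆ B ∨ Disjoint C B) →
            ∃ v ∈ C, φ (g • φ.symm v) = v}) : IsLie G := by
  refine lie_critT hn hA hdense hconn hV ?_
  intro _ g hgV p hp hgp hcomp φ hφ hs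
  obtain ⟨F, hF1, hF2, hF3, hF4, hF5⟩ := h p g hp hgp hcomp hgV φ hφ hs
  set K : Subgroup G := (Subgroup.zpowers g).topologicalClosure with hK
  have hgK : g ∈ K := Subgroup.le_topologicalClosure _ (Subgroup.mem_zpowers g)
  have hT := locAct_of_small K hs
  set T : K → E n → E n := fun h v => φ ((h : G) • φ.symm v) with hTdef
  have hKc : CompactSpace K := isCompact_iff_compactSpace.1 hcomp
  have hg' : Tendsto (fun j : ℕ => (⟨g, hgK⟩ : K) ^ p ^ j) atTop (𝓝 1) := by
    rw [tendsto_subtype_rng]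
    simpa using hgp
  have key : ∀ y ∈ {y | y ∈ ball (0 : E n) 1 ∧ ∃ B : Set (E n), IsClosed B ∧
      (∀ v ∈ closedBall (0 : E n) 3, F v = y → v ∈ B → φ (g • φ.symm v) ∈ B) ∧
      ∀ C : Set (E n), IsCompact C → IsConnected C → C ⊆ closedBall 0 3 →
        (∀ v ∈ C, F v = y) → (fun v => φ (g • φ.symm v)) '' C = C → (C ⊆ B ∨ Disjoint C B) →
        ∃ v ∈ C, φ (g • φ.symm v) = v}, φ (g • φ.symm y) = y := by
    rintro y ⟨hy, B, hB, hBT, hC⟩
    obtain ⟨C, h1, h2, h3, h4, h5, h6⟩ := exists_pairG hp hT ⟨g, hgK⟩ hg'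
      (Subgroup.isClosed_topologicalClosure _).isCompact F hF1 hF2 hF3 hy hB hBT
    have h3' : C ⊆ closedBall 0 3 := h3.trans (closedBall_subset_closedBall (by norm_num))
    obtain ⟨v, hv, hgv⟩ := hC C h1 h2 h3' h4 h5 h6
    have h7 := hF4 v (h3' hv) hgv
    rw [h4 v hv] at h7
    rw [h7]
    exact hgv
  intro v hv
  have hv4 : v ∈ closedBall (0 : E n) 4 :=
    ball_subset_closedBall.trans (closedBall_subset_closedBall (by norm_num)) hv
  have hfix : φ (g • φ.symm v) = v := by
    have hcont : ContinuousAt (fun v => φ (g • φ.symm v)) v := by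
      have h1 : ContinuousOn (T ⟨g, hgK⟩) (BB n) := hT.cont_right _
      refine h1.continuousAt (mem_of_superset (isOpen_ball.mem_nhds hv) ?_)
      exact ball_subset_closedBall.trans (closedBall_subset_closedBall (by norm_num))
    by_contra hne
    have h0 : ContinuousAt (fun w => dist (φ (g • φ.symm w)) w) v := hcont.dist continuousAt_id
    have h1 : ∀ᶠ w in 𝓝 v, φ (g • φ.symm w) ≠ w := by
      filter_upwards [h0.eventually (lt_mem_nhds (dist_pos.2 hne))] with w hw
      exact dist_pos.1 hw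
    obtain ⟨w, hw1, hw2⟩ := mem_closure_iff_nhds.1 (hF5 hv) _ h1
    exact hw1 (key w hw2)
  have h1 := (hs.2 g hgK v hv4).1
  have h3 := φ.left_inv h1
  rw [hfix] at h3
  exact h3.symm

end Pool.Agent.K1H66.HS
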