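import Pool.Agent.K1H66.HS.Some2
import Pool.Agent.R775.HS.Fin

/-!
# Maps which are Hölder continuous at many points (helper66)
-/

set_option autoImplicit false

open MeasureTheory Set Metric Filter Topology TopologicalSpace
open scoped ENNReal NNReal

noncomputable section

namespace Pool.Agent.K1H66.HS

open Pool.Agent.Y485.HS Pool.Agent.Y489.SP
open Pool.Agent.R775.HS (Ener ener_mono SobO ener_of_sob)

/-- `f` is Hölder continuous at the point `v` with an exponent larger than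
`(n - 1) / (n + 1)` -/
def HolPt {n : ℕ} (f : E n → E n) (v : E n) : Prop :=
  ∃ α M δ : ℝ, ((n : ℝ) - 1) / (n + 1) < α ∧ 0 < δ ∧
    ∀ w, dist w v < δ → dist (f w) (f v) ≤ M * dist w v ^ α

theorem hol_baire {n : ℕ} (hn : 1 ≤ n) {O : Set (E n)} (hO : IsOpen O) {f : E n → E n}
    (hf : ContinuousOn f O) (hN : ¬ IsMeagre {v | v ∈ O ∧ HolPt f v}) :
    ∃ (v : E n) (ρ α M : ℝ), 0 < ρ ∧ ρ ≤ 3 ∧ closedBall v ρ ⊆ O ∧
      ((n : ℝ) - 1) / (n + 1) < α ∧ 0 ≤ M ∧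
      ∀ x ∈ closedBall v ρ, ∀ y ∈ closedBall v ρ, dist (f x) (f y) ≤ M * dist x y ^ α := by
  have hn1 : (1 : ℝ) ≤ n := by exact_mod_cast hn
  set a0 : ℝ := ((n : ℝ) - 1) / (n + 1) with ha0
  have ha : 0 ≤ a0 := div_nonneg (by linarith) (by linarith)
  let Ek : ℕ → Set (E n) := fun k => {v | v ∈ O ∧ ∀ w ∈ O, dist w v < 1 / ((k : ℝ) + 1) →
    dist (f w) (f v) ≤ ((k : ℝ) + 1) * dist w v ^ (a0 + 1 / ((k : ℝ) + 1))}
  have hcov : {v | v ∈ O ∧ HolPt f v} ⊆ ⋃ k, Ek k := by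
    rintro v ⟨hv, α, M, δ, hα, hδ, h⟩
    obtain ⟨k1, hk1⟩ := exists_nat_one_div_lt hδ
    obtain ⟨k2, hk2⟩ := exists_nat_one_div_lt (sub_pos.2 hα)
    obtain ⟨k3, hk3⟩ := exists_nat_ge M
    obtain ⟨k, hka, hkb, hkc⟩ : ∃ k : ℕ, k1 ≤ k ∧ k2 ≤ k ∧ k3 ≤ k :=
      ⟨k1 + k2 + k3, by omega, by omega, by omega⟩
    refine mem_iUnion.2 ⟨k, hv, fun w hw hd => ?_⟩
    have hka' : (k1 : ℝ) ≤ k := by exact_mod_cast hka
    have hkb' : (k2 : ℝ) ≤ k := by exact_mod_cast hkb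
    have hkc' : (k3 : ℝ) ≤ k := by exact_mod_cast hkc
    have e1 : 1 / ((k : ℝ) + 1) ≤ 1 / ((k1 : ℝ) + 1) :=
      one_div_le_one_div_of_le (by positivity) (by linarith)
    have e2 : 1 / ((k : ℝ) + 1) ≤ 1 / ((k2 : ℝ) + 1) :=
      one_div_le_one_div_of_le (by positivity) (by linarith)
    have e3 : 1 / ((k : ℝ) + 1) ≤ 1 := by
      rw [div_le_one (by positivity)]
      have : (0 : ℝ) ≤ k := Nat.cast_nonneg k
      linarith
    have e4 : 0 < 1 / ((k : ℝ) + 1) := by positivity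
    have h1 := h w (by linarith)
    have h2 : dist w v ^ α ≤ dist w v ^ (a0 + 1 / ((k : ℝ) + 1)) := by
      rcases (dist_nonneg (x := w) (y := v)).eq_or_lt with h0 | h0
      · rw [← h0, Real.zero_rpow (by linarith : α ≠ 0), Real.zero_rpow (by linarith)]
      · exact Real.rpow_le_rpow_of_exponent_ge h0 (by linarith) (by linarith)
    have h3 : 0 ≤ dist w v ^ α := by positivity
    calc dist (f w) (f v) ≤ M * dist w v ^ α := h1
      _ ≤ ((k : ℝ) + 1) * dist w v ^ α := mul_le_mul_of_nonneg_right (by linarith) h3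
      _ ≤ _ := mul_le_mul_of_nonneg_left h2 (by positivity)
  obtain ⟨k, hk⟩ : ∃ k, ¬ IsNowhereDense (Ek k) := by
    by_contra hall
    push Not at hall
    exact hN ((isMeagre_iUnion fun k => (hall k).isMeagre).mono hcov)
  have hk' : (interior (closure (Ek k))).Nonempty := by
    rw [nonempty_iff_ne_empty]
    exact hk
  obtain ⟨v0, hv0⟩ := hk'
  obtain ⟨v1, hv1U, hv1E⟩ := mem_closure_iff.1 (interior_subset hv0) _ isOpen_interior hv0
  have hopen : IsOpen (interior (closure (Ek k)) ∩ O) := isOpen_interior.inter hO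
  obtain ⟨ρ0, hρ0, hball⟩ := (nhds_basis_closedBall.mem_iff).1
    (hopen.mem_nhds ⟨hv1U, hv1E.1⟩)
  have hk1 : (0 : ℝ) < (k : ℝ) + 1 := by positivity
  have hcl : ∀ v ∈ interior (closure (Ek k)) ∩ O, v ∈ Ek k := by
    rintro v ⟨hvU, hvO⟩
    refine ⟨hvO, fun w hw hd => ?_⟩
    have hvc : v ∈ closure (Ek k) := interior_subset hvU
    have : (𝓝[Ek k] v).NeBot := mem_closure_iff_nhdsWithin_neBot.1 hvc
    have hfc : Tendsto f (𝓝[Ek k] v) (𝓝 (f v)) :=
      ((hf v hvO).continuousAt (hO.mem_nhds hvO)).tendsto.mono_left nhdsWithin_le_nhds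
    have hid : Tendsto (fun u : E n => u) (𝓝[Ek k] v) (𝓝 v) := nhdsWithin_le_nhds
    have hdl : Tendsto (fun u => dist w u) (𝓝[Ek k] v) (𝓝 (dist w v)) :=
      tendsto_const_nhds.dist hid
    have hlim1 : Tendsto (fun u => dist (f w) (f u)) (𝓝[Ek k] v) (𝓝 (dist (f w) (f v))) :=
      tendsto_const_nhds.dist hfc
    have hexp : 0 < a0 + 1 / ((k : ℝ) + 1) := by positivity
    have hlim2 : Tendsto (fun u => ((k : ℝ) + 1) * dist w u ^ (a0 + 1 / ((k : ℝ) + 1)))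
        (𝓝[Ek k] v) (𝓝 (((k : ℝ) + 1) * dist w v ^ (a0 + 1 / ((k : ℝ) + 1)))) :=
      (hdl.rpow_const (Or.inr hexp.le)).const_mul _
    refine le_of_tendsto_of_tendsto hlim1 hlim2 ?_
    filter_upwards [self_mem_nhdsWithin, hdl.eventually (gt_mem_nhds hd)] with u hu hu2
    exact hu.2 w hw hu2
  refine ⟨v1, min ρ0 (1 / (4 * ((k : ℝ) + 1))), a0 + 1 / ((k : ℝ) + 1), (k : ℝ) + 1,
    lt_min hρ0 (by positivity), ?_, ?_, ?_, hk1.le, ?_⟩
  · refine (min_le_right _ _).trans ?_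
    rw [div_le_iff₀ (by positivity)]
    have : (0 : ℝ) ≤ k := Nat.cast_nonneg k
    linarith
  · exact (closedBall_subset_closedBall (min_le_left _ _)).trans fun x hx => (hball hx).2
  · have : 0 < 1 / ((k : ℝ) + 1) := by positivity
    linarith
  · intro x hx y hy
    have hx' := hball (closedBall_subset_closedBall (min_le_left _ _) hx)
    have hy' := hball (closedBall_subset_closedBall (min_le_left _ _) hy)
    refine (hcl y hy').2 x hx'.2 ?_
    have h1 : dist x v1 ≤ 1 / (4 * ((k : ℝ) + 1)) := le_trans hx (min_le_right _ _)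
    have h2 : dist y v1 ≤ 1 / (4 * ((k : ℝ) + 1)) := le_trans hy (min_le_right _ _)
    have h3 := dist_triangle_right x y v1
    have h4 : 1 / (4 * ((k : ℝ) + 1)) + 1 / (4 * ((k : ℝ) + 1)) < 1 / ((k : ℝ) + 1) := by
      rw [← two_mul, mul_one_div, div_lt_div_iff₀ (by positivity) hk1]
      linarith
    linarith

section
variable {n : ℕ} {X : Type} [TopologicalSpace X]

theorem someReg_of_hol (hn : 1 ≤ n) {G : Type} [Group G] [MulAction G X]
    [ContinuousConstSMul G X] (ψ χ : OpenPartialHomeomorph X (E n)) (g : G)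
    (hN : ¬ IsMeagre {v | v ∈ ψ.target ∧ g • ψ.symm v ∈ χ.source ∧
      HolPt (fun w => χ (g • ψ.symm w)) v}) :
    ∃ W : Set X, IsOpen W ∧ W.Nonempty ∧ W ⊆ ψ.source ∧ (∀ x ∈ W, g • x ∈ χ.source) ∧
      ∃ m : ℕ, ∀ j, m ≤ j → EnerM (n + 1) (ψ '' W) ((1 / 2) ^ j) (2 ^ j / (j + 1))
        (fun v => χ (g • ψ.symm v)) := by
  obtain ⟨O, hOdef⟩ : ∃ O : Set (E n), O = {v | v ∈ ψ.target ∧ g • ψ.symm v ∈ χ.source} :=
    ⟨_, rfl⟩
  have hsm : ContinuousOn (fun v => g • ψ.symm v) ψ.target :=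
    (continuous_const_smul g).comp_continuousOn ψ.continuousOn_symm
  have hO : IsOpen O := by
    have h1 := hsm.isOpen_inter_preimage ψ.open_target χ.open_source
    rw [hOdef]
    exact h1
  have hf : ContinuousOn (fun v => χ (g • ψ.symm v)) O := by
    refine χ.continuousOn.comp (hsm.mono fun v hv => ?_) fun v hv => ?_
    · rw [hOdef] at hv; exact hv.1
    · rw [hOdef] at hv; exact hv.2
  obtain ⟨v, ρ, α, M, hρ, hρ3, hsub, hα, hM, hH⟩ := hol_baire hn hO hf (by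
    intro h
    apply hN
    refine h.mono ?_
    rintro w ⟨h1, h2, h3⟩
    exact ⟨by rw [hOdef]; exact ⟨h1, h2⟩, h3⟩)
  obtain ⟨m, hm⟩ := enerM_hol hn hα (Q := closedBall v ρ) (z := v)
    (closedBall_subset_closedBall hρ3) (u := fun v => χ (g • ψ.symm v)) hM hH
  have hOm : ∀ w ∈ closedBall v ρ, w ∈ ψ.target ∧ g • ψ.symm w ∈ χ.source := fun w hw => by
    have := hsub hw
    rw [hOdef] at this
    exact this
  refine ⟨ψ.source ∩ ψ ⁻¹' ball v ρ, ψ.isOpen_inter_preimage isOpen_ball,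
    ⟨ψ.symm v, ψ.map_target (hOm v (mem_closedBall_self hρ.le)).1, ?_⟩, inter_subset_left, ?_, m,
    fun j hj => ?_⟩
  · rw [mem_preimage, ψ.right_inv (hOm v (mem_closedBall_self hρ.le)).1]
    exact mem_ball_self hρ
  · rintro x ⟨hx, hxb⟩
    have h1 := (hOm (ψ x) (ball_subset_closedBall hxb)).2
    rwa [ψ.left_inv hx] at h1
  · refine enerM_mono ?_ le_rfl (hm j hj)
    rintro _ ⟨x, hx, rfl⟩
    exact ball_subset_closedBall hx.2

theorem someReg_of_sob (hn : 2 ≤ n) {G : Type} [Group G] [TopologicalSpace G] [MulAction G X]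
    [ContinuousSMul G X] (ψ χ : OpenPartialHomeomorph X (E n)) (g : G) {W : Set X}
    (hWo : IsOpen W) (hWn : W.Nonempty) (hWs : W ⊆ ψ.source) (hgW : ∀ x ∈ W, g • x ∈ χ.source)
    {q : ℝ} (hq : (n : ℝ) - 1 < q) (hS : SobO q (ψ '' W) (fun v => χ (g • ψ.symm v))) :
    ∃ W' : Set X, IsOpen W' ∧ W'.Nonempty ∧ W' ⊆ ψ.source ∧ (∀ x ∈ W', g • x ∈ χ.source) ∧
      ∃ m : ℕ, ∀ j, m ≤ j → EnerM (n + 1) (ψ '' W') ((1 / 2) ^ j) (2 ^ j / (j + 1))
        (fun v => χ (g • ψ.symm v)) := by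
  obtain ⟨W1, hW1o, ⟨x0, hx0⟩, hW1W, m, hm⟩ := ener_of_sob hn ψ χ g hWo hWn hWs hgW hq hS
  have hx0s := hWs (hW1W hx0)
  have hv0 : ψ x0 ∈ ψ.target := ψ.map_source hx0s
  have hleft : ψ.symm (ψ x0) = x0 := ψ.left_inv hx0s
  have e3 : ContinuousAt (fun v => χ (g • ψ.symm v)) (ψ x0) := by
    have f1 : ContinuousAt (fun v => g • ψ.symm v) (ψ x0) := (ψ.continuousAt_symm hv0).const_smul g
    refine ContinuousAt.comp (g := χ) (f := fun v => g • ψ.symm v) ?_ f1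
    simp only [hleft]
    exact χ.continuousAt (hgW x0 (hW1W hx0))
  obtain ⟨ρ', hρ', hball⟩ := Metric.continuousAt_iff.1 e3 (1 / 2) (by norm_num)
  refine ⟨W1 ∩ (ψ.source ∩ ψ ⁻¹' ball (ψ x0) ρ'), hW1o.inter (ψ.isOpen_inter_preimage isOpen_ball),
    ⟨x0, hx0, hx0s, mem_ball_self hρ'⟩, fun x hx => hx.2.1, fun x hx => hgW x (hW1W hx.1), m,
    fun j hj => ?_⟩
  refine enerM_succ (ener_mono (image_mono inter_subset_left) le_rfl (hm j hj)) ?_
  rintro _ ⟨x, hx, rfl⟩ _ ⟨y, hy, rfl⟩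
  have h2 := hball hx.2.2
  have h3 := hball hy.2.2
  have h4 := dist_triangle_right (χ (g • ψ.symm (ψ x))) (χ (g • ψ.symm (ψ y)))
    (χ (g • ψ.symm (ψ x0)))
  linarith

/-- regularity somewhere, in one of three senses -/
def RegS (Ψ : ℕ → OpenPartialHomeomorph X (E n)) (r b : ℕ → ℝ) {S : Type} [SMul S X]
    (g : S) : Prop :=
  ∃ i j : ℕ, ¬ IsMeagre {v | v ∈ (Ψ i).target ∧ g • (Ψ i).symm v ∈ (Ψ j).source ∧
      HolPt (fun w => Ψ j (g • (Ψ i).symm w)) v} ∨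
    ∃ W : Set X, IsOpen W ∧ W.Nonempty ∧ W ⊆ (Ψ i).source ∧ (∀ x ∈ W, g • x ∈ (Ψ j).source) ∧
      ((∃ q : ℝ, (n : ℝ) - 1 < q ∧ SobO q (Ψ i '' W) (fun v => Ψ j (g • (Ψ i).symm v))) ∨
        ∃ m : ℕ, ∀ k, m ≤ k →
          EnerM (n + 1) (Ψ i '' W) (r k) (b k) (fun v => Ψ j (g • (Ψ i).symm v)))

/-- The Hilbert-Smith conjecture for locally effective actions of which the small elements of
`p`-power type have somewhere regular powers. -/
theorem lie_somewhere2 (hn : 2 ≤ n) [T2Space X] (Ψ : ℕ → OpenPartialHomeomorph X (E n))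
    {G : Type} [Group G] [TopologicalSpace G] [IsTopologicalGroup G] [LocallyCompactSpace G]
    [T2Space G] [MulAction G X] [ContinuousSMul G X] {V : Set G} (hV : V ∈ 𝓝 (1 : G))
    (hLE : ∀ g, Pool.Agent.R775.HS.SmallPow V g → ∀ (i : ℕ) (W : Set X), IsOpen W → W.Nonempty →
      W ⊆ (Ψ i).source → (∀ x ∈ W, g • x = x) → g = 1)
    {r b : ℕ → ℝ} (hr : ∀ k, 0 < r k) (hrb : Tendsto (fun k => r k * b k) atTop (𝓝 0))
    (hreg : ∀ g : G, Pool.Agent.R775.HS.SmallPow V g →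
      (∃ p : ℕ, p.Prime ∧ Tendsto (fun j : ℕ => g ^ p ^ j) atTop (𝓝 1)) →
      ∃ m : ℕ, 0 < m ∧ RegS Ψ r b (g ^ m)) : IsLie G := by
  refine lie_some2 (by omega) Ψ hV hLE
    (r := fun k j => if k = 0 then r j else (1 / 2) ^ j)
    (b := fun k j => if k = 0 then b j else 2 ^ j / (j + 1)) ?_ ?_ ?_
  · intro k j
    by_cases hk : k = 0
    · simp only [hk, if_true]
      exact hr j
    · simp only [hk, if_false]
      positivity
  · intro k
    by_cases hk : k = 0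
    · simp only [hk, if_true]
      exact hrb
    · simp only [hk, if_false]
      have h1 : Tendsto (fun j : ℕ => 1 / ((j : ℝ) + 1)) atTop (𝓝 0) :=
        tendsto_one_div_add_atTop_nhds_zero_nat
      refine h1.congr fun j => ?_
      have h2 : ((1 : ℝ) / 2) ^ j * 2 ^ j = 1 := by
        rw [← mul_pow]
        norm_num
      rw [← mul_div_assoc, h2]
  · intro g hg hp
    obtain ⟨M, hM, i, j, hcase⟩ := hreg g hg hp
    refine ⟨M, hM, ?_⟩
    rcases hcase with hN | ⟨W, hWo, hWn, hWs, hgW, ⟨q, hq, hS⟩ | ⟨m, hm⟩⟩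
    · obtain ⟨W, h1, h2, h3, h4, m, h5⟩ := someReg_of_hol (by omega) (Ψ i) (Ψ j) (g ^ M) hN
      exact ⟨i, j, 1, W, h1, h2, h3, h4, m, fun k hk => by simpa using h5 k hk⟩
    · obtain ⟨W', h1, h2, h3, h4, m, h5⟩ :=
        someReg_of_sob hn (Ψ i) (Ψ j) (g ^ M) hWo hWn hWs hgW hq hS
      exact ⟨i, j, 1, W', h1, h2, h3, h4, m, fun k hk => by simpa using h5 k hk⟩
    · exact ⟨i, j, 0, W, hWo, hWn, hWs, hgW, m, fun k hk => by simpa using hm k hk⟩

end

end Pool.Agent.K1H66.HS
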