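import Pool.Agent.K1H66.HS.Comp

/-!
# The degree for maps of the product of Euclidean space with the complex plane (helper66)
-/

set_option autoImplicit false

open MeasureTheory Set Metric Filter Topology
open scoped ENNReal NNReal ContDiff

noncomputable section

namespace Pool.Agent.K1H66.HS

open Pool.Agent.Y485.HS Pool.Agent.Y489.SP

variable {n : ℕ}

/-- a linear isomorphism -/
def eV (n : ℕ) : E (n + 2) ≃L[ℝ] (E n × ℂ) :=
  ContinuousLinearEquiv.ofFinrankEq (by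
    rw [Module.finrank_prod, finrank_euclideanSpace_fin, finrank_euclideanSpace_fin,
      Complex.finrank_real_complex])

/-- the conjugated map -/
def cj (f : E n × ℂ → E n × ℂ) : E (n + 2) → E (n + 2) := fun w => (eV n).symm (f (eV n w))

/-- the degree of `f` on `U` over `0` -/
def DV (f : E n × ℂ → E n × ℂ) (U : Set (E n × ℂ)) (d : ℤ) : Prop := Dg (cj f) (eV n ⁻¹' U) d

theorem cj_cont {f : E n × ℂ → E n × ℂ} (hf : Continuous f) : Continuous (cj f) :=
  (eV n).symm.continuous.comp (hf.comp (eV n).continuous)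

theorem cj_eq_zero {f : E n × ℂ → E n × ℂ} {w : E (n + 2)} : cj f w = 0 ↔ f (eV n w) = 0 := by
  unfold cj
  exact (eV n).symm.map_eq_zero_iff

theorem pre_open {U : Set (E n × ℂ)} (hU : IsOpen U) : IsOpen (eV n ⁻¹' U) :=
  hU.preimage (eV n).continuous

theorem pre_bdd {U : Set (E n × ℂ)} (hU : Bornology.IsBounded U) :
    Bornology.IsBounded (eV n ⁻¹' U) :=
  (eV n).antilipschitz.isBounded_preimage hU

theorem pre_frontier (U : Set (E n × ℂ)) : frontier (eV n ⁻¹' U) = eV n ⁻¹' frontier U :=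
  ((eV n).toHomeomorph.preimage_frontier U).symm

theorem pre_closure (U : Set (E n × ℂ)) : closure (eV n ⁻¹' U) = eV n ⁻¹' closure U :=
  ((eV n).toHomeomorph.preimage_closure U).symm

theorem DV.exists {f : E n × ℂ → E n × ℂ} (hf : Continuous f) {U : Set (E n × ℂ)}
    (hU : IsOpen U) (hUb : Bornology.IsBounded U) (h0 : ∀ x ∈ frontier U, f x ≠ 0) :
    ∃ d : ℤ, DV f U d := by
  refine Dg.exists (cj_cont hf) (pre_open hU) (pre_bdd hUb) ?_
  intro x hx
  rw [pre_frontier] at hx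
  rw [Ne, cj_eq_zero]
  exact h0 _ hx

theorem DV.unique {f : E n × ℂ → E n × ℂ} (hf : Continuous f) {U : Set (E n × ℂ)}
    (hUb : Bornology.IsBounded U) {d d' : ℤ} (h : DV f U d) (h' : DV f U d') : d = d' :=
  Dg.unique (cj_cont hf) (pre_bdd hUb) h h'

theorem DV.homotopy {H : ℝ → E n × ℂ → E n × ℂ}
    (hH : Continuous (fun q : ℝ × (E n × ℂ) => H q.1 q.2)) {U : Set (E n × ℂ)} (hU : IsOpen U)
    (hUb : Bornology.IsBounded U) (h0 : ∀ t ∈ Icc (0 : ℝ) 1, ∀ x ∈ frontier U, H t x ≠ 0) {d : ℤ}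
    (h : DV (H 0) U d) : DV (H 1) U d := by
  refine Dg.homotopy (H := fun t => cj (H t)) ?_ (pre_open hU) (pre_bdd hUb) ?_ h
  · have h1 : Continuous (fun q : ℝ × E (n + 2) => (q.1, eV n q.2)) :=
      continuous_fst.prodMk ((eV n).continuous.comp continuous_snd)
    exact (eV n).symm.continuous.comp (hH.comp h1)
  · intro t ht x hx
    rw [pre_frontier] at hx
    rw [Ne, cj_eq_zero]
    exact h0 t ht _ hx

theorem DV.congr {f g : E n × ℂ → E n × ℂ} (hf : Continuous f) (hg : Continuous g)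
    {U : Set (E n × ℂ)} (hU : IsOpen U) (hUb : Bornology.IsBounded U)
    (h0 : ∀ x ∈ frontier U, f x ≠ 0) (he : ∀ x ∈ frontier U, g x = f x) {d : ℤ} (h : DV f U d) :
    DV g U d := by
  refine Dg.congr (cj_cont hf) (cj_cont hg) (pre_open hU) (pre_bdd hUb) ?_ ?_ h
  · intro x hx
    rw [pre_frontier] at hx
    rw [Ne, cj_eq_zero]
    exact h0 _ hx
  · intro x hx
    rw [pre_frontier] at hx
    unfold cj
    rw [he _ hx]

theorem DV.add {f : E n × ℂ → E n × ℂ} (hf : Continuous f) {U U1 U2 : Set (E n × ℂ)}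
    (hUb : Bornology.IsBounded U) (hU1 : IsOpen U1) (hU2 : IsOpen U2) (hUo : IsOpen U)
    (h1U : U1 ⊆ U) (h2U : U2 ⊆ U) (hdisj : Disjoint U1 U2)
    (h0 : ∀ x ∈ closure U, x ∉ U1 → x ∉ U2 → f x ≠ 0) {d1 d2 : ℤ}
    (h1 : DV f U1 d1) (h2 : DV f U2 d2) : DV f U (d1 + d2) := by
  refine Dg.add (cj_cont hf) (pre_bdd hUb) (pre_open hU1) (pre_open hU2) (pre_open hUo)
    (preimage_mono h1U) (preimage_mono h2U) (hdisj.preimage _) ?_ h1 h2
  intro x hx hx1 hx2
  rw [pre_closure] at hx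
  rw [Ne, cj_eq_zero]
  exact h0 _ hx hx1 hx2

theorem DV.zero {f : E n × ℂ → E n × ℂ} (hf : Continuous f) {U : Set (E n × ℂ)} (hU : IsOpen U)
    (hUb : Bornology.IsBounded U) (h0 : ∀ x ∈ closure U, f x ≠ 0) : DV f U 0 := by
  refine Dg.zero (cj_cont hf) (pre_open hU) (pre_bdd hUb) ?_
  intro x hx
  rw [pre_closure] at hx
  rw [Ne, cj_eq_zero]
  exact h0 _ hx

theorem DV.excise {f : E n × ℂ → E n × ℂ} (hf : Continuous f) {U U1 : Set (E n × ℂ)}
    (hUb : Bornology.IsBounded U) (hU1 : IsOpen U1) (hUo : IsOpen U) (h1U : U1 ⊆ U)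
    (h0 : ∀ x ∈ closure U, x ∉ U1 → f x ≠ 0) {d : ℤ} (h1 : DV f U1 d) : DV f U d := by
  refine Dg.excise (cj_cont hf) (pre_bdd hUb) (pre_open hU1) (pre_open hUo)
    (preimage_mono h1U) ?_ h1
  intro x hx hx1
  rw [pre_closure] at hx
  rw [Ne, cj_eq_zero]
  exact h0 _ hx hx1

theorem DV.excise' {f : E n × ℂ → E n × ℂ} (hf : Continuous f) {U U1 : Set (E n × ℂ)}
    (hUb : Bornology.IsBounded U) (hU1 : IsOpen U1) (hUo : IsOpen U) (h1U : U1 ⊆ U)
    (h0 : ∀ x ∈ closure U, x ∉ U1 → f x ≠ 0) {d : ℤ} (h1 : DV f U d) : DV f U1 d := by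
  refine Dg.excise' (cj_cont hf) (pre_bdd hUb) (pre_open hU1) (pre_open hUo)
    (preimage_mono h1U) ?_ h1
  intro x hx hx1
  rw [pre_closure] at hx
  rw [Ne, cj_eq_zero]
  exact h0 _ hx hx1

theorem DV.id {U : Set (E n × ℂ)} (hU : IsOpen U) (hUb : Bornology.IsBounded U)
    (h0 : (0 : E n × ℂ) ∈ U) : DV (fun x : E n × ℂ => x) U 1 := by
  have h1 : cj (fun x : E n × ℂ => x) = fun x => x := by
    funext x
    unfold cj
    exact (eV n).symm_apply_apply x
  unfold DV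
  rw [h1]
  refine Dg.id (pre_open hU) (pre_bdd hUb) ?_
  show eV n 0 ∈ U
  rwa [map_zero]

theorem DV.comp_smooth {k : E n × ℂ → E n × ℂ} (hk : Continuous k) {π : E n × ℂ → E n × ℂ}
    (hπ : ContDiff ℝ 1 π) {U : Set (E n × ℂ)} (hU : IsOpen U) (hUb : Bornology.IsBounded U)
    (hinj : InjOn π U)
    (hdet : ∀ x ∈ U, 0 ≤ LinearMap.det ((fderiv ℝ π x : E n × ℂ →L[ℝ] E n × ℂ) :
      E n × ℂ →ₗ[ℝ] E n × ℂ))
    (h0 : ∀ x ∈ frontier U, k (π x) ≠ 0) {d : ℤ} (h : DV k (π '' U) d) :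
    DV (fun x => k (π x)) U d := by
  have hcj : cj (fun x => k (π x)) = fun x => cj k (cj π x) := by
    funext x
    unfold cj
    rw [(eV n).apply_symm_apply]
  have himg : cj π '' (eV n ⁻¹' U) = eV n ⁻¹' (π '' U) := by
    ext w
    constructor
    · rintro ⟨x, hx, rfl⟩
      refine ⟨eV n x, hx, ?_⟩
      unfold cj
      rw [(eV n).apply_symm_apply]
    · rintro ⟨x, hx, hxw⟩
      refine ⟨(eV n).symm x, ?_, ?_⟩
      · show eV n ((eV n).symm x) ∈ U
        rwa [(eV n).apply_symm_apply]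
      · unfold cj
        rw [(eV n).apply_symm_apply, hxw, (eV n).symm_apply_apply]
  unfold DV at h ⊢
  rw [hcj]
  refine Dg.comp_smooth (cj_cont hk) ?_ (pre_open hU) (pre_bdd hUb) ?_ ?_ ?_ (by rwa [himg])
  · exact (eV n).symm.contDiff.comp (hπ.comp (eV n).contDiff)
  · intro a ha b hb hab
    have h1 : π (eV n a) = π (eV n b) := (eV n).symm.injective hab
    exact (eV n).injective (hinj ha hb h1)
  · intro x hx
    have h1 : fderiv ℝ (cj π) x = ((eV n).symm : (E n × ℂ) →L[ℝ] E (n + 2)).comp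
        ((fderiv ℝ π (eV n x)).comp (eV n : E (n + 2) →L[ℝ] (E n × ℂ))) := by
      have h2 : HasFDerivAt π (fderiv ℝ π (eV n x)) (eV n x) :=
        (hπ.differentiable one_ne_zero _).hasFDerivAt
      exact (((eV n).symm.hasFDerivAt).comp x (h2.comp x (eV n).hasFDerivAt)).fderiv
    rw [h1]
    have h3 := LinearMap.det_conj ((fderiv ℝ π (eV n x) : E n × ℂ →L[ℝ] E n × ℂ) :
      E n × ℂ →ₗ[ℝ] E n × ℂ) (eV n).symm.toLinearEquiv
    have h4 : (((eV n).symm : (E n × ℂ) →L[ℝ] E (n + 2)).comp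
        ((fderiv ℝ π (eV n x)).comp (eV n : E (n + 2) →L[ℝ] (E n × ℂ)))).det =
        LinearMap.det (((eV n).symm.toLinearEquiv : (E n × ℂ) →ₗ[ℝ] E (n + 2)) ∘ₗ
          ((fderiv ℝ π (eV n x) : E n × ℂ →L[ℝ] E n × ℂ) : E n × ℂ →ₗ[ℝ] E n × ℂ) ∘ₗ
          ((eV n).symm.toLinearEquiv.symm : E (n + 2) →ₗ[ℝ] (E n × ℂ))) := rfl
    rw [h4, h3]
    exact hdet _ hx
  · intro x hx
    rw [pre_frontier] at hx
    rw [Ne, cj_eq_zero]
    unfold cj
    rw [(eV n).apply_symm_apply]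
    exact h0 _ hx

theorem DV.comp_tau {f : E n × ℂ → E n × ℂ} (hf : Continuous f) {τ : E n × ℂ → E n × ℂ}
    (hτ : Continuous τ) {R : ℝ} (hτR : ∀ x, R ≤ ‖x‖ → τ x = x) {U U' : Set (E n × ℂ)}
    (hU : IsOpen U) (hUb : Bornology.IsBounded U) (hU' : IsOpen U')
    (hUb' : Bornology.IsBounded U') (h0 : ∀ x ∈ frontier U, f (τ x) ≠ 0)
    (h0' : ∀ x ∈ frontier U', f x ≠ 0) (hiff : ∀ x, f (τ x) = 0 → (x ∈ U ↔ τ x ∈ U')) {d : ℤ}
    (h : DV f U' d) : DV (fun x => f (τ x)) U d := by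
  have hcj : cj (fun x => f (τ x)) = fun x => cj f (cj τ x) := by
    funext x
    unfold cj
    rw [(eV n).apply_symm_apply]
  unfold DV at h ⊢
  rw [hcj]
  -- outside a ball
  obtain ⟨R', hR'⟩ : ∃ R' : ℝ, ∀ x : E (n + 2), R' ≤ ‖x‖ → R ≤ ‖eV n x‖ := by
    obtain ⟨r, hr⟩ := (pre_bdd (n := n) (U := closedBall 0 R) isBounded_closedBall).subset_closedBall
      (0 : E (n + 2))
    refine ⟨r + 1, fun x hx => ?_⟩
    by_contra hcon
    push Not at hcon
    have h1 : x ∈ eV n ⁻¹' closedBall 0 R := by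
      show eV n x ∈ closedBall 0 R
      rw [mem_closedBall, dist_zero_right]
      exact hcon.le
    have h2 := hr h1
    rw [mem_closedBall, dist_zero_right] at h2
    linarith
  refine Dg.comp_tau (cj_cont hf) (cj_cont hτ) (R := R') ?_ (pre_open hU) (pre_bdd hUb)
    (pre_open hU') (pre_bdd hUb') ?_ ?_ ?_ h
  · intro x hx
    unfold cj
    rw [hτR _ (hR' x hx), (eV n).symm_apply_apply]
  · intro x hx
    rw [pre_frontier] at hx
    rw [Ne, cj_eq_zero]
    unfold cj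
    rw [(eV n).apply_symm_apply]
    exact h0 _ hx
  · intro x hx
    rw [pre_frontier] at hx
    rw [Ne, cj_eq_zero]
    exact h0' _ hx
  · intro x hx
    rw [cj_eq_zero] at hx
    unfold cj at hx
    rw [(eV n).apply_symm_apply] at hx
    have h1 := hiff _ hx
    show eV n x ∈ U ↔ eV n (cj τ x) ∈ U'
    unfold cj
    rw [(eV n).apply_symm_apply]
    exact h1

end Pool.Agent.K1H66.HS
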