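import Pool.Agent.K1H66.HS.Locs
import Pool.Agent.Y909.SP.TRA
import Pool.Agent.Y909.SP.MOR
import Pool.Agent.Y566.SP.Face
import Pool.Agent.Y662.SP.SOB

/-!
# Transfer of the class to charts (helper66)

Adaptation of `Pool/Agent/Y909/SP/TRA.lean` (helper909) to the energies of exponent `n + 1` and to
Hölder continuous maps.
-/

set_option autoImplicit false

open MeasureTheory Set Metric Filter Topology
open scoped ENNReal NNReal

noncomputable section

namespace Pool.Agent.K1H66.HS

open Pool.Agent.Y485.HS Pool.Agent.Y489.SP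

/-- the energies of exponent `m` on the regular part -/
def ScaM (n m : ℕ) {X : Type} [MetricSpace X] (f : X → X) : Prop :=
  ∀ C ⊆ Reg n X, IsCompact C → ∀ c : ℕ, ∃ N : ℕ, ∀ r : ℝ, 0 < r → r ≤ 1 → ∀ A : Finset X,
    (∀ a ∈ A, a ∈ C) → (∀ a ∈ A, ∀ b ∈ A, a ≠ b → r ≤ dist a b) →
    ∑ a ∈ A, Metric.diam (f '' (closedBall a (c * r) ∩ C)) ^ m ≤ N * r ^ (1 / (N : ℝ) - 1)

/-- Hölder continuity with an exponent larger than `(n - 1) / (n + 1)` on compact sets of regular
points -/
def HolX (n : ℕ) {X : Type} [MetricSpace X] (f : X → X) : Prop :=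
  ∀ C ⊆ Reg n X, IsCompact C → ∃ α M : ℝ, ((n : ℝ) - 1) / (n + 1) < α ∧
    ∀ a ∈ C, ∀ b ∈ C, dist (f a) (f b) ≤ M * dist a b ^ α

/-- the class of the theorem -/
def AdmM (n : ℕ) {X : Type} [MetricSpace X] [MeasurableSpace X] [BorelSpace X] (f : X → X) :
    Prop :=
  ScaM n (n + 1) f ∨ HolX n f ∨ ∃ q : ℝ, (n : ℝ) - 1 < q ∧ SobX n q f

/-- Hölder continuous maps belong to the class -/
theorem en_of_hol {n : ℕ} (hn : 1 ≤ n) {u : E n → E n} {α M : ℝ}
    (hα : ((n : ℝ) - 1) / (n + 1) < α) (hM : 0 ≤ M)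
    (hu : ∀ x ∈ BB n, ∀ y ∈ BB n, dist (u x) (u y) ≤ M * dist x y ^ α) :
    ∃ N : ℕ, EnV (n + 1) N u := by
  have hn0 : (0 : ℝ) < n := by exact_mod_cast hn
  have hn1 : (1 : ℝ) ≤ n := by exact_mod_cast hn
  have hα0 : 0 < α := lt_of_le_of_lt (div_nonneg (by linarith) (by linarith)) hα
  have hε : 0 < α * (n + 1) - n + 1 := by
    rw [div_lt_iff₀ (by linarith)] at hα
    linarith
  set ε : ℝ := α * (n + 1) - n + 1 with hεdef
  set B : ℝ := 7 ^ n * (M * 2 ^ α) ^ (n + 1) with hB
  have hB0 : 0 ≤ B := by positivity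
  obtain ⟨N, hN⟩ := exists_nat_ge (max B (1 / ε))
  have hNB : B ≤ N := (le_max_left _ _).trans hN
  have hNε : 1 / ε ≤ N := (le_max_right _ _).trans hN
  have hN0 : (0 : ℝ) < N := lt_of_lt_of_le (by positivity) hNε
  refine ⟨N, ?_⟩
  intro r hr hr1 A hA hAs
  have h3B : closedBall (0 : E n) 3 ⊆ BB n := closedBall_subset_closedBall (by norm_num)
  have hcard : (A.card : ℝ) ≤ 7 ^ n * r ^ (-(n : ℝ)) := by
    have h1 := Pool.Agent.Y662.SP.SOB.pack (0 : E n) hr (R := 3) (by norm_num) A
      (fun a ha => by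
        have := hA a ha
        rwa [mem_closedBall] at this) hAs
    refine h1.trans ?_
    have h2 : 2 * 3 / r + 1 ≤ 7 / r := by
      rw [div_add_one hr.ne']
      gcongr
      linarith
    calc (2 * 3 / r + 1) ^ n ≤ (7 / r) ^ n := pow_le_pow_left₀ (by positivity) h2 n
      _ = 7 ^ n * r ^ (-(n : ℝ)) := by
        rw [div_pow, Real.rpow_neg hr.le, Real.rpow_natCast, div_eq_mul_inv]
  have hD : ∀ a ∈ A, Metric.diam (u '' (closedBall a r ∩ closedBall 0 3)) ^ (n + 1) ≤
      (M * 2 ^ α) ^ (n + 1) * r ^ (α * (n + 1)) := by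
    intro a _
    have h1 : Metric.diam (u '' (closedBall a r ∩ closedBall 0 3)) ≤ M * (2 * r) ^ α := by
      refine Metric.diam_le_of_forall_dist_le (by positivity) ?_
      rintro _ ⟨x, hx, rfl⟩ _ ⟨y, hy, rfl⟩
      refine (hu x (h3B hx.2) y (h3B hy.2)).trans ?_
      refine mul_le_mul_of_nonneg_left ?_ hM
      refine Real.rpow_le_rpow dist_nonneg ?_ hα0.le
      have h2 := dist_triangle_right x y a
      have h3 : dist x a ≤ r := hx.1
      have h4 : dist y a ≤ r := hy.1
      linarith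
    calc Metric.diam (u '' (closedBall a r ∩ closedBall 0 3)) ^ (n + 1)
        ≤ (M * (2 * r) ^ α) ^ (n + 1) := pow_le_pow_left₀ Metric.diam_nonneg h1 _
      _ = (M * 2 ^ α) ^ (n + 1) * r ^ (α * (n + 1)) := by
        rw [Real.mul_rpow (by norm_num) hr.le, ← mul_assoc, mul_pow, Real.rpow_mul hr.le]
        congr 1
        rw [← Nat.cast_add_one, Real.rpow_natCast]
  calc ∑ a ∈ A, Metric.diam (u '' (closedBall a r ∩ closedBall 0 3)) ^ (n + 1)
      ≤ ∑ _a ∈ A, (M * 2 ^ α) ^ (n + 1) * r ^ (α * (n + 1)) := Finset.sum_le_sum hD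
    _ = A.card * ((M * 2 ^ α) ^ (n + 1) * r ^ (α * (n + 1))) := by
      rw [Finset.sum_const, nsmul_eq_mul]
    _ ≤ (7 ^ n * r ^ (-(n : ℝ))) * ((M * 2 ^ α) ^ (n + 1) * r ^ (α * (n + 1))) := by
      gcongr
    _ = B * (r ^ (-(n : ℝ)) * r ^ (α * (n + 1))) := by rw [hB]; ring
    _ = B * r ^ (ε - 1) := by
      rw [← Real.rpow_add hr, hεdef]
      congr 2
      ring
    _ ≤ N * r ^ (1 / (N : ℝ) - 1) := by
      have h5 : r ^ (ε - 1) ≤ r ^ (1 / (N : ℝ) - 1) := by
        refine Real.rpow_le_rpow_of_exponent_ge hr hr1 ?_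
        have : 1 / (N : ℝ) ≤ ε := by
          rw [div_le_iff₀ hN0]
          rw [div_le_iff₀ hε] at hNε
          linarith
        linarith
      exact mul_le_mul hNB h5 (by positivity) hN0.le

/-- maps close to the identity: the energy of exponent `n + 1` is controlled by that of
exponent `n` -/
theorem en_succ {n N : ℕ} {u : E n → E n} (hd : ∀ x ∈ BB n, dist (u x) x ≤ 1 / 4)
    (h : En N u) : EnV (n + 1) (9 * N) u := by
  intro r hr hr1 A hA hAs
  have h3B : closedBall (0 : E n) 3 ⊆ BB n := closedBall_subset_closedBall (by norm_num)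
  have hD : ∀ a ∈ A, Metric.diam (u '' (closedBall a r ∩ closedBall 0 3)) ≤ 9 := by
    intro a _
    refine Metric.diam_le_of_forall_dist_le (by norm_num) ?_
    rintro _ ⟨x, hx, rfl⟩ _ ⟨y, hy, rfl⟩
    have h1 := hd x (h3B hx.2)
    have h2 := hd y (h3B hy.2)
    have h3 : dist x y ≤ 6 := by
      have e1 : dist x 0 ≤ 3 := hx.2
      have e2 : dist y 0 ≤ 3 := hy.2
      have := dist_triangle_right x y 0
      linarith
    have h4 := dist_triangle4 (u x) x y (u y)
    rw [dist_comm y (u y)] at h4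
    linarith
  calc ∑ a ∈ A, Metric.diam (u '' (closedBall a r ∩ closedBall 0 3)) ^ (n + 1)
      ≤ ∑ a ∈ A, 9 * Metric.diam (u '' (closedBall a r ∩ closedBall 0 3)) ^ n := by
        refine Finset.sum_le_sum fun a ha => ?_
        rw [pow_succ, mul_comm]
        exact mul_le_mul_of_nonneg_right (hD a ha) (pow_nonneg Metric.diam_nonneg _)
    _ = 9 * ∑ a ∈ A, Metric.diam (u '' (closedBall a r ∩ closedBall 0 3)) ^ n := by
        rw [Finset.mul_sum]
    _ ≤ 9 * (N * r ^ (1 / (N : ℝ) - 1)) := by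
        exact mul_le_mul_of_nonneg_left (h r hr hr1 A hA hAs) (by norm_num)
    _ ≤ ((9 * N : ℕ) : ℝ) * r ^ (1 / ((9 * N : ℕ) : ℝ) - 1) := by
        rcases Nat.eq_zero_or_pos N with h0 | h0
        · subst h0
          simp
        · have hN0 : (0 : ℝ) < N := by exact_mod_cast h0
          have h5 : r ^ (1 / (N : ℝ) - 1) ≤ r ^ (1 / ((9 * N : ℕ) : ℝ) - 1) := by
            refine Real.rpow_le_rpow_of_exponent_ge hr hr1 ?_
            have : 1 / ((9 * N : ℕ) : ℝ) ≤ 1 / (N : ℝ) := by
              refine one_div_le_one_div_of_le hN0 ?_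
              push_cast
              linarith
            linarith
          rw [← mul_assoc]
          refine mul_le_mul ?_ h5 (by positivity) (by positivity)
          push_cast
          exact le_rfl

/-- transfer of an action to a chart -/
theorem tra : ∀ (n : ℕ), 2 ≤ n → ∀ (X : Type) [MetricSpace X] [MeasurableSpace X]
    [BorelSpace X] (H : Type) [Group H] [TopologicalSpace H] [MulAction H X]
    [ContinuousSMul H X] (U : Set X) (ψ : X → E n) (L : ℝ), BiLip n U ψ L →
    closedBall 0 4 ⊆ ψ '' U →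
    (∀ h : H, ∀ x ∈ U, ψ x ∈ closedBall 0 4 → h • x ∈ U ∧ dist (ψ (h • x)) (ψ x) ≤ 1 / 4) →
    (∀ h : H, AdmM n (fun x : X => h • x)) →
    ∃ T : H → E n → E n, LocAct n H T ∧ (∀ h, ∃ N : ℕ, EnV (n + 1) N (T h)) ∧
      ∀ h : H, ∀ x ∈ U, ψ x ∈ closedBall 0 4 → T h (ψ x) = ψ (h • x) := by
  classical
  intro n hn X _ _ _ H _ _ _ _ U ψ L hψ hBU hact hAdm
  have hSOB : S_SOB :=
    Pool.Agent.Y662.SP.SOB.t_SOB (Pool.Agent.Y566.SP.t_FACE Pool.Agent.Y909.SP.t_MOR)
  obtain ⟨hUo, hVo, hbl⟩ := hψ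
  -- a constant, at least one
  obtain ⟨K, hK⟩ : ∃ K : ℝ≥0, K = max (Real.toNNReal L) 1 := ⟨_, rfl⟩
  have hK1' : (1 : ℝ≥0) ≤ K := by rw [hK]; exact le_max_right _ _
  have hK1 : (1 : ℝ) ≤ K := by exact_mod_cast hK1'
  have hLK : L ≤ (K : ℝ) := by
    have h1 : Real.toNNReal L ≤ K := by rw [hK]; exact le_max_left _ _
    exact (Real.le_coe_toNNReal L).trans (by exact_mod_cast h1)
  have hlip : LipschitzOnWith K ψ U := by
    refine LipschitzOnWith.of_dist_le_mul fun a ha b hb => ?_
    exact ((hbl a ha b hb).1).trans (mul_le_mul_of_nonneg_right hLK dist_nonneg)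
  have h0 : (0 : E n) ∈ BB n := by
    unfold BB
    exact mem_closedBall_self (by norm_num)
  obtain ⟨x0, hx0U, hx0⟩ := hBU h0
  have : Nonempty X := ⟨x0⟩
  obtain ⟨θ, hθd⟩ : ∃ θ : E n → X, θ = Function.invFunOn ψ U := ⟨_, rfl⟩
  have hθU : ∀ y ∈ BB n, θ y ∈ U := by
    intro y hy
    obtain ⟨x, hx, hxy⟩ := hBU hy
    rw [hθd]
    exact Function.invFunOn_mem ⟨x, hx, hxy⟩
  have hψθ : ∀ y ∈ BB n, ψ (θ y) = y := by
    intro y hy
    obtain ⟨x, hx, hxy⟩ := hBU hy
    rw [hθd]
    exact Function.invFunOn_eq ⟨x, hx, hxy⟩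
  have hθψ : ∀ x ∈ U, θ (ψ x) = x := by
    intro x hx
    have h1 : θ (ψ x) ∈ U := by
      rw [hθd]; exact Function.invFunOn_mem ⟨x, hx, rfl⟩
    have h2 : ψ (θ (ψ x)) = ψ x := by
      rw [hθd]; exact Function.invFunOn_eq ⟨x, hx, rfl⟩
    have h3 := (hbl _ h1 x hx).2
    rw [h2, dist_self, mul_zero] at h3
    exact dist_le_zero.1 h3
  have hθlip : LipschitzOnWith K θ (BB n) := by
    refine LipschitzOnWith.of_dist_le_mul fun a ha b hb => ?_
    have h3 := (hbl _ (hθU a ha) _ (hθU b hb)).2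
    rw [hψθ a ha, hψθ b hb] at h3
    exact h3.trans (mul_le_mul_of_nonneg_right hLK dist_nonneg)
  have hθc : ContinuousOn θ (BB n) := hθlip.continuousOn
  have hact' : ∀ h : H, ∀ y ∈ BB n, h • θ y ∈ U ∧ dist (ψ (h • θ y)) y ≤ 1 / 4 := by
    intro h y hy
    have := hact h (θ y) (hθU y hy) (by rw [hψθ y hy]; exact hy)
    rwa [hψθ y hy] at this
  have hLA : LocAct n H (fun h y => ψ (h • θ y)) := by
    refine ⟨?_, ?_, ?_, ?_⟩
    · -- continuity
      have h1 : ContinuousOn (fun q : H × E n => q.1 • θ q.2) (univ ×ˢ BB n) := by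
        refine ContinuousOn.smul continuousOn_fst ?_
        exact hθc.comp continuousOn_snd fun q hq => hq.2
      exact hlip.continuousOn.comp h1 fun q hq => (hact' q.1 q.2 hq.2).1
    · intro x hx
      simp only [one_smul]
      exact hψθ x hx
    · intro h k x hx hk
      rw [hθψ _ (hact' k x hx).1, mul_smul]
    · intro h x hx
      exact (hact' h x hx).2
  refine ⟨fun h y => ψ (h • θ y), hLA, ?_, ?_⟩
  · intro h
    obtain ⟨C, hC⟩ : ∃ C : Set X, C = θ '' BB n := ⟨_, rfl⟩
    have hCc : IsCompact C := by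
      rw [hC]
      exact (isCompact_closedBall _ _).image_of_continuousOn hθc
    have hCR : C ⊆ Reg n X := by
      rw [hC]
      rintro _ ⟨y, hy, rfl⟩
      exact ⟨U, ψ, L, hθU y hy, hUo, hVo, hbl⟩
    have hCU : C ⊆ U := by
      rw [hC]
      rintro _ ⟨y, hy, rfl⟩
      exact hθU y hy
    rcases hAdm h with hSca | hHol | ⟨q, hq, hSob⟩
    · -- the discrete case
      obtain ⟨c, hc⟩ := exists_nat_ge ((K : ℝ) ^ 2)
      obtain ⟨N, hN⟩ := hSca C hCR hCc c
      refine ⟨⌈(K : ℝ) ^ (n + 1 + 1) * N⌉₊, ?_⟩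
      intro r hr0 hr1 A hA3 hAs
      have hK0 : (0 : ℝ) < K := by linarith
      have hr' : 0 < r / K := by positivity
      have hr'1 : r / K ≤ 1 := by
        rw [div_le_one hK0]
        linarith
      have h3B : closedBall (0 : E n) 3 ⊆ BB n := closedBall_subset_closedBall (by norm_num)
      have hinj : InjOn θ (BB n) := by
        intro a ha b hb hab
        rw [← hψθ a ha, ← hψθ b hb, hab]
      have hmain := hN (r / K) hr' hr'1 (A.image θ) (by
          intro a ha
          obtain ⟨a0, ha0, rfl⟩ := Finset.mem_image.1 ha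
          rw [hC]
          exact mem_image_of_mem θ (h3B (hA3 a0 ha0))) (by
          intro a ha b hb hab
          obtain ⟨a0, ha0, rfl⟩ := Finset.mem_image.1 ha
          obtain ⟨b0, hb0, rfl⟩ := Finset.mem_image.1 hb
          have hne : a0 ≠ b0 := fun h => hab (by rw [h])
          have h1 := hAs a0 ha0 b0 hb0 hne
          have h2 := hlip.dist_le_mul _ (hθU a0 (h3B (hA3 a0 ha0))) _
            (hθU b0 (h3B (hA3 b0 hb0)))
          rw [hψθ a0 (h3B (hA3 a0 ha0)), hψθ b0 (h3B (hA3 b0 hb0))] at h2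
          rw [div_le_iff₀ hK0]
          linarith)
      rw [Finset.sum_image (fun a ha b hb hab =>
        hinj (h3B (hA3 a ha)) (h3B (hA3 b hb)) hab)] at hmain
      have hterm : ∀ a ∈ A, Metric.diam ((fun y => ψ (h • θ y)) ''
          (closedBall a r ∩ closedBall 0 3)) ^ (n + 1) ≤
          (K : ℝ) ^ (n + 1) * Metric.diam ((fun x : X => h • x) ''
            (closedBall (θ a) (c * (r / K)) ∩ C)) ^ (n + 1) := by
        intro a ha
        rw [← mul_pow]
        refine pow_le_pow_left₀ diam_nonneg ?_ (n + 1)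
        refine diam_le_of_forall_dist_le (mul_nonneg hK0.le diam_nonneg) ?_
        rintro _ ⟨x, hx, rfl⟩ _ ⟨y, hy, rfl⟩
        have haB : a ∈ BB n := h3B (hA3 a ha)
        have hin : ∀ z ∈ closedBall a r ∩ closedBall (0 : E n) 3,
            θ z ∈ closedBall (θ a) (c * (r / K)) ∩ C := by
          intro z hz
          refine ⟨?_, hC ▸ mem_image_of_mem θ (h3B hz.2)⟩
          rw [mem_closedBall]
          have h1 := hθlip.dist_le_mul z (h3B hz.2) a haB
          have h2 : dist z a ≤ r := hz.1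
          calc dist (θ z) (θ a) ≤ K * dist z a := h1
            _ ≤ K * r := by gcongr
            _ = (K : ℝ) ^ 2 * (r / K) := by field_simp
            _ ≤ c * (r / K) := by gcongr
        have hbdd : Bornology.IsBounded ((fun x : X => h • x) ''
            (closedBall (θ a) (c * (r / K)) ∩ C)) :=
          ((hCc.image (continuous_const_smul h)).isBounded).subset
            (image_mono inter_subset_right)
        calc dist (ψ (h • θ x)) (ψ (h • θ y)) ≤ K * dist (h • θ x) (h • θ y) :=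
              hlip.dist_le_mul _ (hact' h x (h3B hx.2)).1 _ (hact' h y (h3B hy.2)).1
          _ ≤ K * Metric.diam ((fun x : X => h • x) ''
              (closedBall (θ a) (c * (r / K)) ∩ C)) := by
            gcongr
            exact dist_le_diam_of_mem hbdd (mem_image_of_mem _ (hin x hx))
              (mem_image_of_mem _ (hin y hy))
      calc ∑ a ∈ A, Metric.diam ((fun y => ψ (h • θ y)) ''
            (closedBall a r ∩ closedBall 0 3)) ^ (n + 1)
          ≤ ∑ a ∈ A, (K : ℝ) ^ (n + 1) * Metric.diam ((fun x : X => h • x) ''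
            (closedBall (θ a) (c * (r / K)) ∩ C)) ^ (n + 1) := Finset.sum_le_sum hterm
        _ = (K : ℝ) ^ (n + 1) * ∑ a ∈ A, Metric.diam ((fun x : X => h • x) ''
            (closedBall (θ a) (c * (r / K)) ∩ C)) ^ (n + 1) := by rw [Finset.mul_sum]
        _ ≤ (K : ℝ) ^ (n + 1) * (N * (r / K) ^ (1 / (N : ℝ) - 1)) := by gcongr
        _ ≤ _ := Pool.Agent.Y909.SP.const_aux K r hK1 hr0 hr1 (n + 1) N
    · -- the Hölder case
      obtain ⟨α, M, hα, hM⟩ := hHol C hCR hCc
      have hα0 : 0 < α := by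
        have hn1 : (1 : ℝ) ≤ n := by exact_mod_cast (by omega : 1 ≤ n)
        exact lt_of_le_of_lt (div_nonneg (by linarith) (by linarith)) hα
      have h3B : closedBall (0 : E n) 3 ⊆ BB n := closedBall_subset_closedBall (by norm_num)
      refine en_of_hol (by omega) hα (M := K * (|M| * (K : ℝ) ^ α)) (by positivity) ?_
      intro x hx y hy
      have hxC : θ x ∈ C := by rw [hC]; exact mem_image_of_mem θ hx
      have hyC : θ y ∈ C := by rw [hC]; exact mem_image_of_mem θ hy
      calc dist (ψ (h • θ x)) (ψ (h • θ y)) ≤ K * dist (h • θ x) (h • θ y) :=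
            hlip.dist_le_mul _ (hact' h x hx).1 _ (hact' h y hy).1
        _ ≤ K * (M * dist (θ x) (θ y) ^ α) := by
            gcongr
            exact hM _ hxC _ hyC
        _ ≤ K * (|M| * (K * dist x y) ^ α) := by
            have h1 : dist (θ x) (θ y) ^ α ≤ (K * dist x y) ^ α :=
              Real.rpow_le_rpow dist_nonneg (hθlip.dist_le_mul x hx y hy) hα0.le
            have h2 : 0 ≤ dist (θ x) (θ y) ^ α := by positivity
            have h3 : M * dist (θ x) (θ y) ^ α ≤ |M| * dist (θ x) (θ y) ^ α :=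
              mul_le_mul_of_nonneg_right (le_abs_self M) h2
            have h4 : |M| * dist (θ x) (θ y) ^ α ≤ |M| * (K * dist x y) ^ α :=
              mul_le_mul_of_nonneg_left h1 (abs_nonneg M)
            exact mul_le_mul_of_nonneg_left (h3.trans h4) (by positivity)
        _ = K * (|M| * (K : ℝ) ^ α) * dist x y ^ α := by
            rw [Real.mul_rpow (by positivity) dist_nonneg]
            ring
    · -- the Sobolev case
      have hn2 : (2 : ℝ) ≤ n := by exact_mod_cast hn
      have hq0 : 0 < q := by linarith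
      suffices hS : SobP q (fun y => ψ (h • θ y)) by
        obtain ⟨N, hN⟩ := hSOB n hn H (fun h y => ψ (h • θ y)) hLA h q hq hS
        exact ⟨9 * N, en_succ (fun x hx => hLA.disp h x hx) hN⟩
      obtain ⟨g, hgm, hgH, hgE⟩ := hSob C hCR hCc
      have hBm : MeasurableSet (BB n) := isClosed_closedBall.measurableSet
      obtain ⟨θ', hθ'⟩ : ∃ θ' : E n → X, θ' = (BB n).piecewise θ (fun _ => x0) := ⟨_, rfl⟩
      have hθ'm : Measurable θ' := by
        rw [hθ']
        exact hθc.measurable_piecewise continuousOn_const hBm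
      have hθ'e : ∀ y ∈ BB n, θ' y = θ y := by
        intro y hy
        rw [hθ']
        exact piecewise_eq_of_mem _ _ _ hy
      obtain ⟨g', hg'⟩ : ∃ g' : E n → ℝ≥0∞, g' = fun y => (K : ℝ≥0∞) * (K : ℝ≥0∞) * g (θ' y) :=
        ⟨_, rfl⟩
      have hg'm : Measurable g' := by
        rw [hg']
        exact (hgm.comp hθ'm).const_mul _
      have hHaj : Haj (BB n) (fun y => ψ (h • θ y)) g' := by
        intro x hx y hy
        have h1 := hlip (hact' h x hx).1 (hact' h y hy).1
        have h2 := hgH (θ x) (hC ▸ mem_image_of_mem θ hx) (θ y) (hC ▸ mem_image_of_mem θ hy)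
        have h3 := hθlip hx hy
        rw [hg']
        simp only
        rw [hθ'e x hx, hθ'e y hy]
        calc edist (ψ (h • θ x)) (ψ (h • θ y)) ≤ K * edist (h • θ x) (h • θ y) := h1
          _ ≤ K * (edist (θ x) (θ y) * (g (θ x) + g (θ y))) := by gcongr
          _ ≤ K * ((K * edist x y) * (g (θ x) + g (θ y))) := by gcongr
          _ = edist x y * (K * K * g (θ x) + K * K * g (θ y)) := by ring
      have hEn : ∫⁻ y in BB n, g' y ^ q < ∞ := by
        obtain ⟨c, hc⟩ := Pool.Agent.Y858.HS.vol_haus n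
        have hmap : (volume.restrict (BB n)).map θ' ≤
            ((c : ℝ≥0∞) * (K : ℝ≥0∞) ^ n) • (Measure.hausdorffMeasure (n : ℝ)).restrict C := by
          refine Measure.le_iff.2 fun A hA => ?_
          rw [Measure.map_apply hθ'm hA, Measure.restrict_apply (hθ'm hA), Measure.smul_apply,
            Measure.restrict_apply hA, smul_eq_mul]
          have hsub : θ' ⁻¹' A ∩ BB n ⊆ ψ '' (A ∩ C) := by
            rintro y ⟨hyA, hyB⟩
            refine ⟨θ y, ⟨?_, hC ▸ mem_image_of_mem θ hyB⟩, hψθ y hyB⟩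
            rw [← hθ'e y hyB]
            exact hyA
          have hh := (hlip.mono
            (inter_subset_right.trans hCU : A ∩ C ⊆ U)).hausdorffMeasure_image_le
            (d := (n : ℝ)) (Nat.cast_nonneg n)
          calc volume (θ' ⁻¹' A ∩ BB n) ≤ volume (ψ '' (A ∩ C)) := measure_mono hsub
            _ = c * Measure.hausdorffMeasure (n : ℝ) (ψ '' (A ∩ C)) := hc _
            _ ≤ c * ((K : ℝ≥0∞) ^ (n : ℝ) * Measure.hausdorffMeasure (n : ℝ) (A ∩ C)) := by
              gcongr
            _ = c * (K : ℝ≥0∞) ^ n * Measure.hausdorffMeasure (n : ℝ) (A ∩ C) := by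
              rw [ENNReal.rpow_natCast, mul_assoc]
        have h1 : ∫⁻ y in BB n, g (θ' y) ^ q < ∞ := by
          have h2 : ∫⁻ y in BB n, g (θ' y) ^ q =
              ∫⁻ x, g x ^ q ∂((volume.restrict (BB n)).map θ') :=
            (lintegral_map (hgm.pow_const q) hθ'm).symm
          rw [h2]
          refine lt_of_le_of_lt (lintegral_mono' hmap le_rfl) ?_
          rw [lintegral_smul_measure, smul_eq_mul]
          refine ENNReal.mul_lt_top ?_ hgE
          exact ENNReal.mul_lt_top ENNReal.coe_lt_top (ENNReal.pow_lt_top ENNReal.coe_lt_top)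
        have h3 : ∫⁻ y in BB n, g' y ^ q =
            ((K : ℝ≥0∞) * (K : ℝ≥0∞)) ^ q * ∫⁻ y in BB n, g (θ' y) ^ q := by
          rw [hg']
          have hm2 : Measurable (fun y => g (θ' y) ^ q) := (hgm.comp hθ'm).pow_const q
          rw [← lintegral_const_mul _ hm2]
          simp only [ENNReal.mul_rpow_of_nonneg _ _ hq0.le]
        rw [h3]
        exact ENNReal.mul_lt_top (ENNReal.rpow_lt_top_of_nonneg hq0.le
          (ENNReal.mul_lt_top ENNReal.coe_lt_top ENNReal.coe_lt_top).ne) h1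
      exact ⟨g', hg'm, hHaj, hEn⟩
  · intro h x hx _
    simp only
    rw [hθψ x hx]

end Pool.Agent.K1H66.HS
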