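import Pool.Agent.K1H66.HS.Chart2
import Pool.Agent.K1H66.HS.Tra
import Pool.Agent.R775.HC.C1

/-!
# Local regularity of exponent `n + 1` in bi-Lipschitz charts (helper66)

Adaptation of `Pool/Agent/R775/HC/C1.lean`.
-/

set_option autoImplicit false

open MeasureTheory Set Metric Filter Topology
open scoped ENNReal NNReal

noncomputable section

namespace Pool.Agent.K1H66.HS

open Pool.Agent.Y485.HS Pool.Agent.Y489.SP Pool.Agent.R775.HS Pool.Agent.R775.HC

/-- the map has small images of balls near the point, with the exponent `n + 1` -/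
def SmallAtM (n : ℕ) {X : Type} [MetricSpace X] (f : X → X) (x : X) : Prop :=
  ∃ W ∈ 𝓝 x, IsCompact W ∧ ∀ c : ℕ, ∃ N : ℕ, ∀ r : ℝ, 0 < r → r ≤ 1 → ∀ A : Finset X,
    (∀ a ∈ A, a ∈ W) → (∀ a ∈ A, ∀ b ∈ A, a ≠ b → r ≤ dist a b) →
    ∑ a ∈ A, Metric.diam (f '' (closedBall a (c * r) ∩ W)) ^ (n + 1) ≤
      N * r ^ (1 / (N : ℝ) - 1)

/-- the map is Hölder continuous near the point with an exponent larger than
`(n - 1) / (n + 1)` -/
def HolAt (n : ℕ) {X : Type} [MetricSpace X] (f : X → X) (x : X) : Prop :=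
  ∃ W ∈ 𝓝 x, ∃ α M : ℝ, ((n : ℝ) - 1) / (n + 1) < α ∧
    ∀ a ∈ W, ∀ b ∈ W, dist (f a) (f b) ≤ M * dist a b ^ α

/-- the map is regular near the point -/
def RegAt (n : ℕ) {X : Type} [MetricSpace X] [MeasurableSpace X] [BorelSpace X] (f : X → X)
    (x : X) : Prop := SobAt0 n f x ∨ SmallAtM n f x ∨ HolAt n f x

theorem enerM_succ {n : ℕ} {Q : Set (E n)} {r b : ℝ} {f : E n → E n} (h : Ener Q r b f)
    (h1 : ∀ v ∈ Q, ∀ w ∈ Q, dist (f v) (f w) ≤ 1) : EnerM (n + 1) Q r b f := by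
  intro A x y h2 h3
  refine le_trans (Finset.sum_le_sum fun a ha => ?_) (h A x y h2 h3)
  rw [pow_succ]
  calc dist (f (x a)) (f (y a)) ^ n * dist (f (x a)) (f (y a))
      ≤ dist (f (x a)) (f (y a)) ^ n * 1 := by
        refine mul_le_mul_of_nonneg_left ?_ (pow_nonneg dist_nonneg _)
        exact h1 _ (h2 a ha).2.1 _ (h2 a ha).2.2.1
    _ = _ := mul_one _

theorem enerM_at0 {n : ℕ} (hn : 2 ≤ n) {X : Type} [MetricSpace X] [MeasurableSpace X]
    [BorelSpace X] {φ : OpenPartialHomeomorph X (E n)} (hφ : φ ∈ BL n X) {G : Type} [Group G]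
    [MulAction G X] [ContinuousConstSMul G X] (g : G) {x : X} (hx : x ∈ φ.source)
    (hgx : g • x ∈ φ.source) (hS : SobAt0 n (fun x : X => g • x) x) :
    ∃ ρ : ℝ, 0 < ρ ∧ ∃ m : ℕ, ∀ j, m ≤ j → EnerM (n + 1) (closedBall (φ x) ρ) ((1 / 2) ^ j)
      (2 ^ j / (j + 1)) (fun v => φ (g • φ.symm v)) := by
  obtain ⟨ρ, hρ, m, hm⟩ := ener_at0 hn hφ g hx hgx hS
  have hv0 : φ x ∈ φ.target := φ.map_source hx
  have hleft : φ.symm (φ x) = x := φ.left_inv hx
  have e3 : ContinuousAt (fun v => φ (g • φ.symm v)) (φ x) := by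
    have f1 : ContinuousAt (fun v => g • φ.symm v) (φ x) := (φ.continuousAt_symm hv0).const_smul g
    refine ContinuousAt.comp (g := φ) (f := fun v => g • φ.symm v) ?_ f1
    simp only [hleft]
    exact φ.continuousAt hgx
  obtain ⟨ρ', hρ', hball⟩ := Metric.continuousAt_iff.1 e3 (1 / 2) (by norm_num)
  refine ⟨min ρ (ρ' / 2), lt_min hρ (by positivity), m, fun j hj => ?_⟩
  refine enerM_succ (ener_mono (closedBall_subset_closedBall (min_le_left _ _)) le_rfl (hm j hj)) ?_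
  have h1 : ∀ v ∈ closedBall (φ x) (min ρ (ρ' / 2)),
      dist (φ (g • φ.symm v)) (φ (g • φ.symm (φ x))) < 1 / 2 := by
    intro v hv
    refine hball ?_
    have h2 : dist v (φ x) ≤ min ρ (ρ' / 2) := hv
    have h3 := min_le_right ρ (ρ' / 2)
    linarith
  intro v hv w hw
  have h2 := h1 v hv
  have h3 := h1 w hw
  have h4 := dist_triangle_right (φ (g • φ.symm v)) (φ (g • φ.symm w)) (φ (g • φ.symm (φ x)))
  linarith

theorem enerM_hol {n : ℕ} (hn : 1 ≤ n) {α : ℝ} (hα : ((n : ℝ) - 1) / (n + 1) < α)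
    {Q : Set (E n)} {z : E n} (hQ : Q ⊆ closedBall z 3) {u : E n → E n} {M : ℝ} (hM : 0 ≤ M)
    (hu : ∀ x ∈ Q, ∀ y ∈ Q, dist (u x) (u y) ≤ M * dist x y ^ α) :
    ∃ m : ℕ, ∀ j, m ≤ j → EnerM (n + 1) Q ((1 / 2) ^ j) (2 ^ j / (j + 1)) u := by
  have hn0 : (0 : ℝ) < n := by exact_mod_cast hn
  have hn1 : (1 : ℝ) ≤ n := by exact_mod_cast hn
  have hα0 : 0 < α := lt_of_le_of_lt (div_nonneg (by linarith) (by linarith)) hα
  have hε : 0 < α * (n + 1) - n + 1 := by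
    rw [div_lt_iff₀ (by linarith)] at hα
    linarith
  set ε : ℝ := α * (n + 1) - n + 1 with hεdef
  set B : ℝ := 7 ^ n * (M * 2 ^ α) ^ (n + 1) with hB
  obtain ⟨m, hm⟩ := seq_bound B ε hε
  refine ⟨m, fun j hj => ?_⟩
  set r : ℝ := (1 / 2) ^ j with hrdef
  have hr : 0 < r := by positivity
  have hr1 : r ≤ 1 := pow_le_one₀ (by norm_num) (by norm_num)
  intro A x y hA hAs
  have hcard : (A.card : ℝ) ≤ 7 ^ n * r ^ (-(n : ℝ)) := by
    have h1 := Pool.Agent.Y662.SP.SOB.pack z hr (R := 3) (by norm_num) A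
      (fun a ha => by
        have := hQ (hA a ha).1
        rwa [mem_closedBall] at this) hAs
    refine h1.trans ?_
    have h2 : 2 * 3 / r + 1 ≤ 7 / r := by
      rw [div_add_one hr.ne']
      gcongr
      linarith
    calc (2 * 3 / r + 1) ^ n ≤ (7 / r) ^ n := pow_le_pow_left₀ (by positivity) h2 n
      _ = 7 ^ n * r ^ (-(n : ℝ)) := by
        rw [div_pow, Real.rpow_neg hr.le, Real.rpow_natCast, div_eq_mul_inv]
  have hD : ∀ a ∈ A, dist (u (x a)) (u (y a)) ^ (n + 1) ≤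
      (M * 2 ^ α) ^ (n + 1) * r ^ (α * (n + 1)) := by
    intro a ha
    obtain ⟨-, hx, hy, hxa, hya⟩ := hA a ha
    have h1 : dist (u (x a)) (u (y a)) ≤ M * (2 * r) ^ α := by
      refine (hu _ hx _ hy).trans ?_
      refine mul_le_mul_of_nonneg_left ?_ hM
      refine Real.rpow_le_rpow dist_nonneg ?_ hα0.le
      have h2 := dist_triangle_right (x a) (y a) a
      linarith
    calc dist (u (x a)) (u (y a)) ^ (n + 1)
        ≤ (M * (2 * r) ^ α) ^ (n + 1) := pow_le_pow_left₀ dist_nonneg h1 _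
      _ = (M * 2 ^ α) ^ (n + 1) * r ^ (α * (n + 1)) := by
        rw [Real.mul_rpow (by norm_num) hr.le, ← mul_assoc, mul_pow, Real.rpow_mul hr.le]
        congr 1
        rw [← Nat.cast_add_one, Real.rpow_natCast]
  calc ∑ a ∈ A, dist (u (x a)) (u (y a)) ^ (n + 1)
      ≤ ∑ _a ∈ A, (M * 2 ^ α) ^ (n + 1) * r ^ (α * (n + 1)) := Finset.sum_le_sum hD
    _ = A.card * ((M * 2 ^ α) ^ (n + 1) * r ^ (α * (n + 1))) := by
      rw [Finset.sum_const, nsmul_eq_mul]
    _ ≤ (7 ^ n * r ^ (-(n : ℝ))) * ((M * 2 ^ α) ^ (n + 1) * r ^ (α * (n + 1))) := by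
      gcongr
    _ = B * (r ^ (-(n : ℝ)) * r ^ (α * (n + 1))) := by rw [hB]; ring
    _ = B * r ^ (ε - 1) := by
      rw [← Real.rpow_add hr, hεdef]
      congr 2
      ring
    _ ≤ 2 ^ j / (j + 1) := hm j hj

theorem enerM_at2 {n : ℕ} (hn : 1 ≤ n) {X : Type} [MetricSpace X]
    {φ : OpenPartialHomeomorph X (E n)} (hφ : φ ∈ BL n X) {G : Type} [Group G]
    [MulAction G X] [ContinuousConstSMul G X] (g : G) {x : X} (hx : x ∈ φ.source)
    (hgx : g • x ∈ φ.source) (hS : HolAt n (fun x : X => g • x) x) :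
    ∃ ρ : ℝ, 0 < ρ ∧ ∃ m : ℕ, ∀ j, m ≤ j → EnerM (n + 1) (closedBall (φ x) ρ) ((1 / 2) ^ j)
      (2 ^ j / (j + 1)) (fun v => φ (g • φ.symm v)) := by
  obtain ⟨L, hbl⟩ := hφ
  obtain ⟨W, hW, α, M, hα, hWE⟩ := hS
  have hn1 : (1 : ℝ) ≤ n := by exact_mod_cast hn
  have hα0 : 0 < α := lt_of_le_of_lt (div_nonneg (by linarith) (by linarith)) hα
  obtain ⟨K, hK⟩ : ∃ K : ℝ, K = max L 1 := ⟨_, rfl⟩
  have hLK : L ≤ K := by rw [hK]; exact le_max_left _ _
  have hK1 : 1 ≤ K := by rw [hK]; exact le_max_right _ _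
  have hK0 : 0 < K := by linarith
  have hlip : ∀ a ∈ φ.source, ∀ b ∈ φ.source, dist (φ a) (φ b) ≤ K * dist a b :=
    fun a ha b hb => ((hbl a ha b hb).1).trans (mul_le_mul_of_nonneg_right hLK dist_nonneg)
  have hlip' : ∀ a ∈ φ.target, ∀ b ∈ φ.target, dist (φ.symm a) (φ.symm b) ≤ K * dist a b := by
    intro a ha b hb
    have h1 := (hbl _ (φ.map_target ha) _ (φ.map_target hb)).2
    rw [φ.right_inv ha, φ.right_inv hb] at h1
    exact h1.trans (mul_le_mul_of_nonneg_right hLK dist_nonneg)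
  have hv0 : φ x ∈ φ.target := φ.map_source hx
  have hct : ContinuousAt φ.symm (φ x) := φ.continuousAt_symm hv0
  have hleft : φ.symm (φ x) = x := φ.left_inv hx
  have hev : ∀ᶠ v in 𝓝 (φ x), v ∈ φ.target ∧ φ.symm v ∈ W ∧ g • φ.symm v ∈ φ.source := by
    have e1 : ∀ᶠ v in 𝓝 (φ x), v ∈ φ.target := φ.open_target.mem_nhds hv0
    have e2 : ∀ᶠ v in 𝓝 (φ x), φ.symm v ∈ W := hct.eventually_mem (by rw [hleft]; exact hW)
    have e3 : ContinuousAt (fun v => g • φ.symm v) (φ x) := hct.const_smul g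
    have e4 : ∀ᶠ v in 𝓝 (φ x), g • φ.symm v ∈ φ.source :=
      e3.eventually_mem (by simp only [hleft]; exact φ.open_source.mem_nhds hgx)
    exact e1.and (e2.and e4)
  obtain ⟨ρ, hρ, hball⟩ := (nhds_basis_closedBall.mem_iff).1 hev
  have hsub : closedBall (φ x) (min ρ 3) ⊆ closedBall (φ x) ρ :=
    closedBall_subset_closedBall (min_le_left _ _)
  obtain ⟨m, hm⟩ := enerM_hol hn hα (Q := closedBall (φ x) (min ρ 3)) (z := φ x)
    (closedBall_subset_closedBall (min_le_right _ _)) (u := fun v => φ (g • φ.symm v))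
    (M := K * (|M| * K ^ α)) (by positivity) (by
      intro v hv w hw
      obtain ⟨v1, v2, v3⟩ := hball (hsub hv)
      obtain ⟨w1, w2, w3⟩ := hball (hsub hw)
      calc dist (φ (g • φ.symm v)) (φ (g • φ.symm w))
          ≤ K * dist (g • φ.symm v) (g • φ.symm w) := hlip _ v3 _ w3
        _ ≤ K * (M * dist (φ.symm v) (φ.symm w) ^ α) := by
            gcongr
            exact hWE _ v2 _ w2
        _ ≤ K * (|M| * (K * dist v w) ^ α) := by
            have h1 : dist (φ.symm v) (φ.symm w) ^ α ≤ (K * dist v w) ^ α :=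
              Real.rpow_le_rpow dist_nonneg (hlip' v v1 w w1) hα0.le
            have h2 : 0 ≤ dist (φ.symm v) (φ.symm w) ^ α := by positivity
            have h3 : M * dist (φ.symm v) (φ.symm w) ^ α ≤
                |M| * dist (φ.symm v) (φ.symm w) ^ α :=
              mul_le_mul_of_nonneg_right (le_abs_self M) h2
            have h4 : |M| * dist (φ.symm v) (φ.symm w) ^ α ≤ |M| * (K * dist v w) ^ α :=
              mul_le_mul_of_nonneg_left h1 (abs_nonneg M)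
            exact mul_le_mul_of_nonneg_left (h3.trans h4) hK0.le
        _ = K * (|M| * K ^ α) * dist v w ^ α := by
            rw [Real.mul_rpow hK0.le dist_nonneg]
            ring)
  exact ⟨min ρ 3, lt_min hρ (by norm_num), m, hm⟩

theorem enerM_at1 {n : ℕ} {X : Type} [MetricSpace X]
    {φ : OpenPartialHomeomorph X (E n)} (hφ : φ ∈ BL n X) {G : Type} [Group G]
    [MulAction G X] [ContinuousConstSMul G X] (g : G) {x : X} (hx : x ∈ φ.source)
    (hgx : g • x ∈ φ.source) (hS : SmallAtM n (fun x : X => g • x) x) :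
    ∃ ρ : ℝ, 0 < ρ ∧ ∃ m : ℕ, ∀ j, m ≤ j → EnerM (n + 1) (closedBall (φ x) ρ) ((1 / 2) ^ j)
      (2 ^ j / (j + 1)) (fun v => φ (g • φ.symm v)) := by
  classical
  obtain ⟨L, hbl⟩ := hφ
  obtain ⟨W, hW, hWc, hWE⟩ := hS
  obtain ⟨K, hK⟩ : ∃ K : ℝ, K = max L 1 := ⟨_, rfl⟩
  have hLK : L ≤ K := by rw [hK]; exact le_max_left _ _
  have hK1 : 1 ≤ K := by rw [hK]; exact le_max_right _ _
  have hK0 : 0 < K := by linarith
  have hlip : ∀ a ∈ φ.source, ∀ b ∈ φ.source, dist (φ a) (φ b) ≤ K * dist a b :=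
    fun a ha b hb => ((hbl a ha b hb).1).trans (mul_le_mul_of_nonneg_right hLK dist_nonneg)
  have hlip' : ∀ a ∈ φ.target, ∀ b ∈ φ.target, dist (φ.symm a) (φ.symm b) ≤ K * dist a b := by
    intro a ha b hb
    have h1 := (hbl _ (φ.map_target ha) _ (φ.map_target hb)).2
    rw [φ.right_inv ha, φ.right_inv hb] at h1
    exact h1.trans (mul_le_mul_of_nonneg_right hLK dist_nonneg)
  have hv0 : φ x ∈ φ.target := φ.map_source hx
  have hct : ContinuousAt φ.symm (φ x) := φ.continuousAt_symm hv0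
  have hleft : φ.symm (φ x) = x := φ.left_inv hx
  have hev : ∀ᶠ v in 𝓝 (φ x), v ∈ φ.target ∧ φ.symm v ∈ W ∧ g • φ.symm v ∈ φ.source := by
    have e1 : ∀ᶠ v in 𝓝 (φ x), v ∈ φ.target := φ.open_target.mem_nhds hv0
    have e2 : ∀ᶠ v in 𝓝 (φ x), φ.symm v ∈ W := hct.eventually_mem (by rw [hleft]; exact hW)
    have e3 : ContinuousAt (fun v => g • φ.symm v) (φ x) := hct.const_smul g
    have e4 : ∀ᶠ v in 𝓝 (φ x), g • φ.symm v ∈ φ.source :=
      e3.eventually_mem (by simp only [hleft]; exact φ.open_source.mem_nhds hgx)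
    exact e1.and (e2.and e4)
  obtain ⟨ρ, hρ, hball⟩ := (nhds_basis_closedBall.mem_iff).1 hev
  have hbt : ∀ v ∈ closedBall (φ x) ρ, v ∈ φ.target := fun v hv => (hball hv).1
  obtain ⟨c, hc⟩ := exists_nat_ge (K ^ 2)
  obtain ⟨N, hN⟩ := hWE c
  have hinj : InjOn φ.symm (closedBall (φ x) ρ) := fun a ha b hb hab => by
    rw [← φ.right_inv (hbt a ha), hab, φ.right_inv (hbt b hb)]
  have hone : ∀ r : ℝ, 0 < r → r ≤ 1 → EnerM (n + 1) (closedBall (φ x) ρ) r
      (K ^ (n + 1) * (N * (r / K) ^ (1 / (N : ℝ) - 1))) (fun v => φ (g • φ.symm v)) := by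
    intro r hr0 hr1 A y z h1 hAs
    have hr' : 0 < r / K := by positivity
    have hr'1 : r / K ≤ 1 := by
      rw [div_le_one hK0]
      linarith
    have hmain := hN (r / K) hr' hr'1 (A.image φ.symm) (by
        intro a ha
        obtain ⟨a0, ha0, rfl⟩ := Finset.mem_image.1 ha
        exact (hball (h1 a0 ha0).1).2.1) (by
        intro a ha b hb hab
        obtain ⟨a0, ha0, rfl⟩ := Finset.mem_image.1 ha
        obtain ⟨b0, hb0, rfl⟩ := Finset.mem_image.1 hb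
        have hne : a0 ≠ b0 := fun h => hab (by rw [h])
        have h3 := hAs a0 ha0 b0 hb0 hne
        have h2 := hlip _ (φ.map_target (hbt _ (h1 a0 ha0).1)) _
          (φ.map_target (hbt _ (h1 b0 hb0).1))
        rw [φ.right_inv (hbt _ (h1 a0 ha0).1), φ.right_inv (hbt _ (h1 b0 hb0).1)] at h2
        rw [div_le_iff₀ hK0]
        linarith)
    rw [Finset.sum_image (fun a ha b hb hab => hinj (h1 a ha).1 (h1 b hb).1 hab)] at hmain
    have hterm : ∀ a ∈ A, dist (φ (g • φ.symm (y a))) (φ (g • φ.symm (z a))) ^ (n + 1) ≤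
        K ^ (n + 1) * Metric.diam ((fun x : X => g • x) ''
          (closedBall (φ.symm a) (c * (r / K)) ∩ W)) ^ (n + 1) := by
      intro a ha
      rw [← mul_pow]
      refine pow_le_pow_left₀ dist_nonneg ?_ (n + 1)
      obtain ⟨ha1, hy1, hz1, hy2, hz2⟩ := h1 a ha
      have hin : ∀ w ∈ closedBall (φ x) ρ, dist w a ≤ r →
          φ.symm w ∈ closedBall (φ.symm a) (c * (r / K)) ∩ W := by
        intro w hw hwa
        refine ⟨?_, (hball hw).2.1⟩
        rw [mem_closedBall]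
        calc dist (φ.symm w) (φ.symm a) ≤ K * dist w a := hlip' _ (hbt w hw) _ (hbt a ha1)
          _ ≤ K * r := by gcongr
          _ = K ^ 2 * (r / K) := by field_simp
          _ ≤ c * (r / K) := by gcongr
      have hbdd : Bornology.IsBounded ((fun x : X => g • x) ''
          (closedBall (φ.symm a) (c * (r / K)) ∩ W)) :=
        ((hWc.image (continuous_const_smul g)).isBounded).subset (image_mono inter_subset_right)
      calc dist (φ (g • φ.symm (y a))) (φ (g • φ.symm (z a)))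
          ≤ K * dist (g • φ.symm (y a)) (g • φ.symm (z a)) :=
            hlip _ (hball hy1).2.2 _ (hball hz1).2.2
        _ ≤ _ := by
          gcongr
          exact dist_le_diam_of_mem hbdd (mem_image_of_mem _ (hin _ hy1 hy2))
            (mem_image_of_mem _ (hin _ hz1 hz2))
    calc ∑ a ∈ A, dist (φ (g • φ.symm (y a))) (φ (g • φ.symm (z a))) ^ (n + 1)
        ≤ ∑ a ∈ A, K ^ (n + 1) * Metric.diam ((fun x : X => g • x) ''
          (closedBall (φ.symm a) (c * (r / K)) ∩ W)) ^ (n + 1) := Finset.sum_le_sum hterm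
      _ = K ^ (n + 1) * ∑ a ∈ A, Metric.diam ((fun x : X => g • x) ''
          (closedBall (φ.symm a) (c * (r / K)) ∩ W)) ^ (n + 1) := by rw [Finset.mul_sum]
      _ ≤ K ^ (n + 1) * (N * (r / K) ^ (1 / (N : ℝ) - 1)) := by gcongr
  set N' : ℕ := ⌈K ^ (n + 1 + 1) * N⌉₊ + 1 with hN'
  have hN'0 : (0 : ℝ) < (N' : ℝ) := by rw [hN']; positivity
  have hbd : ∀ r : ℝ, 0 < r → r ≤ 1 →
      K ^ (n + 1) * (N * (r / K) ^ (1 / (N : ℝ) - 1)) ≤ N' * r ^ (1 / (N' : ℝ) - 1) := by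
    intro r hr0 hr1
    refine (Pool.Agent.Y909.SP.const_aux K r hK1 hr0 hr1 (n + 1) N).trans ?_
    rcases Nat.eq_zero_or_pos ⌈K ^ (n + 1 + 1) * N⌉₊ with h0 | h0
    · rw [h0]
      simp only [Nat.cast_zero, zero_mul]
      positivity
    · have h0' : (0 : ℝ) < (⌈K ^ (n + 1 + 1) * N⌉₊ : ℝ) := by exact_mod_cast h0
      have h1 : (⌈K ^ (n + 1 + 1) * N⌉₊ : ℝ) ≤ (N' : ℝ) := by rw [hN']; push_cast; linarith
      have h2 : r ^ (1 / (⌈K ^ (n + 1 + 1) * N⌉₊ : ℝ) - 1) ≤ r ^ (1 / (N' : ℝ) - 1) := by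
        refine Real.rpow_le_rpow_of_exponent_ge hr0 hr1 ?_
        have := one_div_le_one_div_of_le h0' h1
        linarith
      have h3 : 0 ≤ r ^ (1 / (⌈K ^ (n + 1 + 1) * N⌉₊ : ℝ) - 1) := Real.rpow_nonneg hr0.le _
      exact mul_le_mul h1 h2 h3 hN'0.le
  obtain ⟨m, hm⟩ := seq_bound (N' : ℝ) (1 / (N' : ℝ)) (by positivity)
  refine ⟨ρ, hρ, m, fun j hj => ?_⟩
  have hj0 : (0 : ℝ) < (1 / 2) ^ j := by positivity
  have hj1 : ((1 : ℝ) / 2) ^ j ≤ 1 := pow_le_one₀ (by norm_num) (by norm_num)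
  exact enerM_mono subset_rfl ((hbd _ hj0 hj1).trans (hm j hj)) (hone _ hj0 hj1)


theorem enerM_at {n : ℕ} (hn : 2 ≤ n) {X : Type} [MetricSpace X] [MeasurableSpace X]
    [BorelSpace X] {φ : OpenPartialHomeomorph X (E n)} (hφ : φ ∈ BL n X) {G : Type} [Group G]
    [MulAction G X] [ContinuousConstSMul G X] (g : G) {x : X} (hx : x ∈ φ.source)
    (hgx : g • x ∈ φ.source) (hS : RegAt n (fun x : X => g • x) x) :
    ∃ ρ : ℝ, 0 < ρ ∧ ∃ m : ℕ, ∀ j, m ≤ j → EnerM (n + 1) (closedBall (φ x) ρ) ((1 / 2) ^ j)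
      (2 ^ j / (j + 1)) (fun v => φ (g • φ.symm v)) := by
  rcases hS with hS | hS | hS
  · exact enerM_at0 hn hφ g hx hgx hS
  · exact enerM_at1 hφ g hx hgx hS
  · exact enerM_at2 (by omega) hφ g hx hgx hS

end Pool.Agent.K1H66.HS
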