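import Pool.Agent.K1H66.HS.State

/-!
# The degree of a full rotation of the ray (helper66)
-/

set_option autoImplicit false

open MeasureTheory Set Metric Filter Topology
open scoped ENNReal NNReal ContDiff Real

noncomputable section

namespace Pool.Agent.K1H66.HS

open Pool.Agent.Y485.HS Pool.Agent.Y489.SP

variable {n : ℕ} {C : Ctx n}

/-- the exponential in the second variable -/
def pexp (n : ℕ) (s : ℝ) (z : E n × ℂ) : E n × ℂ :=
  (z.1, Complex.exp (2 * π * Complex.I * (s + z.2)))

theorem pexp_contDiff (s : ℝ) : ContDiff ℝ 1 (pexp n s) := by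
  refine ContDiff.prodMk contDiff_fst ?_
  refine Complex.contDiff_exp.comp ?_
  exact contDiff_const.mul (contDiff_const.add contDiff_snd)

theorem exp_ne (s u v : ℝ) : ex (s + u) v =
    Complex.exp (2 * π * Complex.I * (s + ((u : ℂ) + v * Complex.I))) := by
  unfold ex
  congr 1
  push_cast
  ring

theorem pexp_open (s : ℝ) : IsOpenMap (pexp n s) := by
  have h1 : IsOpenMap (fun w : ℂ => Complex.exp (2 * π * Complex.I * (s + w))) := by
    have h2 : IsOpenMap (fun w : ℂ => 2 * π * Complex.I * (s + w)) := by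
      have hc : (2 * π * Complex.I : ℂ) ≠ 0 := Complex.two_pi_I_ne_zero
      have h3 : IsOpenMap (fun w : ℂ => 2 * π * Complex.I * w) :=
        (Homeomorph.mulLeft₀ (2 * π * Complex.I : ℂ) hc).isOpenMap
      have h4 : IsOpenMap (fun w : ℂ => (s : ℂ) + w) := isOpenMap_add_left _
      exact h3.comp h4
    exact Complex.isOpenMap_exp.comp h2
  have h5 : pexp n s = Prod.map id (fun w : ℂ => Complex.exp (2 * π * Complex.I * (s + w))) := by
    funext z
    rfl
  rw [h5]
  exact IsOpenMap.id.prodMap h1

theorem pexp_inj (s : ℝ) : InjOn (pexp n s) (box n 0 1) := by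
  rintro z ⟨a1, a2, a3, a4⟩ w ⟨b1, b2, b3, b4⟩ h
  have h1 : (pexp n s z).1 = (pexp n s w).1 := by rw [h]
  have h2 : (pexp n s z).2 = (pexp n s w).2 := by rw [h]
  change z.1 = w.1 at h1
  change Complex.exp (2 * π * Complex.I * (s + z.2)) =
      Complex.exp (2 * π * Complex.I * (s + w.2)) at h2
  obtain ⟨k, hk⟩ := Complex.exp_eq_exp_iff_exists_int.1 h2
  have hc : (2 * π * Complex.I : ℂ) ≠ 0 := Complex.two_pi_I_ne_zero
  have h3 : z.2 = w.2 + k := by
    have h4 : (2 * π * Complex.I : ℂ) * (s + z.2) = (2 * π * Complex.I : ℂ) * (s + w.2 + k) := by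
      rw [hk]; ring
    have h5 := mul_left_cancel₀ hc h4
    have h6 : (s : ℂ) + z.2 = s + (w.2 + k) := by rw [h5]; ring
    exact add_left_cancel h6
  have h4 : z.2.re = w.2.re + k := by rw [h3]; simp
  have h5 : (k : ℝ) < 1 := by linarith
  have h6 : (-1 : ℝ) < k := by linarith
  have h7 : k = 0 := by
    have h8 : k < 1 := by exact_mod_cast h5
    have h9 : -1 < k := by exact_mod_cast h6
    omega
  rw [h7] at h3
  refine Prod.ext h1 ?_
  rw [h3]
  simp

theorem pexp_det (s : ℝ) (z : E n × ℂ) :
    0 ≤ LinearMap.det ((fderiv ℝ (pexp n s) z : E n × ℂ →L[ℝ] E n × ℂ) :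
      E n × ℂ →ₗ[ℝ] E n × ℂ) := by
  let c : ℂ := Complex.exp (2 * π * Complex.I * (s + z.2)) * (2 * π * Complex.I)
  have h1 : HasFDerivAt (pexp n s) ((ContinuousLinearMap.id ℝ (E n)).prodMap
      (ContinuousLinearMap.mul ℝ ℂ c)) z := by
    have h2 : HasDerivAt (fun w : ℂ => Complex.exp (2 * π * Complex.I * (s + w))) c z.2 := by
      have h3 : HasDerivAt (fun w : ℂ => 2 * π * Complex.I * ((s : ℂ) + w)) (2 * π * Complex.I) z.2 := by
        have h4 : HasDerivAt (fun w : ℂ => (s : ℂ) + w) 1 z.2 := (hasDerivAt_id z.2).const_add _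
        have h5 := h4.const_mul (2 * π * Complex.I : ℂ)
        rwa [mul_one] at h5
      exact h3.cexp
    have h6 : HasFDerivAt (fun w : ℂ => Complex.exp (2 * π * Complex.I * (s + w)))
        (ContinuousLinearMap.mul ℝ ℂ c) z.2 := by
      have h7 := h2.hasFDerivAt.restrictScalars ℝ
      refine h7.congr_fderiv ?_
      ext w
      simp [mul_comm]
    exact (hasFDerivAt_id z.1).prodMap z h6
  rw [h1.fderiv]
  have h2 : ((((ContinuousLinearMap.id ℝ (E n)).prodMap (ContinuousLinearMap.mul ℝ ℂ c) :
      E n × ℂ →L[ℝ] E n × ℂ)) : E n × ℂ →ₗ[ℝ] E n × ℂ) =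
      (LinearMap.id : E n →ₗ[ℝ] E n).prodMap (Algebra.lmul ℝ ℂ c) := by
    rfl
  rw [h2, LinearMap.det_prodMap, LinearMap.det_id, one_mul, ← Algebra.norm_apply,
    Algebra.norm_complex_apply]
  exact Complex.normSq_nonneg c

/-- a full rotation of the ray -/
theorem Rel.rot (S S' : St C) (ha : S'.a = S.a) (hb : S'.b = S.b) (hs : S'.s = S.s + 1)
    (hbd : ∀ x, ‖x‖ ≤ 2 → ‖S.b x‖ ≤ 3) : Rel S S' 1 := by
  let k : E n × ℂ → E n × ℂ := fun z => (S.a z.1 - C.y, S.b z.1 - z.2)
  have hk : Continuous k := by
    refine Continuous.prodMk ?_ ?_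
    · exact (S.ha.comp continuous_fst).sub continuous_const
    · exact (S.hb.comp continuous_fst).sub continuous_snd
  -- the large box
  let U' : Set (E n × ℂ) := ball 0 2 ×ˢ ball 0 (Real.exp (2 * π))
  have hU'o : IsOpen U' := isOpen_ball.prod isOpen_ball
  have hU'b : Bornology.IsBounded U' := isBounded_ball.prod isBounded_ball
  have hU'c : closure U' ⊆ closedBall 0 2 ×ˢ closedBall 0 (Real.exp (2 * π)) :=
    closure_minimal (prod_mono ball_subset_closedBall ball_subset_closedBall)
      (isClosed_closedBall.prod isClosed_closedBall)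
  have hexp : (4 : ℝ) < Real.exp (2 * π) := by
    have h1 : (6 : ℝ) < 2 * π := by linarith [Real.pi_gt_three]
    have h2 := Real.add_one_le_exp (2 * π)
    linarith
  have hU'f : ∀ z ∈ frontier U', ‖z.1‖ ≤ 2 ∧ (‖z.1‖ = 2 ∨ ‖z.2‖ = Real.exp (2 * π)) := by
    intro z hz
    rw [hU'o.frontier_eq] at hz
    obtain ⟨h1, h2⟩ := hz
    obtain ⟨h3, h4⟩ := hU'c h1
    rw [mem_closedBall, dist_zero_right] at h3 h4
    refine ⟨h3, ?_⟩
    by_contra hcon
    push Not at hcon
    apply h2
    refine ⟨?_, ?_⟩
    · rw [mem_ball, dist_zero_right]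
      exact lt_of_le_of_ne h3 hcon.1
    · rw [mem_ball, dist_zero_right]
      exact lt_of_le_of_ne h4 hcon.2
  -- displacement of `a`
  have hda : ∀ x, ‖x‖ ≤ 2 → ‖S.a x - x‖ ≤ 3 / 8 := by
    intro x hx
    have h1 := S.hcl x (by linarith)
    have h2 := C.hFd x
    have h3 := dist_triangle (S.a x) (C.F x) x
    rw [← dist_eq_norm]
    linarith [C.hρ]
  -- degree of `k` on the large box
  have hk1 : DV k U' 1 := by
    have h0 : DV (fun z : E n × ℂ => z) U' 1 := by
      refine DV.id hU'o hU'b ⟨?_, ?_⟩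
      · show (0 : E n × ℂ).1 ∈ ball 0 2
        simp
      · show (0 : E n × ℂ).2 ∈ ball 0 (Real.exp (2 * π))
        simp [Real.exp_pos]
    have h1 : DV (fun z : E n × ℂ => (S.a z.1 - C.y, z.2 - S.b z.1)) U' 1 := by
      have key := DV.homotopy (H := fun t z =>
        (z.1 + t • (S.a z.1 - C.y - z.1), z.2 - (t : ℂ) * S.b z.1)) ?_ hU'o hU'b ?_ (d := 1) ?_
      · simpa using key
      · refine Continuous.prodMk ?_ ?_
        · refine (continuous_fst.comp continuous_snd).add (continuous_fst.smul ?_)
          exact ((S.ha.comp (continuous_fst.comp continuous_snd)).sub continuous_const).sub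
            (continuous_fst.comp continuous_snd)
        · refine (continuous_snd.comp continuous_snd).sub ?_
          exact (Complex.continuous_ofReal.comp continuous_fst).mul
            (S.hb.comp (continuous_fst.comp continuous_snd))
      · intro t ht z hz h2
        obtain ⟨h3, h4⟩ := hU'f z hz
        have e1 : z.1 + t • (S.a z.1 - C.y - z.1) = 0 := congrArg Prod.fst h2
        have e2 : z.2 - (t : ℂ) * S.b z.1 = 0 := congrArg Prod.snd h2
        rcases h4 with h4 | h4
        · have e3 : z.1 = -(t • (S.a z.1 - C.y - z.1)) := eq_neg_of_add_eq_zero_left e1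
          have e4 : ‖z.1‖ ≤ t * (3 / 8 + 1) := by
            rw [e3, norm_neg, norm_smul, Real.norm_of_nonneg ht.1]
            refine mul_le_mul_of_nonneg_left ?_ ht.1
            have e5 : S.a z.1 - C.y - z.1 = (S.a z.1 - z.1) - C.y := by abel
            rw [e5]
            exact (norm_sub_le _ _).trans (add_le_add (hda _ h3) C.hy.le)
          have e6 : t * (3 / 8 + 1) ≤ 1 * (3 / 8 + 1) := by
            exact mul_le_mul_of_nonneg_right ht.2 (by norm_num)
          linarith
        · have e3 : z.2 = (t : ℂ) * S.b z.1 := sub_eq_zero.1 e2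
          have e4 : ‖z.2‖ ≤ 1 * 3 := by
            rw [e3, norm_mul, Complex.norm_real, Real.norm_of_nonneg ht.1]
            exact mul_le_mul ht.2 (hbd _ h3) (norm_nonneg _) zero_le_one
          linarith
      · simpa using h0
    have key := DV.homotopy (H := fun t z =>
        (S.a z.1 - C.y, Complex.exp ((t : ℂ) * (π * Complex.I)) * (z.2 - S.b z.1)))
        ?_ hU'o hU'b ?_ (d := 1) ?_
    · have e : (fun z : E n × ℂ => (S.a z.1 - C.y,
          Complex.exp (((1 : ℝ) : ℂ) * (π * Complex.I)) * (z.2 - S.b z.1))) = k := by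
        funext z
        show (_, _) = (_, _)
        rw [Complex.ofReal_one, one_mul, Complex.exp_pi_mul_I]
        congr 1
        ring
      rw [← e]
      exact key
    · refine Continuous.prodMk ?_ ?_
      · exact (S.ha.comp (continuous_fst.comp continuous_snd)).sub continuous_const
      · refine Continuous.mul ?_ ?_
        · exact Complex.continuous_exp.comp
            ((Complex.continuous_ofReal.comp continuous_fst).mul continuous_const)
        · exact (continuous_snd.comp continuous_snd).sub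
            (S.hb.comp (continuous_fst.comp continuous_snd))
    · intro t ht z hz h2
      obtain ⟨h3, h4⟩ := hU'f z hz
      have e1 : S.a z.1 - C.y = 0 := congrArg Prod.fst h2
      have e2 : Complex.exp ((t : ℂ) * (π * Complex.I)) * (z.2 - S.b z.1) = 0 :=
        congrArg Prod.snd h2
      rcases h4 with h4 | h4
      · have e3 := hda _ h3
        rw [sub_eq_zero] at e1
        rw [e1] at e3
        have e4 : ‖z.1‖ ≤ ‖C.y‖ + ‖C.y - z.1‖ := by
          have := norm_sub_le C.y (C.y - z.1)
          rwa [sub_sub_cancel] at this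
        linarith [C.hy]
      · have e3 : z.2 - S.b z.1 = 0 := by
          rcases mul_eq_zero.1 e2 with h5 | h5
          · exact absurd h5 (Complex.exp_ne_zero _)
          · exact h5
        rw [sub_eq_zero] at e3
        have e4 := hbd _ h3
        rw [← e3, h4] at e4
        linarith
    · have e : (fun z : E n × ℂ => (S.a z.1 - C.y,
          Complex.exp (((0 : ℝ) : ℂ) * (π * Complex.I)) * (z.2 - S.b z.1))) =
          fun z : E n × ℂ => (S.a z.1 - C.y, z.2 - S.b z.1) := by
        funext z
        rw [Complex.ofReal_zero, zero_mul, Complex.exp_zero, one_mul]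
      show DV (fun z : E n × ℂ => (S.a z.1 - C.y,
          Complex.exp (((0 : ℝ) : ℂ) * (π * Complex.I)) * (z.2 - S.b z.1))) U' 1
      rw [e]
      exact h1
  -- the zeros of `k`
  have hk0 : ∀ z : E n × ℂ, ‖z.1‖ ≤ 2 → k z = 0 → ‖z.1‖ < 2 ∧ 5 / 8 ≤ ‖z.2‖ ∧ ‖z.2‖ ≤ 11 / 8 ∧
      z.2 = S.b z.1 ∧ S.a z.1 = C.y := by
    intro z hz h0
    have e1 : S.a z.1 - C.y = 0 := congrArg Prod.fst h0
    have e2 : S.b z.1 - z.2 = 0 := congrArg Prod.snd h0
    rw [sub_eq_zero] at e1 e2
    have hw : Wt ((fun _ : ℝ => (1 : ℝ)) z.2.re) ((fun _ : ℝ => (0 : ℝ)) z.2.re)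
        ((fun _ : ℝ => (0 : ℝ)) z.2.re) := ⟨zero_le_one, le_rfl, le_rfl, by norm_num⟩
    have h1 := zero_near (S0 := S) (S1 := S) (S2 := S) (l0 := fun _ => 1) (l1 := fun _ => 0)
      (l2 := fun _ => 0) (z := z) hw (by linarith) (by
        unfold pfc
        simp only [one_smul, zero_smul, add_zero]
        rw [e1, sub_self])
    simp only [one_smul, zero_smul, add_zero] at h1
    obtain ⟨g1, g2, g3, g4, g5⟩ := h1
    rw [e2] at g4 g5
    exact ⟨by linarith, g4, g5, e2.symm, e1⟩
  -- the image of the box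
  have himgo : IsOpen (pexp n S.s '' box n 0 1) := pexp_open S.s _ (box_open 0 1)
  have himgU : pexp n S.s '' box n 0 1 ⊆ U' := by
    rintro _ ⟨z, ⟨a1, a2, a3, a4⟩, rfl⟩
    refine ⟨?_, ?_⟩
    · show z.1 ∈ ball 0 2
      rw [mem_ball, dist_zero_right]
      exact a1
    · show Complex.exp (2 * π * Complex.I * (S.s + z.2)) ∈ ball 0 (Real.exp (2 * π))
      rw [mem_ball, dist_zero_right, Complex.norm_exp]
      apply Real.exp_lt_exp.2
      have e1 : (2 * π * Complex.I * (S.s + z.2) : ℂ).re = -(2 * π * z.2.im) := by simp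
      rw [e1]
      have e2 := (abs_lt.1 a4).1
      have e3 : 0 < 2 * π := by positivity
      nlinarith
  have hzero : ∀ z ∈ closure U', z ∉ pexp n S.s '' box n 0 1 → k z ≠ 0 := by
    intro z hz hz' h0
    obtain ⟨h3, -⟩ := hU'c hz
    rw [mem_closedBall, dist_zero_right] at h3
    obtain ⟨g1, g2, g3, g4, g5⟩ := hk0 z h3 h0
    apply hz'
    have hz20 : z.2 ≠ 0 := by
      intro h
      rw [h, norm_zero] at g2
      linarith
    -- the logarithm
    set m : ℂ := -(z.2 * Complex.exp (-(2 * π * Complex.I * S.s))) with hm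
    have hm0 : m ≠ 0 := by
      rw [hm]
      exact neg_ne_zero.2 (mul_ne_zero hz20 (Complex.exp_ne_zero _))
    have hmn : ‖m‖ = ‖z.2‖ := by
      rw [hm, norm_neg, norm_mul, Complex.norm_exp]
      have : (-(2 * π * Complex.I * S.s) : ℂ).re = 0 := by simp
      rw [this, Real.exp_zero, mul_one]
    have hlog := Complex.exp_log hm0
    have hpi := Real.pi_pos
    have hnorm : |Real.log ‖m‖| < 2 * π := by
      rw [hmn, abs_lt]
      have h6 : (6 : ℝ) < 2 * π := by linarith [Real.pi_gt_three]
      constructor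
      · have h7 : Real.log (5 / 8) ≤ Real.log ‖z.2‖ := Real.log_le_log (by norm_num) g2
        have h8 : -1 ≤ Real.log (5 / 8) := by
          have h9 := Real.one_sub_inv_le_log_of_pos (show (0 : ℝ) < 5 / 8 by norm_num)
          norm_num at h9
          linarith
        linarith
      · have h7 : Real.log ‖z.2‖ ≤ Real.log (11 / 8) := Real.log_le_log (by linarith) g3
        have h8 : Real.log (11 / 8) ≤ 11 / 8 - 1 := Real.log_le_sub_one_of_pos (by norm_num)
        linarith
    let ζ : ℂ := ⟨(Complex.arg m + π) / (2 * π), -(Real.log ‖m‖) / (2 * π)⟩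
    have hζ : 2 * π * Complex.I * ζ = Complex.log m + π * Complex.I := by
      apply Complex.ext
      · simp only [Complex.mul_re, Complex.mul_im, Complex.add_re, Complex.log_re,
          Complex.ofReal_re, Complex.ofReal_im, Complex.I_re, Complex.I_im, ζ]
        simp
        field_simp
      · simp only [Complex.mul_re, Complex.mul_im, Complex.add_im, Complex.log_im,
          Complex.ofReal_re, Complex.ofReal_im, Complex.I_re, Complex.I_im, ζ]
        simp
        field_simp
    have hexpζ : Complex.exp (2 * π * Complex.I * (S.s + ζ)) = z.2 := by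
      have e1 : 2 * π * Complex.I * (S.s + ζ) =
          2 * π * Complex.I * S.s + (Complex.log m + π * Complex.I) := by rw [← hζ]; ring
      rw [e1, Complex.exp_add, Complex.exp_add, hlog, Complex.exp_pi_mul_I, hm]
      have e2 : Complex.exp (2 * π * Complex.I * S.s) * Complex.exp (-(2 * π * Complex.I * S.s)) = 1 := by
        rw [← Complex.exp_add, add_neg_cancel, Complex.exp_zero]
      calc Complex.exp (2 * π * Complex.I * S.s) *
            (-(z.2 * Complex.exp (-(2 * π * Complex.I * S.s))) * -1)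
          = z.2 * (Complex.exp (2 * π * Complex.I * S.s) *
            Complex.exp (-(2 * π * Complex.I * S.s))) := by ring
        _ = z.2 := by rw [e2, mul_one]
    have hargne : Complex.arg m ≠ π := by
      intro harg
      -- then `z.2` is on the ray
      have h7 : ζ.re = 1 := by
        show (Complex.arg m + π) / (2 * π) = 1
        rw [harg]
        field_simp
        ring
      have hv : |ζ.im| ≤ 1 := by
        show |-(Real.log ‖m‖) / (2 * π)| ≤ 1
        rw [abs_div, abs_neg, abs_of_pos (by positivity : (0 : ℝ) < 2 * π),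
          div_le_one (by positivity)]
        exact hnorm.le
      refine S.hadm z.1 (by linarith) ζ.im hv g5 ?_
      rw [← g4, ← hexpζ]
      have h8 : (ζ : ℂ) = 1 + ζ.im * Complex.I := by
        apply Complex.ext
        · simp [h7]
        · simp
      unfold ex
      rw [Complex.exp_eq_exp_iff_exists_int]
      refine ⟨1, ?_⟩
      rw [h8]
      simp
      ring
    have hre : 0 < ζ.re ∧ ζ.re < 1 := by
      have h7 := Complex.neg_pi_lt_arg m
      have h8 := lt_of_le_of_ne (Complex.arg_le_pi m) hargne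
      constructor
      · show 0 < (Complex.arg m + π) / (2 * π)
        apply div_pos <;> linarith
      · show (Complex.arg m + π) / (2 * π) < 1
        rw [div_lt_one (by positivity)]
        linarith
    have him : |ζ.im| < 1 := by
      show |-(Real.log ‖m‖) / (2 * π)| < 1
      rw [abs_div, abs_neg, abs_of_pos (by positivity : (0 : ℝ) < 2 * π),
        div_lt_one (by positivity)]
      exact hnorm
    refine ⟨(z.1, ζ), ⟨g1, hre.1, hre.2, him⟩, ?_⟩
    exact Prod.ext rfl hexpζ
  have hk2 : DV k (pexp n S.s '' box n 0 1) 1 :=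
    DV.excise' hk hU'b himgo hU'o himgU hzero hk1
  -- the function on the frontier of the box
  have hcong : ∀ z ∈ cbox n 0 1, pfc S S' S' (fun u => 1 - cl u) cl (fun _ => 0) z =
      k (pexp n S.s z) := by
    rintro z ⟨a1, a2, a3, a4⟩
    unfold pfc pexp
    simp only [cl_id a2 a3, zero_smul, zero_mul, add_zero, ha, hb, hs, k]
    rw [← add_smul, ← add_smul, sub_add_cancel, one_smul, one_smul]
    have e1 : (1 - z.2.re) * S.s + z.2.re * (S.s + 1) = S.s + z.2.re := by ring
    rw [e1, exp_ne, Complex.re_add_im]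
  have hne : ∀ z ∈ frontier (box n 0 1), k (pexp n S.s z) ≠ 0 := by
    intro z hz
    obtain ⟨hz1, hz'⟩ := frontier_box hz
    rw [← hcong z hz1]
    obtain ⟨c1, c2, c3, c4⟩ := hz1
    rcases hz' with h1 | h1 | h1 | h1
    · exact ne_edge (wt_seg _) (by linarith) (Or.inl h1)
    · exact ne_edge (wt_seg _) (by linarith) (Or.inr h1)
    · refine ne_vertex (Or.inl ?_) (by linarith) c4
      have := cl_zero h1.le
      exact ⟨by rw [this]; ring, this, rfl⟩
    · refine ne_vertex (Or.inr (Or.inl ?_)) (by linarith) c4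
      have := cl_one h1.ge
      exact ⟨by rw [this]; ring, this, rfl⟩
  have h3 : DV (fun z => k (pexp n S.s z)) (box n 0 1) 1 :=
    DV.comp_smooth hk (pexp_contDiff S.s) (box_open 0 1) (box_bdd 0 1) (pexp_inj S.s)
      (fun z _ => pexp_det S.s z) hne hk2
  exact DV.congr (hk.comp (pexp_contDiff S.s).continuous)
    (pfc_cont S S' S' cl_cont' cl_cont continuous_const) (box_open 0 1) (box_bdd 0 1) hne
    (fun z hz => hcong z (frontier_box hz).1) h3

end Pool.Agent.K1H66.HS
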