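import Pool.Agent.K1H66.HS.Coset2
import Pool.Agent.K1H66.HS.Reg2
import Pool.Agent.K1H61.NW.Main

/-!
# Powers which are somewhere regular (helper66)

The Baire argument follows `Pool/Agent/K1H61/NW/Irr.lean` (helper61) and
`Pool/Agent/R775/HS/Some.lean`.
-/

set_option autoImplicit false

open MeasureTheory Set Metric Filter Topology TopologicalSpace
open scoped ENNReal NNReal

noncomputable section

namespace Pool.Agent.K1H66.HS

open Pool.Agent.Y485.HS Pool.Agent.Y489.SP
open Pool.Agent.R775.HS (Small Stable RegA start' SmallPow smallPow_of_hom locAct_of_small)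
open Pool.Agent.K1H61.NW (comm_of_closure open_closure_pow pow_mem_closure fixed_ball
  tendsto_of_closure)
open Pool.Agent.W660.GY (NSS GY3)

section
variable {n : ℕ} {X : Type} [TopologicalSpace X]

/-- the transformation `s` is somewhere regular, for one of the countably many pairs of sequences -/
def SomeReg (Ψ : ℕ → OpenPartialHomeomorph X (E n)) (r b : ℕ → ℕ → ℝ) {S : Type} [SMul S X]
    (s : S) : Prop :=
  ∃ (i i' l : ℕ) (W : Set X), IsOpen W ∧ W.Nonempty ∧ W ⊆ (Ψ i).source ∧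
    (∀ x ∈ W, s • x ∈ (Ψ i').source) ∧ ∃ m : ℕ, ∀ j, m ≤ j →
      EnerM (n + 1) (Ψ i '' W) (r l j) (b l j) (fun v => Ψ i' (s • (Ψ i).symm v))

/-- the theorem for a procyclic group -/
theorem some_procyclic [T2Space X] (Ψ : ℕ → OpenPartialHomeomorph X (E n))
    {S : Type} [Group S] [TopologicalSpace S] [IsTopologicalGroup S] [CompactSpace S] [T2Space S]
    [TotallyDisconnectedSpace S] [MulAction S X] [ContinuousSMul S X] {p : ℕ} (hp : p.Prime)
    {k : S} (hgen : (Subgroup.zpowers k).topologicalClosure = ⊤)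
    (hk : Tendsto (fun j : ℕ => k ^ p ^ j) atTop (𝓝 1)) {r b : ℕ → ℕ → ℝ}
    (hr : ∀ l j, 0 < r l j) (hrb : ∀ l, Tendsto (fun j => r l j * b l j) atTop (𝓝 0))
    (hreg : ∀ s : S, ∃ m : ℕ, 0 < m ∧ SomeReg Ψ r b (s ^ m)) :
    ∃ K1 : Subgroup S, IsOpen (K1 : Set S) ∧ ∃ (i : ℕ) (W : Set X), IsOpen W ∧ W.Nonempty ∧
      W ⊆ (Ψ i).source ∧ ∀ c ∈ K1, ∀ x ∈ W, c • x = x := by
  have hcomm : ∀ s : S, Commute s k := fun s =>
    comm_of_closure (by rw [hgen]; exact Subgroup.mem_top s)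
  have hcount : (countableBasis (E n)).Countable := countable_countableBasis (E n)
  have : Countable (countableBasis (E n)) := hcount.to_subtype
  let f : (countableBasis (E n)) × (countableBasis (E n)) × ℕ × ℕ × ℕ × ℕ × ℕ → Set S := fun q =>
    (fun s : S => s ^ (q.2.2.2.2.2.2 + 1)) ⁻¹'
      DsetM (Ψ q.2.2.1) (Ψ q.2.2.2.1) (r q.2.2.2.2.1) (b q.2.2.2.2.1) q.1 q.2.1 q.2.2.2.2.2.1
  have hU : ⋃ q, f q = univ := by
    ext s
    simp only [mem_iUnion, mem_univ, iff_true]
    obtain ⟨M, hM, i, i', l, W, hWo, ⟨x0, hx0⟩, hWs, hsW, m, hE⟩ := hreg s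
    obtain ⟨B, hB, B', hB', -, h⟩ := exists_DsetM (Ψ i) (Ψ i') hWo hx0 hWs hsW hE
    refine ⟨(⟨B, hB⟩, ⟨B', hB'⟩, i, i', l, m, M - 1), ?_⟩
    show s ^ (M - 1 + 1) ∈ DsetM (Ψ i) (Ψ i') (r l) (b l) B B' m
    rw [show M - 1 + 1 = M by omega]
    exact h
  obtain ⟨⟨⟨B, hB⟩, ⟨B', hB'⟩, i0, i1, l, m', m⟩, s0, hs0⟩ :=
    nonempty_interior_of_iUnion_of_closed (f := f)
      (fun q => (isClosed_DsetM _ _ _ _ _ _ _).preimage (continuous_pow _)) hU
  have hopen : IsOpen ((fun c : S => s0 * c) ⁻¹'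
      (interior (f (⟨B, hB⟩, ⟨B', hB'⟩, i0, i1, l, m', m)))) :=
    isOpen_interior.preimage (continuous_const.mul continuous_id)
  obtain ⟨M, hM⟩ := ProfiniteGrp.exist_openNormalSubgroup_sub_open_nhds_of_one hopen (by
    rw [mem_preimage, mul_one]; exact hs0)
  have hf : ∀ c ∈ M.toSubgroup, (s0 * c) ^ (m + 1) ∈
      DsetM (Ψ i0) (Ψ i1) (r l) (b l) B B' m' := fun c hc => by
    have h1 : s0 * c ∈ f (⟨B, hB⟩, ⟨B', hB'⟩, i0, i1, l, m', m) := interior_subset (hM hc)
    exact h1
  obtain ⟨⟨-, -, hc3, hc4, -⟩, -, -⟩ := hf 1 M.toSubgroup.one_mem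
  obtain ⟨v1, hv1⟩ := hc4
  obtain ⟨a, ha⟩ := (hk.eventually (M.isOpen'.mem_nhds M.toSubgroup.one_mem)).exists
  have ha' : k ^ p ^ a ∈ M.toSubgroup := ha
  have hKo : IsOpen ((Subgroup.zpowers (k ^ (p ^ a * (m + 1)))).topologicalClosure : Set S) :=
    open_closure_pow hgen (Nat.mul_pos (pow_pos hp.pos a) (Nat.succ_pos m))
  have hD : ∀ c ∈ (Subgroup.zpowers (k ^ (p ^ a * (m + 1)))).topologicalClosure,
      s0 ^ (m + 1) * c ∈ DsetM (Ψ i0) (Ψ i1) (r l) (b l) B B' m' := by
    have hcl : IsClosed {c : S | s0 ^ (m + 1) * c ∈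
        DsetM (Ψ i0) (Ψ i1) (r l) (b l) B B' m'} :=
      (isClosed_DsetM _ _ _ _ _ _ _).preimage (continuous_const.mul continuous_id)
    intro c hc
    refine closure_minimal ?_ hcl hc
    intro c hc
    obtain ⟨z, rfl⟩ := Subgroup.mem_zpowers_iff.1 hc
    have h1 : s0 ^ (m + 1) * (k ^ (p ^ a * (m + 1))) ^ z = (s0 * (k ^ p ^ a) ^ z) ^ (m + 1) := by
      have h2 : Commute s0 ((k ^ p ^ a) ^ z) := ((hcomm s0).pow_right _).zpow_right _
      have h3 : (k ^ (p ^ a * (m + 1))) ^ z = ((k ^ p ^ a) ^ z) ^ (m + 1) := by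
        obtain ⟨u, hu⟩ : ∃ u : S, u = k ^ p ^ a := ⟨_, rfl⟩
        rw [pow_mul, ← hu, ← zpow_natCast, ← zpow_natCast, ← zpow_mul, ← zpow_mul, mul_comm]
      rw [h2.mul_pow, h3]
    rw [mem_ofPred_eq, h1]
    exact hf _ (Subgroup.zpow_mem _ ha' z)
  obtain ⟨K1, hK1o, hK1t⟩ := coset_trivM (hr l) (hrb l) hKo hD hv1
  obtain ⟨W, hW, hWo, hxW⟩ := eventually_nhds_iff.1 hK1t
  exact ⟨K1, hK1o, i0, W ∩ (Ψ i0).source, hWo.inter (Ψ i0).open_source,
    ⟨_, hxW, (Ψ i0).map_target (hc3 hv1)⟩, inter_subset_right,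
    fun c hc x hx => hW x hx.1 c hc⟩

/-- The Hilbert-Smith conjecture for locally effective actions, if every small element of
`p`-power type has a power which is somewhere regular. -/
theorem lie_some2 (hn : 1 ≤ n) [T2Space X] (Ψ : ℕ → OpenPartialHomeomorph X (E n))
    {G : Type} [Group G] [TopologicalSpace G] [IsTopologicalGroup G] [LocallyCompactSpace G]
    [T2Space G] [MulAction G X] [ContinuousSMul G X] {V : Set G} (hV : V ∈ 𝓝 (1 : G))
    (hLE : ∀ g, SmallPow V g → ∀ (i : ℕ) (W : Set X), IsOpen W → W.Nonempty → W ⊆ (Ψ i).source →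
      (∀ x ∈ W, g • x = x) → g = 1)
    {r b : ℕ → ℕ → ℝ} (hr : ∀ l j, 0 < r l j)
    (hrb : ∀ l, Tendsto (fun j => r l j * b l j) atTop (𝓝 0))
    (hreg : ∀ g : G, SmallPow V g →
      (∃ p : ℕ, p.Prime ∧ Tendsto (fun j : ℕ => g ^ p ^ j) atTop (𝓝 1)) →
      ∃ m : ℕ, 0 < m ∧ SomeReg Ψ r b (g ^ m)) : IsLie G := by
  have hN : NSS G := by
    refine nss_of_Z V hV ?_
    intro S _ _ _ _ _ _ i hi hinj hiV
    let _ : MulAction S X := MulAction.compHom X i
    have hact : ∀ (s : S) (x : X), s • x = i s • x := fun _ _ => rfl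
    have _ : ContinuousSMul S X := ⟨by
      have h : Continuous (fun q : S × X => i q.1 • q.2) := by fun_prop
      exact h⟩
    have hLES : ∀ (s : S) (l : ℕ) (W : Set X), IsOpen W → W.Nonempty → W ⊆ (Ψ l).source →
        (∀ x ∈ W, s • x = x) → s = 1 := by
      intro s l W hWo hWn hWs hs
      apply hinj
      rw [map_one]
      exact hLE (i s) (smallPow_of_hom i hi hiV s) l W hWo hWn hWs hs
    have hregS : ∀ p : ℕ, p.Prime → ∀ s : S, Tendsto (fun j : ℕ => s ^ p ^ j) atTop (𝓝 1) →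
        ∃ m : ℕ, 0 < m ∧ SomeReg Ψ r b (s ^ m) := by
      intro p hp s hs
      have hs' : Tendsto (fun j : ℕ => (i s) ^ p ^ j) atTop (𝓝 1) := by
        have h1 := (hi.tendsto 1).comp hs
        simpa [Function.comp_def] using h1
      obtain ⟨m, hm, h⟩ := hreg (i s) (smallPow_of_hom i hi hiV s) ⟨p, hp, hs'⟩
      refine ⟨m, hm, ?_⟩
      unfold SomeReg at h ⊢
      simp only [hact, map_pow]
      exact h
    -- a chart
    obtain ⟨i0, x0, hx0⟩ : ∃ (i0 : ℕ) (x0 : X), x0 ∈ (Ψ i0).source := by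
      obtain ⟨m, -, i, i', l, W, hWo, ⟨x, hx⟩, hWs, -⟩ := hregS 2 Nat.prime_two 1 (by simp)
      exact ⟨i, x, hWs hx⟩
    have hst : Stable n (univ : Set (OpenPartialHomeomorph X (E n))) := fun _ _ _ _ => mem_univ _
    obtain ⟨φ, -, hx0φ, hφ0, H0, hH0o, hH0s⟩ := start' hst (H := S) (x0 := x0)
      ⟨Ψ i0, mem_univ _, hx0⟩
    have hLA := locAct_of_small H0 hH0s
    have hb4 : ball (0 : E n) 1 ⊆ closedBall 0 4 :=
      ball_subset_closedBall.trans (closedBall_subset_closedBall (by norm_num))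
    have htor : ∀ q ∈ H0, ∀ r : ℕ, r.Prime → q ^ r = 1 → q = 1 := by
      intro q hq r hr hqr
      have h1 := fixed_ball hn hr hLA (g := ⟨q, hq⟩) (Subtype.ext hqr)
      refine hLES q i0 ((φ.source ∩ φ ⁻¹' ball 0 1) ∩ (Ψ i0).source)
        ((φ.isOpen_inter_preimage isOpen_ball).inter (Ψ i0).open_source)
        ⟨x0, ⟨hx0φ, show φ x0 ∈ ball (0 : E n) 1 by rw [hφ0]; simp⟩, hx0⟩ inter_subset_right ?_
      rintro x ⟨⟨hx, hx'⟩, -⟩
      have h3 : φ (q • φ.symm (φ x)) = φ x := h1 (φ x) hx'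
      rw [φ.left_inv hx] at h3
      have h4 := (hH0s.2 q hq (φ x) (hb4 hx')).1
      rw [φ.left_inv hx] at h4
      exact φ.injOn h4 hx h3
    have hH0c : IsClosed (H0 : Set S) := Subgroup.isClosed_of_isOpen H0 hH0o
    have : CompactSpace H0 := isCompact_iff_compactSpace.1 hH0c.isCompact
    have hbt : (⊥ : Subgroup H0) = ⊤ := by
      refine Pool.Agent.Y215.HS.syl H0 _ (by rw [Subgroup.coe_bot]; exact isClosed_singleton) ?_
      intro p hp P hPc hPp k hk
      have : CompactSpace P := isCompact_iff_compactSpace.1 hPc.isCompact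
      have h1 : Tendsto (fun j : ℕ => (⟨k, hk⟩ : P) ^ p ^ j) atTop (𝓝 1) :=
        Pool.Agent.Y340.SP.t_POW p hp P hPp ⟨k, hk⟩
      have hc : Continuous (fun q : P => ((q : H0) : S)) :=
        continuous_subtype_val.comp continuous_subtype_val
      have h2 : Tendsto (fun j : ℕ => (k : S) ^ p ^ j) atTop (𝓝 1) := by
        have h3 := (hc.tendsto 1).comp h1
        simpa [Function.comp_def] using h3
      -- the closure of the powers is finite
      obtain ⟨m, hm, hkm1⟩ : ∃ m : ℕ, 0 < m ∧ (k : S) ^ m = 1 := by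
        obtain ⟨C, hC⟩ : ∃ C : Subgroup S, C = (Subgroup.zpowers (k : S)).topologicalClosure :=
          ⟨_, rfl⟩
        have hkC : (k : S) ∈ C := by
          rw [hC]
          exact Subgroup.le_topologicalClosure _ (Subgroup.mem_zpowers _)
        have hCc : IsClosed (C : Set S) := by
          rw [hC]; exact Subgroup.isClosed_topologicalClosure _
        have : CompactSpace C := isCompact_iff_compactSpace.1 hCc.isCompact
        let kC : C := ⟨k, hkC⟩
        have hgen : (Subgroup.zpowers kC).topologicalClosure = ⊤ := by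
          rw [eq_top_iff]
          intro x _
          show x ∈ closure ((Subgroup.zpowers kC : Subgroup C) : Set C)
          rw [closure_subtype]
          have h1 : (x : S) ∈ closure ((Subgroup.zpowers (k : S) : Subgroup S) : Set S) := by
            rw [← Subgroup.topologicalClosure_coe, ← hC]
            exact x.2
          refine closure_mono ?_ h1
          intro y hy
          obtain ⟨z, rfl⟩ := Subgroup.mem_zpowers_iff.1 hy
          exact ⟨kC ^ z, Subgroup.zpow_mem_zpowers _ _, by simp [kC]⟩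
        have hkt : Tendsto (fun j : ℕ => kC ^ p ^ j) atTop (𝓝 1) := by
          rw [tendsto_subtype_rng]
          simpa [kC] using h2
        obtain ⟨K1, hK1o, l, W, hWo, hWn, hWs, hKW⟩ := some_procyclic (S := C) Ψ hp hgen hkt hr hrb
          (fun c => by
            have hcS : ((c : C) : S) ∈ (Subgroup.zpowers (k : S)).topologicalClosure := by
              rw [← hC]; exact c.2
            obtain ⟨m, hm, h⟩ := hregS p hp (c : S) (tendsto_of_closure h2 hcS)
            exact ⟨m, hm, h⟩)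
        have hbot : K1 = ⊥ := by
          rw [eq_bot_iff]
          intro c hc
          rw [Subgroup.mem_bot]
          exact Subtype.ext (hLES (c : S) l W hWo hWn hWs fun x hx => hKW c hc x hx)
        rw [hbot, Subgroup.coe_bot] at hK1o
        have : DiscreteTopology C := discreteTopology_of_isOpen_singleton_one hK1o
        have : Finite C := finite_of_compact_of_discrete
        refine ⟨orderOf kC, orderOf_pos kC, ?_⟩
        have h5 := pow_orderOf_eq_one kC
        exact congrArg Subtype.val h5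
      rw [Subgroup.mem_bot]
      by_contra hne
      have hfin : IsOfFinOrder (k : S) := isOfFinOrder_iff_pow_eq_one.2 ⟨m, hm, hkm1⟩
      have hne' : (k : S) ≠ 1 := fun h => hne (Subtype.ext h)
      have ho : orderOf (k : S) ≠ 1 := fun h => hne' (orderOf_eq_one_iff.1 h)
      have hr := Nat.minFac_prime ho
      obtain ⟨c, hcd⟩ := Nat.minFac_dvd (orderOf (k : S))
      have hc0 : 0 < c := by
        rcases Nat.eq_zero_or_pos c with h0 | h0
        · rw [h0, mul_zero] at hcd
          exact absurd hcd hfin.orderOf_pos.ne'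
        · exact h0
      have hq1 : (k : S) ^ c = 1 := by
        refine htor _ (Subgroup.pow_mem _ k.2 _) _ hr ?_
        rw [← pow_mul, mul_comm, ← hcd, pow_orderOf_eq_one]
      have hle := Nat.le_of_dvd hc0 (orderOf_dvd_of_pow_eq_one hq1)
      have hlt : c < orderOf (k : S) := by
        calc c = 1 * c := (one_mul _).symm
          _ < (orderOf (k : S)).minFac * c := Nat.mul_lt_mul_of_pos_right hr.one_lt hc0
          _ = orderOf (k : S) := hcd.symm
      omega
    have hbot : H0 = ⊥ := by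
      rw [eq_bot_iff]
      intro s hs
      have h1 : (⟨s, hs⟩ : H0) ∈ (⊥ : Subgroup H0) := by rw [hbt]; exact Subgroup.mem_top _
      rw [Subgroup.mem_bot] at h1 ⊢
      exact congrArg Subtype.val h1
    rw [hbot, Subgroup.coe_bot] at hH0o
    exact discreteTopology_of_isOpen_singleton_one hH0o
  obtain ⟨E, i1, i2, i3, ⟨C⟩⟩ := Pool.Agent.Y328.HS.lga G hN
  let _ := i1
  let _ := i2
  have _ := i3
  exact Pool.Agent.Y286.HS.lgb G E C

end

end Pool.Agent.K1H66.HS
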