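import Pool.Agent.K1H66.HS.Prod

/-!
# States and paths of states (helper66)

The degree of a path of pairs of maps and rays, and its additivity.
-/

set_option autoImplicit false

open MeasureTheory Set Metric Filter Topology
open scoped ENNReal NNReal ContDiff Real

noncomputable section

namespace Pool.Agent.K1H66.HS

open Pool.Agent.Y485.HS Pool.Agent.Y489.SP

variable {n : ℕ}

/-- a point of the ray with the angle `2 π s` -/
def ex (s v : ℝ) : ℂ := Complex.exp (2 * π * Complex.I * (s + v * Complex.I))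

theorem ex_norm (s v : ℝ) : ‖ex s v‖ = Real.exp (-(2 * π * v)) := by
  unfold ex
  rw [Complex.norm_exp]
  congr 1
  simp

theorem ex_cont : Continuous (fun q : ℝ × ℝ => ex q.1 q.2) := by
  unfold ex
  fun_prop

theorem ex_small {s v : ℝ} (hv : v = 1) : ‖ex s v‖ < 5 / 8 := by
  rw [ex_norm, hv]
  have h1 : (6 : ℝ) < 2 * π := by linarith [Real.pi_gt_three]
  have h2 : Real.exp (-(2 * π * 1)) < Real.exp (-1) := Real.exp_lt_exp.2 (by linarith)
  have h3 : Real.exp (-1) < 0.3678794412 := Real.exp_neg_one_lt_d9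
  linarith

theorem ex_large {s v : ℝ} (hv : v = -1) : 11 / 8 < ‖ex s v‖ := by
  rw [ex_norm, hv]
  have h1 : (6 : ℝ) < 2 * π := by linarith [Real.pi_gt_three]
  have h2 := Real.add_one_le_exp (-(2 * π * -1))
  linarith

/-- the data -/
structure Ctx (n : ℕ) where
  F : E n → E n
  y : E n
  ψ : E n → ℂ
  ρ : ℝ
  hF : Continuous F
  hFd : ∀ x, dist (F x) x ≤ 1 / 4
  hy : ‖y‖ < 1
  hρ0 : 0 < ρ
  hρ : ρ ≤ 1 / 8
  hψc : Continuous ψ
  hψ : ∀ x, ‖x‖ ≤ 3 → dist (F x) y ≤ 2 * ρ → |‖ψ x‖ - 1| ≤ 1 / 8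

/-- a state: a pair of maps close to `(F, ψ)` and a ray which is avoided -/
structure St (C : Ctx n) where
  a : E n → E n
  b : E n → ℂ
  s : ℝ
  ha : Continuous a
  hb : Continuous b
  hcl : ∀ x, ‖x‖ ≤ 9 / 4 → dist (a x) (C.F x) ≤ C.ρ
  hcl' : ∀ x, ‖x‖ ≤ 9 / 4 → dist (C.F x) C.y ≤ C.ρ → ‖b x - C.ψ x‖ ≤ 1 / 4
  hadm : ∀ x, ‖x‖ ≤ 9 / 4 → ∀ v : ℝ, |v| ≤ 1 → a x = C.y → b x ≠ ex s v

variable {C : Ctx n}

/-- the map of a path of convex combinations of three states -/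
def pfc (S0 S1 S2 : St C) (l0 l1 l2 : ℝ → ℝ) (z : E n × ℂ) : E n × ℂ :=
  (l0 z.2.re • S0.a z.1 + l1 z.2.re • S1.a z.1 + l2 z.2.re • S2.a z.1 - C.y,
    l0 z.2.re • S0.b z.1 + l1 z.2.re • S1.b z.1 + l2 z.2.re • S2.b z.1 -
      ex (l0 z.2.re * S0.s + l1 z.2.re * S1.s + l2 z.2.re * S2.s) z.2.im)

/-- convex weights -/
def Wt (l0 l1 l2 : ℝ) : Prop := 0 ≤ l0 ∧ 0 ≤ l1 ∧ 0 ≤ l2 ∧ l0 + l1 + l2 = 1

/-- a vertex -/
def Vx (l0 l1 l2 : ℝ) : Prop :=
  (l0 = 1 ∧ l1 = 0 ∧ l2 = 0) ∨ (l0 = 0 ∧ l1 = 1 ∧ l2 = 0) ∨ (l0 = 0 ∧ l1 = 0 ∧ l2 = 1)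

/-- the box -/
def box (n : ℕ) (u0 u1 : ℝ) : Set (E n × ℂ) :=
  {z | ‖z.1‖ < 2 ∧ u0 < z.2.re ∧ z.2.re < u1 ∧ |z.2.im| < 1}

/-- the closed box -/
def cbox (n : ℕ) (u0 u1 : ℝ) : Set (E n × ℂ) :=
  {z | ‖z.1‖ ≤ 2 ∧ u0 ≤ z.2.re ∧ z.2.re ≤ u1 ∧ |z.2.im| ≤ 1}

theorem box_open (u0 u1 : ℝ) : IsOpen (box n u0 u1) := by
  have h1 : IsOpen {z : E n × ℂ | ‖z.1‖ < 2} := isOpen_lt (by fun_prop) continuous_const
  have h2 : IsOpen {z : E n × ℂ | u0 < z.2.re} :=
    isOpen_lt continuous_const (Complex.continuous_re.comp continuous_snd)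
  have h3 : IsOpen {z : E n × ℂ | z.2.re < u1} :=
    isOpen_lt (Complex.continuous_re.comp continuous_snd) continuous_const
  have h4 : IsOpen {z : E n × ℂ | |z.2.im| < 1} :=
    isOpen_lt (Complex.continuous_im.comp continuous_snd).abs continuous_const
  exact h1.inter (h2.inter (h3.inter h4))

theorem closure_box (u0 u1 : ℝ) : closure (box n u0 u1) ⊆ cbox n u0 u1 := by
  have h1 : IsClosed {z : E n × ℂ | ‖z.1‖ ≤ 2} := isClosed_le (by fun_prop) continuous_const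
  have h2 : IsClosed {z : E n × ℂ | u0 ≤ z.2.re} :=
    isClosed_le continuous_const (Complex.continuous_re.comp continuous_snd)
  have h3 : IsClosed {z : E n × ℂ | z.2.re ≤ u1} :=
    isClosed_le (Complex.continuous_re.comp continuous_snd) continuous_const
  have h4 : IsClosed {z : E n × ℂ | |z.2.im| ≤ 1} :=
    isClosed_le (Complex.continuous_im.comp continuous_snd).abs continuous_const
  refine closure_minimal ?_ (h1.inter (h2.inter (h3.inter h4)))
  rintro z ⟨a1, a2, a3, a4⟩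
  exact ⟨a1.le, a2.le, a3.le, a4.le⟩

theorem box_bdd (u0 u1 : ℝ) : Bornology.IsBounded (box n u0 u1) := by
  refine (Metric.isBounded_iff_subset_closedBall 0).2 ⟨max 2 (|u0| + |u1| + 1), ?_⟩
  rintro z ⟨a1, a2, a3, a4⟩
  rw [mem_closedBall, dist_zero_right, Prod.norm_def]
  refine max_le_max a1.le ?_
  have h1 := Complex.norm_le_abs_re_add_abs_im z.2
  have h2 : |z.2.re| ≤ |u0| + |u1| := by
    rw [abs_le]
    constructor
    · linarith [neg_abs_le u0, abs_nonneg u1]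
    · linarith [le_abs_self u1, abs_nonneg u0]
  linarith

theorem frontier_box {u0 u1 : ℝ} {z : E n × ℂ} (hz : z ∈ frontier (box n u0 u1)) :
    z ∈ cbox n u0 u1 ∧ (‖z.1‖ = 2 ∨ |z.2.im| = 1 ∨ z.2.re = u0 ∨ z.2.re = u1) := by
  rw [(box_open u0 u1).frontier_eq] at hz
  obtain ⟨h1, h2⟩ := hz
  have h3 := closure_box u0 u1 h1
  refine ⟨h3, ?_⟩
  obtain ⟨a1, a2, a3, a4⟩ := h3
  by_contra hcon
  push Not at hcon
  obtain ⟨b1, b2, b3, b4⟩ := hcon
  exact h2 ⟨lt_of_le_of_ne a1 b1, lt_of_le_of_ne a2 (Ne.symm b3), lt_of_le_of_ne a3 b4,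
    lt_of_le_of_ne a4 b2⟩

theorem comb_le {W : Type*} [NormedAddCommGroup W] [NormedSpace ℝ W] {l0 l1 l2 r : ℝ}
    (h : Wt l0 l1 l2) {a0 a1 a2 c : W} (h0 : ‖a0 - c‖ ≤ r) (h1 : ‖a1 - c‖ ≤ r)
    (h2 : ‖a2 - c‖ ≤ r) : ‖l0 • a0 + l1 • a1 + l2 • a2 - c‖ ≤ r := by
  obtain ⟨g0, g1, g2, g3⟩ := h
  have e1 : l0 • a0 + l1 • a1 + l2 • a2 - c =
      l0 • (a0 - c) + l1 • (a1 - c) + l2 • (a2 - c) := by
    have : c = (l0 + l1 + l2) • c := by rw [g3, one_smul]
    nth_rewrite 1 [this]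
    module
  rw [e1]
  calc ‖l0 • (a0 - c) + l1 • (a1 - c) + l2 • (a2 - c)‖
      ≤ ‖l0 • (a0 - c)‖ + ‖l1 • (a1 - c)‖ + ‖l2 • (a2 - c)‖ := norm_add₃_le
    _ = l0 * ‖a0 - c‖ + l1 * ‖a1 - c‖ + l2 * ‖a2 - c‖ := by
        rw [norm_smul, norm_smul, norm_smul, Real.norm_of_nonneg g0, Real.norm_of_nonneg g1,
          Real.norm_of_nonneg g2]
    _ ≤ l0 * r + l1 * r + l2 * r := by gcongr
    _ = r := by rw [← add_mul, ← add_mul, g3, one_mul]

/-- where the first component vanishes -/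
theorem zero_near {S0 S1 S2 : St C} {l0 l1 l2 : ℝ → ℝ} {z : E n × ℂ}
    (hw : Wt (l0 z.2.re) (l1 z.2.re) (l2 z.2.re)) (hz : ‖z.1‖ ≤ 9 / 4)
    (h : (pfc S0 S1 S2 l0 l1 l2 z).1 = 0) :
    dist (C.F z.1) C.y ≤ C.ρ ∧ ‖z.1‖ < 11 / 8 ∧
    ‖l0 z.2.re • S0.b z.1 + l1 z.2.re • S1.b z.1 + l2 z.2.re • S2.b z.1 - C.ψ z.1‖ ≤ 1 / 4 ∧
    5 / 8 ≤ ‖l0 z.2.re • S0.b z.1 + l1 z.2.re • S1.b z.1 + l2 z.2.re • S2.b z.1‖ ∧
    ‖l0 z.2.re • S0.b z.1 + l1 z.2.re • S1.b z.1 + l2 z.2.re • S2.b z.1‖ ≤ 11 / 8 := by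
  have h1 : l0 z.2.re • S0.a z.1 + l1 z.2.re • S1.a z.1 + l2 z.2.re • S2.a z.1 = C.y :=
    sub_eq_zero.1 h
  have k0 : ‖S0.a z.1 - C.F z.1‖ ≤ C.ρ := by rw [← dist_eq_norm]; exact S0.hcl z.1 hz
  have k1 : ‖S1.a z.1 - C.F z.1‖ ≤ C.ρ := by rw [← dist_eq_norm]; exact S1.hcl z.1 hz
  have k2 : ‖S2.a z.1 - C.F z.1‖ ≤ C.ρ := by rw [← dist_eq_norm]; exact S2.hcl z.1 hz
  have h2 := comb_le hw k0 k1 k2
  rw [h1] at h2
  have h3 : dist (C.F z.1) C.y ≤ C.ρ := by rwa [dist_comm, dist_eq_norm]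
  have h4 := comb_le hw (S0.hcl' z.1 hz h3) (S1.hcl' z.1 hz h3) (S2.hcl' z.1 hz h3)
  have h5 := C.hψ z.1 (by linarith) (by linarith [C.hρ0])
  rw [abs_le] at h5
  refine ⟨h3, ?_, h4, ?_, ?_⟩
  · have h6 := C.hFd z.1
    have h7 : ‖z.1‖ ≤ ‖C.y‖ + dist z.1 C.y := by
      rw [dist_eq_norm]
      have := norm_add_le C.y (z.1 - C.y)
      rwa [add_sub_cancel] at this
    have h8 := dist_triangle z.1 (C.F z.1) C.y
    rw [dist_comm z.1 (C.F z.1)] at h8
    linarith [C.hy, C.hρ]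
  · have h6 := norm_sub_norm_le (C.ψ z.1)
      (l0 z.2.re • S0.b z.1 + l1 z.2.re • S1.b z.1 + l2 z.2.re • S2.b z.1)
    rw [← norm_neg, neg_sub] at h4
    linarith [h5.1]
  · have h6 := norm_sub_norm_le
      (l0 z.2.re • S0.b z.1 + l1 z.2.re • S1.b z.1 + l2 z.2.re • S2.b z.1) (C.ψ z.1)
    linarith [h5.2]

theorem ne_edge {S0 S1 S2 : St C} {l0 l1 l2 : ℝ → ℝ} {z : E n × ℂ}
    (hw : Wt (l0 z.2.re) (l1 z.2.re) (l2 z.2.re)) (hz : ‖z.1‖ ≤ 9 / 4)
    (h : ‖z.1‖ = 2 ∨ |z.2.im| = 1) : pfc S0 S1 S2 l0 l1 l2 z ≠ 0 := by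
  intro h0
  have h1 : (pfc S0 S1 S2 l0 l1 l2 z).1 = 0 := by rw [h0]; rfl
  have h2 : (pfc S0 S1 S2 l0 l1 l2 z).2 = 0 := by rw [h0]; rfl
  obtain ⟨g1, g2, g3, g4, g5⟩ := zero_near hw hz h1
  have h3 := sub_eq_zero.1 h2
  rw [h3] at g4 g5
  rcases h with h | h
  · linarith
  · rcases (abs_eq zero_le_one).1 h with h | h
    · have := ex_small (s := l0 z.2.re * S0.s + l1 z.2.re * S1.s + l2 z.2.re * S2.s) h
      linarith
    · have := ex_large (s := l0 z.2.re * S0.s + l1 z.2.re * S1.s + l2 z.2.re * S2.s) h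
      linarith

theorem ne_vertex {S0 S1 S2 : St C} {l0 l1 l2 : ℝ → ℝ} {z : E n × ℂ}
    (hv : Vx (l0 z.2.re) (l1 z.2.re) (l2 z.2.re)) (hz : ‖z.1‖ ≤ 9 / 4) (hz2 : |z.2.im| ≤ 1) :
    pfc S0 S1 S2 l0 l1 l2 z ≠ 0 := by
  intro h0
  have h1 : (pfc S0 S1 S2 l0 l1 l2 z).1 = 0 := by rw [h0]; rfl
  have h2 : (pfc S0 S1 S2 l0 l1 l2 z).2 = 0 := by rw [h0]; rfl
  unfold pfc at h1 h2
  simp only at h1 h2
  rw [sub_eq_zero] at h1 h2
  rcases hv with ⟨e0, e1, e2⟩ | ⟨e0, e1, e2⟩ | ⟨e0, e1, e2⟩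
  · rw [e0, e1, e2] at h1 h2
    simp only [one_smul, zero_smul, add_zero, zero_add, one_mul, zero_mul] at h1 h2
    exact S0.hadm z.1 hz z.2.im hz2 h1 h2
  · rw [e0, e1, e2] at h1 h2
    simp only [one_smul, zero_smul, add_zero, zero_add, one_mul, zero_mul] at h1 h2
    exact S1.hadm z.1 hz z.2.im hz2 h1 h2
  · rw [e0, e1, e2] at h1 h2
    simp only [one_smul, zero_smul, add_zero, zero_add, one_mul, zero_mul] at h1 h2
    exact S2.hadm z.1 hz z.2.im hz2 h1 h2

theorem pfc_cont (S0 S1 S2 : St C) {l0 l1 l2 : ℝ → ℝ} (h0 : Continuous l0) (h1 : Continuous l1)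
    (h2 : Continuous l2) : Continuous (pfc S0 S1 S2 l0 l1 l2) := by
  have hre : Continuous (fun z : E n × ℂ => z.2.re) := Complex.continuous_re.comp continuous_snd
  have him : Continuous (fun z : E n × ℂ => z.2.im) := Complex.continuous_im.comp continuous_snd
  have g0 : Continuous (fun z : E n × ℂ => l0 z.2.re) := h0.comp hre
  have g1 : Continuous (fun z : E n × ℂ => l1 z.2.re) := h1.comp hre
  have g2 : Continuous (fun z : E n × ℂ => l2 z.2.re) := h2.comp hre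
  have a0 : Continuous (fun z : E n × ℂ => S0.a z.1) := S0.ha.comp continuous_fst
  have a1 : Continuous (fun z : E n × ℂ => S1.a z.1) := S1.ha.comp continuous_fst
  have a2 : Continuous (fun z : E n × ℂ => S2.a z.1) := S2.ha.comp continuous_fst
  have b0 : Continuous (fun z : E n × ℂ => S0.b z.1) := S0.hb.comp continuous_fst
  have b1 : Continuous (fun z : E n × ℂ => S1.b z.1) := S1.hb.comp continuous_fst
  have b2 : Continuous (fun z : E n × ℂ => S2.b z.1) := S2.hb.comp continuous_fst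
  refine Continuous.prodMk ?_ ?_
  · exact (((g0.smul a0).add (g1.smul a1)).add (g2.smul a2)).sub continuous_const
  · refine (((g0.smul b0).add (g1.smul b1)).add (g2.smul b2)).sub ?_
    exact ex_cont.comp ((((g0.mul continuous_const).add (g1.mul continuous_const)).add
      (g2.mul continuous_const)).prodMk him)

theorem wt_comb {l0 l1 l2 k0 k1 k2 t : ℝ} (h : Wt l0 l1 l2) (k : Wt k0 k1 k2)
    (ht : t ∈ Icc (0 : ℝ) 1) :
    Wt ((1 - t) * l0 + t * k0) ((1 - t) * l1 + t * k1) ((1 - t) * l2 + t * k2) := by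
  obtain ⟨a0, a1, a2, a3⟩ := h
  obtain ⟨b0, b1, b2, b3⟩ := k
  obtain ⟨t0, t1⟩ := ht
  have t2 : 0 ≤ 1 - t := by linarith
  refine ⟨by positivity, by positivity, by positivity, ?_⟩
  have : (1 - t) * l0 + t * k0 + ((1 - t) * l1 + t * k1) + ((1 - t) * l2 + t * k2) =
      (1 - t) * (l0 + l1 + l2) + t * (k0 + k1 + k2) := by ring
  rw [this, a3, b3]
  ring

/-- homotopy of paths -/
theorem path_hom (S0 S1 S2 : St C) {l0 l1 l2 k0 k1 k2 : ℝ → ℝ} (hl0 : Continuous l0)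
    (hl1 : Continuous l1) (hl2 : Continuous l2) (hk0 : Continuous k0) (hk1 : Continuous k1)
    (hk2 : Continuous k2) (hl : ∀ u, Wt (l0 u) (l1 u) (l2 u)) (hk : ∀ u, Wt (k0 u) (k1 u) (k2 u))
    {T0 T1 : ℝ} (hv : ∀ u, u = T0 ∨ u = T1 → Vx (l0 u) (l1 u) (l2 u))
    (he : ∀ u, u = T0 ∨ u = T1 → l0 u = k0 u ∧ l1 u = k1 u ∧ l2 u = k2 u) {d : ℤ}
    (h : DV (pfc S0 S1 S2 l0 l1 l2) (box n T0 T1) d) :
    DV (pfc S0 S1 S2 k0 k1 k2) (box n T0 T1) d := by
  have key := DV.homotopy (H := fun t => pfc S0 S1 S2 (fun u => (1 - t) * l0 u + t * k0 u)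
    (fun u => (1 - t) * l1 u + t * k1 u) (fun u => (1 - t) * l2 u + t * k2 u))
    ?_ (box_open T0 T1) (box_bdd T0 T1) ?_ (d := d) ?_
  · simpa using key
  · have ht : Continuous (fun q : ℝ × (E n × ℂ) => q.1) := continuous_fst
    have hre : Continuous (fun q : ℝ × (E n × ℂ) => q.2.2.re) :=
      Complex.continuous_re.comp (continuous_snd.comp continuous_snd)
    have him : Continuous (fun q : ℝ × (E n × ℂ) => q.2.2.im) :=
      Complex.continuous_im.comp (continuous_snd.comp continuous_snd)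
    have hx : Continuous (fun q : ℝ × (E n × ℂ) => q.2.1) := continuous_fst.comp continuous_snd
    have g0 : Continuous (fun q : ℝ × (E n × ℂ) => (1 - q.1) * l0 q.2.2.re + q.1 * k0 q.2.2.re) :=
      ((continuous_const.sub ht).mul (hl0.comp hre)).add (ht.mul (hk0.comp hre))
    have g1 : Continuous (fun q : ℝ × (E n × ℂ) => (1 - q.1) * l1 q.2.2.re + q.1 * k1 q.2.2.re) :=
      ((continuous_const.sub ht).mul (hl1.comp hre)).add (ht.mul (hk1.comp hre))
    have g2 : Continuous (fun q : ℝ × (E n × ℂ) => (1 - q.1) * l2 q.2.2.re + q.1 * k2 q.2.2.re) :=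
      ((continuous_const.sub ht).mul (hl2.comp hre)).add (ht.mul (hk2.comp hre))
    have a0 := S0.ha.comp hx
    have a1 := S1.ha.comp hx
    have a2 := S2.ha.comp hx
    have b0 := S0.hb.comp hx
    have b1 := S1.hb.comp hx
    have b2 := S2.hb.comp hx
    refine Continuous.prodMk ?_ ?_
    · exact (((g0.smul a0).add (g1.smul a1)).add (g2.smul a2)).sub continuous_const
    · refine (((g0.smul b0).add (g1.smul b1)).add (g2.smul b2)).sub ?_
      exact ex_cont.comp ((((g0.mul continuous_const).add (g1.mul continuous_const)).add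
        (g2.mul continuous_const)).prodMk him)
  · intro t ht z hz
    obtain ⟨⟨c1, c2, c3, c4⟩, hz'⟩ := frontier_box hz
    have hw := wt_comb (hl z.2.re) (hk z.2.re) ht
    rcases hz' with h1 | h1 | h1 | h1
    · exact ne_edge hw (by linarith) (Or.inl h1)
    · exact ne_edge hw (by linarith) (Or.inr h1)
    · refine ne_vertex ?_ (by linarith) c4
      obtain ⟨e0, e1, e2⟩ := he z.2.re (Or.inl h1)
      have hv' := hv z.2.re (Or.inl h1)
      show Vx ((1 - t) * l0 z.2.re + t * k0 z.2.re) ((1 - t) * l1 z.2.re + t * k1 z.2.re)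
        ((1 - t) * l2 z.2.re + t * k2 z.2.re)
      rw [← e0, ← e1, ← e2]
      have e3 : ∀ a : ℝ, (1 - t) * a + t * a = a := fun a => by ring
      rw [e3, e3, e3]
      exact hv'
    · refine ne_vertex ?_ (by linarith) c4
      obtain ⟨e0, e1, e2⟩ := he z.2.re (Or.inr h1)
      have hv' := hv z.2.re (Or.inr h1)
      show Vx ((1 - t) * l0 z.2.re + t * k0 z.2.re) ((1 - t) * l1 z.2.re + t * k1 z.2.re)
        ((1 - t) * l2 z.2.re + t * k2 z.2.re)
      rw [← e0, ← e1, ← e2]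
      have e3 : ∀ a : ℝ, (1 - t) * a + t * a = a := fun a => by ring
      rw [e3, e3, e3]
      exact hv'
  · simpa using h

/-- the clamp -/
def cl (u : ℝ) : ℝ := max 0 (min u 1)

theorem cl_cont : Continuous cl := by unfold cl; fun_prop
theorem cl_nonneg (u : ℝ) : 0 ≤ cl u := le_max_left _ _
theorem cl_le (u : ℝ) : cl u ≤ 1 := max_le zero_le_one (min_le_right _ _)
theorem cl_zero {u : ℝ} (h : u ≤ 0) : cl u = 0 := max_eq_left ((min_le_left _ _).trans h)
theorem cl_one {u : ℝ} (h : 1 ≤ u) : cl u = 1 := by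
  unfold cl
  rw [min_eq_right h]
  exact max_eq_right zero_le_one
theorem cl_mono {u v : ℝ} (h : u ≤ v) : cl u ≤ cl v :=
  max_le_max le_rfl (min_le_min h le_rfl)
theorem cl_id {u : ℝ} (h0 : 0 ≤ u) (h1 : u ≤ 1) : cl u = u := by
  unfold cl
  rw [min_eq_left h1, max_eq_right h0]

theorem cl_cont' : Continuous (fun u => 1 - cl u) := continuous_const.sub cl_cont

/-- the degree of the segment between two states -/
def Rel (S S' : St C) (d : ℤ) : Prop :=
  DV (pfc S S' S' (fun u => 1 - cl u) cl (fun _ => 0)) (box n 0 1) d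

theorem wt_seg (u : ℝ) : Wt (1 - cl u) (cl u) 0 :=
  ⟨by linarith [cl_le u], cl_nonneg u, le_rfl, by ring⟩

theorem Rel.exists (S S' : St C) : ∃ d : ℤ, Rel S S' d := by
  refine DV.exists (pfc_cont S S' S' cl_cont' cl_cont continuous_const)
    (box_open 0 1) (box_bdd 0 1) ?_
  intro z hz
  obtain ⟨⟨c1, c2, c3, c4⟩, hz'⟩ := frontier_box hz
  rcases hz' with h1 | h1 | h1 | h1
  · exact ne_edge (wt_seg _) (by linarith) (Or.inl h1)
  · exact ne_edge (wt_seg _) (by linarith) (Or.inr h1)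
  · refine ne_vertex (Or.inl ?_) (by linarith) c4
    have := cl_zero h1.le
    exact ⟨by rw [this]; ring, this, rfl⟩
  · refine ne_vertex (Or.inr (Or.inl ?_)) (by linarith) c4
    have := cl_one h1.ge
    exact ⟨by rw [this]; ring, this, rfl⟩

theorem Rel.unique {S S' : St C} {d d' : ℤ} (h : Rel S S' d) (h' : Rel S S' d') : d = d' :=
  DV.unique (pfc_cont S S' S' cl_cont' cl_cont continuous_const)
    (box_bdd 0 1) h h'

theorem cbox_edge {u0 u1 : ℝ} {z : E n × ℂ} (hz : z ∈ cbox n u0 u1) (h : z ∉ box n u0 u1) :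
    ‖z.1‖ = 2 ∨ |z.2.im| = 1 ∨ z.2.re = u0 ∨ z.2.re = u1 := by
  obtain ⟨a1, a2, a3, a4⟩ := hz
  by_contra hcon
  push Not at hcon
  obtain ⟨b1, b2, b3, b4⟩ := hcon
  exact h ⟨lt_of_le_of_ne a1 b1, lt_of_le_of_ne a2 (Ne.symm b3), lt_of_le_of_ne a3 b4,
    lt_of_le_of_ne a4 b2⟩

/-- additivity -/
theorem Rel.trans {S0 S1 S2 : St C} {d1 d2 : ℤ} (h1 : Rel S0 S1 d1) (h2 : Rel S1 S2 d2) :
    Rel S0 S2 (d1 + d2) := by
  have hc1 : Continuous cl := cl_cont
  have hc2 : Continuous (fun u => cl (u - 1)) := cl_cont.comp (by fun_prop)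
  have hn1 : Continuous (fun u => 1 - cl u) := continuous_const.sub hc1
  have hn2 : Continuous (fun u => 1 - cl (u - 1)) := continuous_const.sub hc2
  have hc12 : Continuous (fun u => cl u - cl (u - 1)) := hc1.sub hc2
  have hz : Continuous (fun _ : ℝ => (0 : ℝ)) := continuous_const
  -- the paths
  let g0 := pfc S0 S1 S2 (fun u => 1 - cl u) (fun u => cl u - cl (u - 1)) (fun u => cl (u - 1))
  let g1 := pfc S0 S1 S2 (fun u => 1 - cl u) (fun _ => 0) cl
  let g2 := pfc S0 S1 S2 (fun _ => 0) (fun u => 1 - cl (u - 1)) (fun u => cl (u - 1))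
  let g3 := pfc S0 S1 S2 (fun _ => 0) (fun u => 1 - cl u) cl
  have hg0 : Continuous g0 := pfc_cont S0 S1 S2 hn1 hc12 hc2
  have hg1 : Continuous g1 := pfc_cont S0 S1 S2 hn1 hz hc1
  have hg2 : Continuous g2 := pfc_cont S0 S1 S2 hz hn2 hc2
  have hg3 : Continuous g3 := pfc_cont S0 S1 S2 hz hn1 hc1
  have w0 : ∀ u, Wt (1 - cl u) (cl u - cl (u - 1)) (cl (u - 1)) := fun u =>
    ⟨by linarith [cl_le u], by linarith [cl_mono (show u - 1 ≤ u by linarith)], cl_nonneg _,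
      by ring⟩
  have w1 : ∀ u, Wt (1 - cl u) 0 (cl u) := fun u =>
    ⟨by linarith [cl_le u], le_rfl, cl_nonneg _, by ring⟩
  have w2 : ∀ u, Wt 0 (1 - cl (u - 1)) (cl (u - 1)) := fun u =>
    ⟨le_rfl, by linarith [cl_le (u - 1)], cl_nonneg _, by ring⟩
  have w3 : ∀ u, Wt 0 (1 - cl u) (cl u) := fun u =>
    ⟨le_rfl, by linarith [cl_le u], cl_nonneg _, by ring⟩
  -- (i)
  have s1 : DV g0 (box n 0 1) d1 := by
    refine DV.congr (pfc_cont S0 S1 S1 hn1 hc1 hz) hg0 (box_open 0 1) (box_bdd 0 1) ?_ ?_ h1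
    · intro z hz'
      obtain ⟨⟨c1, c2, c3, c4⟩, hz''⟩ := frontier_box hz'
      rcases hz'' with e1 | e1 | e1 | e1
      · exact ne_edge (wt_seg _) (by linarith) (Or.inl e1)
      · exact ne_edge (wt_seg _) (by linarith) (Or.inr e1)
      · refine ne_vertex (Or.inl ?_) (by linarith) c4
        have := cl_zero e1.le
        exact ⟨by rw [this]; ring, this, rfl⟩
      · refine ne_vertex (Or.inr (Or.inl ?_)) (by linarith) c4
        have := cl_one e1.ge
        exact ⟨by rw [this]; ring, this, rfl⟩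
    · intro z hz'
      obtain ⟨⟨c1, c2, c3, c4⟩, -⟩ := frontier_box hz'
      have e1 : cl (z.2.re - 1) = 0 := cl_zero (by linarith)
      show pfc S0 S1 S2 (fun u => 1 - cl u) (fun u => cl u - cl (u - 1)) (fun u => cl (u - 1)) z =
        pfc S0 S1 S1 (fun u => 1 - cl u) cl (fun _ => 0) z
      unfold pfc
      simp only [e1, sub_zero, zero_smul, zero_mul, add_zero]
  -- (ii)
  have s2 : DV g3 (box n 0 1) d2 := by
    have e : g3 = pfc S1 S2 S2 (fun u => 1 - cl u) cl (fun _ => 0) := by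
      funext z
      show pfc S0 S1 S2 (fun _ => 0) (fun u => 1 - cl u) cl z = _
      unfold pfc
      simp only [zero_smul, zero_mul, add_zero, zero_add]
    rw [e]
    exact h2
  have s3 : DV g3 (box n 0 2) d2 := by
    refine DV.excise hg3 (box_bdd 0 2) (box_open 0 1) (box_open 0 2) ?_ ?_ s2
    · rintro z ⟨a1, a2, a3, a4⟩
      exact ⟨a1, a2, by linarith, a4⟩
    · intro z hz' hz''
      obtain ⟨a1, a2, a3, a4⟩ := closure_box 0 2 hz'
      by_cases hu : z.2.re < 1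
      · have h3 : z ∈ cbox n 0 1 := ⟨a1, a2, hu.le, a4⟩
        rcases cbox_edge h3 hz'' with e1 | e1 | e1 | e1
        · exact ne_edge (w3 _) (by linarith) (Or.inl e1)
        · exact ne_edge (w3 _) (by linarith) (Or.inr e1)
        · refine ne_vertex (Or.inr (Or.inl ?_)) (by linarith) a4
          have := cl_zero e1.le
          exact ⟨rfl, by rw [this]; ring, this⟩
        · linarith
      · push Not at hu
        refine ne_vertex (Or.inr (Or.inr ?_)) (by linarith) a4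
        have := cl_one hu
        exact ⟨rfl, by rw [this]; ring, this⟩
  have s4 : DV g2 (box n 0 2) d2 := by
    refine path_hom S0 S1 S2 hz hn1 hc1 hz hn2 hc2 w3 w2 ?_ ?_ s3
    · rintro u (rfl | rfl)
      · right; left
        have := cl_zero (le_refl 0)
        exact ⟨rfl, by rw [this]; ring, this⟩
      · right; right
        have := cl_one (one_le_two (α := ℝ))
        exact ⟨rfl, by rw [this]; ring, this⟩
    · rintro u (rfl | rfl)
      · have e1 := cl_zero (le_refl 0)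
        have e2 : cl (0 - 1) = 0 := cl_zero (by norm_num)
        exact ⟨rfl, by rw [e1, e2], by rw [e1, e2]⟩
      · have e1 := cl_one (one_le_two (α := ℝ))
        have e2 : cl (2 - 1) = 1 := cl_one (by norm_num)
        exact ⟨rfl, by rw [e1, e2], by rw [e1, e2]⟩
  have s5 : DV g2 (box n 1 2) d2 := by
    refine DV.excise' hg2 (box_bdd 0 2) (box_open 1 2) (box_open 0 2) ?_ ?_ s4
    · rintro z ⟨a1, a2, a3, a4⟩
      exact ⟨a1, by linarith, a3, a4⟩
    · intro z hz' hz''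
      obtain ⟨a1, a2, a3, a4⟩ := closure_box 0 2 hz'
      by_cases hu : 1 < z.2.re
      · have h3 : z ∈ cbox n 1 2 := ⟨a1, hu.le, a3, a4⟩
        rcases cbox_edge h3 hz'' with e1 | e1 | e1 | e1
        · exact ne_edge (w2 _) (by linarith) (Or.inl e1)
        · exact ne_edge (w2 _) (by linarith) (Or.inr e1)
        · linarith
        · refine ne_vertex (Or.inr (Or.inr ?_)) (by linarith) a4
          have := cl_one (show 1 ≤ z.2.re - 1 by linarith)
          exact ⟨rfl, by rw [this]; ring, this⟩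
      · push Not at hu
        refine ne_vertex (Or.inr (Or.inl ?_)) (by linarith) a4
        have := cl_zero (show z.2.re - 1 ≤ 0 by linarith)
        exact ⟨rfl, by rw [this]; ring, this⟩
  have s6 : DV g0 (box n 1 2) d2 := by
    refine DV.congr hg2 hg0 (box_open 1 2) (box_bdd 1 2) ?_ ?_ s5
    · intro z hz'
      obtain ⟨⟨c1, c2, c3, c4⟩, hz''⟩ := frontier_box hz'
      rcases hz'' with e1 | e1 | e1 | e1
      · exact ne_edge (w2 _) (by linarith) (Or.inl e1)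
      · exact ne_edge (w2 _) (by linarith) (Or.inr e1)
      · refine ne_vertex (Or.inr (Or.inl ?_)) (by linarith) c4
        have := cl_zero (show z.2.re - 1 ≤ 0 by linarith)
        exact ⟨rfl, by rw [this]; ring, this⟩
      · refine ne_vertex (Or.inr (Or.inr ?_)) (by linarith) c4
        have := cl_one (show 1 ≤ z.2.re - 1 by linarith)
        exact ⟨rfl, by rw [this]; ring, this⟩
    · intro z hz'
      obtain ⟨⟨c1, c2, c3, c4⟩, -⟩ := frontier_box hz'
      have e1 : cl z.2.re = 1 := cl_one c2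
      show pfc S0 S1 S2 (fun u => 1 - cl u) (fun u => cl u - cl (u - 1)) (fun u => cl (u - 1)) z =
        pfc S0 S1 S2 (fun _ => 0) (fun u => 1 - cl (u - 1)) (fun u => cl (u - 1)) z
      unfold pfc
      simp only [e1, sub_self]
  -- (iii)
  have s7 : DV g0 (box n 0 2) (d1 + d2) := by
    refine DV.add hg0 (box_bdd 0 2) (box_open 0 1) (box_open 1 2) (box_open 0 2) ?_ ?_ ?_ ?_ s1 s6
    · rintro z ⟨a1, a2, a3, a4⟩
      exact ⟨a1, a2, by linarith, a4⟩
    · rintro z ⟨a1, a2, a3, a4⟩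
      exact ⟨a1, by linarith, a3, a4⟩
    · rw [Set.disjoint_left]
      rintro z ⟨a1, a2, a3, a4⟩ ⟨b1, b2, b3, b4⟩
      linarith
    · intro z hz' hz1 hz2
      obtain ⟨a1, a2, a3, a4⟩ := closure_box 0 2 hz'
      by_cases hu : z.2.re ≤ 1
      · have h3 : z ∈ cbox n 0 1 := ⟨a1, a2, hu, a4⟩
        rcases cbox_edge h3 hz1 with e1 | e1 | e1 | e1
        · exact ne_edge (w0 _) (by linarith) (Or.inl e1)
        · exact ne_edge (w0 _) (by linarith) (Or.inr e1)
        · refine ne_vertex (Or.inl ?_) (by linarith) a4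
          have e2 := cl_zero e1.le
          have e3 := cl_zero (show z.2.re - 1 ≤ 0 by linarith)
          exact ⟨by rw [e2]; ring, by rw [e2, e3]; ring, e3⟩
        · refine ne_vertex (Or.inr (Or.inl ?_)) (by linarith) a4
          have e2 := cl_one e1.ge
          have e3 := cl_zero (show z.2.re - 1 ≤ 0 by linarith)
          exact ⟨by rw [e2]; ring, by rw [e2, e3]; ring, e3⟩
      · push Not at hu
        have h3 : z ∈ cbox n 1 2 := ⟨a1, hu.le, a3, a4⟩
        rcases cbox_edge h3 hz2 with e1 | e1 | e1 | e1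
        · exact ne_edge (w0 _) (by linarith) (Or.inl e1)
        · exact ne_edge (w0 _) (by linarith) (Or.inr e1)
        · linarith
        · refine ne_vertex (Or.inr (Or.inr ?_)) (by linarith) a4
          have e2 := cl_one hu.le
          have e3 := cl_one (show 1 ≤ z.2.re - 1 by linarith)
          exact ⟨by rw [e2]; ring, by rw [e2, e3]; ring, e3⟩
  -- (iv)
  have s8 : DV g1 (box n 0 2) (d1 + d2) := by
    refine path_hom S0 S1 S2 hn1 hc12 hc2 hn1 hz hc1 w0 w1 ?_ ?_ s7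
    · rintro u (rfl | rfl)
      · left
        have e1 := cl_zero (le_refl 0)
        have e2 : cl (0 - 1) = 0 := cl_zero (by norm_num)
        exact ⟨by rw [e1]; ring, by rw [e1, e2]; ring, e2⟩
      · right; right
        have e1 := cl_one (one_le_two (α := ℝ))
        have e2 : cl (2 - 1) = 1 := cl_one (by norm_num)
        exact ⟨by rw [e1]; ring, by rw [e1, e2]; ring, e2⟩
    · rintro u (rfl | rfl)
      · have e1 := cl_zero (le_refl 0)
        have e2 : cl (0 - 1) = 0 := cl_zero (by norm_num)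
        exact ⟨rfl, by rw [e1, e2]; ring, by rw [e1, e2]⟩
      · have e1 := cl_one (one_le_two (α := ℝ))
        have e2 : cl (2 - 1) = 1 := cl_one (by norm_num)
        exact ⟨rfl, by rw [e1, e2]; ring, by rw [e1, e2]⟩
  have s9 : DV g1 (box n 0 1) (d1 + d2) := by
    refine DV.excise' hg1 (box_bdd 0 2) (box_open 0 1) (box_open 0 2) ?_ ?_ s8
    · rintro z ⟨a1, a2, a3, a4⟩
      exact ⟨a1, a2, by linarith, a4⟩
    · intro z hz' hz''
      obtain ⟨a1, a2, a3, a4⟩ := closure_box 0 2 hz'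
      by_cases hu : z.2.re < 1
      · have h3 : z ∈ cbox n 0 1 := ⟨a1, a2, hu.le, a4⟩
        rcases cbox_edge h3 hz'' with e1 | e1 | e1 | e1
        · exact ne_edge (w1 _) (by linarith) (Or.inl e1)
        · exact ne_edge (w1 _) (by linarith) (Or.inr e1)
        · refine ne_vertex (Or.inl ?_) (by linarith) a4
          have := cl_zero e1.le
          exact ⟨by rw [this]; ring, rfl, this⟩
        · linarith
      · push Not at hu
        refine ne_vertex (Or.inr (Or.inr ?_)) (by linarith) a4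
        have := cl_one hu
        exact ⟨by rw [this]; ring, rfl, this⟩
  have e : g1 = pfc S0 S2 S2 (fun u => 1 - cl u) cl (fun _ => 0) := by
    funext z
    show pfc S0 S1 S2 (fun u => 1 - cl u) (fun _ => 0) cl z = _
    unfold pfc
    simp only [zero_smul, zero_mul, add_zero]
  unfold Rel
  rw [← e]
  exact s9

/-- a segment without zeros -/
theorem Rel.zero {S S' : St C}
    (h : ∀ x, ‖x‖ ≤ 2 → ∀ u ∈ Icc (0 : ℝ) 1, ∀ v : ℝ, |v| ≤ 1 →
      (1 - u) • S.a x + u • S'.a x = C.y →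
      (1 - u) • S.b x + u • S'.b x ≠ ex ((1 - u) * S.s + u * S'.s) v) : Rel S S' 0 := by
  refine DV.zero (pfc_cont S S' S' cl_cont' cl_cont continuous_const)
    (box_open 0 1) (box_bdd 0 1) ?_
  intro z hz h0
  obtain ⟨c1, c2, c3, c4⟩ := closure_box 0 1 hz
  have h1 : (pfc S S' S' (fun u => 1 - cl u) cl (fun _ => 0) z).1 = 0 := by rw [h0]; rfl
  have h2 : (pfc S S' S' (fun u => 1 - cl u) cl (fun _ => 0) z).2 = 0 := by rw [h0]; rfl
  unfold pfc at h1 h2
  simp only [cl_id c2 c3, zero_smul, zero_mul, add_zero] at h1 h2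
  exact h z.1 c1 z.2.re ⟨c2, c3⟩ z.2.im c4 (sub_eq_zero.1 h1) (sub_eq_zero.1 h2)

theorem Rel.refl (S : St C) : Rel S S 0 := by
  refine Rel.zero ?_
  intro x hx u _ v hv h1 h2
  rw [← add_smul, sub_add_cancel, one_smul] at h1 h2
  have e : (1 - u) * S.s + u * S.s = S.s := by ring
  rw [e] at h2
  exact S.hadm x (by linarith) v hv h1 h2

end Pool.Agent.K1H66.HS
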